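import Pool.Agent.MP_8a92de_lc.E43.Stmts

section Row_todeg
namespace Pool.Agent.MP_8a92de_lc.E43

namespace Todeg

theorem bd_cons {a : Node ℝ} {l : List (Node ℝ)} (h : Bd l (2 ^ l.length))
    (h1 : a.num ≤ 2 ^ l.length * 2) (h2 : a.den ≤ 2 ^ l.length * 2) :
    Bd (a :: l) (2 ^ (a :: l).length) := by
  intro b hb
  rw [List.length_cons, pow_succ]
  rcases List.mem_cons.1 hb with rfl | hb
  · exact ⟨h1, h2⟩
  · have := h b hb
    omega

theorem built {t : ℝ → Prop} {S : Set ℝ} {l : List ((ℕ → ℝ) → ℝ)} (h : Gates t S l) :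
    ∃ l' : List (Node ℝ), Built t S l' ∧ l'.map Node.val = l ∧ Bd l' (2 ^ l'.length) := by
  induction h with
  | nil => exact ⟨[], .nil, rfl, fun _ h => by simp at h⟩
  | const c hc _ ih =>
    obtain ⟨l', h1, rfl, h3⟩ := ih
    exact ⟨_, .const c hc h1, rfl, bd_cons h3 (Nat.zero_le _) (Nat.zero_le _)⟩
  | var i _ ih =>
    obtain ⟨l', h1, rfl, h3⟩ := ih
    refine ⟨_, .var i h1, rfl, bd_cons h3 ?_ (Nat.zero_le _)⟩
    have := Nat.one_le_two_pow (n := l'.length)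
    show 1 ≤ _
    omega
  | add _ ha hb ih =>
    obtain ⟨l', h1, rfl, h3⟩ := ih
    obtain ⟨a, ma, rfl⟩ := List.mem_map.1 ha
    obtain ⟨b, mb, rfl⟩ := List.mem_map.1 hb
    have := h3 a ma
    have := h3 b mb
    refine ⟨_, .add h1 ma mb, rfl, bd_cons h3 ?_ ?_⟩ <;> dsimp only <;> omega
  | mul _ ha hb ih =>
    obtain ⟨l', h1, rfl, h3⟩ := ih
    obtain ⟨a, ma, rfl⟩ := List.mem_map.1 ha
    obtain ⟨b, mb, rfl⟩ := List.mem_map.1 hb
    have := h3 a ma
    have := h3 b mb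
    refine ⟨_, .mul h1 ma mb, rfl, bd_cons h3 ?_ ?_⟩ <;> dsimp only <;> omega
  | div _ ha hb ih =>
    obtain ⟨l', h1, rfl, h3⟩ := ih
    obtain ⟨a, ma, rfl⟩ := List.mem_map.1 ha
    obtain ⟨b, mb, rfl⟩ := List.mem_map.1 hb
    have := h3 a ma
    have := h3 b mb
    refine ⟨_, .div h1 ma mb, rfl, bd_cons h3 ?_ ?_⟩ <;> dsimp only <;> omega
  | sel _ ha hb hc ih =>
    obtain ⟨l', h1, rfl, h3⟩ := ih
    obtain ⟨a, ma, rfl⟩ := List.mem_map.1 ha
    obtain ⟨b, mb, rfl⟩ := List.mem_map.1 hb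
    obtain ⟨c, mc, rfl⟩ := List.mem_map.1 hc
    have := h3 b mb
    have := h3 c mc
    refine ⟨_, .sel h1 ma mb mc, rfl, bd_cons h3 ?_ ?_⟩ <;> dsimp only <;> omega

theorem outs (t : ℝ → Prop) (out : List (Node ℝ × Node ℝ)) (z : ℕ → ℝ) :
    outputs t (out.map fun o => (o.1.val, o.2.val)) z = outList t out z := by
  unfold outputs outList
  rw [List.filter_map, List.map_map]
  rfl

theorem lift (l : List (Node ℝ)) (out : List (((ℕ → ℝ) → ℝ) × ((ℕ → ℝ) → ℝ)))
    (h : ∀ o ∈ out, o.1 ∈ l.map Node.val ∧ o.2 ∈ l.map Node.val) :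
    ∃ out' : List (Node ℝ × Node ℝ), (out'.map fun o => (o.1.val, o.2.val)) = out ∧
      ∀ o ∈ out', o.1 ∈ l ∧ o.2 ∈ l := by
  induction out with
  | nil => exact ⟨[], rfl, by simp⟩
  | cons o out ih =>
    obtain ⟨out', h1, h2⟩ := ih fun o' ho' => h o' (List.mem_cons_of_mem _ ho')
    obtain ⟨a, ha, ea⟩ := List.mem_map.1 (h o List.mem_cons_self).1
    obtain ⟨b, hb, eb⟩ := List.mem_map.1 (h o List.mem_cons_self).2
    refine ⟨(a, b) :: out', by rw [List.map_cons, h1, ea, eb], fun o' ho' => ?_⟩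
    rcases List.mem_cons.1 ho' with rfl | ho'
    · exact ⟨ha, hb⟩
    · exact h2 o' ho'

end Todeg

theorem todeg : TODEG := by
  rintro t f ⟨S, c, h⟩
  refine ⟨S, c, fun n => ?_⟩
  obtain ⟨l, out, h1, h2, h3, h4, h5⟩ := h n
  obtain ⟨l', g1, rfl, g3⟩ := Todeg.built h1
  obtain ⟨out', rfl, g4⟩ := Todeg.lift l' out h4
  rw [List.length_map] at h2 h3
  refine ⟨l', out', Ok.mono ⟨g1, g3⟩ (Nat.pow_le_pow_right two_pos h2), h2, h3, g4, fun y => ?_⟩
  rw [h5 _ (List.length_ofFn ..), getD_ofFn, Todeg.outs]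

end Pool.Agent.MP_8a92de_lc.E43

end Row_todeg

section Row_fromdeg
namespace Pool.Agent.MP_8a92de_lc.E43

namespace Fromdeg

theorem gates {t : ℝ → Prop} {S : Set ℝ} {l : List (Node ℝ)} (h : Built t S l) :
    Gates t S (l.map Node.val) := by
  induction h with
  | nil => exact .nil
  | const c hc _ ih => exact .const c hc ih
  | var i _ ih => exact .var i ih
  | add _ ha hb ih => exact .add ih (List.mem_map_of_mem ha) (List.mem_map_of_mem hb)
  | mul _ ha hb ih => exact .mul ih (List.mem_map_of_mem ha) (List.mem_map_of_mem hb)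
  | div _ ha hb ih => exact .div ih (List.mem_map_of_mem ha) (List.mem_map_of_mem hb)
  | sel _ ha hb hc ih =>
    exact .sel ih (List.mem_map_of_mem ha) (List.mem_map_of_mem hb) (List.mem_map_of_mem hc)

theorem outs (t : ℝ → Prop) (out : List (Node ℝ × Node ℝ)) (z : ℕ → ℝ) :
    outputs t (out.map fun o => (o.1.val, o.2.val)) z = outList t out z := by
  unfold outputs outList
  rw [List.filter_map, List.map_map]
  rfl

end Fromdeg

theorem fromdeg : FROMDEG := by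
  intro t f S c h
  refine ⟨S, c, fun n => ?_⟩
  obtain ⟨l, out, h1, h2, h3, h4, h5⟩ := h n
  refine ⟨l.map Node.val, out.map fun o => (o.1.val, o.2.val), Fromdeg.gates h1, by simpa using h2,
    by simpa using h3, fun o ho => ?_, fun x hx => ?_⟩
  · obtain ⟨o', ho', rfl⟩ := List.mem_map.1 ho
    exact ⟨List.mem_map_of_mem (h4 o' ho').1, List.mem_map_of_mem (h4 o' ho').2⟩
  · subst hx
    have := h5 x.get
    rw [← getD_ofFn, List.ofFn_get] at this
    rw [Fromdeg.outs, this]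

end Pool.Agent.MP_8a92de_lc.E43

end Row_fromdeg

section Row_comp
namespace Pool.Agent.MP_8a92de_lc.E43

namespace Comp

variable {K : Type} [Field K] {τ : K → Prop} {A : Set K}

/-- `b` is the copy of `a` after the substitution -/
def R {n N : ℕ} (Y : Fin N → (Fin n → K) → K) (a b : Node K) : Prop :=
  (∀ x : Fin n → K, b.val (ex x) = a.val (ex fun i => Y i x)) ∧ b.num ≤ a.num ∧ b.den ≤ a.den

theorem step {n N D : ℕ} {l0 l l1 : List (Node K)} {Y : Fin N → (Fin n → K) → K} {a b : Node K}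
    (e : Ext τ A D (l.length + 1) l0 l1) (q : ∀ a ∈ l, ∃ b ∈ l1, R Y a b)
    (hd : Bd (a :: l) D) (hb : Built τ A (b :: l1)) (hr : R Y a b) :
    ∃ l2, Ext τ A D ((a :: l).length + 1) l0 l2 ∧ ∀ a' ∈ a :: l, ∃ b' ∈ l2, R Y a' b' := by
  have h1 := hd a List.mem_cons_self
  refine ⟨b :: l1, (e.trans (ext_cons e.1 hb (hr.2.1.trans h1.1) (hr.2.2.trans h1.2))).mono
    (by simp), fun a' ha' => ?_⟩
  rcases List.mem_cons.1 ha' with rfl | ha'
  · exact ⟨b, List.mem_cons_self, hr⟩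
  · obtain ⟨b', hb', h2⟩ := q a' ha'
    exact ⟨b', List.mem_cons_of_mem _ hb', h2⟩

omit [Field K] in
theorem tail {D : ℕ} {a : Node K} {l : List (Node K)} (h : Bd (a :: l) D) : Bd l D :=
  fun b hb => h b (List.mem_cons_of_mem _ hb)

theorem main {n N D : ℕ} {l0 l' : List (Node K)} {Y : Fin N → (Fin n → K) → K}
    (hz : (0 : K) ∈ A) (h0 : Ok τ A D l0) (hb : Built τ A l') (hY : ∀ i, Has n l0 (Y i) 1) : Bd l' D →
    ∃ l1, Ext τ A D (l'.length + 1) l0 l1 ∧ ∀ a ∈ l', ∃ b ∈ l1, R Y a b := by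
  induction hb with
  | nil => exact fun _ => ⟨l0, (Ext.refl h0).mono (Nat.zero_le _), by simp⟩
  | const c hc _ ih =>
    intro hd
    obtain ⟨l1, e, q⟩ := ih (tail hd)
    exact step e q hd (Built.const c hc e.1.1) ⟨fun _ => rfl, le_rfl, le_rfl⟩
  | var i _ ih =>
    intro hd
    obtain ⟨l1, e, q⟩ := ih (tail hd)
    by_cases hi : i < N
    · obtain ⟨b, hb, h1, h2, h3⟩ := hY ⟨i, hi⟩
      refine ⟨l1, e.mono (by simp), fun a ha => ?_⟩
      rcases List.mem_cons.1 ha with rfl | ha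
      · exact ⟨b, e.2.1 b hb, fun x => (h1 x).trans (ex_lt (fun j => Y j x) hi).symm, h2, h3.le⟩
      · exact q a ha
    · exact step e q hd (Built.const 0 hz e.1.1)
        ⟨fun x => (ex_ge (fun j => Y j x) (Nat.not_lt.1 hi)).symm, Nat.zero_le _, le_rfl⟩
  | add _ ha hb ih =>
    intro hd
    obtain ⟨l1, e, q⟩ := ih (tail hd)
    obtain ⟨a', ha', a1, a2, a3⟩ := q _ ha
    obtain ⟨b', hb', b1, b2, b3⟩ := q _ hb
    refine step e q hd (Built.add e.1.1 ha' hb') ⟨fun x => ?_, ?_, ?_⟩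
    · simp only [a1, b1]
    · exact max_le_max (Nat.add_le_add a2 b3) (Nat.add_le_add b2 a3)
    · exact Nat.add_le_add a3 b3
  | mul _ ha hb ih =>
    intro hd
    obtain ⟨l1, e, q⟩ := ih (tail hd)
    obtain ⟨a', ha', a1, a2, a3⟩ := q _ ha
    obtain ⟨b', hb', b1, b2, b3⟩ := q _ hb
    refine step e q hd (Built.mul e.1.1 ha' hb') ⟨fun x => ?_, ?_, ?_⟩
    · simp only [a1, b1]
    · exact Nat.add_le_add a2 b2
    · exact Nat.add_le_add a3 b3
  | div _ ha hb ih =>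
    intro hd
    obtain ⟨l1, e, q⟩ := ih (tail hd)
    obtain ⟨a', ha', a1, a2, a3⟩ := q _ ha
    obtain ⟨b', hb', b1, b2, b3⟩ := q _ hb
    refine step e q hd (Built.div e.1.1 ha' hb') ⟨fun x => ?_, ?_, ?_⟩
    · simp only [a1, b1]
    · exact Nat.add_le_add a2 b3
    · exact Nat.add_le_add a3 b2
  | sel _ ha hb hc ih =>
    intro hd
    obtain ⟨l1, e, q⟩ := ih (tail hd)
    obtain ⟨a', ha', a1, -, -⟩ := q _ ha
    obtain ⟨b', hb', b1, b2, b3⟩ := q _ hb
    obtain ⟨c', hc', c1, c2, c3⟩ := q _ hc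
    refine step e q hd (Built.sel e.1.1 ha' hb' hc') ⟨fun x => ?_, ?_, ?_⟩
    · simp only [b1, c1]
      rw [a1 x]
    · exact max_le_max b2 c2
    · exact max_le_max b3 c3

end Comp

theorem comp : COMP := fun _ _ _ _ _ _ _ _ _ _ hu h0 h1 hY => Comp.main hu.1 h0 h1.1 hY h1.2

end Pool.Agent.MP_8a92de_lc.E43

end Row_comp

section Row_rep0
namespace Pool.Agent.MP_8a92de_lc.E43

open MvPolynomial Filter Topology

namespace rep0x

variable {K : Type} [Field K] {τ : K → Prop} {A : Set K} {K0 : Subfield K} {N D : ℕ}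
  {l l' : List (Node K)}

/-- a family of polynomials of degree at most `e` with gates for its value and its derivatives -/
def HP (l : List (Node K)) (P : (Fin N → K) → MvPolynomial (Fin N) K0) (e : ℕ) : Prop :=
  (∀ y, (P y).totalDegree ≤ e) ∧ Has N l (fun y => aeval y (P y)) e ∧
    ∀ i, Has N l (fun y => aeval y (pderiv i (P y))) e

theorem hp_mono {P : (Fin N → K) → MvPolynomial (Fin N) K0} {e e' : ℕ} (h : HP l P e)
    (hl : ∀ a ∈ l, a ∈ l') (he : e ≤ e') : HP l' P e' :=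
  ⟨fun y => (h.1 y).trans he, h.2.1.mono hl he, fun i => (h.2.2 i).mono hl he⟩

theorem hp_const (hA : Un A) (h : Ok τ A D l) (c : K0) (hc : (c : K) ∈ A) :
    ∃ l', Ext τ A D 2 l l' ∧ HP l' (fun _ : Fin N → K => (C c : MvPolynomial (Fin N) K0)) 0 := by
  obtain ⟨l1, e1, g1⟩ := ext_const (n := N) h (c : K) hc
  obtain ⟨l2, e2, g2⟩ := ext_const (n := N) e1.1 (0 : K) hA.1
  refine ⟨l2, e1.trans e2, fun _ => (totalDegree_C c).le,
    (g1.mono e2.2.1 le_rfl).congr fun y => ?_, fun i => g2.congr fun y => ?_⟩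
  · rw [aeval_C]; rfl
  · rw [pderiv_C, map_zero]

theorem hp_var (hA : Un A) (h : Ok τ A D l) (hD : 1 ≤ D) (i : Fin N) :
    ∃ l', Ext τ A D 3 l l' ∧ HP l' (fun _ : Fin N → K => (X i : MvPolynomial (Fin N) K0)) 1 := by
  obtain ⟨l1, e1, g1⟩ := ext_var (n := N) h hD i
  obtain ⟨l2, e2, g2⟩ := ext_const (n := N) e1.1 (0 : K) hA.1
  obtain ⟨l3, e3, g3⟩ := ext_const (n := N) e2.1 (1 : K) hA.2.1
  refine ⟨l3, (e1.trans e2).trans e3, fun _ => (totalDegree_X i).le,
    (g1.mono (e2.trans e3).2.1 le_rfl).congr fun y => ?_, fun j => ?_⟩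
  · rw [aeval_X]
  · by_cases e : i = j
    · refine (g3.mono (fun _ h => h) (Nat.zero_le 1)).congr fun y => ?_
      rw [e, pderiv_X_self, map_one]
    · refine (g2.mono e3.2.1 (Nat.zero_le 1)).congr fun y => ?_
      rw [pderiv_X_of_ne e, map_zero]

end rep0x

theorem rep0 : REP0 := by
  intro K _ τ A K0 N d l' hA ho
  constructor
  · intro c hc hcA
    obtain ⟨l1, e1, g1⟩ := rep0x.hp_const (N := N) (K0 := K0) hA ho ⟨c, hc⟩ hcA
    obtain ⟨l2, e2, g2⟩ := rep0x.hp_const (N := N) (K0 := K0) hA e1.1 1 hA.2.1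
    have g1' := rep0x.hp_mono g1 e2.2.1 le_rfl
    refine ⟨l2, (e1.trans e2).mono (by omega), _, _, g1'.1, g2.1, fun y => ?_, fun y => ?_,
      fun y _ _ => Eventually.of_forall fun _ => ⟨rfl, rfl⟩, g1'.2.1, g2.2.1, g1'.2.2, g2.2.2⟩
    · rw [C_1, map_one]; exact one_ne_zero
    · rw [C_1, map_one, div_one, aeval_C]; rfl
  · intro hd i
    obtain ⟨l1, e1, g1⟩ := rep0x.hp_const (N := N) (K0 := K0) hA ho 1 hA.2.1
    by_cases hi : i < N
    · obtain ⟨l2, e2, g2⟩ := rep0x.hp_var (K0 := K0) hA e1.1 (by omega) (⟨i, hi⟩ : Fin N)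
      have g1' := rep0x.hp_mono g1 e2.2.1 le_rfl
      refine ⟨l2, (e1.trans e2).mono (by omega), _, _, g2.1, g1'.1, fun y => ?_, fun y => ?_,
        fun y _ _ => Eventually.of_forall fun _ => ⟨rfl, rfl⟩, g2.2.1, g1'.2.1, g2.2.2, g1'.2.2⟩
      · rw [C_1, map_one]; exact one_ne_zero
      · rw [C_1, map_one, div_one, aeval_X]; exact ex_lt y hi
    · obtain ⟨l2, e2, g2⟩ := rep0x.hp_const (N := N) (K0 := K0) hA e1.1 0 hA.1
      have g1' := rep0x.hp_mono g1 e2.2.1 le_rfl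
      have g2' := rep0x.hp_mono g2 (fun _ h => h) (Nat.zero_le 1)
      refine ⟨l2, (e1.trans e2).mono (by omega), _, _, g2'.1, g1'.1, fun y => ?_, fun y => ?_,
        fun y _ _ => Eventually.of_forall fun _ => ⟨rfl, rfl⟩, g2'.2.1, g1'.2.1, g2'.2.2, g1'.2.2⟩
      · rw [C_1, map_one]; exact one_ne_zero
      · rw [C_1, map_one, div_one, C_0, map_zero]; exact ex_ge y (Nat.not_lt.1 hi)

end Pool.Agent.MP_8a92de_lc.E43

end Row_rep0

section Row_repadd
namespace Pool.Agent.MP_8a92de_lc.E43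

open MvPolynomial Filter Topology

namespace repaddx

variable {K : Type} [Field K] {τ : K → Prop} {A : Set K} {K0 : Subfield K} {N D : ℕ}
  {l l' : List (Node K)}

/-- a family of polynomials of degree at most `e` with gates for its value and its derivatives -/
def HP (l : List (Node K)) (P : (Fin N → K) → MvPolynomial (Fin N) K0) (e : ℕ) : Prop :=
  (∀ y, (P y).totalDegree ≤ e) ∧ Has N l (fun y => aeval y (P y)) e ∧
    ∀ i, Has N l (fun y => aeval y (pderiv i (P y))) e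

theorem hp_mono {P : (Fin N → K) → MvPolynomial (Fin N) K0} {e e' : ℕ} (h : HP l P e)
    (hl : ∀ a ∈ l, a ∈ l') (he : e ≤ e') : HP l' P e' :=
  ⟨fun y => (h.1 y).trans he, h.2.1.mono hl he, fun i => (h.2.2 i).mono hl he⟩

theorem hp_mul (h : Ok τ A D l) {P Q : (Fin N → K) → MvPolynomial (Fin N) K0} {e e' : ℕ}
    (hP : HP l P e) (hQ : HP l Q e') (he : e + e' ≤ D) :
    ∃ l', Ext τ A D (3 * N + 1) l l' ∧ HP l' (fun y => P y * Q y) (e + e') := by
  obtain ⟨l1, e1, g1⟩ := ext_mul h hP.2.1 hQ.2.1 he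
  obtain ⟨l2, e2, g2⟩ := ext_family (ι := Fin N) (k := 3) e1.1
    (fun i y => aeval y (pderiv i (P y * Q y))) (fun _ => e + e') (by
      intro i m1 o1 s1
      have s0 : ∀ a ∈ l, a ∈ m1 := fun a ha => s1 a (e1.2.1 a ha)
      obtain ⟨m2, f2, k2⟩ := ext_mul o1 ((hP.2.2 i).mono s0 le_rfl) (hQ.2.1.mono s0 le_rfl) he
      have s2 : ∀ a ∈ l, a ∈ m2 := fun a ha => f2.2.1 a (s0 a ha)
      obtain ⟨m3, f3, k3⟩ := ext_mul f2.1 (hP.2.1.mono s2 le_rfl) ((hQ.2.2 i).mono s2 le_rfl) he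
      obtain ⟨m4, f4, k4⟩ := ext_add f3.1 (k2.mono f3.2.1 le_rfl) k3 he
      refine ⟨m4, (f2.trans f3).trans f4, k4.congr fun y => ?_⟩
      rw [pderiv_mul, map_add, map_mul, map_mul])
  refine ⟨l2, (e1.trans e2).mono (by rw [Fintype.card_fin]; omega), fun y => ?_,
    (g1.mono e2.2.1 le_rfl).congr fun y => (map_mul _ _ _).symm, g2⟩
  exact (totalDegree_mul _ _).trans (Nat.add_le_add (hP.1 y) (hQ.1 y))

theorem hp_add (h : Ok τ A D l) {P Q : (Fin N → K) → MvPolynomial (Fin N) K0} {e : ℕ}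
    (hP : HP l P e) (hQ : HP l Q e) (he : e ≤ D) :
    ∃ l', Ext τ A D (N + 1) l l' ∧ HP l' (fun y => P y + Q y) e := by
  obtain ⟨l1, e1, g1⟩ := ext_add h hP.2.1 hQ.2.1 he
  obtain ⟨l2, e2, g2⟩ := ext_family (ι := Fin N) (k := 1) e1.1
    (fun i y => aeval y (pderiv i (P y + Q y))) (fun _ => e) (by
      intro i m1 o1 s1
      have s0 : ∀ a ∈ l, a ∈ m1 := fun a ha => s1 a (e1.2.1 a ha)
      obtain ⟨m2, f2, k2⟩ := ext_add o1 ((hP.2.2 i).mono s0 le_rfl) ((hQ.2.2 i).mono s0 le_rfl) he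
      refine ⟨m2, f2, k2.congr fun y => ?_⟩
      rw [map_add, map_add])
  refine ⟨l2, (e1.trans e2).mono (by rw [Fintype.card_fin]; omega), fun y => ?_,
    (g1.mono e2.2.1 le_rfl).congr fun y => (map_add _ _ _).symm, g2⟩
  exact (totalDegree_add _ _).trans (max_le (hP.1 y) (hQ.1 y))

end repaddx

theorem repadd : REPadd := by
  intro K _ τ A K0 N d l' a b _ ho ⟨Pa, Qa, a1, a2, a3, a4, a5, a6, a7, a8, a9⟩
    ⟨Pb, Qb, b1, b2, b3, b4, b5, b6, b7, b8, b9⟩ h1 h2
  have pa : repaddx.HP l' Pa a.num := ⟨a1, a6, a8⟩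
  have qa : repaddx.HP l' Qa a.den := ⟨a2, a7, a9⟩
  have pb : repaddx.HP l' Pb b.num := ⟨b1, b6, b8⟩
  have qb : repaddx.HP l' Qb b.den := ⟨b2, b7, b9⟩
  have m1 := le_max_left (a.num + b.den) (b.num + a.den)
  have m2 := le_max_right (a.num + b.den) (b.num + a.den)
  obtain ⟨l1, e1, g1⟩ := repaddx.hp_mul ho pa qb (by omega)
  obtain ⟨l2, e2, g2⟩ := repaddx.hp_mul e1.1 (repaddx.hp_mono pb e1.2.1 le_rfl)
    (repaddx.hp_mono qa e1.2.1 le_rfl) (by omega)
  obtain ⟨l3, e3, g3⟩ := repaddx.hp_add e2.1 (repaddx.hp_mono g1 e2.2.1 m1)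
    (repaddx.hp_mono g2 (fun _ h => h) m2) (by omega)
  have e4 := (e1.trans e2).trans e3
  obtain ⟨l4, e5, g4⟩ := repaddx.hp_mul e3.1 (repaddx.hp_mono qa e4.2.1 le_rfl)
    (repaddx.hp_mono qb e4.2.1 le_rfl) (by omega)
  have g3' := repaddx.hp_mono g3 e5.2.1 le_rfl
  refine ⟨l4, (e4.trans e5).mono (by omega), _, _, g3'.1, g4.1, fun y => ?_, fun y => ?_,
    fun y F hy => ?_, g3'.2.1, g4.2.1, g3'.2.2, g4.2.2⟩
  · rw [map_mul]; exact mul_ne_zero (a3 y) (b3 y)
  · show a.val (ex y) + b.val (ex y) = _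
    rw [a4, b4, div_add_div _ _ (a3 y) (b3 y), map_add, map_mul, map_mul, map_mul,
      mul_comm (aeval y (Qa y)) (aeval y (Pb y))]
  · filter_upwards [a5 y F hy, b5 y F hy] with y' h3 h4
    rw [h3.1, h3.2, h4.1, h4.2]
    exact ⟨rfl, rfl⟩

end Pool.Agent.MP_8a92de_lc.E43

end Row_repadd

section Row_repmul
namespace Pool.Agent.MP_8a92de_lc.E43

open MvPolynomial Filter Topology

namespace repmulx

variable {K : Type} [Field K] {τ : K → Prop} {A : Set K} {K0 : Subfield K} {N D : ℕ}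
  {l l' : List (Node K)}

/-- a family of polynomials of degree at most `e` with gates for its value and its derivatives -/
def HP (l : List (Node K)) (P : (Fin N → K) → MvPolynomial (Fin N) K0) (e : ℕ) : Prop :=
  (∀ y, (P y).totalDegree ≤ e) ∧ Has N l (fun y => aeval y (P y)) e ∧
    ∀ i, Has N l (fun y => aeval y (pderiv i (P y))) e

theorem hp_mono {P : (Fin N → K) → MvPolynomial (Fin N) K0} {e e' : ℕ} (h : HP l P e)
    (hl : ∀ a ∈ l, a ∈ l') (he : e ≤ e') : HP l' P e' :=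
  ⟨fun y => (h.1 y).trans he, h.2.1.mono hl he, fun i => (h.2.2 i).mono hl he⟩

theorem hp_mul (h : Ok τ A D l) {P Q : (Fin N → K) → MvPolynomial (Fin N) K0} {e e' : ℕ}
    (hP : HP l P e) (hQ : HP l Q e') (he : e + e' ≤ D) :
    ∃ l', Ext τ A D (3 * N + 1) l l' ∧ HP l' (fun y => P y * Q y) (e + e') := by
  obtain ⟨l1, e1, g1⟩ := ext_mul h hP.2.1 hQ.2.1 he
  obtain ⟨l2, e2, g2⟩ := ext_family (ι := Fin N) (k := 3) e1.1
    (fun i y => aeval y (pderiv i (P y * Q y))) (fun _ => e + e') (by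
      intro i m1 o1 s1
      have s0 : ∀ a ∈ l, a ∈ m1 := fun a ha => s1 a (e1.2.1 a ha)
      obtain ⟨m2, f2, k2⟩ := ext_mul o1 ((hP.2.2 i).mono s0 le_rfl) (hQ.2.1.mono s0 le_rfl) he
      have s2 : ∀ a ∈ l, a ∈ m2 := fun a ha => f2.2.1 a (s0 a ha)
      obtain ⟨m3, f3, k3⟩ := ext_mul f2.1 (hP.2.1.mono s2 le_rfl) ((hQ.2.2 i).mono s2 le_rfl) he
      obtain ⟨m4, f4, k4⟩ := ext_add f3.1 (k2.mono f3.2.1 le_rfl) k3 he
      refine ⟨m4, (f2.trans f3).trans f4, k4.congr fun y => ?_⟩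
      rw [pderiv_mul, map_add, map_mul, map_mul])
  refine ⟨l2, (e1.trans e2).mono (by rw [Fintype.card_fin]; omega), fun y => ?_,
    (g1.mono e2.2.1 le_rfl).congr fun y => (map_mul _ _ _).symm, g2⟩
  exact (totalDegree_mul _ _).trans (Nat.add_le_add (hP.1 y) (hQ.1 y))

end repmulx

theorem repmul : REPmul := by
  intro K _ τ A K0 N d l' a b _ ho ⟨Pa, Qa, a1, a2, a3, a4, a5, a6, a7, a8, a9⟩
    ⟨Pb, Qb, b1, b2, b3, b4, b5, b6, b7, b8, b9⟩ h1 h2
  have pa : repmulx.HP l' Pa a.num := ⟨a1, a6, a8⟩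
  have qa : repmulx.HP l' Qa a.den := ⟨a2, a7, a9⟩
  have pb : repmulx.HP l' Pb b.num := ⟨b1, b6, b8⟩
  have qb : repmulx.HP l' Qb b.den := ⟨b2, b7, b9⟩
  obtain ⟨l1, e1, g1⟩ := repmulx.hp_mul ho pa pb (by omega)
  obtain ⟨l2, e2, g2⟩ := repmulx.hp_mul e1.1 (repmulx.hp_mono qa e1.2.1 le_rfl)
    (repmulx.hp_mono qb e1.2.1 le_rfl) (by omega)
  have g1' := repmulx.hp_mono g1 e2.2.1 le_rfl
  refine ⟨l2, (e1.trans e2).mono (by omega), _, _, g1'.1, g2.1, fun y => ?_, fun y => ?_,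
    fun y F hy => ?_, g1'.2.1, g2.2.1, g1'.2.2, g2.2.2⟩
  · rw [map_mul]; exact mul_ne_zero (a3 y) (b3 y)
  · show a.val (ex y) * b.val (ex y) = _
    rw [a4, b4, div_mul_div_comm, map_mul, map_mul]
  · filter_upwards [a5 y F hy, b5 y F hy] with y' h3 h4
    rw [h3.1, h3.2, h4.1, h4.2]
    exact ⟨rfl, rfl⟩

end Pool.Agent.MP_8a92de_lc.E43

end Row_repmul

section Row_repdiv
namespace Pool.Agent.MP_8a92de_lc.E43

open MvPolynomial Filter Topology

namespace repdivx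

section Aux

variable {K : Type} [Field K] {τ : K → Prop} {A : Set K} {K0 : Subfield K} {N D : ℕ} {l l' : List (Node K)}

/-- a family of polynomials of degree at most `e` with gates for its value and its derivatives -/
def HP (l : List (Node K)) (P : (Fin N → K) → MvPolynomial (Fin N) K0) (e : ℕ) : Prop :=
  (∀ y, (P y).totalDegree ≤ e) ∧ Has N l (fun y => aeval y (P y)) e ∧
    ∀ i, Has N l (fun y => aeval y (pderiv i (P y))) e

theorem hp_mono {P : (Fin N → K) → MvPolynomial (Fin N) K0} {e e' : ℕ} (h : HP l P e)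
    (hl : ∀ a ∈ l, a ∈ l') (he : e ≤ e') : HP l' P e' :=
  ⟨fun y => (h.1 y).trans he, h.2.1.mono hl he, fun i => (h.2.2 i).mono hl he⟩

open Classical in
theorem hp_sel (h : Ok τ A D l) {t : Node K} (ht : t ∈ l)
    {P Q : (Fin N → K) → MvPolynomial (Fin N) K0} {e : ℕ}
    (hP : HP l P e) (hQ : HP l Q e) (he : e ≤ D) :
    ∃ l', Ext τ A D (N + 1) l l' ∧
      HP l' (fun y => if τ (t.val (ex y)) then P y else Q y) e := by
  obtain ⟨l1, e1, g1⟩ := ext_sel h ht hP.2.1 hQ.2.1 he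
  obtain ⟨l2, e2, g2⟩ := ext_family (ι := Fin N) (k := 1) e1.1
    (fun i y => aeval y (pderiv i (if τ (t.val (ex y)) then P y else Q y))) (fun _ => e) (by
      intro i m1 o1 s1
      have s0 : ∀ a ∈ l, a ∈ m1 := fun a ha => s1 a (e1.2.1 a ha)
      obtain ⟨m2, f2, k2⟩ := ext_sel o1 (s0 t ht) ((hP.2.2 i).mono s0 le_rfl)
        ((hQ.2.2 i).mono s0 le_rfl) he
      refine ⟨m2, f2, k2.congr fun y => ?_⟩
      split_ifs <;> rfl)
  refine ⟨l2, (e1.trans e2).mono (by rw [Fintype.card_fin]; omega), fun y => ?_,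
    (g1.mono e2.2.1 le_rfl).congr fun y => ?_, g2⟩
  · show (if τ (t.val (ex y)) then P y else Q y).totalDegree ≤ e
    split_ifs
    · exact hP.1 y
    · exact hQ.1 y
  · show _ = aeval y (if τ (t.val (ex y)) then P y else Q y)
    split_ifs <;> rfl

theorem hp_mul (h : Ok τ A D l) {P Q : (Fin N → K) → MvPolynomial (Fin N) K0} {e e' : ℕ}
    (hP : HP l P e) (hQ : HP l Q e') (he : e + e' ≤ D) :
    ∃ l', Ext τ A D (3 * N + 1) l l' ∧ HP l' (fun y => P y * Q y) (e + e') := by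
  obtain ⟨l1, e1, g1⟩ := ext_mul h hP.2.1 hQ.2.1 he
  obtain ⟨l2, e2, g2⟩ := ext_family (ι := Fin N) (k := 3) e1.1
    (fun i y => aeval y (pderiv i (P y * Q y))) (fun _ => e + e') (by
      intro i m1 o1 s1
      have s0 : ∀ a ∈ l, a ∈ m1 := fun a ha => s1 a (e1.2.1 a ha)
      obtain ⟨m2, f2, k2⟩ := ext_mul o1 ((hP.2.2 i).mono s0 le_rfl) (hQ.2.1.mono s0 le_rfl) he
      have s2 : ∀ a ∈ l, a ∈ m2 := fun a ha => f2.2.1 a (s0 a ha)
      obtain ⟨m3, f3, k3⟩ := ext_mul f2.1 (hP.2.1.mono s2 le_rfl) ((hQ.2.2 i).mono s2 le_rfl) he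
      obtain ⟨m4, f4, k4⟩ := ext_add f3.1 (k2.mono f3.2.1 le_rfl) k3 he
      refine ⟨m4, (f2.trans f3).trans f4, k4.congr fun y => ?_⟩
      rw [pderiv_mul, map_add, map_mul, map_mul])
  refine ⟨l2, (e1.trans e2).mono (by rw [Fintype.card_fin]; omega), fun y => ?_,
    (g1.mono e2.2.1 le_rfl).congr fun y => (map_mul _ _ _).symm, g2⟩
  exact (totalDegree_mul _ _).trans (Nat.add_le_add (hP.1 y) (hQ.1 y))

theorem hp_01 (h : Ok τ A D l) (hU : Un A) : ∃ l', Ext τ A D 2 l l' ∧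
    HP l' (fun _ : Fin N → K => (0 : MvPolynomial (Fin N) K0)) 0 ∧
    HP l' (fun _ : Fin N → K => (1 : MvPolynomial (Fin N) K0)) 0 := by
  obtain ⟨l1, e1, g1⟩ := ext_const (n := N) h 0 hU.1
  obtain ⟨l2, e2, g2⟩ := ext_const (n := N) e1.1 1 hU.2.1
  have g0 := g1.mono e2.2.1 le_rfl
  exact ⟨l2, e1.trans e2,
    ⟨fun _ => by simp, g0.congr fun y => by simp, fun i => g0.congr fun y => by simp⟩,
    ⟨fun _ => by simp, g2.congr fun y => by simp, fun i => g0.congr fun y => by simp⟩⟩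

end Aux

end repdivx

theorem repdiv : REPdiv := by
  intro K _ τ A K0 N d l' a b hτ hU ho ⟨Pa, Qa, a1, a2, a3, a4, a5, a6, a7, a8, a9⟩
    ⟨Pb, Qb, b1, b2, b3, b4, b5, b6, b7, b8, b9⟩ h1 h2
  have pa : repdivx.HP l' Pa a.num := ⟨a1, a6, a8⟩
  have qa : repdivx.HP l' Qa a.den := ⟨a2, a7, a9⟩
  have pb : repdivx.HP l' Pb b.num := ⟨b1, b6, b8⟩
  have qb : repdivx.HP l' Qb b.den := ⟨b2, b7, b9⟩
  obtain ⟨l1, e1, g1⟩ := repdivx.hp_mul ho pa qb (by omega)
  obtain ⟨l2, e2, g2⟩ := repdivx.hp_mul e1.1 (repdivx.hp_mono qa e1.2.1 le_rfl)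
    (repdivx.hp_mono pb e1.2.1 le_rfl) (by omega)
  have e12 := e1.trans e2
  obtain ⟨t, ht, t1, _, _⟩ := b6.mono e12.2.1 le_rfl
  obtain ⟨l4, e4, z0, z1⟩ := repdivx.hp_01 (K0 := K0) (N := N) e2.1 hU
  obtain ⟨l5, e5, g5⟩ := repdivx.hp_sel (e := a.num + b.den) e4.1 (e4.2.1 t ht)
    (repdivx.hp_mono g1 (e2.trans e4).2.1 le_rfl)
    (repdivx.hp_mono z0 (fun _ h => h) (Nat.zero_le _)) (by omega)
  obtain ⟨l6, e6, g6⟩ := repdivx.hp_sel (e := a.den + b.num) e5.1 (e5.2.1 t (e4.2.1 t ht))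
    (repdivx.hp_mono g2 (e4.trans e5).2.1 le_rfl)
    (repdivx.hp_mono z1 e5.2.1 (Nat.zero_le _)) (by omega)
  have g5' := repdivx.hp_mono g5 e6.2.1 le_rfl
  have hτt : ∀ y, τ (t.val (ex y)) ↔ aeval y (Pb y) ≠ 0 := fun y => by
    rw [t1 y]; exact hτ _
  refine ⟨l6, (((e12.trans e4).trans e5).trans e6).mono (by omega), _, _, g5'.1, g6.1,
    fun y => ?_, fun y => ?_, fun y F hy => ?_, g5'.2.1, g6.2.1, g5'.2.2, g6.2.2⟩
  · by_cases h : τ (t.val (ex y))
    · simp only [if_pos h]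
      rw [map_mul]
      exact mul_ne_zero (a3 y) ((hτt y).1 h)
    · simp only [if_neg h]
      rw [map_one]
      exact one_ne_zero
  · show a.val (ex y) / b.val (ex y) = _
    by_cases h : τ (t.val (ex y))
    · simp only [if_pos h]
      rw [a4, b4, map_mul, map_mul, div_div_div_eq]
    · simp only [if_neg h]
      have h3 : aeval y (Pb y) = 0 := not_not.1 (mt (hτt y).2 h)
      rw [b4, h3]
      simp
  · have hloc : ∀ᶠ y' in F, (τ (t.val (ex y')) ↔ τ (t.val (ex y))) := by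
      filter_upwards [b5 y F hy, hy (Pb y) ((b1 y).trans (by omega))] with y' h4 h5
      rw [hτt, hτt, h4.1]
      exact not_congr h5
    filter_upwards [hloc, a5 y F hy, b5 y F hy] with y' h3 h4 h5
    by_cases h : τ (t.val (ex y))
    · simp only [if_pos h, if_pos (h3.2 h)]
      rw [h4.1, h4.2, h5.1, h5.2]
      exact ⟨rfl, rfl⟩
    · simp only [if_neg h, if_neg (mt h3.1 h)]
      exact ⟨trivial, trivial⟩

end Pool.Agent.MP_8a92de_lc.E43

end Row_repdiv

section Row_repsel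
namespace Pool.Agent.MP_8a92de_lc.E43

open MvPolynomial Filter Topology

namespace repselx

section Aux

variable {K : Type} [Field K] {τ : K → Prop} {A : Set K} {K0 : Subfield K} {N D : ℕ} {l l' : List (Node K)}

/-- a family of polynomials of degree at most `e` with gates for its value and its derivatives -/
def HP (l : List (Node K)) (P : (Fin N → K) → MvPolynomial (Fin N) K0) (e : ℕ) : Prop :=
  (∀ y, (P y).totalDegree ≤ e) ∧ Has N l (fun y => aeval y (P y)) e ∧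
    ∀ i, Has N l (fun y => aeval y (pderiv i (P y))) e

theorem hp_mono {P : (Fin N → K) → MvPolynomial (Fin N) K0} {e e' : ℕ} (h : HP l P e)
    (hl : ∀ a ∈ l, a ∈ l') (he : e ≤ e') : HP l' P e' :=
  ⟨fun y => (h.1 y).trans he, h.2.1.mono hl he, fun i => (h.2.2 i).mono hl he⟩

open Classical in
theorem hp_sel (h : Ok τ A D l) {t : Node K} (ht : t ∈ l)
    {P Q : (Fin N → K) → MvPolynomial (Fin N) K0} {e : ℕ}
    (hP : HP l P e) (hQ : HP l Q e) (he : e ≤ D) :
    ∃ l', Ext τ A D (N + 1) l l' ∧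
      HP l' (fun y => if τ (t.val (ex y)) then P y else Q y) e := by
  obtain ⟨l1, e1, g1⟩ := ext_sel h ht hP.2.1 hQ.2.1 he
  obtain ⟨l2, e2, g2⟩ := ext_family (ι := Fin N) (k := 1) e1.1
    (fun i y => aeval y (pderiv i (if τ (t.val (ex y)) then P y else Q y))) (fun _ => e) (by
      intro i m1 o1 s1
      have s0 : ∀ a ∈ l, a ∈ m1 := fun a ha => s1 a (e1.2.1 a ha)
      obtain ⟨m2, f2, k2⟩ := ext_sel o1 (s0 t ht) ((hP.2.2 i).mono s0 le_rfl)
        ((hQ.2.2 i).mono s0 le_rfl) he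
      refine ⟨m2, f2, k2.congr fun y => ?_⟩
      split_ifs <;> rfl)
  refine ⟨l2, (e1.trans e2).mono (by rw [Fintype.card_fin]; omega), fun y => ?_,
    (g1.mono e2.2.1 le_rfl).congr fun y => ?_, g2⟩
  · show (if τ (t.val (ex y)) then P y else Q y).totalDegree ≤ e
    split_ifs
    · exact hP.1 y
    · exact hQ.1 y
  · show _ = aeval y (if τ (t.val (ex y)) then P y else Q y)
    split_ifs <;> rfl

end Aux

end repselx

theorem repsel : REPsel := by
  intro K _ τ A K0 N d l' a b c hτ _ ho ha had ⟨Pa, Qa, a1, _, a3, a4, a5, _, _, _, _⟩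
    ⟨Pb, Qb, b1, b2, b3, b4, b5, b6, b7, b8, b9⟩ ⟨Pc, Qc, c1, c2, c3, c4, c5, c6, c7, c8, c9⟩ h1 h2
  have pb : repselx.HP l' Pb b.num := ⟨b1, b6, b8⟩
  have qb : repselx.HP l' Qb b.den := ⟨b2, b7, b9⟩
  have pc : repselx.HP l' Pc c.num := ⟨c1, c6, c8⟩
  have qc : repselx.HP l' Qc c.den := ⟨c2, c7, c9⟩
  obtain ⟨l1, e1, g1⟩ := repselx.hp_sel (e := max b.num c.num) ho ha
    (repselx.hp_mono pb (fun _ h => h) (le_max_left _ _))
    (repselx.hp_mono pc (fun _ h => h) (le_max_right _ _)) (by omega)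
  obtain ⟨l2, e2, g2⟩ := repselx.hp_sel (e := max b.den c.den) e1.1 (e1.2.1 a ha)
    (repselx.hp_mono qb e1.2.1 (le_max_left _ _))
    (repselx.hp_mono qc e1.2.1 (le_max_right _ _)) (by omega)
  have g1' := repselx.hp_mono g1 e2.2.1 le_rfl
  refine ⟨l2, (e1.trans e2).mono (by omega), _, _, g1'.1, g2.1, fun y => ?_, fun y => ?_,
    fun y F hy => ?_, g1'.2.1, g2.2.1, g1'.2.2, g2.2.2⟩
  · by_cases h : τ (a.val (ex y))
    · simp only [if_pos h]; exact b3 y
    · simp only [if_neg h]; exact c3 y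
  · by_cases h : τ (a.val (ex y))
    · simp only [if_pos h]; exact b4 y
    · simp only [if_neg h]; exact c4 y
  · have hloc : ∀ᶠ y' in F, (τ (a.val (ex y')) ↔ τ (a.val (ex y))) := by
      filter_upwards [a5 y F hy, hy (Pa y) ((a1 y).trans had)] with y' h4 h5
      rw [hτ, hτ, a4 y', a4 y, div_ne_zero_iff, div_ne_zero_iff, and_iff_left (a3 y'),
        and_iff_left (a3 y), h4.1]
      exact not_congr h5
    filter_upwards [hloc, b5 y F hy, c5 y F hy] with y' h3 h4 h5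
    by_cases h : τ (a.val (ex y))
    · simp only [if_pos h, if_pos (h3.2 h)]; exact h4
    · simp only [if_neg h, if_neg (mt h3.1 h)]; exact h5

end Pool.Agent.MP_8a92de_lc.E43

end Row_repsel

section Row_loc
namespace Pool.Agent.MP_8a92de_lc.E43

open MvPolynomial Filter Topology

namespace Loc

theorem step {K : Type} [Field K] {τ : K → Prop} {A : Set K} {K0 : Subfield K} {N d : ℕ}
    {l l' l'' : List (Node K)} {a : Node K}
    (hs : ∀ b ∈ l, b ∈ l') (hr : ∀ b ∈ l, Rep K0 N d l' b)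
    (hl : l'.length ≤ 21 * (N + 1) * l.length) (hb : Bd (a :: l) d)
    (he : Ext τ A (2 * d) (20 * (N + 1)) l' l'') (ha : Rep K0 N d l'' a)
    (hB : Built τ A (a :: l'')) :
    ∃ l3, Ok τ A (2 * d) l3 ∧ (∀ b ∈ a :: l, b ∈ l3) ∧ (∀ b ∈ a :: l, Rep K0 N d l3 b) ∧
      l3.length ≤ 21 * (N + 1) * (a :: l).length := by
  have hd := hb a List.mem_cons_self
  have e2 := ext_cons he.1 hB (by omega) (by omega)
  refine ⟨a :: l'', e2.1, fun b hb => ?_, fun b hb => ?_, ?_⟩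
  · rcases List.mem_cons.1 hb with rfl | hb
    · exact List.mem_cons_self
    · exact List.mem_cons_of_mem _ (he.2.1 b (hs b hb))
  · rcases List.mem_cons.1 hb with rfl | hb
    · exact ha.mono e2.2.1
    · exact ((hr b hb).mono he.2.1).mono e2.2.1
  · have := he.2.2
    rw [List.length_cons, List.length_cons, Nat.mul_add_one _ l.length]
    omega

theorem tail {K : Type} {a : Node K} {l : List (Node K)} {d : ℕ} (h : Bd (a :: l) d) : Bd l d :=
  fun b hb => h b (List.mem_cons_of_mem _ hb)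

theorem all (h0 : REP0) (h1 : REPadd) (h2 : REPmul) (h3 : REPdiv) (h4 : REPsel)
    {K : Type} [Field K] {τ : K → Prop} {A : Set K} {K0 : Subfield K} (N d : ℕ)
    (ht : ∀ a, τ a ↔ a ≠ 0) (hu : Un A) (hA : A ⊆ (K0 : Set K))
    {l : List (Node K)} (hl : Built τ A l) : Bd l d →
    ∃ l', Ok τ A (2 * d) l' ∧ (∀ b ∈ l, b ∈ l') ∧ (∀ b ∈ l, Rep K0 N d l' b) ∧
      l'.length ≤ 21 * (N + 1) * l.length := by
  induction hl with
  | nil => exact fun _ => ⟨[], ok_nil, by simp, by simp, by simp⟩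
  | const c hc _ ih =>
    intro hb
    obtain ⟨l', o, s, r, n⟩ := ih (tail hb)
    obtain ⟨l'', e, q⟩ := (h0 K τ A K0 N d l' hu o).1 c (hA hc) hc
    exact step s r n hb e q (Built.const c hc e.1.1)
  | var i _ ih =>
    intro hb
    obtain ⟨l', o, s, r, n⟩ := ih (tail hb)
    obtain ⟨l'', e, q⟩ := (h0 K τ A K0 N d l' hu o).2 (hb _ List.mem_cons_self).1 i
    exact step s r n hb e q (Built.var i e.1.1)
  | add _ ha hc ih =>
    intro hb
    obtain ⟨l', o, s, r, n⟩ := ih (tail hb)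
    have hd := hb _ List.mem_cons_self
    obtain ⟨l'', e, q⟩ := h1 K τ A K0 N d l' _ _ hu o (r _ ha) (r _ hc) hd.1 hd.2
    exact step s r n hb e q (Built.add e.1.1 (e.2.1 _ (s _ ha)) (e.2.1 _ (s _ hc)))
  | mul _ ha hc ih =>
    intro hb
    obtain ⟨l', o, s, r, n⟩ := ih (tail hb)
    have hd := hb _ List.mem_cons_self
    obtain ⟨l'', e, q⟩ := h2 K τ A K0 N d l' _ _ hu o (r _ ha) (r _ hc) hd.1 hd.2
    exact step s r n hb e q (Built.mul e.1.1 (e.2.1 _ (s _ ha)) (e.2.1 _ (s _ hc)))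
  | div _ ha hc ih =>
    intro hb
    obtain ⟨l', o, s, r, n⟩ := ih (tail hb)
    have hd := hb _ List.mem_cons_self
    obtain ⟨l'', e, q⟩ := h3 K τ A K0 N d l' _ _ ht hu o (r _ ha) (r _ hc) hd.1 hd.2
    exact step s r n hb e q (Built.div e.1.1 (e.2.1 _ (s _ ha)) (e.2.1 _ (s _ hc)))
  | sel _ ha hc hf ih =>
    intro hb
    obtain ⟨l', o, s, r, n⟩ := ih (tail hb)
    have hd := hb _ List.mem_cons_self
    obtain ⟨l'', e, q⟩ := h4 K τ A K0 N d l' _ _ _ ht hu o (s _ ha) (tail hb _ ha).1 (r _ ha) (r _ hc)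
      (r _ hf) hd.1 hd.2
    exact step s r n hb e q
      (Built.sel e.1.1 (e.2.1 _ (s _ ha)) (e.2.1 _ (s _ hc)) (e.2.1 _ (s _ hf)))

theorem cross {K : Type} [Field K] {τ : K → Prop} {A : Set K} {N D u v : ℕ} {l : List (Node K)}
    {p q p' q' : (Fin N → K) → K} (hu : Un A) (o : Ok τ A D l) (h1 : Has N l p u) (h2 : Has N l q v)
    (h3 : Has N l p' u) (h4 : Has N l q' v) (hD : u + v ≤ D) :
    ∃ l2, Ext τ A D 5 l l2 ∧ Has N l2 (fun y => q y * p' y - p y * q' y) D := by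
  obtain ⟨l1, e1, g1⟩ := ext_mul o h2 h3 (by omega)
  obtain ⟨l2, e2, g2⟩ := ext_mul e1.1 (h1.mono e1.2.1 le_rfl) (h4.mono e1.2.1 le_rfl) hD
  obtain ⟨l3, e3, g3⟩ := ext_smul e2.1 (-1) hu.2.2 g2 hD
  obtain ⟨l4, e4, g4⟩ := ext_add e3.1
    ((g1.mono e2.2.1 le_rfl).mono (e' := D) e3.2.1 (by omega))
    (g3.mono (fun _ h => h) hD) le_rfl
  exact ⟨l4, ((e1.trans e2).trans e3).trans e4, g4.congr fun y => by ring⟩

end Loc

theorem loc (h0 : REP0) (h1 : REPadd) (h2 : REPmul) (h3 : REPdiv) (h4 : REPsel) : LOC := by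
  intro K _ τ A K0 N r m d col l g ht hu hA hrN hok hg
  obtain ⟨hl, hb⟩ := hok
  obtain ⟨l', o, -, hr, hn⟩ := Loc.all h0 h1 h2 h3 h4 N d ht hu hA hl hb
  choose P Q p1 p2 p3 p4 p5 p6 p7 p8 p9 using fun a => hr (g a) (hg a)
  refine ⟨fun y a => P a y, fun y a => Q a y,
    ⟨fun y a => (p1 a y).trans (hb _ (hg a)).1, fun y a => (p2 a y).trans (hb _ (hg a)).2,
      fun y a => p3 a y, fun y a => p4 a y, fun y F hy => ?_⟩, ?_⟩
  · filter_upwards [eventually_all.2 fun a => p5 a y F hy] with y' hy'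
    exact ⟨funext fun a => (hy' a).1, funext fun a => (hy' a).2⟩
  · obtain ⟨l2, e, q⟩ := ext_family (ι := Fin m × Fin r) (k := 5) o
      (fun s y => aeval y (Q s.1 y) * aeval y (pderiv (col s.2) (P s.1 y)) -
        aeval y (P s.1 y) * aeval y (pderiv (col s.2) (Q s.1 y))) (fun _ => 2 * d)
      (fun s l1 o1 s1 => Loc.cross hu o1 ((p6 s.1).mono s1 le_rfl) ((p7 s.1).mono s1 le_rfl)
        ((p8 s.1 (col s.2)).mono s1 le_rfl) ((p9 s.1 (col s.2)).mono s1 le_rfl)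
        (by have := hb _ (hg s.1); omega))
    refine ⟨l2, e.1, ?_, fun a i => (q (a, i)).congr fun y => ?_⟩
    · have h5 := e.2.2
      simp only [Fintype.card_prod, Fintype.card_fin] at h5
      have h6 : m * r * 5 ≤ 21 * (N + 1) * m := by nlinarith
      rw [Nat.mul_add]
      exact h5.trans (Nat.add_le_add hn h6)
    · simp only [jac, Matrix.of_apply, map_sub, map_mul]

end Pool.Agent.MP_8a92de_lc.E43

end Row_loc

section Row_fl
namespace Pool.Agent.MP_8a92de_lc.E43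

open Polynomial Matrix

namespace fl

theorem jacobi {K n : Type} [CommRing K] [Fintype n] [DecidableEq n] (A : Matrix n n K[X]) :
    derivative A.det = (A.adjugate * A.map derivative).trace := by
  have h1 : ∀ j, (A.adjugate * A.map derivative) j j =
      (A.updateCol j fun i => derivative (A i j)).det := by
    intro j
    rw [← cramer_apply, cramer_eq_adjugate_mulVec]
    rfl
  simp only [trace, diag_apply, h1, det_apply', derivative_sum]
  rw [Finset.sum_comm]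
  refine Finset.sum_congr rfl fun σ _ => ?_
  rw [derivative_intCast_mul, derivative_prod_finset, Finset.mul_sum]
  refine Finset.sum_congr rfl fun j _ => ?_
  congr 1
  rw [← Finset.prod_erase_mul _ _ (Finset.mem_univ j), updateCol_self]
  congr 1
  exact Finset.prod_congr rfl fun i hi => by rw [updateCol_ne (Finset.ne_of_mem_erase hi)]

variable {K : Type} [Field K] {r : ℕ} (M : Matrix (Fin r) (Fin r) K)

noncomputable def B (k : ℕ) : Matrix (Fin r) (Fin r) K :=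
  (1 - (X : K[X]) • M.map C).adjugate.map fun p => p.coeff k

theorem key (i j : Fin r) :
    (1 - (X : K[X]) • M.map C).adjugate i j =
      X * (∑ l, C (M i l) * (1 - (X : K[X]) • M.map C).adjugate l j) +
        if i = j then M.charpolyRev else 0 := by
  have h := congrFun (congrFun (mul_adjugate (1 - (X : K[X]) • M.map C)) i) j
  rw [Matrix.sub_mul, Matrix.one_mul, Matrix.smul_mul, Matrix.sub_apply, Matrix.smul_apply, Matrix.smul_apply,
    Matrix.mul_apply, Matrix.one_apply] at h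
  simp only [Matrix.map_apply, smul_eq_mul, mul_ite, mul_one, mul_zero] at h
  rw [charpolyRev, ← h]
  ring

theorem B_zero : B M 0 = 1 := by
  ext i j
  rw [B, Matrix.map_apply, key, coeff_add, mul_coeff_zero, coeff_X_zero, zero_mul, zero_add, Matrix.one_apply]
  split_ifs
  · rw [coeff_zero_eq_eval_zero, eval_charpolyRev]
  · simp

theorem B_succ (k : ℕ) : B M (k + 1) = M * B M k + M.charpolyRev.coeff (k + 1) • 1 := by
  ext i j
  rw [B, Matrix.map_apply, key, coeff_add, coeff_X_mul, finsetSum_coeff, Matrix.add_apply, Matrix.mul_apply,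
    Matrix.smul_apply, Matrix.one_apply]
  congr 1
  · exact Finset.sum_congr rfl fun l _ => by rw [coeff_C_mul]; rfl
  · split_ifs <;> simp

theorem B_trace (k : ℕ) :
    M.charpolyRev.coeff (k + 1) * ((k + 1 : ℕ) : K) = -(M * B M k).trace := by
  have h := jacobi (1 - (X : K[X]) • M.map C)
  have h2 : (1 - (X : K[X]) • M.map C).map derivative = -M.map C := by
    ext1 i j
    simp only [Matrix.map_apply, Matrix.sub_apply, Matrix.smul_apply, smul_eq_mul, Matrix.neg_apply, Matrix.one_apply]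
    split_ifs <;> simp
  rw [h2, Matrix.mul_neg, trace_neg, trace_mul_comm] at h
  have h3 := congrArg (fun p : K[X] => p.coeff k) h
  simp only [coeff_derivative, coeff_neg] at h3
  rw [charpolyRev, Nat.cast_add, Nat.cast_one, h3]
  simp only [trace, diag_apply, Matrix.mul_apply, finsetSum_coeff, Matrix.map_apply, coeff_C_mul, B]

theorem coeff_eq [CharZero K] (k : ℕ) :
    M.charpolyRev.coeff (k + 1) = -((((k + 1 : ℕ) : K))⁻¹ * (M * B M k).trace) := by
  have h : ((k + 1 : ℕ) : K) ≠ 0 := Nat.cast_ne_zero.2 (Nat.succ_ne_zero k)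
  have h1 := B_trace M k
  rw [← mul_neg, ← h1]
  field_simp

theorem flN_eq [CharZero K] (k : ℕ) : flN M k = B M k := by
  induction k with
  | zero => rw [B_zero]; rfl
  | succ k ih => rw [B_succ, coeff_eq, flN, ih, neg_smul, sub_eq_add_neg]

end fl

theorem fl : FL := by
  intro K _ _ s M
  have h := fl.coeff_eq M s
  rw [← reverse_charpoly, coeff_reverse, charpoly_natDegree_eq_dim, Fintype.card_fin,
    revAt_le le_rfl, Nat.sub_self] at h
  rw [det_eq_sign_charpoly_coeff, Fintype.card_fin, h, fl.flN_eq]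
  ring

end Pool.Agent.MP_8a92de_lc.E43

end Row_fl

section Row_detc
namespace Pool.Agent.MP_8a92de_lc.E43

namespace detc

variable {K : Type} [Field K] {τ : K → Prop} {A : Set K} {n r D e : ℕ} {l : List (Node K)}

/-- product of two matrices and a multiple of its trace -/
theorem prod (M N : (Fin n → K) → Matrix (Fin r) (Fin r) K) {d : ℕ} (σ c : K) (hσ : σ ∈ A)
    (hc : c ∈ A) (hA : Un A) (h : Ok τ A D l)
    (hM : ∀ a b, Has n l (fun x => M x a b) e) (hN : ∀ a b, Has n l (fun x => N x a b) d)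
    (he : e + d ≤ D) : ∃ l', Ext τ A D (r * r * (2 * r + 1) + (r + 1) + 2 + 2) l l' ∧
      (∀ a b, Has n l' (fun x => (M x * N x) a b) (e + d)) ∧
      Has n l' (fun x => σ * (c * (M x * N x).trace)) (e + d) := by
  obtain ⟨l1, e1, g1⟩ := ext_family (ι := Fin r × Fin r) (k := 2 * r + 1) h
    (fun p x => (M x * N x) p.1 p.2) (fun _ => e + d) fun p l2 o2 s2 => by
      obtain ⟨l3, e3, g3⟩ := ext_dot (Finset.univ : Finset (Fin r)) o2 hA.1 (fun c x => M x p.1 c)
        (fun c x => N x c p.2) (fun c _ => (hM p.1 c).mono s2 le_rfl)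
        (fun c _ => (hN c p.2).mono s2 le_rfl) he
      rw [Finset.card_univ, Fintype.card_fin] at e3
      exact ⟨l3, e3, g3.congr fun x => (Matrix.mul_apply).symm⟩
  obtain ⟨l2, e2, g2⟩ := ext_sum (Finset.univ : Finset (Fin r)) e1.1 hA.1
    (fun a x => (M x * N x) a a)
    (fun a _ => g1 (a, a)) he
  obtain ⟨l3, e3, g3⟩ := ext_smul e2.1 c hc g2 he
  obtain ⟨l4, e4, g4⟩ := ext_smul e3.1 σ hσ g3 he
  rw [Finset.card_univ, Fintype.card_fin] at e2
  rw [Fintype.card_prod, Fintype.card_fin] at e1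
  exact ⟨l4, ((e1.trans e2).trans e3).trans e4,
    fun a b => (g1 (a, b)).mono (fun x hx => e4.2.1 x (e3.2.1 x (e2.2.1 x hx))) le_rfl, g4⟩

theorem fl (M : (Fin n → K) → Matrix (Fin r) (Fin r) K) (hA : Un A)
    (hi : ∀ k : ℕ, k ≤ r → ((k : K))⁻¹ ∈ A) (h : Ok τ A D l)
    (hM : ∀ a b, Has n l (fun x => M x a b) e) (k : ℕ) (hr : k ≤ r) (hk : k * e ≤ D) :
    ∃ l', Ext τ A D (2 + k * (r * r * (2 * r + 1) + (r + 1) + 2 + 2 + r * r)) l l' ∧
      ∀ a b, Has n l' (fun x => flN (M x) k a b) (k * e) := by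
  induction k with
  | zero =>
    obtain ⟨l1, e1, g1⟩ := ext_const (n := n) h 0 hA.1
    obtain ⟨l2, e2, g2⟩ := ext_const (n := n) e1.1 1 hA.2.1
    refine ⟨l2, (e1.trans e2).mono (by omega), fun a b => ?_⟩
    by_cases hab : a = b
    · exact (g2.mono (fun _ h => h) (Nat.zero_le _)).congr fun x => by
        rw [flN, hab, Matrix.one_apply_eq]
    · exact (g1.mono e2.2.1 (Nat.zero_le _)).congr fun x => by simp [flN, hab]
  | succ k ih =>
    have hk1 : e + k * e = (k + 1) * e := by ring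
    obtain ⟨l1, e1, g1⟩ := ih (by omega) (by omega)
    obtain ⟨l2, e2, g2, t2⟩ := prod M (fun x => flN (M x) k) (-1) (((k + 1 : ℕ) : K))⁻¹ hA.2.2
      (hi _ hr) hA e1.1
      (fun a b => (hM a b).mono e1.2.1 le_rfl) g1 (by omega)
    rw [hk1] at g2 t2
    obtain ⟨l3, e3, g3⟩ := ext_family (ι := Fin r × Fin r) (k := 1) e2.1
      (fun p x => flN (M x) (k + 1) p.1 p.2) (fun _ => (k + 1) * e) fun p l4 o4 s4 => by
        by_cases hab : p.1 = p.2
        · obtain ⟨l5, e5, g5⟩ := ext_add o4 ((g2 p.1 p.2).mono s4 le_rfl) (t2.mono s4 le_rfl) hk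
          refine ⟨l5, e5, g5.congr fun x => ?_⟩
          rw [flN, Matrix.sub_apply, Matrix.smul_apply, hab, Matrix.one_apply_eq, smul_eq_mul]
          ring
        · refine ⟨l4, (Ext.refl o4).mono (by omega), ((g2 p.1 p.2).mono s4 le_rfl).congr fun x => ?_⟩
          rw [flN, Matrix.sub_apply, Matrix.smul_apply, Matrix.one_apply_ne hab, smul_zero, sub_zero]
    rw [Fintype.card_prod, Fintype.card_fin] at e3
    exact ⟨l3, ((e1.trans e2).trans e3).mono (le_of_eq (by ring)), fun a b => g3 (a, b)⟩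

end detc

theorem detc (h : FL) : DET := by
  intro K _ _ τ A n r D e l M hA hi ho hM he
  cases r with
  | zero =>
    obtain ⟨l1, e1, g1⟩ := ext_const (n := n) ho 1 hA.2.1
    exact ⟨l1, e1.mono (by norm_num), (g1.mono (fun _ h => h) (Nat.zero_le _)).congr fun x => by simp⟩
  | succ s =>
    have hk1 : e + s * e = (s + 1) * e := by ring
    have hs : (-1 : K) ^ s ∈ A := by
      rcases neg_one_pow_eq_or K s with h1 | h1 <;> rw [h1]
      exacts [hA.2.1, hA.2.2]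
    obtain ⟨l1, e1, g1⟩ := detc.fl M hA hi ho hM s (by omega) (by omega)
    obtain ⟨l2, e2, -, t2⟩ := detc.prod M (fun x => flN (M x) s)
      ((-1) ^ s) (((s + 1 : ℕ) : K))⁻¹ hs (hi _ le_rfl) hA e1.1
      (fun a b => (hM a b).mono e1.2.1 le_rfl) g1 (by omega)
    rw [hk1] at t2
    refine ⟨l2, (e1.trans e2).mono ?_, t2.congr fun x => ?_⟩
    · have h1 : 20 * (s + 1 + 1) ^ 4 = 2 + s * ((s + 1) * (s + 1) * (2 * (s + 1) + 1) + (s + 1 + 1) + 2 +
          2 + (s + 1) * (s + 1)) + ((s + 1) * (s + 1) * (2 * (s + 1) + 1) + (s + 1 + 1) + 2 + 2) +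
          (18 * s ^ 4 + 150 * s ^ 3 + 462 * s ^ 2 + 621 * s + 309) := by ring
      omega
    · rw [h K s (M x)]

end Pool.Agent.MP_8a92de_lc.E43

end Row_detc

section Row_selc
namespace Pool.Agent.MP_8a92de_lc.E43

namespace selc

theorem aux {K : Type} [Field K] {τ : K → Prop} {A : Set K} {n N k D e : ℕ} {l : List (Node K)}
    (δ : Fin k → (Fin n → K) → K) (Y : Fin k → (Fin n → K) → Fin N → K)
    (hτ : ∀ a, τ (a * a) ↔ a ≠ 0) (hA : Un A) (h : Ok τ A D l) (hδ : ∀ j, Has n l (δ j) e)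
    (hY : ∀ j i, Has n l (fun x => Y j x i) 1) (he : 2 * e ≤ D) (hD : 1 ≤ D) (s : Finset (Fin k)) :
    ∃ (l' : List (Node K)) (W : (Fin n → K) → Fin N → K),
      Ext τ A D ((s.card + 1) * (N + 1)) l l' ∧ (∀ i, Has n l' (fun x => W x i) 1) ∧
      ∀ x, (∃ j ∈ s, δ j x ≠ 0) → ∃ j, δ j x ≠ 0 ∧ W x = Y j x := by
  classical
  induction s using Finset.induction_on with
  | empty =>
    obtain ⟨l1, e1, g1⟩ := ext_const (n := n) h 0 hA.1
    refine ⟨l1, fun _ _ => 0, e1.mono (by simp), fun _ => g1.mono (fun _ h => h) (Nat.zero_le _), ?_⟩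
    rintro x ⟨j, hj, -⟩
    simp at hj
  | insert j s hj ih =>
    obtain ⟨l1, W, e1, g1, w1⟩ := ih
    obtain ⟨l2, e2, b, hb, b1, -, -⟩ := ext_mul e1.1 ((hδ j).mono e1.2.1 le_rfl)
      ((hδ j).mono e1.2.1 le_rfl) (by omega)
    obtain ⟨l3, e3, g3⟩ := ext_family (ι := Fin N) (k := 1) e2.1
      (fun i y => if τ (b.val (ex y)) then Y j y i else W y i) (fun _ => 1)
      fun i l4 o4 s4 => ext_sel o4 (s4 b hb)
        ((hY j i).mono (fun a ha => s4 a (e2.2.1 a (e1.2.1 a ha))) le_rfl)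
        ((g1 i).mono (fun a ha => s4 a (e2.2.1 a ha)) le_rfl) hD
    refine ⟨l3, fun y i => if τ (b.val (ex y)) then Y j y i else W y i,
      ((e1.trans e2).trans e3).mono (le_of_eq ?_), g3, fun x hx => ?_⟩
    · rw [Finset.card_insert_of_notMem hj, Fintype.card_fin]
      ring
    · by_cases h0 : δ j x = 0
      · have h1 : ¬ τ (b.val (ex x)) := by
          rw [b1 x, hτ]
          exact fun h => h h0
        obtain ⟨j', hj', h2⟩ := hx
        rcases Finset.mem_insert.1 hj' with rfl | hj'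
        · exact absurd h0 h2
        · obtain ⟨j'', h3, h4⟩ := w1 x ⟨j', hj', h2⟩
          exact ⟨j'', h3, funext fun i => (if_neg h1).trans (congrFun h4 i)⟩
      · have h1 : τ (b.val (ex x)) := by
          rw [b1 x, hτ]
          exact h0
        exact ⟨j, h0, funext fun i => if_pos h1⟩

end selc

theorem selc : SEL := by
  intro K _ τ A n N k D e l δ Y hτ hA h hδ hY he hD
  obtain ⟨l', W, e1, g1, w1⟩ := selc.aux δ Y hτ hA h hδ hY he hD Finset.univ
  rw [Finset.card_univ, Fintype.card_fin] at e1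
  exact ⟨l', W, e1, g1, fun x ⟨j, hj⟩ => w1 x ⟨j, Finset.mem_univ j, hj⟩⟩

end Pool.Agent.MP_8a92de_lc.E43

end Row_selc

section Row_finc
namespace Pool.Agent.MP_8a92de_lc.E43

namespace finc

variable {K : Type} [Field K] {τ : K → Prop} {A : Set K}

omit [Field K] in
theorem out_map (F : Node K → Node K) (z z' : ℕ → K) (out : List (Node K × Node K))
    (h : ∀ o ∈ out, (F o.1).val z = o.1.val z' ∧ (F o.2).val z = o.2.val z') :
    outList τ (out.map fun o => (F o.1, F o.2)) z = outList τ out z' := by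
  induction out with
  | nil => rfl
  | cons o t ih =>
    have h1 := h o List.mem_cons_self
    have h2 := ih fun o' ho' => h o' (List.mem_cons_of_mem _ ho')
    unfold outList at h2 ⊢
    rw [List.map_cons]
    by_cases h0 : τ (o.1.val z')
    · rw [List.filter_cons_of_pos (by simpa [h1.1] using h0),
        List.filter_cons_of_pos (by simpa using h0), List.map_cons, List.map_cons, h2, h1.2]
    · rw [List.filter_cons_of_neg (by simpa [h1.1] using h0),
        List.filter_cons_of_neg (by simpa using h0), h2]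

theorem delta [CharZero K] (h1 : COMP) (h2 : DET) {n N r m D e : ℕ} {l l' : List (Node K)}
    (J : (Fin N → K) → Matrix (Fin m) (Fin r) K) (R : Matrix (Fin r) (Fin m) K)
    (Y : (Fin n → K) → Fin N → K) (hA : Un A) (hi : ∀ j : ℕ, j ≤ r → ((j : K))⁻¹ ∈ A)
    (hR : ∀ c a, R c a ∈ A) (h : Ok τ A D l) (h' : Ok τ A D l')
    (hJ : ∀ a i, Has N l' (fun y => J y a i) e) (hY : ∀ i, Has n l (fun x => Y x i) 1)
    (he : e ≤ D) (hre : r * e ≤ D) :
    ∃ l1, Ext τ A D (l'.length + 1 + r * r * (3 * m + 1) + 20 * (r + 1) ^ 4) l l1 ∧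
      Has n l1 (fun x => (R * J (Y x)).det) (r * e) := by
  obtain ⟨l1, e1, g1⟩ := h1 K τ A n N D l l' (fun i x => Y x i) hA h h' hY
  have g2 : ∀ a i, Has n l1 (fun x => J (Y x) a i) e := fun a i => by
    obtain ⟨b, hb, b1, b2, b3⟩ := hJ a i
    obtain ⟨c, hc, c1, c2, c3⟩ := g1 b hb
    exact ⟨c, hc, fun x => (c1 x).trans (b1 _), c2.trans b2, by omega⟩
  obtain ⟨l2, e2, g3⟩ := ext_family (ι := Fin r × Fin r) (k := 3 * m + 1) e1.1
    (fun p x => (R * J (Y x)) p.1 p.2) (fun _ => e) fun p l3 o3 s3 => by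
      obtain ⟨l4, e4, g4⟩ := ext_lin (Finset.univ : Finset (Fin m)) o3 hA.1 (fun a => R p.1 a)
        (fun a _ => hR p.1 a) (fun a x => J (Y x) a p.2)
        (fun a _ => (g2 a p.2).mono s3 le_rfl) he
      rw [Finset.card_univ, Fintype.card_fin] at e4
      exact ⟨l4, e4, g4.congr fun x => (Matrix.mul_apply).symm⟩
  rw [Fintype.card_prod, Fintype.card_fin] at e2
  obtain ⟨l3, e3, g4⟩ := h2 K τ A n r D e l2 (fun x => R * J (Y x)) hA hi e2.1
    (fun a b => g3 (a, b)) hre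
  exact ⟨l3, (e1.trans e2).trans e3, g4⟩

theorem num {N r m k X a b c : ℕ} (hX : 30 ≤ X) (hN : N ≤ X) (hr : r + 1 ≤ X) (hm : m ≤ X)
    (hk : k ≤ X) (hc : c ≤ X) (ha : a ≤ X) (hb : b ≤ X) :
    c + (k * (b + 1 + r * r * (3 * m + 1) + 20 * (r + 1) ^ 4) +
      (k + 1) * (N + 1) + (a + 1)) ≤ X ^ 7 := by
  have hr' : r ≤ X := by omega
  have h1 : c + (k * (b + 1 + r * r * (3 * m + 1) + 20 * (r + 1) ^ 4) +
      (k + 1) * (N + 1) + (a + 1)) ≤
      X + (X * (X + 1 + X * X * (3 * X + 1) + 20 * X ^ 4) + (X + 1) * (X + 1) + (X + 1)) := by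
    gcongr
  have h2 : X + (X * (X + 1 + X * X * (3 * X + 1) + 20 * X ^ 4) + (X + 1) * (X + 1) + (X + 1)) =
      20 * X ^ 5 + 3 * X ^ 4 + 1 * X ^ 3 + 2 * X ^ 2 + 5 * X ^ 1 + 2 * X ^ 0 := by ring
  have h3 : ∀ i ≤ 5, X ^ i ≤ X ^ 5 := fun i hi => Nat.pow_le_pow_right (by omega) hi
  have h4 : 900 * X ^ 5 ≤ X ^ 7 := by
    calc 900 * X ^ 5 = 30 * 30 * X ^ 5 := by norm_num
      _ ≤ X * X * X ^ 5 := by gcongr
      _ = X ^ 7 := by ring
  have := h3 4 (by omega)
  have := h3 3 (by omega)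
  have := h3 2 (by omega)
  have := h3 1 (by omega)
  have := h3 0 (by omega)
  omega

end finc

theorem finc (h1 : COMP) (h2 : DET) (h3 : SEL) : FIN := by
  intro K _ _ τ A n N r m k X D e l0 l l' out J R Y hτ hA hi hR hl0 hl hl' hout hJ hY hre he hD
    hX hN hr hm hk hll0 hll hll'
  classical
  obtain ⟨l3, e3, g3⟩ := ext_family (ι := Fin k)
    (k := l'.length + 1 + r * r * (3 * m + 1) + 20 * (r + 1) ^ 4) hl0
    (fun j x => (R j * J (Y j x)).det) (fun _ => r * e) fun j l1 o1 s1 =>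
      finc.delta h1 h2 J (R j) (Y j) hA hi (hR j) o1 hl' hJ
        (fun i => (hY j i).mono s1 le_rfl) he (by omega)
  obtain ⟨l4, W, e4, g4, w4⟩ := h3 K τ A n N k D (r * e) l3
    (fun j x => (R j * J (Y j x)).det) Y hτ hA e3.1 g3
    (fun j i => (hY j i).mono e3.2.1 le_rfl) hre hD
  obtain ⟨l5, e5, g5⟩ := h1 K τ A n N D l4 l (fun i x => W x i) hA e4.1 hl g4
  have g6 : ∀ a : Node K, ∃ b : Node K, a ∈ l → b ∈ l5 ∧
      ∀ x : Fin n → K, b.val (ex x) = a.val (ex (W x)) := fun a => by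
    by_cases ha : a ∈ l
    · obtain ⟨b, hb, b1, -⟩ := g5 a ha
      exact ⟨b, fun _ => ⟨hb, b1⟩⟩
    · exact ⟨a, fun h => absurd h ha⟩
  choose F hF using g6
  have e6 := ((e3.trans e4).trans e5).2.2
  simp only [Fintype.card_fin] at e6
  refine ⟨l5, out.map fun o => (F o.1, F o.2), W, e5.1,
    e6.trans (finc.num hX hN hr hm hk hll0 hll hll'), List.length_map _, fun o ho => ?_,
    fun x => finc.out_map F _ _ out fun o ho =>
      ⟨(hF _ (hout o ho).1).2 x, (hF _ (hout o ho).2).2 x⟩, w4⟩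
  obtain ⟨o', ho', rfl⟩ := List.mem_map.1 ho
  exact ⟨(hF _ (hout o' ho').1).1, (hF _ (hout o' ho').2).1⟩

end Pool.Agent.MP_8a92de_lc.E43

end Row_finc

section Row_rows
namespace Pool.Agent.MP_8a92de_lc.E43

namespace rows

variable {K : Type} [Field K]

def c0 : Node K := ⟨fun _ => 0, 0, 0⟩

def c1 : Node K := ⟨fun _ => 1, 0, 0⟩

open Classical in
noncomputable def s1 (τ : K → Prop) (o : Node K × Node K) : Node K :=
  ⟨fun z => if τ (o.1.val z) then o.2.val z else (c0 : Node K).val z, max o.2.num (c0 : Node K).num,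
    max o.2.den (c0 : Node K).den⟩

open Classical in
noncomputable def s2 (τ : K → Prop) (o : Node K × Node K) : Node K :=
  ⟨fun z => if τ (o.1.val z) then (c1 : Node K).val z else (c0 : Node K).val z,
    max (c1 : Node K).num (c0 : Node K).num, max (c1 : Node K).den (c0 : Node K).den⟩

theorem s1_pos {τ : K → Prop} {o : Node K × Node K} {z : ℕ → K} (h : τ (o.1.val z)) :
    (s1 τ o).val z = o.2.val z := by simp [s1, h]

theorem s1_neg {τ : K → Prop} {o : Node K × Node K} {z : ℕ → K} (h : ¬ τ (o.1.val z)) :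
    (s1 τ o).val z = 0 := by simp [s1, h, c0]

theorem s2_pos {τ : K → Prop} {o : Node K × Node K} {z : ℕ → K} (h : τ (o.1.val z)) :
    (s2 τ o).val z = 1 := by simp [s2, h, c1]

theorem s2_neg {τ : K → Prop} {o : Node K × Node K} {z : ℕ → K} (h : ¬ τ (o.1.val z)) :
    (s2 τ o).val z = 0 := by simp [s2, h, c0]

theorem build (τ : K → Prop) (A : Set K) (d : ℕ) (l : List (Node K)) (hl : Ok τ A d l) (h0 : c0 ∈ l)
    (h1 : c1 ∈ l) (out : List (Node K × Node K)) (ho : ∀ o ∈ out, o.1 ∈ l ∧ o.2 ∈ l) :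
    ∃ l1, Ext τ A d (2 * out.length) l l1 ∧ ∀ o ∈ out, s1 τ o ∈ l1 ∧ s2 τ o ∈ l1 := by
  induction out with
  | nil => exact ⟨l, (Ext.refl hl).mono (Nat.zero_le _), by simp⟩
  | cons o out ih =>
    obtain ⟨l1, e1, q1⟩ := ih fun p hp => ho p (List.mem_cons_of_mem _ hp)
    obtain ⟨a1, a2⟩ := ho o List.mem_cons_self
    have b2 := hl.2 _ a2
    have e2 : Ext τ A d 1 l1 (s1 τ o :: l1) :=
      ext_cons e1.1 (Built.sel e1.1.1 (e1.2.1 _ a1) (e1.2.1 _ a2) (e1.2.1 _ h0))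
        (max_le b2.1 (Nat.zero_le _)) (max_le b2.2 (Nat.zero_le _))
    have e12 := e1.trans e2
    have e3 : Ext τ A d 1 (s1 τ o :: l1) (s2 τ o :: s1 τ o :: l1) :=
      ext_cons e2.1 (Built.sel e2.1.1 (e12.2.1 _ a1) (e12.2.1 _ h1) (e12.2.1 _ h0))
        (max_le (Nat.zero_le _) (Nat.zero_le _)) (max_le (Nat.zero_le _) (Nat.zero_le _))
    refine ⟨_, (e12.trans e3).mono (by simp only [List.length_cons]; omega), fun p hp => ?_⟩
    rcases List.mem_cons.1 hp with rfl | hp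
    · exact ⟨List.mem_cons_of_mem _ List.mem_cons_self, List.mem_cons_self⟩
    · exact ⟨e3.2.1 _ (e2.2.1 _ (q1 p hp).1), e3.2.1 _ (e2.2.1 _ (q1 p hp).2)⟩

omit [Field K] in
theorem mem_out {τ : K → Prop} {out : List (Node K × Node K)} {z : ℕ → K} {v : K} :
    v ∈ outList τ out z ↔ ∃ o ∈ out, τ (o.1.val z) ∧ o.2.val z = v := by
  simp only [outList, List.mem_map, List.mem_filter, decide_eq_true_eq]
  exact ⟨fun ⟨o, ⟨h1, h2⟩, h3⟩ => ⟨o, h1, h2, h3⟩, fun ⟨o, h1, h2, h3⟩ => ⟨o, ⟨h1, h2⟩, h3⟩⟩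

theorem out_eq (τ : K → Prop) (z z' : ℕ → K) (out : List (Node K × Node K))
    (h : ∀ o ∈ out, (s1 τ o).val z = (s1 τ o).val z' ∧ (s2 τ o).val z = (s2 τ o).val z') :
    outList τ out z = outList τ out z' := by
  induction out with
  | nil => rfl
  | cons o out ih =>
    have ih' := ih fun p hp => h p (List.mem_cons_of_mem _ hp)
    obtain ⟨a1, a2⟩ := h o List.mem_cons_self
    unfold outList at ih' ⊢
    by_cases t : τ (o.1.val z)
    · by_cases t' : τ (o.1.val z')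
      · rw [s1_pos t, s1_pos t'] at a1
        simp only [List.filter_cons, t, t', decide_true, if_true, List.map_cons, ih', a1]
      · rw [s2_pos t, s2_neg t'] at a2
        exact absurd a2 one_ne_zero
    · by_cases t' : τ (o.1.val z')
      · rw [s2_neg t, s2_pos t'] at a2
        exact absurd a2 zero_ne_one
      · simp only [List.filter_cons, t, t', decide_false, Bool.false_eq_true, if_false, ih']

end rows

theorem rows : ROWS := by
  intro K _ τ A d l out hA hl ho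
  have e1 : Ext τ A d 1 l (rows.c0 :: l) :=
    ext_cons hl (Built.const 0 hA.1 hl.1) (Nat.zero_le _) (Nat.zero_le _)
  have e2 : Ext τ A d 1 (rows.c0 :: l) (rows.c1 :: rows.c0 :: l) :=
    ext_cons e1.1 (Built.const 1 hA.2.1 e1.1.1) (Nat.zero_le _) (Nat.zero_le _)
  have e12 := e1.trans e2
  obtain ⟨l1, e3, q⟩ := rows.build τ A d _ e2.1 (List.mem_cons_of_mem _ List.mem_cons_self)
    List.mem_cons_self out fun o h => ⟨e12.2.1 _ (ho o h).1, e12.2.1 _ (ho o h).2⟩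
  obtain ⟨G, hG⟩ : ∃ G, G = out.map (rows.s1 τ) ++ out.map (rows.s2 τ) := ⟨_, rfl⟩
  have hm : ∀ a, a ∈ G ↔ ∃ o ∈ out, rows.s1 τ o = a ∨ rows.s2 τ o = a := by
    intro a
    rw [hG, List.mem_append, List.mem_map, List.mem_map]
    constructor
    · rintro (⟨o, h1, h2⟩ | ⟨o, h1, h2⟩)
      · exact ⟨o, h1, Or.inl h2⟩
      · exact ⟨o, h1, Or.inr h2⟩
    · rintro ⟨o, h1, h2 | h2⟩
      · exact Or.inl ⟨o, h1, h2⟩
      · exact Or.inr ⟨o, h1, h2⟩
  have hget : ∀ a ∈ G, ∃ i, G.get i = a := fun a ha => List.mem_iff_get.1 ha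
  refine ⟨l1, G.length, G.get, (e12.trans e3).mono (by omega), ?_, fun a => ?_,
    fun z z' h => ?_, fun z a => ?_, fun z v hv => ?_⟩
  · rw [hG, List.length_append, List.length_map, List.length_map]
    omega
  · obtain ⟨o, h1, h2 | h2⟩ := (hm _).1 (List.get_mem G a)
    · exact h2 ▸ (q o h1).1
    · exact h2 ▸ (q o h1).2
  · refine rows.out_eq τ z z' out fun o h1 => ⟨?_, ?_⟩
    · obtain ⟨i, hi⟩ := hget _ ((hm _).2 ⟨o, h1, Or.inl rfl⟩)
      exact hi ▸ h i
    · obtain ⟨i, hi⟩ := hget _ ((hm _).2 ⟨o, h1, Or.inr rfl⟩)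
      exact hi ▸ h i
  · obtain ⟨o, h1, h2 | h2⟩ := (hm _).1 (List.get_mem G a)
    · rw [← h2]
      by_cases t : τ (o.1.val z)
      · exact Or.inl (rows.mem_out.2 ⟨o, h1, t, (rows.s1_pos t).symm⟩)
      · exact Or.inr (Or.inl (rows.s1_neg t))
    · rw [← h2]
      by_cases t : τ (o.1.val z)
      · exact Or.inr (Or.inr (rows.s2_pos t))
      · exact Or.inr (Or.inl (rows.s2_neg t))
  · obtain ⟨o, h1, t, h2⟩ := rows.mem_out.1 hv
    obtain ⟨i, hi⟩ := hget _ ((hm _).2 ⟨o, h1, Or.inl rfl⟩)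
    exact ⟨i, by rw [hi, rows.s1_pos t, h2]⟩

end Pool.Agent.MP_8a92de_lc.E43

end Row_rows

section Row_aff
namespace Pool.Agent.MP_8a92de_lc.E43

namespace aff

theorem lin {K : Type} [Field K] {τ : K → Prop} {A : Set K} {n D : ℕ} {l : List (Node K)}
    (hA : Un A) (h : Ok τ A D l) (hD : 1 ≤ D) (hv : ∀ t : Fin n, Has n l (fun y => y t) 1)
    (c0 : K) (c : Fin n → K) (h0 : c0 ∈ A) (hc : ∀ t, c t ∈ A) :
    ∃ l', Ext τ A D (3 * n + 3) l l' ∧ Has n l' (fun x => c0 + ∑ t, c t * x t) 1 := by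
  obtain ⟨l1, e1, g1⟩ := ext_lin (Finset.univ : Finset (Fin n)) h hA.1 c (fun t _ => hc t)
    (fun t y => y t) (fun t _ => hv t) hD
  obtain ⟨l2, e2, g2⟩ := ext_const (n := n) e1.1 c0 h0
  obtain ⟨l3, e3, g3⟩ := ext_add e2.1 (g2.mono (fun _ h => h) (Nat.zero_le 1))
    (g1.mono e2.2.1 le_rfl) hD
  rw [Finset.card_univ, Fintype.card_fin] at e1
  exact ⟨l3, (e1.trans e2).trans e3, g3⟩

theorem one {K : Type} [Field K] {τ : K → Prop} {A : Set K} {n M m D : ℕ} {l : List (Node K)}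
    (θ : Par n M m → K) (hA : Un A) (hθ : ∀ s, θ s ∈ A) (h : Ok τ A D l) (hD : 1 ≤ D)
    (hv : ∀ t : Fin n, Has n l (fun y => y t) 1) : ∀ i : Fin (M + (n + 1)),
    ∃ l', Ext τ A D (3 * n + 3) l l' ∧ Has n l' (fun x => gP θ x i) 1 := by
  refine pt_cases (fun i => ?_) (fun t => ?_) ?_
  · obtain ⟨l1, e1, g1⟩ := lin hA h hD hv (θ (.inr (.inl (i, none))))
      (fun t => θ (.inr (.inl (i, some t)))) (hθ _) fun t => hθ _
    exact ⟨l1, e1, g1.congr fun x => (pt_w (wP θ x) x _ i).symm⟩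
  · exact ⟨l, (Ext.refl h).mono (Nat.zero_le _), (hv t).congr fun x => (pt_x (wP θ x) x _ t).symm⟩
  · obtain ⟨l1, e1, g1⟩ := ext_const (n := n) h (θ (.inl ())) (hθ _)
    obtain ⟨l2, e2, g2⟩ := ext_mul e1.1 g1 g1 (Nat.zero_le D)
    exact ⟨l2, (e1.trans e2).mono (by omega), (g2.mono (fun _ h => h) (Nat.zero_le 1)).congr
      fun x => (sq _).symm.trans (pt_t (wP θ x) x _).symm⟩

end aff

theorem aff : AFF := by
  intro K _ τ A n M m k D θ hA hθ hD
  obtain ⟨l1, e1, g1⟩ := ext_family (n := n) (ι := Fin n) (k := 1)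
    (ok_nil (τ := τ) (A := A) (D := D)) (fun t y => y t) (fun _ => 1)
    fun t l0 o0 _ => ext_var o0 hD t
  obtain ⟨l2, e2, g2⟩ := ext_family (ι := Fin k × Fin (M + (n + 1))) (k := 3 * n + 3) e1.1
    (fun p x => gP (θ p.1) x p.2) (fun _ => 1) fun p l0 o0 s0 =>
      aff.one (θ p.1) hA (hθ p.1) o0 hD (fun t => (g1 t).mono s0 le_rfl) p.2
  have e3 := (e1.trans e2).2.2
  simp only [Fintype.card_prod, Fintype.card_fin, List.length_nil, Nat.zero_add] at e3
  refine ⟨l2, e2.1, e3.trans ?_, fun j i => g2 (j, i)⟩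
  obtain ⟨N, hN⟩ : ∃ N, N = M + (n + 1) := ⟨_, rfl⟩
  rw [← hN]
  have h1 : n * 1 ≤ N * N := (show n * 1 ≤ N * 1 by omega).trans (Nat.mul_le_mul_left N (by omega))
  have h2 : k * N * (3 * n + 3) ≤ k * N * (3 * N) := Nat.mul_le_mul_left _ (by omega)
  have h3 : 10 * (k + 1) * N ^ 2 = N * N + k * N * (3 * N) + (7 * k + 9) * N ^ 2 := by ring
  omega

end Pool.Agent.MP_8a92de_lc.E43

end Row_aff

section Row_elimc
namespace Pool.Agent.MP_8a92de_lc.E43

namespace elimc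

variable {K : Type} [Field K] {τ : K → Prop} {S : Set K}

theorem app {l l' : List (Node K)} (h : Built τ S l) (h' : Built τ S l') : Built τ S (l ++ l') := by
  induction h with
  | nil => exact h'
  | const c hc _ ih => exact .const c hc ih
  | var i _ ih => exact .var i ih
  | add _ ha hb ih => exact .add ih (List.mem_append_left _ ha) (List.mem_append_left _ hb)
  | mul _ ha hb ih => exact .mul ih (List.mem_append_left _ ha) (List.mem_append_left _ hb)
  | div _ ha hb ih => exact .div ih (List.mem_append_left _ ha) (List.mem_append_left _ hb)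
  | sel _ ha hb hc ih =>
    exact .sel ih (List.mem_append_left _ ha) (List.mem_append_left _ hb)
      (List.mem_append_left _ hc)

omit [Field K] in
theorem step {l l' : List (Node K)} {s : ℕ} (a : Node K) (h1 : ∀ b ∈ l, b ∈ l')
    (h2 : l'.length ≤ l.length * (s + 1)) :
    (∀ b ∈ a :: l, b ∈ a :: l') ∧ (a :: l').length ≤ (a :: l).length * (s + 1) :=
  ⟨fun b hb => (List.mem_cons.1 hb).elim (fun e => e ▸ List.mem_cons_self)
    fun h => List.mem_cons_of_mem _ (h1 b h), by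
      rw [List.length_cons, List.length_cons, Nat.add_mul]; omega⟩

end elimc

theorem elimc : ELIMC := by
  intro K _ τ A S s l h hc
  induction h with
  | nil => exact ⟨[], .nil, fun _ h => h, by simp⟩
  | const c hA _ ih =>
    obtain ⟨l', h0, h1, h2⟩ := ih
    obtain ⟨lc, c0, c1, c2⟩ := hc c hA
    refine ⟨lc ++ l', elimc.app c0 h0, fun b hb => ?_, ?_⟩
    · rcases List.mem_cons.1 hb with rfl | hb
      · exact List.mem_append_left _ c2
      · exact List.mem_append_right _ (h1 b hb)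
    · rw [List.length_append, List.length_cons, Nat.add_mul]; omega
  | var i _ ih =>
    obtain ⟨l', h0, h1, h2⟩ := ih
    exact ⟨_, .var i h0, elimc.step _ h1 h2⟩
  | add _ ha hb ih =>
    obtain ⟨l', h0, h1, h2⟩ := ih
    exact ⟨_, .add h0 (h1 _ ha) (h1 _ hb), elimc.step _ h1 h2⟩
  | mul _ ha hb ih =>
    obtain ⟨l', h0, h1, h2⟩ := ih
    exact ⟨_, .mul h0 (h1 _ ha) (h1 _ hb), elimc.step _ h1 h2⟩
  | div _ ha hb ih =>
    obtain ⟨l', h0, h1, h2⟩ := ih
    exact ⟨_, .div h0 (h1 _ ha) (h1 _ hb), elimc.step _ h1 h2⟩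
  | sel _ ha hb hc' ih =>
    obtain ⟨l', h0, h1, h2⟩ := ih
    exact ⟨_, .sel h0 (h1 _ ha) (h1 _ hb) (h1 _ hc'), elimc.step _ h1 h2⟩

end Pool.Agent.MP_8a92de_lc.E43

end Row_elimc

section Row_powc
namespace Pool.Agent.MP_8a92de_lc.E43

namespace powc

variable {K : Type} [Field K] {τ : K → Prop} {S : Set K}

/-- the gate of a constant -/
def nd (a : K) : Node K := ⟨fun _ => a, 0, 0⟩

theorem add {l : List (Node K)} {a b : K} (h : Built τ S l) (ha : nd a ∈ l) (hb : nd b ∈ l) :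
    Built τ S (nd (a + b) :: l) := Built.add h ha hb

theorem mul {l : List (Node K)} {a b : K} (h : Built τ S l) (ha : nd a ∈ l) (hb : nd b ∈ l) :
    Built τ S (nd (a * b) :: l) := Built.mul h ha hb

theorem div {l : List (Node K)} {a b : K} (h : Built τ S l) (ha : nd a ∈ l) (hb : nd b ∈ l) :
    Built τ S (nd (a / b) :: l) := Built.div h ha hb

theorem nat (h : Un S) (k : ℕ) :
    ∃ l, Built τ S l ∧ l.length ≤ k + 2 ∧ nd (1 : K) ∈ l ∧ nd (k : K) ∈ l := by
  induction k with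
  | zero =>
    exact ⟨nd 1 :: nd 0 :: [], .const 1 h.2.1 (.const 0 h.1 .nil), le_rfl, List.mem_cons_self,
      by rw [Nat.cast_zero]; exact List.mem_cons_of_mem _ List.mem_cons_self⟩
  | succ k ih =>
    obtain ⟨l, h0, h1, h2, h3⟩ := ih
    exact ⟨_, add h0 h3 h2, by rw [List.length_cons]; omega, List.mem_cons_of_mem _ h2,
      by rw [Nat.cast_succ]; exact List.mem_cons_self⟩

theorem pw (h : Un S) {c : K} (hc : c ∈ S) (t : ℕ) : ∀ k < 2 ^ t,
    ∃ l, Built τ S l ∧ l.length ≤ 2 * t + 2 ∧ nd c ∈ l ∧ nd (c ^ k) ∈ l := by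
  induction t with
  | zero =>
    intro k hk
    obtain rfl : k = 0 := by omega
    exact ⟨nd c :: nd 1 :: [], .const c hc (.const 1 h.2.1 .nil), le_rfl, List.mem_cons_self,
      by rw [pow_zero]; exact List.mem_cons_of_mem _ List.mem_cons_self⟩
  | succ t ih =>
    intro k hk
    obtain ⟨l, h0, h1, h2, h3⟩ := ih (k / 2) (by rw [pow_succ] at hk; omega)
    have h4 := mul h0 h3 h3
    have h5 := mul h4 List.mem_cons_self (List.mem_cons_of_mem _ h2)
    refine ⟨_, h5, by rw [List.length_cons, List.length_cons]; omega,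
      List.mem_cons_of_mem _ (List.mem_cons_of_mem _ h2), ?_⟩
    rcases Nat.mod_two_eq_zero_or_one k with e | e
    · have : c ^ k = c ^ (k / 2) * c ^ (k / 2) := by
        rw [← pow_add, show k / 2 + k / 2 = k by omega]
      rw [this]
      exact List.mem_cons_of_mem _ List.mem_cons_self
    · have : c ^ k = c ^ (k / 2) * c ^ (k / 2) * c := by
        rw [← pow_add, ← pow_succ, show k / 2 + k / 2 + 1 = k by omega]
      rw [this]
      exact List.mem_cons_self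

end powc

theorem powc : POWC := by
  intro K _ τ S c t hu hc a ha
  rcases ha with ha | ⟨k, hk, rfl⟩ | ⟨k, hk, rfl⟩
  · exact ⟨_, .const a ha .nil, by simp, List.mem_cons_self⟩
  · obtain ⟨l, h0, h1, h2, h3⟩ := powc.nat (τ := τ) hu k
    refine ⟨_, powc.div h0 h2 h3, by rw [List.length_cons]; omega, ?_⟩
    rw [one_div]
    exact List.mem_cons_self
  · obtain ⟨l, h0, h1, -, h3⟩ := powc.pw (τ := τ) hu hc t k hk
    exact ⟨l, h0, by omega, h3⟩

end Pool.Agent.MP_8a92de_lc.E43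

end Row_powc

section Row_sred
namespace Pool.Agent.MP_8a92de_lc.E43

namespace sred

variable {τ : ℝ → Prop} {S : Set ℝ}

/-- `φ` can be added to any circuit with at most `k` new gates -/
def C (τ : ℝ → Prop) (S : Set ℝ) (k : ℕ) (φ : (ℕ → ℝ) → ℝ) : Prop :=
  ∀ l, Gates τ S l → ∃ l', Gates τ S l' ∧ (∀ a ∈ l, a ∈ l') ∧ l'.length ≤ l.length + k ∧ φ ∈ l'

variable {k k' k'' : ℕ} {φ ψ χ : (ℕ → ℝ) → ℝ}

theorem C.mono (h : C τ S k φ) (hk : k ≤ k') : C τ S k' φ := fun l hl =>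
  let ⟨l', h1, h2, h3, h4⟩ := h l hl
  ⟨l', h1, h2, h3.trans (Nat.add_le_add_left hk _), h4⟩

theorem const (c : ℝ) (hc : c ∈ S) : C τ S 1 fun _ => c := fun _ hl =>
  ⟨_, Gates.const c hc hl, fun _ h => List.mem_cons_of_mem _ h, le_rfl, List.mem_cons_self⟩

theorem var (i : ℕ) : C τ S 1 fun z => z i := fun _ hl =>
  ⟨_, Gates.var i hl, fun _ h => List.mem_cons_of_mem _ h, le_rfl, List.mem_cons_self⟩

theorem C.mul (h : C τ S k φ) (h' : C τ S k' ψ) : C τ S (k + k' + 1) fun z => φ z * ψ z :=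
  fun l hl => by
  obtain ⟨l1, a1, a2, a3, a4⟩ := h l hl
  obtain ⟨l2, b1, b2, b3, b4⟩ := h' l1 a1
  exact ⟨_, Gates.mul b1 (b2 _ a4) b4, fun _ h => List.mem_cons_of_mem _ (b2 _ (a2 _ h)),
    by rw [List.length_cons]; omega, List.mem_cons_self⟩

open Classical in
theorem C.sel (h : C τ S k φ) (h' : C τ S k' ψ) (h'' : C τ S k'' χ) :
    C τ S (k + k' + k'' + 1) fun z => if τ (φ z) then ψ z else χ z := fun l hl => by
  obtain ⟨l1, a1, a2, a3, a4⟩ := h l hl
  obtain ⟨l2, b1, b2, b3, b4⟩ := h' l1 a1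
  obtain ⟨l3, c1, c2, c3, c4⟩ := h'' l2 b1
  exact ⟨_, Gates.sel c1 (c2 _ (b2 _ a4)) (c2 _ b4) c4,
    fun _ h => List.mem_cons_of_mem _ (c2 _ (b2 _ (a2 _ h))),
    by rw [List.length_cons]; omega, List.mem_cons_self⟩

theorem outs (P : List (((ℕ → ℝ) → ℝ) × ((ℕ → ℝ) → ℝ)))
    (h : ∀ o ∈ P, C τ S k o.1 ∧ C τ S k o.2) :
    ∃ l, Gates τ S l ∧ l.length ≤ P.length * (2 * k) ∧ ∀ o ∈ P, o.1 ∈ l ∧ o.2 ∈ l := by
  induction P with
  | nil => exact ⟨[], Gates.nil, by simp, by simp⟩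
  | cons o P ih =>
    obtain ⟨l, h1, h2, h4⟩ := ih fun o ho => h o (List.mem_cons_of_mem _ ho)
    obtain ⟨l1, a1, a2, a3, a4⟩ := (h o List.mem_cons_self).1 l h1
    obtain ⟨l2, b1, b2, b3, b4⟩ := (h o List.mem_cons_self).2 l1 a1
    refine ⟨l2, b1, by rw [List.length_cons, Nat.add_mul]; omega, fun o' ho' => ?_⟩
    rcases List.mem_cons.1 ho' with rfl | ho'
    · exact ⟨b2 _ a4, b4⟩
    · exact ⟨b2 _ (a2 _ (h4 o' ho').1), b2 _ (a2 _ (h4 o' ho').2)⟩

theorem out_append (P Q : List (((ℕ → ℝ) → ℝ) × ((ℕ → ℝ) → ℝ))) (z : ℕ → ℝ) :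
    outputs τ (P ++ Q) z = outputs τ P z ++ outputs τ Q z := by
  simp only [outputs, List.filter_append, List.map_append]

theorem out_pos {ι : Type} (V : List ι) (v : ι → (ℕ → ℝ) → ℝ) {z : ℕ → ℝ} (h : τ (φ z)) :
    outputs τ (V.map fun i => (φ, v i)) z = V.map fun i => v i z := by
  unfold outputs
  rw [List.filter_eq_self.2, List.map_map]
  · rfl
  · intro o ho
    obtain ⟨i, -, rfl⟩ := List.mem_map.1 ho
    simpa using h

theorem out_neg {ι : Type} (V : List ι) (v : ι → (ℕ → ℝ) → ℝ) {z : ℕ → ℝ} (h : ¬ τ (φ z)) :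
    outputs τ (V.map fun i => (φ, v i)) z = [] := by
  unfold outputs
  rw [List.filter_eq_nil_iff.2, List.map_nil]
  intro o ho
  obtain ⟨i, -, rfl⟩ := List.mem_map.1 ho
  simpa using h

open Classical in
/-- positive exactly when the first `m` entries are positive -/
noncomputable def al (τ : ℝ → Prop) : ℕ → (ℕ → ℝ) → ℝ
  | 0 => fun _ => 1
  | m + 1 => fun z => if τ (z m) then al τ m z else 0

theorem al_cost (h0 : (0 : ℝ) ∈ S) (h1 : (1 : ℝ) ∈ S) (m : ℕ) : C τ S (3 * m + 1) (al τ m) := by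
  induction m with
  | zero => exact const 1 h1
  | succ m ih => exact ((var m).sel ih (const 0 h0)).mono (by omega)

theorem al_pos (m : ℕ) (z : ℕ → ℝ) : 0 < al (fun a => 0 < a) m z ↔ ∀ i < m, 0 < z i := by
  induction m with
  | zero => simp [al]
  | succ m ih =>
    rw [Nat.forall_lt_succ_right, ← ih, al]
    by_cases h : 0 < z m <;> simp [h]

open Classical in
/-- positive exactly in the second mode with all entries positive -/
noncomputable def yes (τ : ℝ → Prop) (m p : ℕ) (z : ℕ → ℝ) : ℝ :=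
  if τ (-1 * z p) then al τ m z else 0

open Classical in
/-- the pairs of the reduction -/
noncomputable def prs (τ : ℝ → Prop) (xy xn : List ℝ) (m n : ℕ) :
    List (((ℕ → ℝ) → ℝ) × ((ℕ → ℝ) → ℝ)) :=
  (xn.map fun c => (fun z => if τ (z (m + n)) then 0 else if τ (yes τ m (m + n) z) then 0 else 1,
      fun _ => c)) ++
    (xy.map fun c => (yes τ m (m + n), fun _ => c)) ++
    List.map (fun l : Fin n => (fun z => z (m + n), fun z => z (m + l))) (List.finRange n)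

theorem prs_cost (xy xn : List ℝ) (m n : ℕ) (h0 : (0 : ℝ) ∈ S) (h1 : (1 : ℝ) ∈ S)
    (h2 : (-1 : ℝ) ∈ S) (hy : ∀ c ∈ xy, c ∈ S) (hn : ∀ c ∈ xn, c ∈ S) :
    ∀ o ∈ prs τ xy xn m n, C τ S (3 * m + 12) o.1 ∧ C τ S (3 * m + 12) o.2 := by
  have ht : C τ S (3 * m + 6) (yes τ m (m + n)) :=
    ((((const (-1) h2).mul (var (m + n))).sel (al_cost h0 h1 m) (const 0 h0))).mono (by omega)
  intro o ho
  simp only [prs, List.mem_append, List.mem_map] at ho
  rcases ho with (⟨c, hc, rfl⟩ | ⟨c, hc, rfl⟩) | ⟨l, -, rfl⟩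
  · exact ⟨((var _).sel (const 0 h0) (ht.sel (const 0 h0) (const 1 h1))).mono (by omega),
      (const c (hn c hc)).mono (by omega)⟩
  · exact ⟨ht.mono (by omega), (const c (hy c hc)).mono (by omega)⟩
  · exact ⟨(var _).mono (by omega), (var _).mono (by omega)⟩

end sred

theorem sred (_h : FROMDEG) : SRED := by
  classical
  intro L xy xn hy hn
  refine ⟨fun y => outputs (fun a => 0 < a) (sred.prs (fun a => 0 < a) xy xn
      (y.length - ((Nat.unpair y.length).1 + 1)) (Nat.unpair y.length).1) fun i => y.getD i 0,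
    ⟨{0, 1, -1} ∪ (xy.toFinset ∪ xn.toFinset), xn.length + xy.length + 1 + 5, fun N => ?_⟩,
    fun y => ?_⟩
  · obtain ⟨l, a1, a2, a4⟩ := sred.outs _ (sred.prs_cost (τ := fun a => 0 < a)
      (S := (({0, 1, -1} ∪ (xy.toFinset ∪ xn.toFinset) : Finset ℝ) : Set ℝ)) xy xn
      (N - ((Nat.unpair N).1 + 1)) (Nat.unpair N).1 (by simp) (by simp) (by simp)
      (fun c hc => by simp [hc]) fun c hc => by simp [hc])
    have b1 : (sred.prs (fun a => 0 < a) xy xn (N - ((Nat.unpair N).1 + 1))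
        (Nat.unpair N).1).length ≤ (N + 2) ^ (xn.length + xy.length + 1) := by
      have c1 := Nat.unpair_left_le N
      have c2 : xn.length + xy.length + 1 ≤ (N + 2) ^ (xn.length + xy.length) :=
        (Nat.succ_le_of_lt Nat.lt_two_pow_self).trans (Nat.pow_le_pow_left (by omega) _)
      have c3 := Nat.mul_le_mul_right (N + 2) c2
      simp only [sred.prs, List.length_append, List.length_map, List.length_finRange]
      rw [pow_succ]
      nlinarith
    have b2 : 2 * (3 * (N - ((Nat.unpair N).1 + 1)) + 12) ≤ (N + 2) ^ 5 := by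
      have : 2 ^ 4 ≤ (N + 2) ^ 4 := Nat.pow_le_pow_left (by omega) _
      have := Nat.mul_le_mul_right (N + 2) this
      rw [pow_succ _ 4]
      omega
    refine ⟨l, _, a1, a2.trans ?_, b1.trans ?_, a4, fun x hx => by rw [← hx]⟩
    · rw [pow_add _ _ 5]
      exact Nat.mul_le_mul b1 b2
    · exact Nat.pow_le_pow_right (by omega) (by omega)
  · obtain ⟨z, hz⟩ : ∃ z : ℕ → ℝ, z = fun i => y.getD i 0 := ⟨_, rfl⟩
    obtain ⟨n, e1⟩ : ∃ n, n = (Nat.unpair y.length).1 := ⟨_, rfl⟩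
    obtain ⟨m, e2⟩ : ∃ m, m = y.length - (n + 1) := ⟨_, rfl⟩
    have e3 : y ∈ SL L ↔ (0 < z (m + n) ∧ (List.ofFn fun l : Fin n => z (m + l)) ∈ L) ∨
        (z (m + n) < 0 ∧ ∀ i < m, 0 < z i) := by
      subst e2 e1 hz
      exact Iff.rfl
    have e4 : 0 < sred.yes (fun a => 0 < a) m (m + n) z ↔ z (m + n) < 0 ∧ ∀ i < m, 0 < z i := by
      rw [← sred.al_pos, sred.yes]
      by_cases h : z (m + n) < 0 <;> simp [h]
    beta_reduce
    rw [e3, ← e4, ← hz, ← e1, ← e2, sred.prs, sred.out_append, sred.out_append]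
    by_cases ha : 0 < z (m + n)
    · have hb : ¬ 0 < sred.yes (fun a => 0 < a) m (m + n) z := fun h => (e4.1 h).1.not_gt ha
      rw [sred.out_neg _ _ (by simp [ha]), sred.out_neg _ _ hb, sred.out_pos _ _ ha,
        List.nil_append, List.nil_append, List.ofFn_eq_map]
      exact ⟨fun h => (h.resolve_right hb).2, fun h => Or.inl ⟨ha, h⟩⟩
    · by_cases hb : 0 < sred.yes (fun a => 0 < a) m (m + n) z
      · rw [sred.out_neg _ _ (by simp [ha, hb]), sred.out_pos _ _ hb, sred.out_neg _ _ ha,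
          List.nil_append, List.append_nil, List.map_id']
        exact ⟨fun _ => hy, fun _ => Or.inr hb⟩
      · rw [sred.out_pos _ _ (by simp [ha, hb]), sred.out_neg _ _ hb, sred.out_neg _ _ ha,
          List.append_nil, List.append_nil, List.map_id']
        exact ⟨fun h => h.elim (fun h => absurd h.1 ha) fun h => absurd h hb,
          fun h => absurd h hn⟩

end Pool.Agent.MP_8a92de_lc.E43

end Row_sred

section Row_ptl
namespace Pool.Agent.MP_8a92de_lc.E43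

theorem ptl : PT := by
  intro L n M w x t hn
  have hg : ∀ i, (List.ofFn (pt w x t)).getD i 0 = ex (pt w x t) i :=
    fun i => congrFun (getD_ofFn (pt w x t)) i
  have e : M + (n + 1) - (n + 1) = M := by omega
  have h1 : ex (pt w x t) (M + n) = t := by
    have := ex_val (pt w x t) (Fin.natAdd M (Fin.last n))
    rw [pt_t] at this
    exact this
  have h2 : ∀ l : Fin n, ex (pt w x t) (M + l) = x l := fun l => by
    have := ex_val (pt w x t) (Fin.natAdd M l.castSucc)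
    rw [pt_x] at this
    exact this
  have h3 : ∀ i : Fin M, ex (pt w x t) i = w i := fun i => by
    have := ex_val (pt w x t) (Fin.castAdd (n + 1) i)
    rw [pt_w] at this
    exact this
  have key : ∀ (N k : ℕ), N = M + (n + 1) → k = n →
      (((0 < ex (pt w x t) (N - (k + 1) + k) ∧
        (List.ofFn fun l : Fin k => ex (pt w x t) (N - (k + 1) + l)) ∈ L) ∨
      (ex (pt w x t) (N - (k + 1) + k) < 0 ∧ ∀ i < N - (k + 1), 0 < ex (pt w x t) i)) ↔
      (0 < t ∧ List.ofFn x ∈ L) ∨ (t < 0 ∧ ∀ i, 0 < w i)) := by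
    intro N k hN hk
    subst hN hk
    rw [e, h1]
    have h4 : (fun l : Fin k => ex (pt w x t) (M + l)) = x := funext h2
    rw [h4]
    refine or_congr Iff.rfl (and_congr Iff.rfl ⟨fun h i => ?_, fun h i hi => ?_⟩)
    · rw [← h3 i]
      exact h i i.2
    · have := h ⟨i, hi⟩
      rw [← h3] at this
      exact this
  have hl : (List.ofFn (pt w x t)).length = M + (n + 1) := List.length_ofFn
  have := key _ (Nat.unpair (List.ofFn (pt w x t)).length).1 hl (by rw [hl]; exact hn)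
  rw [← this]
  simp only [SL, Set.mem_ofPred_eq, hg]

end Pool.Agent.MP_8a92de_lc.E43

end Row_ptl

section Row_num1
namespace Pool.Agent.MP_8a92de_lc.E43

theorem num1 : NUM1 := by
  intro c
  refine ⟨fun n => n * n + 4 * n + 3, 11 + 3 * c, fun n => ?_⟩
  beta_reduce
  have hq : 2 ≤ n + 2 := by omega
  have h3 : n * n + 4 * n + 3 + (n + 1) + 2 ≤ (n + 2) ^ 3 := by
    have : (n + 2) ^ 3 = n * n * n + 6 * (n * n) + 12 * n + 8 := by ring
    omega
  have h8 : 256 ≤ (n + 2) ^ 8 := le_trans (by norm_num) (Nat.pow_le_pow_left hq 8)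
  have h4 : 16 ≤ (n + 2) ^ 4 := le_trans (by norm_num) (Nat.pow_le_pow_left hq 4)
  have h11 : (n + 2) ^ 11 ≤ (n + 2) ^ (11 + 3 * c) := Nat.pow_le_pow_right (by omega) (by omega)
  refine ⟨?_, by omega, fun n' hn' => ?_, ?_, ?_, ?_⟩
  · have : n * n + 4 * n + 3 + (n + 1) = Nat.pair n (n + 2) := by
      rw [Nat.pair, if_pos (by omega)]
      ring
    rw [this, Nat.unpair_pair]
  · obtain ⟨k, rfl⟩ : ∃ k, n = n' + 1 + k := ⟨n - (n' + 1), by omega⟩
    nlinarith [Nat.zero_le (k * k), Nat.zero_le (n' * k)]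
  · exact le_trans (le_trans (by norm_num) h8) (Nat.pow_le_pow_right (by omega) (by omega))
  · refine le_trans ?_ h11
    have e : (n + 2) ^ 11 = (n + 2) ^ 4 * (n + 1 + 1) * ((n + 2) ^ 3) ^ 2 := by ring
    rw [e]
    exact Nat.mul_le_mul (Nat.mul_le_mul_right _ (by omega)) (Nat.pow_le_pow_left (by omega) 2)
  · have e : (n + 2) ^ (11 + 3 * c) = (n + 2) ^ 8 * ((n + 2) ^ 3 * ((n + 2) ^ 3) ^ c) := by
      rw [← pow_mul]
      ring
    have h5 : (n * n + 4 * n + 3 + (n + 1) + 2) ^ c ≤ ((n + 2) ^ 3) ^ c :=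
      Nat.pow_le_pow_left h3 c
    have h6 : 1 ≤ ((n + 2) ^ 3) ^ c := Nat.one_le_pow _ _ (by positivity)
    rw [e]
    calc 21 * (n * n + 4 * n + 3 + (n + 1) + 1) * (5 * (n * n + 4 * n + 3 + (n + 1) + 2) ^ c + 2)
        ≤ 21 * (n + 2) ^ 3 * (7 * ((n + 2) ^ 3) ^ c) :=
          Nat.mul_le_mul (Nat.mul_le_mul_left _ (by omega)) (by omega)
      _ = 147 * ((n + 2) ^ 3 * ((n + 2) ^ 3) ^ c) := by ring
      _ ≤ (n + 2) ^ 8 * ((n + 2) ^ 3 * ((n + 2) ^ 3) ^ c) := Nat.mul_le_mul_right _ (by omega)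

end Pool.Agent.MP_8a92de_lc.E43

end Row_num1

section Row_num2
namespace Pool.Agent.MP_8a92de_lc.E43

namespace num2

theorem ebb (e w a : ℕ) (h : 2 * e * w ≤ 2 ^ a) : eb e w + 1 ≤ 2 ^ (a * w + w + 2) := by
  have h1 : (2 * e * w) ^ w ≤ 2 ^ (a * w) := by
    rw [pow_mul]
    exact Nat.pow_le_pow_left h w
  have h2 : w ≤ 2 ^ w := Nat.lt_two_pow_self.le
  have h3 : 1 ≤ 2 ^ (a * w) := Nat.one_le_two_pow
  have h4 : 1 ≤ 2 ^ w := Nat.one_le_two_pow
  have h5 : eb e w ≤ 2 ^ w * (2 * 2 ^ (a * w)) := Nat.mul_le_mul h2 (by omega)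
  have h6 : 1 ≤ 2 ^ w * (2 * 2 ^ (a * w)) := Nat.mul_pos (by omega) (by omega)
  have e1 : 2 ^ (a * w + w + 2) = 2 * (2 ^ w * (2 * 2 ^ (a * w))) := by ring
  omega

theorem core (X M q C : ℕ) (hX : 30 ≤ X) (hM : M ≤ X) (hq : q ≤ X) (hC : C ≤ 3 * X ^ 3) :
    (eb (2 * (M * (2 * 2 ^ q + 1))) (C + M) + 1) ^ C < 2 ^ X ^ 9 := by
  have hX3 : X ≤ X ^ 3 := Nat.le_self_pow (by norm_num) X
  have hw : C + M ≤ 4 * X ^ 3 := by omega
  have h1 : X ≤ 2 ^ X := Nat.lt_two_pow_self.le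
  have h2 : 2 ^ q ≤ 2 ^ X := Nat.pow_le_pow_right (by norm_num) hq
  have h3 : 2 * (2 * (M * (2 * 2 ^ q + 1))) * (C + M) ≤ 2 ^ (6 * X) := by
    have a1 : M * (2 * 2 ^ q + 1) ≤ 2 ^ X * (3 * 2 ^ X) := Nat.mul_le_mul (by omega) (by omega)
    have a2 : C + M ≤ 4 * (2 ^ X) ^ 3 :=
      hw.trans (Nat.mul_le_mul_left _ (Nat.pow_le_pow_left h1 3))
    have a3 : 48 ≤ 2 ^ X := le_trans (by norm_num) (Nat.pow_le_pow_right (by norm_num) hX :
      2 ^ 30 ≤ 2 ^ X)
    calc 2 * (2 * (M * (2 * 2 ^ q + 1))) * (C + M)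
        ≤ 2 * (2 * (2 ^ X * (3 * 2 ^ X))) * (4 * (2 ^ X) ^ 3) := Nat.mul_le_mul (by omega) a2
      _ = 48 * (2 ^ X) ^ 5 := by ring
      _ ≤ 2 ^ X * (2 ^ X) ^ 5 := Nat.mul_le_mul_right _ a3
      _ = 2 ^ (6 * X) := by rw [← pow_mul, ← pow_add]; congr 1; ring
  have h4 := Nat.pow_le_pow_left (ebb _ _ _ h3) C
  refine lt_of_le_of_lt h4 ?_
  rw [← pow_mul]
  refine Nat.pow_lt_pow_right (by norm_num) ?_
  have b1 : 6 * X * (C + M) ≤ 6 * X * (4 * X ^ 3) := Nat.mul_le_mul_left _ hw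
  have b2 : X ^ 3 ≤ X * X ^ 3 := Nat.le_mul_of_pos_left _ (by omega)
  have b3 : 6 * X * (4 * X ^ 3) = 24 * (X * X ^ 3) := by ring
  have b4 : 6 * X * (C + M) + (C + M) + 2 ≤ 29 * (X * X ^ 3) := by omega
  have b5 : 0 < X ^ 7 := by positivity
  have b6 : 900 ≤ X ^ 2 := le_trans (by norm_num) (Nat.pow_le_pow_left hX 2)
  calc (6 * X * (C + M) + (C + M) + 2) * C ≤ 29 * (X * X ^ 3) * (3 * X ^ 3) :=
        Nat.mul_le_mul b4 hC
    _ = 87 * X ^ 7 := by ring
    _ < X ^ 2 * X ^ 7 := Nat.mul_lt_mul_of_pos_right (by omega) b5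
    _ = X ^ 9 := by ring

end num2

theorem num2 : NUM2 := by
  intro X n M m q hX hM hm hq
  refine num2.core X M q _ hX (by omega) hq ?_
  have e : Fintype.card (Fin (n + 1) × Par n M m) = (n + 1) * (1 + (M * (n + 1) + M * m)) := by
    simp
  have a1 : M * (n + 1) ≤ X * X := Nat.mul_le_mul (by omega) (by omega)
  have a2 : M * m ≤ X * X := Nat.mul_le_mul (by omega) hm
  have a3 : 1 ≤ X * X := Nat.mul_pos (by omega) (by omega)
  rw [e]
  calc (n + 1) * (1 + (M * (n + 1) + M * m)) ≤ X * (3 * (X * X)) :=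
        Nat.mul_le_mul (by omega) (by omega)
    _ = 3 * X ^ 3 := by ring

end Pool.Agent.MP_8a92de_lc.E43

end Row_num2
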