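import Pool.Agent.MP_8a92de_lc.E43.Stmts

section Row_trans
namespace Pool.Agent.MP_8a92de_lc.E43

theorem trans : TRANS := by
  intro S
  have hc : Countable (Subfield.closure (S : Set ℝ)) := by
    rw [← Cardinal.mk_le_aleph0_iff]
    refine (Subfield.cardinalMk_closure_le_max (S : Set ℝ)).trans (max_le ?_ le_rfl)
    exact Cardinal.mk_le_aleph0_iff.2 inferInstance
  have h1 : Set.Countable {x : ℝ | IsAlgebraic (Subfield.closure (S : Set ℝ)) x} :=
    Algebraic.countable _ _
  by_contra h
  refine Cardinal.not_countable_real (h1.mono fun x _ => ?_)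
  by_contra hx
  exact h ⟨_, x, Subfield.subset_closure, hx⟩

end Pool.Agent.MP_8a92de_lc.E43

end Row_trans

section Row_gen1
namespace Pool.Agent.MP_8a92de_lc.E43

namespace gen1

theorem digits {D : ℕ} (n : ℕ) : ∀ f g : ℕ → ℕ, (∀ i, f i < D) → (∀ i, g i < D) →
    ∑ i ∈ Finset.range n, f i * D ^ i = ∑ i ∈ Finset.range n, g i * D ^ i →
    ∀ i < n, f i = g i := by
  induction n with
  | zero => exact fun _ _ _ _ _ i hi => absurd hi (Nat.not_lt_zero i)
  | succ n ih =>
    intro f g hf hg h i hi
    have e : ∀ u : ℕ → ℕ, ∑ i ∈ Finset.range (n + 1), u i * D ^ i =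
        u 0 + D * ∑ i ∈ Finset.range n, u (i + 1) * D ^ i := fun u => by
      rw [Finset.sum_range_succ', Finset.mul_sum, pow_zero, mul_one, add_comm]
      exact congrArg _ (Finset.sum_congr rfl fun i _ => by ring)
    rw [e, e] at h
    have h0 : f 0 = g 0 := by
      have := congrArg (· % D) h
      simpa only [Nat.add_mul_mod_self_left, Nat.mod_eq_of_lt (hf 0), Nat.mod_eq_of_lt (hg 0)]
        using this
    rcases i with _ | i
    · exact h0
    · rw [h0] at h
      exact ih (fun i => f (i + 1)) (fun i => g (i + 1)) (fun _ => hf _) (fun _ => hg _)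
        (Nat.eq_of_mul_eq_mul_left (Nat.zero_lt_of_lt (hf 0)) (add_left_cancel h)) i (by omega)

theorem fins {D : ℕ} (f g : ℕ →₀ ℕ) (hf : ∀ i, f i < D) (hg : ∀ i, g i < D)
    (h : f.sum (fun i e => e * D ^ i) = g.sum fun i e => e * D ^ i) : f = g := by
  ext i
  obtain ⟨n, hn⟩ := (insert i (f.support ∪ g.support)).exists_nat_subset_range
  have h1 : f.support ⊆ Finset.range n := fun a ha =>
    hn (Finset.mem_insert_of_mem (Finset.mem_union_left _ ha))
  have h2 : g.support ⊆ Finset.range n := fun a ha =>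
    hn (Finset.mem_insert_of_mem (Finset.mem_union_right _ ha))
  rw [Finsupp.sum_of_support_subset f h1 (fun i e => e * D ^ i) fun _ _ => zero_mul _,
    Finsupp.sum_of_support_subset g h2 (fun i e => e * D ^ i) fun _ _ => zero_mul _] at h
  exact digits n f g hf hg h i (Finset.mem_range.1 (hn (Finset.mem_insert_self _ _)))

theorem inj {σ : Type} {p : σ → ℕ} (hp : Function.Injective p) {D : ℕ} (hD : 0 < D)
    (m m' : σ →₀ ℕ) (hm : ∀ s, m s < D) (hm' : ∀ s, m' s < D)
    (h : m.sum (fun s e => e * D ^ p s) = m'.sum fun s e => e * D ^ p s) : m = m' := by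
  have b : ∀ u : σ →₀ ℕ, (∀ s, u s < D) → ∀ i, u.mapDomain p i < D := fun u hu i => by
    by_cases hi : i ∈ Set.range p
    · obtain ⟨s, rfl⟩ := hi
      rw [Finsupp.mapDomain_apply hp]
      exact hu s
    · rw [Finsupp.mapDomain_notin_range _ _ hi]
      exact hD
  refine Finsupp.mapDomain_injective hp (fins _ _ (b m hm) (b m' hm') ?_)
  rw [Finsupp.sum_mapDomain_index (fun _ => zero_mul _) fun _ _ _ => add_mul _ _ _,
    Finsupp.sum_mapDomain_index (fun _ => zero_mul _) fun _ _ _ => add_mul _ _ _]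
  exact h

end gen1

theorem gen1 : GEN1 := by
  intro F A σ _ _ _ _ φ p D d hd hp hφ T hT h
  by_contra h0
  obtain ⟨m, hm, hmax⟩ := T.support.exists_max_image
    (fun u : σ →₀ ℕ => u.sum fun s e => e * D ^ p s) (MvPolynomial.support_nonempty.2 h0)
  have lt : ∀ u ∈ T.support, ∀ s, u s < D := fun u hu s =>
    (((MvPolynomial.monomial_le_degreeOf s hu).trans
      (MvPolynomial.degreeOf_le_totalDegree T s)).trans hT).trans_lt hd
  have mo : ∀ u : σ →₀ ℕ, (∏ s ∈ u.support, φ s ^ u s).Monic := fun u =>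
    Polynomial.monic_prod_of_monic _ _ fun s _ => (hφ s).1.pow _
  have dg : ∀ u : σ →₀ ℕ, (∏ s ∈ u.support, φ s ^ u s).natDegree =
      u.sum fun s e => e * D ^ p s := fun u => by
    rw [Polynomial.natDegree_prod_of_monic _ _ fun s _ => (hφ s).1.pow _]
    exact Finset.sum_congr rfl fun s _ => by rw [(hφ s).1.natDegree_pow, (hφ s).2]
  have h1 := congrArg (fun q => Polynomial.coeff q (m.sum fun s e => e * D ^ p s)) h
  simp only [MvPolynomial.aeval_def, MvPolynomial.eval₂_eq, Polynomial.finset_sum_coeff,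
    Polynomial.algebraMap_apply, Polynomial.coeff_C_mul, Polynomial.coeff_zero] at h1
  rw [Finset.sum_eq_single_of_mem m hm, ← dg, (mo m).coeff_natDegree, mul_one] at h1
  · exact MvPolynomial.mem_support_iff.1 hm
      ((algebraMap F A).injective (h1.trans (map_zero _).symm))
  · intro u hu hne
    rw [Polynomial.coeff_eq_zero_of_natDegree_lt, mul_zero]
    rw [dg]
    exact lt_of_le_of_ne (hmax u hu) fun e =>
      hne (gen1.inj hp (Nat.zero_lt_of_lt hd) u m (lt u hu) (lt m hm) e)

end Pool.Agent.MP_8a92de_lc.E43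

end Row_gen1

section Row_kron
namespace Pool.Agent.MP_8a92de_lc.E43

open MvPolynomial

theorem kron (h : GEN1) : KRON := by
  intro K _ K0 c hc V _ B
  refine ⟨fun v => (Fintype.equivFin V v : ℕ), fun v => (Fintype.equivFin V v).2, ?_⟩
  intro T hT h0
  refine h K0 K0 V (fun v => Polynomial.X ^ (B + 1) ^ (Fintype.equivFin V v : ℕ))
    (fun v => (Fintype.equivFin V v : ℕ)) (B + 1) B (Nat.lt_succ_self B)
    (fun v w e => (Fintype.equivFin V).injective (Fin.ext e))
    (fun v => ⟨Polynomial.monic_X_pow _, Polynomial.natDegree_X_pow _⟩) T hT ?_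
  refine (transcendental_iff.1 hc) _ ?_
  rw [← AlgHom.comp_apply, comp_aeval]
  simpa using h0

end Pool.Agent.MP_8a92de_lc.E43

end Row_kron

section Row_perron
namespace Pool.Agent.MP_8a92de_lc.E43

open MvPolynomial

namespace perron

/-- exponent vector of a bounded function -/
noncomputable def ev {σ : Type} [Fintype σ] {D : ℕ} (a : σ → Fin D) : σ →₀ ℕ :=
  Finsupp.equivFunOnFinite.symm fun v => (a v : ℕ)

theorem ev_apply {σ : Type} [Fintype σ] {D : ℕ} (a : σ → Fin D) (v : σ) : ev a v = a v := rfl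

theorem ev_inj {σ : Type} [Fintype σ] {D : ℕ} {a b : σ → Fin D} (h : ev a = ev b) : a = b :=
  funext fun v => Fin.ext (by rw [← ev_apply, ← ev_apply, h])

theorem deg_mono {F σ : Type} [Field F] [Fintype σ] {D : ℕ} (a : σ → Fin (D + 1)) (c : F) :
    (monomial (ev a) c).totalDegree ≤ Fintype.card σ * D := by
  refine (totalDegree_monomial_le _ _).trans ?_
  rw [Finsupp.sum_fintype _ _ (fun _ => rfl)]
  calc ∑ v, id (ev a v) ≤ ∑ _v : σ, D :=
        Finset.sum_le_sum fun v _ => Nat.lt_succ_iff.1 (a v).2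
    _ = Fintype.card σ * D := by simp

theorem deg_prod {F σ κ : Type} [Field F] [Fintype κ] {D e : ℕ} (G : κ → MvPolynomial σ F)
    (hG : ∀ k, (G k).totalDegree ≤ e) (b : κ → Fin (D + 1)) :
    (∏ k, G k ^ (b k : ℕ)).totalDegree ≤ Fintype.card κ * (D * e) := by
  refine (totalDegree_finset_prod _ _).trans ?_
  calc ∑ k, (G k ^ (b k : ℕ)).totalDegree ≤ ∑ _k : κ, D * e :=
        Finset.sum_le_sum fun k _ => (totalDegree_pow _ _).trans
          (Nat.mul_le_mul (Nat.lt_succ_iff.1 (b k).2) (hG k))
    _ = Fintype.card κ * (D * e) := by simp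

theorem dep {F σ I : Type} [Field F] [Fintype σ] [Fintype I] (N : ℕ) (m : I → MvPolynomial σ F)
    (hm : ∀ i, (m i).totalDegree ≤ N) (hc : (N + 1) ^ Fintype.card σ < Fintype.card I) :
    ∃ g : I → F, ∑ i, C (g i) * m i = 0 ∧ ∃ i, g i ≠ 0 := by
  classical
  have hn : ¬ LinearIndependent F
      (fun i => (fun t : σ → Fin (N + 1) => coeff (ev t) (m i))) := fun h => by
    have := h.fintype_card_le_finrank
    rw [Module.finrank_fintype_fun_eq_card, Fintype.card_fun, Fintype.card_fin] at this
    omega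
  obtain ⟨g, hg, hi⟩ := Fintype.not_linearIndependent_iff.1 hn
  refine ⟨g, ?_, hi⟩
  ext s
  rw [coeff_sum, coeff_zero]
  simp only [coeff_C_mul]
  by_cases hs : ∀ v, s v < N + 1
  · have := congrFun hg fun v => ⟨s v, hs v⟩
    have e : ev (fun v => (⟨s v, hs v⟩ : Fin (N + 1))) = s := Finsupp.ext fun v => rfl
    simpa [Finset.sum_apply, e] using this
  · obtain ⟨v, hv⟩ := not_forall.1 hs
    refine Finset.sum_eq_zero fun i _ => ?_
    have : coeff s (m i) = 0 := by
      by_contra h0
      have := ((monomial_le_degreeOf v (mem_support_iff.2 h0)).trans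
        (degreeOf_le_totalDegree _ v)).trans (hm i)
      omega
    rw [this, mul_zero]

theorem count (v u q e w : ℕ) (h1 : u < q) (h2 : v + q ≤ w) (he : 1 ≤ e) :
    (w * ((2 * e * w) ^ w * e) + 1) ^ (v + u) <
      ((2 * e * w) ^ w + 1) ^ v * ((2 * e * w) ^ w + 1) ^ q := by
  have hw : 1 ≤ w := by omega
  have hew : 1 ≤ e * w := Nat.mul_pos he hw
  have a2 : (e * w) ^ (v + u) ≤ (2 * e * w) ^ w :=
    (Nat.pow_le_pow_right hew (by omega)).trans (Nat.pow_le_pow_left (by nlinarith) _)
  generalize (2 * e * w) ^ w = D at a2 ⊢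
  have a1 : w * (D * e) + 1 ≤ (e * w) * (D + 1) := by nlinarith
  calc (w * (D * e) + 1) ^ (v + u) ≤ ((e * w) * (D + 1)) ^ (v + u) := Nat.pow_le_pow_left a1 _
    _ = (e * w) ^ (v + u) * (D + 1) ^ (v + u) := mul_pow _ _ _
    _ < (D + 1) * (D + 1) ^ (v + u) :=
        Nat.mul_lt_mul_of_pos_right (Nat.lt_succ_of_le a2) (by positivity)
    _ = (D + 1) ^ (v + u + 1) := by ring
    _ ≤ (D + 1) ^ (v + q) := Nat.pow_le_pow_right (by omega) (by omega)
    _ = (D + 1) ^ v * (D + 1) ^ q := pow_add _ _ _

end perron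

theorem perron : PERRON := by
  intro F V U κ _ _ _ _ e w G h1 h2 he hG
  classical
  have hc := perron.count _ _ _ e w h1 h2 he
  unfold eb
  generalize (2 * e * w) ^ w = D at hc ⊢
  obtain ⟨g, hg, i0, hi⟩ := perron.dep (F := F) (σ := V ⊕ U)
    (I := (V → Fin (D + 1)) × (κ → Fin (D + 1))) (w * (D * e))
    (fun i => rename Sum.inl (monomial (perron.ev i.1) (1 : F)) * ∏ k, G k ^ (i.2 k : ℕ))
    (fun i => by
      refine (totalDegree_mul _ _).trans ?_
      have a1 := (totalDegree_rename_le (Sum.inl : V → V ⊕ U) _).trans (perron.deg_mono i.1 (1 : F))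
      have a2 := perron.deg_prod G hG i.2
      have a3 : Fintype.card V * D ≤ Fintype.card V * (D * e) :=
        Nat.mul_le_mul_left _ (Nat.le_mul_of_pos_right _ he)
      have a4 : (Fintype.card V + Fintype.card κ) * (D * e) ≤ w * (D * e) :=
        Nat.mul_le_mul_right _ h2
      rw [add_mul] at a4
      omega)
    (by simpa [Fintype.card_prod, Fintype.card_fun, Fintype.card_sum] using hc)
  refine ⟨∑ i : (V → Fin (D + 1)) × (κ → Fin (D + 1)),
    monomial (perron.ev i.2) (monomial (perron.ev i.1) (g i)), fun h0 => hi ?_, fun b => ?_, ?_⟩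
  · have := congrArg (fun Ψ => coeff (perron.ev i0.1) (coeff (perron.ev i0.2) Ψ)) h0
    simp only [coeff_sum, coeff_zero] at this
    rw [Finset.sum_eq_single i0] at this
    · simpa using this
    · intro i _ hne
      rw [coeff_monomial]
      split_ifs with hb
      · rw [coeff_monomial, if_neg]
        exact fun ha => hne (Prod.ext (perron.ev_inj ha) (perron.ev_inj hb))
      · exact coeff_zero _
    · simp
  · rw [coeff_sum]
    refine totalDegree_finsetSum_le fun i _ => ?_
    rw [coeff_monomial]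
    split_ifs
    · exact (perron.deg_mono i.1 (g i)).trans (Nat.mul_le_mul (by omega) (Nat.le_succ D))
    · simp
  · rw [eval₂_sum, ← hg]
    refine Finset.sum_congr rfl fun i _ => ?_
    rw [eval₂_monomial, Finsupp.prod_fintype _ _ (fun _ => pow_zero _), ← mul_assoc]
    have : (monomial (perron.ev i.1) (g i) : MvPolynomial V F) =
        C (g i) * monomial (perron.ev i.1) 1 := by rw [C_mul_monomial, mul_one]
    rw [this, map_mul]
    simp [perron.ev_apply]

end Pool.Agent.MP_8a92de_lc.E43

end Row_perron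

section Row_low
namespace Pool.Agent.MP_8a92de_lc.E43

open MvPolynomial

namespace lowx

variable {K : Type} [Field K] {K0 : Subfield K} {σ κ : Type} [Fintype σ] [Fintype κ]

/-- substitute `p + t ∑ₖ Xₖ aₖ` -/
noncomputable def ph (K0 : Subfield K) (p : σ → K) (a : κ → σ → K) :
    MvPolynomial σ K0 →ₐ[K0] Polynomial (MvPolynomial κ K) :=
  aeval fun s => Polynomial.C (C (p s)) + Polynomial.X * Polynomial.C (∑ k, C (a k s) * X k)

theorem ph_coeff (p : σ → K) (a : κ → σ → K) (T : MvPolynomial σ K0) :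
    (ph K0 p a T).coeff 0 = C (aeval p T) ∧
      (ph K0 p a T).coeff 1 = ∑ k, C (dd p (a k) T) * X k := by
  induction T using MvPolynomial.induction_on with
  | C c =>
    have e : ph K0 p a (C c) = Polynomial.C (C (c : K)) := by
      unfold ph
      rw [aeval_C]
      rfl
    rw [e]
    refine ⟨?_, ?_⟩
    · rw [Polynomial.coeff_C_zero, aeval_C]; rfl
    · rw [Polynomial.coeff_C_succ]; simp
  | add T U h1 h2 =>
    rw [map_add, Polynomial.coeff_add, Polynomial.coeff_add, h1.1, h1.2, h2.1, h2.2]
    refine ⟨by rw [map_add, map_add], ?_⟩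
    rw [← Finset.sum_add_distrib]
    exact Finset.sum_congr rfl fun k _ => by rw [dd_add, map_add, add_mul]
  | mul_X T s h =>
    have e : ph K0 p a (X s) =
        Polynomial.C (C (p s)) + Polynomial.X * Polynomial.C (∑ k, C (a k s) * X k) := by
      unfold ph
      rw [aeval_X]
    have e0 : (ph K0 p a (X s)).coeff 0 = C (p s) := by
      rw [e, Polynomial.coeff_add, Polynomial.coeff_C_zero, Polynomial.coeff_X_mul_zero, add_zero]
    have e1 : (ph K0 p a (X s)).coeff 1 = ∑ k, C (a k s) * X k := by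
      rw [e, Polynomial.coeff_add, Polynomial.coeff_C_succ, Polynomial.coeff_X_mul,
        Polynomial.coeff_C_zero, zero_add]
    rw [map_mul, Polynomial.mul_coeff_zero, Polynomial.mul_coeff_one, h.1, h.2, e0, e1]
    refine ⟨by rw [map_mul, map_mul, aeval_X], ?_⟩
    rw [Finset.mul_sum, Finset.sum_mul, ← Finset.sum_add_distrib]
    refine Finset.sum_congr rfl fun k _ => ?_
    rw [dd_mul, dd_X, aeval_X, map_add, map_mul, map_mul]
    ring

end lowx

theorem low : LOW := by
  intro K _ K0 V U κ _ _ _ _ G p a Ψ hΨ h0 hG hd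
  by_contra hc
  obtain ⟨b0, hb0, hmin⟩ := Finset.exists_min_image Ψ.support (fun b => ∑ i, b i)
    (support_nonempty.2 hΨ)
  refine hc ⟨b0, mem_support_iff.1 hb0, ?_⟩
  have hg : ∀ i, lowx.ph K0 p a (G i) = Polynomial.X * (lowx.ph K0 p a (G i)).divX := fun i => by
    have h1 := Polynomial.X_mul_divX_add (lowx.ph K0 p a (G i))
    rw [(lowx.ph_coeff p a (G i)).1, hG i, map_zero, map_zero, add_zero] at h1
    exact h1.symm
  have hg0 : ∀ i, (lowx.ph K0 p a (G i)).divX.coeff 0 = X i := fun i => by
    rw [Polynomial.coeff_divX, zero_add, (lowx.ph_coeff p a (G i)).2, Finset.sum_eq_single i]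
    · rw [hd, if_pos rfl, C_1, one_mul]
    · intro k _ hk
      rw [hd, if_neg (Ne.symm hk), C_0, zero_mul]
    · intro h
      exact absurd (Finset.mem_univ i) h
  have hterm : ∀ b : κ →₀ ℕ, ∃ w : Polynomial (MvPolynomial κ K),
      lowx.ph K0 p a ((rename (Sum.inl : V → V ⊕ U)).toRingHom (coeff b Ψ) * ∏ i, G i ^ b i) =
        Polynomial.X ^ (∑ i, b i) * w ∧
      w.coeff 0 = monomial b (aeval (fun v => p (Sum.inl v)) (coeff b Ψ)) := fun b => by
    refine ⟨lowx.ph K0 p a (rename Sum.inl (coeff b Ψ)) *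
      ∏ i, (lowx.ph K0 p a (G i)).divX ^ b i, ?_, ?_⟩
    · rw [map_mul, map_prod, mul_left_comm, ← Finset.prod_pow_eq_pow_sum,
        ← Finset.prod_mul_distrib]
      congr 1
      refine Finset.prod_congr rfl fun i _ => ?_
      rw [map_pow, ← mul_pow, ← hg i]
    · rw [Polynomial.mul_coeff_zero, (lowx.ph_coeff p a _).1, aeval_rename, monomial_eq,
        Finsupp.prod_fintype _ _ (fun i => pow_zero _), ← Polynomial.constantCoeff_apply, map_prod]
      congr 1
      refine Finset.prod_congr rfl fun i _ => ?_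
      rw [map_pow, Polynomial.constantCoeff_apply, hg0 i]
  choose w hw hw0 using hterm
  have h1 := congrArg (fun q => coeff b0 ((lowx.ph K0 p a q).coeff (∑ i, b0 i))) h0
  simp only [eval₂_eq', map_sum, map_zero, Polynomial.coeff_zero, coeff_zero,
    Polynomial.finsetSum_coeff, coeff_sum] at h1
  rw [Finset.sum_eq_single b0] at h1
  · rw [hw, Polynomial.coeff_X_pow_mul', if_pos le_rfl, Nat.sub_self, hw0, coeff_monomial,
      if_pos rfl] at h1
    exact h1
  · intro b hb hne
    rw [hw, Polynomial.coeff_X_pow_mul']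
    split_ifs with hle
    · rw [Nat.sub_eq_zero_of_le (hmin b hb), hw0, coeff_monomial, if_neg hne]
    · exact coeff_zero _
  · intro h
    exact absurd hb0 h

end Pool.Agent.MP_8a92de_lc.E43

end Row_low

section Row_ker
namespace Pool.Agent.MP_8a92de_lc.E43

open MvPolynomial Filter Topology

namespace Ker

theorem det_deg {F σ : Type} [Field F] {k e : ℕ} (M : Matrix (Fin k) (Fin k) (MvPolynomial σ F))
    (h : ∀ a i, (M a i).totalDegree ≤ e) : M.det.totalDegree ≤ k * e := by
  rw [Matrix.det_apply]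
  refine totalDegree_finsetSum_le fun s _ => ?_
  have hp : (∏ i, M (s i) i).totalDegree ≤ k * e := by
    refine (totalDegree_finsetProd _ _).trans ?_
    refine (Finset.sum_le_sum fun i _ => h (s i) i).trans ?_
    simp
  rcases Int.units_eq_one_or (Equiv.Perm.sign s) with hs | hs
  · rw [hs, one_smul]; exact hp
  · rw [hs, Units.neg_smul, one_smul, totalDegree_neg]; exact hp

theorem exists_max {R : Type} [CommRing R] [Nontrivial R] {m r : ℕ} (J : Matrix (Fin m) (Fin r) R)
    (hJ : ∀ s : Fin r → Fin m, (J.submatrix s id).det = 0) :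
    ∃ k < r, (∃ (s : Fin k → Fin m) (t : Fin k → Fin r), (J.submatrix s t).det ≠ 0) ∧
      ∀ (s : Fin (k + 1) → Fin m) (t : Fin (k + 1) → Fin r), (J.submatrix s t).det = 0 := by
  by_contra hc
  have step : ∀ k, k ≤ r → ∃ (s : Fin k → Fin m) (t : Fin k → Fin r), (J.submatrix s t).det ≠ 0 := by
    intro k
    induction k with
    | zero => intro _; exact ⟨Fin.elim0, Fin.elim0, by simp⟩
    | succ k ih =>
      intro hk
      by_contra h2
      refine hc ⟨k, hk, ih (Nat.le_of_succ_le hk), fun s t => ?_⟩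
      by_contra h3
      exact h2 ⟨s, t, h3⟩
  obtain ⟨s, t, hst⟩ := step r le_rfl
  by_cases hi : Function.Injective t
  · have hb : Function.Bijective t := Finite.injective_iff_bijective.mp hi
    have h1 : J.submatrix s t = (J.submatrix s id).submatrix id (Equiv.ofBijective t hb) := by
      ext a i; simp
    rw [h1, Matrix.det_permute', hJ s, mul_zero] at hst
    exact hst rfl
  · obtain ⟨i, j, hij, hne⟩ := Function.not_injective_iff.mp hi
    exact hst (Matrix.det_zero_of_column_eq hne fun a => by simp [hij])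

end Ker

theorem ker : KER := by
  intro F σ _ m e r J hd hJ
  classical
  obtain ⟨k, hk, ⟨s, t, hst⟩, hz⟩ := Ker.exists_max J hJ
  have hns : ¬ Function.Surjective t := fun h => by
    have := Fintype.card_le_of_surjective t h
    simp at this
    omega
  obtain ⟨j, hj⟩ : ∃ j, ∀ l, t l ≠ j := by
    by_contra h
    push Not at h
    exact hns h
  let t' : Fin (k + 1) → Fin r := Fin.cons j t
  let C : Fin (k + 1) → MvPolynomial σ F := fun l =>
    (-1) ^ (l : ℕ) * (J.submatrix s (t' ∘ l.succAbove)).det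
  have hC : ∀ l, (C l).totalDegree ≤ r * e := by
    intro l
    have h1 : (J.submatrix s (t' ∘ l.succAbove)).det.totalDegree ≤ k * e :=
      Ker.det_deg _ fun a i => hd _ _
    have h2 : k * e ≤ r * e := Nat.mul_le_mul_right e hk.le
    rcases neg_one_pow_eq_or (MvPolynomial σ F) (l : ℕ) with h | h
    · simp only [C, h, one_mul]; exact h1.trans h2
    · simp only [C, h, neg_mul, one_mul, totalDegree_neg]; exact h1.trans h2
  refine ⟨fun i => ∑ l, if t' l = i then C l else 0, fun h0 => ?_, fun i => ?_, ?_⟩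
  · have h1 := congrFun h0 j
    simp only [Fin.sum_univ_succ, t', Fin.cons_zero, Fin.cons_succ, if_true, hj, if_false,
      Finset.sum_const_zero, add_zero, Pi.zero_apply] at h1
    apply hst
    have h2 : t' ∘ Fin.succ = t := by
      funext l; simp [t']
    simpa [C, h2] using h1
  · refine totalDegree_finsetSum_le fun l _ => ?_
    split_ifs
    · exact hC l
    · simp
  · funext a
    have h1 := hz (Fin.cons a s) t'
    rw [Matrix.det_succ_row_zero] at h1
    simp only [Matrix.mulVec, dotProduct, Finset.mul_sum, Pi.zero_apply]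
    rw [Finset.sum_comm]
    refine Eq.trans (Finset.sum_congr rfl fun l _ => ?_) h1
    have h2 : ∑ i, J a i * (if t' l = i then C l else 0) = J a (t' l) * C l := by
      simp [mul_ite]
    rw [h2]
    have h3 : (J.submatrix (Fin.cons a s : Fin (k + 1) → Fin m) t').submatrix Fin.succ l.succAbove
        = J.submatrix s (t' ∘ l.succAbove) := by
      ext x y; simp
    rw [h3]
    simp only [C, Matrix.submatrix_apply, Fin.cons_zero]
    ring

end Pool.Agent.MP_8a92de_lc.E43

end Row_ker

section Row_elim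
namespace Pool.Agent.MP_8a92de_lc.E43

open MvPolynomial

namespace Elim

/-- a matrix with trivial kernel has a non-zero maximal minor -/
theorem rowsel (h3 : KER) {K : Type} [Field K] {m k : ℕ} (J : Matrix (Fin m) (Fin k) K)
    (hJ : ∀ z : Fin k → K, (∀ i, ∑ j, J i j * z j = 0) → z = 0) :
    ∃ s : Fin k → Fin m, (J.submatrix s id).det ≠ 0 := by
  by_contra hn
  have hn' : ∀ s : Fin k → Fin m, (J.submatrix s id).det = 0 := fun s => by
    by_contra h
    exact hn ⟨s, h⟩
  obtain ⟨v, hv, hd, hm⟩ := h3 K Empty m 0 k (J.map (C : K →+* MvPolynomial Empty K))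
    (fun a i => by simp [Matrix.map_apply]) (fun s => by
      have h1 : (J.map (C : K →+* MvPolynomial Empty K)).submatrix s id =
          (C : K →+* MvPolynomial Empty K).mapMatrix (J.submatrix s id) := rfl
      rw [h1, ← RingHom.map_det, hn' s, map_zero])
  have hz := hJ (fun j => constantCoeff (v j)) fun i => by
    have h1 := congrArg (constantCoeff : MvPolynomial Empty K →+* K) (congrFun hm i)
    simpa [Matrix.mulVec, dotProduct, Matrix.map_apply, map_sum] using h1
  refine hv (funext fun j => ?_)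
  have h1 : (v j).totalDegree = 0 := by simpa using hd j
  have h2 : coeff 0 (v j) = 0 := congrFun hz j
  rw [totalDegree_eq_zero_iff_eq_C] at h1
  rw [h1, h2, map_zero]
  rfl

theorem dd_lin {K : Type} [Field K] {K0 : Subfield K} {σ : Type} [Fintype σ] {k : ℕ} (p : σ → K)
    (a : Fin k → σ → K) (c : Fin k → K) (T : MvPolynomial σ K0) :
    dd p (fun s => ∑ l, a l s * c l) T = ∑ l, dd p (a l) T * c l := by
  simp only [dd, Finset.mul_sum, Finset.sum_mul, mul_assoc]
  exact Finset.sum_comm

end Elim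

theorem elim (h1 : PERRON) (h2 : LOW) (h3 : KER) : ELIM := by
  intro K _ K0 V U _ _ m k e w H p a hU hw he hH h0 hJ hG
  obtain ⟨s, hs⟩ := Elim.rowsel h3 (Matrix.of fun i j => dd p (a j) (H i)) hJ
  obtain ⟨Ψ, hΨ, hdeg, hrel⟩ := h1 K0 V U (Fin k) e w (fun i => H (s i)) (by simpa using hU)
    (by simpa using hw) he fun i => hH (s i)
  obtain ⟨b, hb, hb0⟩ := h2 K K0 V U (Fin k) (fun i => H (s i)) p
    (fun j t => ∑ l, a l t * ((Matrix.of fun i j => dd p (a j) (H i)).submatrix s id)⁻¹ l j)
    Ψ hΨ hrel (fun i => h0 (s i)) fun i j => by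
      rw [Elim.dd_lin]
      have h4 := congrFun (congrFun (Matrix.mul_nonsing_inv _ (isUnit_iff_ne_zero.2 hs)) i) j
      rw [Matrix.mul_apply, Matrix.one_apply] at h4
      exact h4
  exact hb (hG _ (hdeg b) hb0)

end Pool.Agent.MP_8a92de_lc.E43

end Row_elim

section Row_der
namespace Pool.Agent.MP_8a92de_lc.E43

open MvPolynomial Filter Topology

namespace Der

theorem deg_lt {R σ : Type} [CommRing R] (i : σ) (p : MvPolynomial σ R) (h : pderiv i p ≠ 0) :
    (pderiv i p).totalDegree < p.totalDegree := by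
  classical
  obtain ⟨m, hm, e⟩ := Finset.exists_mem_eq_sup (pderiv i p).support (support_nonempty.2 h)
    fun s => s.sum fun _ e => e
  rw [totalDegree, e]
  have h1 : m + Finsupp.single i 1 ∈ p.support := by
    rw [mem_support_iff, coeff_pderiv] at hm
    exact mem_support_iff.2 (left_ne_zero_of_mul hm)
  have := le_totalDegree h1
  rw [Finsupp.sum_add_index' (fun _ => rfl) (fun _ _ _ => rfl), Finsupp.sum_single_index rfl] at this
  omega

theorem const {K σ : Type} [Field K] [CharZero K] (p : MvPolynomial σ K)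
    (h : ∀ i, pderiv i p = 0) : p = C (coeff 0 p) := by
  classical
  ext m
  rw [coeff_C]
  split_ifs with hm
  · rw [hm]
  · obtain ⟨i, hi⟩ : ∃ i, m i ≠ 0 := by
      by_contra hc
      push Not at hc
      exact hm (Finsupp.ext hc).symm
    have e : m - Finsupp.single i 1 + Finsupp.single i 1 = m :=
      tsub_add_cancel_of_le (Finsupp.single_le_iff.2 (Nat.one_le_iff_ne_zero.2 hi))
    have := congrArg (coeff (m - Finsupp.single i 1)) (h i)
    rw [coeff_pderiv, e, coeff_zero] at this
    exact (mul_eq_zero.1 this).resolve_right (Nat.cast_add_one_ne_zero _)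

end Der

theorem der : DER := by
  classical
  intro K _ _ K0 σ n θ x
  have hd : ∀ (s : σ) (T : MvPolynomial (σ ⊕ Fin n) K0),
      aeval (Sum.elim (fun s => (X s : MvPolynomial σ K)) fun t => C (x t)) (pderiv (Sum.inl s) T) =
      pderiv s (aeval (Sum.elim (fun s => (X s : MvPolynomial σ K)) fun t => C (x t)) T) := by
    intro s T
    induction T using MvPolynomial.induction_on with
    | C c =>
      rw [pderiv_C, map_zero, aeval_C, IsScalarTower.algebraMap_apply K0 K, algebraMap_eq, pderiv_C]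
    | add T U h1 h2 => simp only [map_add, h1, h2]
    | mul_X T i h =>
      simp only [Derivation.leibniz, smul_eq_mul, map_add, map_mul, h, aeval_X]
      rcases i with i | i <;> simp [pderiv_X, Pi.single_apply, apply_ite]
  have he : ∀ T : MvPolynomial (σ ⊕ Fin n) K0,
      eval θ (aeval (Sum.elim (fun s => (X s : MvPolynomial σ K)) fun t => C (x t)) T) =
      aeval (Sum.elim θ x) T := by
    intro T
    induction T using MvPolynomial.induction_on with
    | C c =>
      rw [aeval_C, aeval_C, IsScalarTower.algebraMap_apply K0 K, algebraMap_eq, eval_C]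
    | add T U h1 h2 => simp only [map_add, h1, h2]
    | mul_X T i h =>
      simp only [map_mul, h, aeval_X]
      rcases i with i | i <;> simp
  intro T
  induction hN : T.totalDegree using Nat.strong_induction_on generalizing T with
  | _ N ih =>
    intro h0 h1
    by_cases hs : ∃ s, aeval (Sum.elim θ x) (pderiv (Sum.inl s) T) ≠ 0
    · exact ⟨T, hN.le, h0, hs⟩
    · push Not at hs
      obtain ⟨s, hs'⟩ : ∃ s, aeval (Sum.elim (fun s => (X s : MvPolynomial σ K)) fun t => C (x t))
          (pderiv (Sum.inl s) T) ≠ 0 := by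
        by_contra hc
        push Not at hc
        have hc' := Der.const _ fun s => (hd s T).symm.trans (hc s)
        have := he T
        rw [hc', eval_C, h0] at this
        rw [this, C_0] at hc'
        exact h1 hc'
      have hlt := Der.deg_lt (Sum.inl s) T fun h => hs' (by rw [h, map_zero])
      obtain ⟨T', t1, t2, t3⟩ := ih _ (hN ▸ hlt) _ rfl (hs s) hs'
      exact ⟨T', by omega, t2, t3⟩

end Pool.Agent.MP_8a92de_lc.E43

end Row_der

section Row_compl
namespace Pool.Agent.MP_8a92de_lc.E43

open MvPolynomial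

namespace compl

theorem dd_rename {K : Type} [Field K] {K0 : Subfield K} {σ ι : Type} [Fintype σ] [Fintype ι]
    (p a : σ → K) (g : ι → σ) (T : MvPolynomial ι K0) :
    dd p a (rename g T) = ∑ i, aeval (p ∘ g) (pderiv i T) * a (g i) := by
  have e : rename g T = aeval (fun i => (X (g i) : MvPolynomial σ K0)) T :=
    DFunLike.congr_fun (algHom_ext (f := rename g)
      (g := aeval fun i => (X (g i) : MvPolynomial σ K0)) fun i => by simp) T
  rw [e, dd_aeval]
  simp only [aeval_X, dd_X]
  rfl

end compl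

theorem compl (h1 : DER) (h2 : ELIM) : COMPL := by
  classical
  intro K _ _ K0 σ _ n e w Θ hg he hw x
  by_contra h0
  have h3 : ∀ j : Fin (n + 1), ∃ T : MvPolynomial (σ ⊕ Fin n) K0, T.totalDegree ≤ e ∧
      aeval (Sum.elim (fun s => Θ (j, s)) x) T = 0 ∧
        ∃ s, aeval (Sum.elim (fun s => Θ (j, s)) x) (pderiv (Sum.inl s) T) ≠ 0 := fun j => by
    by_contra h4
    refine h0 ⟨j, fun T t1 t2 => by_contra fun t3 => ?_⟩
    obtain ⟨T', a1, a2⟩ := h1 K K0 σ n _ x T t2 t3
    exact h4 ⟨T', a1.trans t1, a2⟩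
  choose T t1 t2 s t3 using h3
  have e1 : ∀ j : Fin (n + 1), Sum.elim Θ x ∘ Sum.map (fun s => (j, s)) id =
      Sum.elim (fun s => Θ (j, s)) x := fun j => funext fun o => by cases o <;> rfl
  refine h2 K K0 (Fin (n + 1) × σ) (Fin n) (n + 1) (n + 1) e w
    (fun j => rename (Sum.map (fun s => (j, s)) id) (T j)) (Sum.elim Θ x)
    (fun j v => if v = Sum.inl (j, s j) then 1 else 0) (by simp) hw he
    (fun j => (totalDegree_rename_le _ _).trans (t1 j))
    (fun j => by rw [aeval_rename, e1, t2]) (fun z hz => funext fun i => ?_) hg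
  have e2 := hz i
  rw [Finset.sum_eq_single i, compl.dd_rename, Finset.sum_eq_single (Sum.inl (s i)), e1] at e2
  · simpa [t3 i] using e2
  · rintro (o | o) - ho
    · rw [if_neg (by simpa using ho), mul_zero]
    · rw [if_neg (by simp), mul_zero]
  · simp
  · intro j _ hj
    rw [compl.dd_rename, Finset.sum_eq_zero, zero_mul]
    rintro (o | o) -
    · rw [if_neg (by simp [hj.symm]), mul_zero]
    · rw [if_neg (by simp), mul_zero]
  · simp

end Pool.Agent.MP_8a92de_lc.E43

end Row_compl

section Row_coll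
namespace Pool.Agent.MP_8a92de_lc.E43

open MvPolynomial

namespace Coll

theorem deg_aeval {F σ ι : Type} [Field F] {c : ℕ} {yh : ι → MvPolynomial σ F}
    (h : ∀ i, (yh i).totalDegree ≤ c) (T : MvPolynomial ι F) :
    (aeval yh T).totalDegree ≤ c * T.totalDegree := by
  classical
  rw [aeval_def, eval₂_eq]
  refine totalDegree_finsetSum_le fun s hs => ?_
  refine (totalDegree_mul _ _).trans ?_
  rw [algebraMap_eq, totalDegree_C, zero_add]
  refine (totalDegree_finsetProd _ _).trans ?_
  refine le_trans ?_ (Nat.mul_le_mul_left c (le_totalDegree hs))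
  rw [Finsupp.sum, Finset.mul_sum]
  refine Finset.sum_le_sum fun i _ => (totalDegree_pow _ _).trans ?_
  rw [mul_comm]
  exact Nat.mul_le_mul_right _ (h i)

end Coll

theorem coll (h : ELIM) : COLL := by
  intro K _ K0 V U ι _ _ _ N r m k d e w col p yh yh' P Q P' Q' ik a hU hV he hd hik d1 d2 dP hv
    hJ a1 a2
  classical
  have hc : ∀ T : MvPolynomial (Fin N) K0,
      aeval p (aeval yh T) = aeval (fun i => aeval p (yh i)) T :=
    fun T => by rw [← AlgHom.comp_apply, comp_aeval]
  have hc' : ∀ T : MvPolynomial ι K0,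
      aeval p (aeval yh' T) = aeval (fun i => aeval p (yh' i)) T :=
    fun T => by rw [← AlgHom.comp_apply, comp_aeval]
  have e1 : ∀ j (T : MvPolynomial (Fin N) K0), dd p (a j) (aeval yh T) =
      aeval (fun i => aeval p (yh i)) (pderiv (col (ik j)) T) := fun j T => by
    rw [dd_aeval]
    simp [a1]
  have e2 : ∀ j (T : MvPolynomial ι K0), dd p (a j) (aeval yh' T) = 0 := fun j T => by
    rw [dd_aeval]
    simp [a2]
  refine h K K0 V U m k e w
    (fun b => aeval yh (P b) * aeval yh' (Q' b) - aeval yh' (P' b) * aeval yh (Q b)) p a hU hV he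
    (fun b => ?_) (fun b => ?_) (fun z hz => ?_)
  · obtain ⟨b1, b2, b3, b4⟩ := dP b
    have c1 := Coll.deg_aeval d1 (P b)
    have c2 := Coll.deg_aeval d1 (Q b)
    have c3 := Coll.deg_aeval d2 (P' b)
    have c4 := Coll.deg_aeval d2 (Q' b)
    refine (totalDegree_sub _ _).trans (max_le ((totalDegree_mul _ _).trans ?_)
      ((totalDegree_mul _ _).trans ?_)) <;> omega
  · obtain ⟨b1, b2, b3⟩ := hv b
    rw [div_eq_div_iff b1 b2] at b3
    rw [map_sub, map_mul, map_mul, hc, hc, hc', hc', b3, sub_self]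
  · have hz' := hJ (fun i => ∑ j, if i = ik j then z j else 0) (by
      funext b
      obtain ⟨b1, b2, b3⟩ := hv b
      rw [div_eq_div_iff b1 b2] at b3
      have h0 := hz b
      simp only [dd_sub, dd_mul, e1, e2, hc, hc'] at h0
      simp only [Matrix.mulVec, dotProduct, Matrix.map_apply, jac, Matrix.of_apply, Finset.mul_sum,
        Pi.zero_apply]
      rw [Finset.sum_comm]
      simp only [mul_ite, mul_zero, Finset.sum_ite_eq', Finset.mem_univ, if_true, map_sub, map_mul]
      apply mul_left_cancel₀ b2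
      rw [mul_zero, Finset.mul_sum]
      have h1 := congrArg (fun t => aeval (fun i => aeval p (yh i)) (Q b) * t) h0
      simp only [mul_zero, Finset.mul_sum] at h1
      refine Eq.trans (Finset.sum_congr rfl fun j _ => ?_) h1
      linear_combination (-(aeval (fun i => aeval p (yh i)) (pderiv (col (ik j)) (Q b)) * z j)) * b3)
    funext j
    have := congrFun hz' (ik j)
    simpa [hik.eq_iff] using this

end Pool.Agent.MP_8a92de_lc.E43

end Row_coll

section Row_outer
namespace Pool.Agent.MP_8a92de_lc.E43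

open MvPolynomial

namespace Outer

variable {K : Type} [Field K] {K0 : Subfield K} {W U : Type} {n M m : ℕ}

/-- the generic point of a block, with unknown input -/
noncomputable def yh (K0 : Subfield K) (c : Par n M m → W) (u : Fin n → U) :
    Fin (M + (n + 1)) → MvPolynomial (W ⊕ U) K0 :=
  gP (fun s => X (Sum.inl (c s))) fun l => X (Sum.inr (u l))

theorem yh_deg (c : Par n M m → W) (u : Fin n → U) :
    ∀ i, (yh K0 c u i).totalDegree ≤ 2 := by
  unfold yh gP
  refine pt_cases (fun i => ?_) (fun l => ?_) ?_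
  · rw [pt_w, wP]
    refine (totalDegree_add _ _).trans (max_le (by simp) ?_)
    refine totalDegree_finsetSum_le fun l _ => (totalDegree_mul _ _).trans (by simp)
  · rw [pt_x]; simp
  · rw [pt_t]; exact (totalDegree_pow _ _).trans (by simp)

theorem yh_val (c : Par n M m → W) (u : Fin n → U) (p : W ⊕ U → K) :
    (fun i => aeval p (yh K0 c u i)) =
      gP (fun s => p (Sum.inl (c s))) fun l => p (Sum.inr (u l)) := by
  funext i
  have := map_gP (aeval p : MvPolynomial (W ⊕ U) K0 →ₐ[K0] K).toRingHom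
    (fun s : Par n M m => X (Sum.inl (c s))) (fun l => X (Sum.inr (u l))) i
  simpa [yh] using this

theorem yh_dd [Fintype W] [Fintype U] (c : Par n M m → W) (u : Fin n → U) (p a : W ⊕ U → K)
    (h1 : ∀ v, a (Sum.inr v) = 0) (h2 : a (Sum.inl (c (.inl ()))) = 0) :
    ∀ i, dd p a (yh K0 c u i) = pt (fun i => a (Sum.inl (c (.inr (.inl (i, none))))) +
      ∑ l, a (Sum.inl (c (.inr (.inl (i, some l))))) * p (Sum.inr (u l))) (fun _ => 0) 0 i := by
  unfold yh gP
  refine pt_cases (fun i => ?_) (fun l => ?_) ?_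
  · rw [pt_w, pt_w, wP, dd_add, dd_sum]
    simp [dd_mul, h1]
  · rw [pt_x, pt_x, dd_X, h1]
  · rw [pt_t, pt_t]
    exact dd_pow_zero _ _ _ (by rw [dd_X, h2]) 2

theorem pt_single (j : Fin M) : ∀ i : Fin (M + (n + 1)),
    pt (fun i => if i = j then (1 : K) else 0) (fun _ => 0) 0 i =
      if i = Fin.castAdd (n + 1) j then 1 else 0 := by
  refine pt_cases (fun i => ?_) (fun l => ?_) ?_
  · rw [pt_w]; simp [Fin.ext_iff]
  · rw [pt_x, if_neg]
    intro h
    have := congrArg Fin.val h
    simp at this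
    omega
  · rw [pt_t, if_neg]
    intro h
    have := congrArg Fin.val h
    simp at this
    omega

end Outer

theorem outer (h : COLL) : OUTER := by
  intro K _ K0 n M m N' d e w Θ j x y' P Q P' Q' ⟨hG, hw, he, hd, dP, hv, hJ⟩
  classical
  by_contra hM
  have v1 := Outer.yh_val (K0 := K0) (fun s : Par n M m => (j, s))
    (Sum.inl : Fin n → Fin n ⊕ Fin N') (Sum.elim Θ (Sum.elim x y'))
  simp only [Sum.elim_inl, Sum.elim_inr] at v1
  refine h K K0 (Fin (n + 1) × Par n M m) (Fin n ⊕ Fin N') (Fin N') (M + (n + 1)) M m M d e w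
    (Fin.castAdd (n + 1)) (Sum.elim Θ (Sum.elim x y'))
    (Outer.yh K0 (fun s => (j, s)) Sum.inl) (fun i => X (Sum.inr (Sum.inr i))) P Q P' Q' id
    (fun i v => if v = Sum.inl (j, .inr (.inl (i, none))) then 1 else 0)
    (by simp; omega) hw he hd Function.injective_id (Outer.yh_deg _ _) (fun i => by simp) dP
    ?_ ?_ (fun i i' => ?_) (fun i i' => by simp) hG
  · rw [v1]
    simpa using hv
  · rw [v1]
    exact hJ
  · rw [Outer.yh_dd _ _ _ _ (by simp) (by simp), id, ← Outer.pt_single]
    simp

end Pool.Agent.MP_8a92de_lc.E43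

end Row_outer

section Row_same
namespace Pool.Agent.MP_8a92de_lc.E43

open MvPolynomial

namespace Same

variable {K : Type} [Field K] {K0 : Subfield K} {W U : Type} {n M m : ℕ}

/-- the generic point of a block, with unknown input -/
noncomputable def yh (K0 : Subfield K) (c : Par n M m → W) (u : Fin n → U) :
    Fin (M + (n + 1)) → MvPolynomial (W ⊕ U) K0 :=
  gP (fun s => X (Sum.inl (c s))) fun l => X (Sum.inr (u l))

theorem yh_deg (c : Par n M m → W) (u : Fin n → U) :
    ∀ i, (yh K0 c u i).totalDegree ≤ 2 := by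
  unfold yh gP
  refine pt_cases (fun i => ?_) (fun l => ?_) ?_
  · rw [pt_w, wP]
    refine (totalDegree_add _ _).trans (max_le (by simp) ?_)
    refine totalDegree_finsetSum_le fun l _ => (totalDegree_mul _ _).trans (by simp)
  · rw [pt_x]; simp
  · rw [pt_t]; exact (totalDegree_pow _ _).trans (by simp)

theorem yh_val (c : Par n M m → W) (u : Fin n → U) (p : W ⊕ U → K) :
    (fun i => aeval p (yh K0 c u i)) =
      gP (fun s => p (Sum.inl (c s))) fun l => p (Sum.inr (u l)) := by
  funext i
  have := map_gP (aeval p : MvPolynomial (W ⊕ U) K0 →ₐ[K0] K).toRingHom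
    (fun s : Par n M m => X (Sum.inl (c s))) (fun l => X (Sum.inr (u l))) i
  simpa [yh] using this

theorem yh_dd [Fintype W] [Fintype U] (c : Par n M m → W) (u : Fin n → U) (p a : W ⊕ U → K)
    (h1 : ∀ v, a (Sum.inr v) = 0) (h2 : a (Sum.inl (c (.inl ()))) = 0) :
    ∀ i, dd p a (yh K0 c u i) = pt (fun i => a (Sum.inl (c (.inr (.inl (i, none))))) +
      ∑ l, a (Sum.inl (c (.inr (.inl (i, some l))))) * p (Sum.inr (u l))) (fun _ => 0) 0 i := by
  unfold yh gP
  refine pt_cases (fun i => ?_) (fun l => ?_) ?_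
  · rw [pt_w, pt_w, wP, dd_add, dd_sum]
    simp [dd_mul, h1]
  · rw [pt_x, pt_x, dd_X, h1]
  · rw [pt_t, pt_t]
    exact dd_pow_zero _ _ _ (by rw [dd_X, h2]) 2

theorem pt_single (j : Fin M) : ∀ i : Fin (M + (n + 1)),
    pt (fun i => if i = j then (1 : K) else 0) (fun _ => 0) 0 i =
      if i = Fin.castAdd (n + 1) j then 1 else 0 := by
  refine pt_cases (fun i => ?_) (fun l => ?_) ?_
  · rw [pt_w]; simp [Fin.ext_iff]
  · rw [pt_x, if_neg]
    intro h
    have := congrArg Fin.val h
    simp at this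
    omega
  · rw [pt_t, if_neg]
    intro h
    have := congrArg Fin.val h
    simp at this
    omega

theorem pt_zero (i : Fin (M + (n + 1))) :
    pt (fun _ : Fin M => (0 : K)) (fun _ : Fin n => 0) 0 i = 0 := by
  revert i
  refine pt_cases ?_ ?_ ?_ <;> simp

end Same

theorem same (h : COLL) : SAME := by
  intro K _ K0 n M m d e w Θ j j' x x' P Q P' Q' hM ⟨hG, hw, he, hd, dP, hv, hJ⟩
  classical
  by_contra hx
  obtain ⟨l, hl⟩ := Function.ne_iff.1 hx
  have hl' : x l - x' l ≠ 0 := sub_ne_zero.2 hl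
  have v1 := Same.yh_val (K0 := K0) (fun s : Par n M m => (j, s))
    (Sum.inl : Fin n → Fin n ⊕ Fin n) (Sum.elim Θ (Sum.elim x x'))
  have v2 := Same.yh_val (K0 := K0) (fun s : Par n M m => (j', s))
    (Sum.inr : Fin n → Fin n ⊕ Fin n) (Sum.elim Θ (Sum.elim x x'))
  simp only [Sum.elim_inl, Sum.elim_inr] at v1 v2
  refine h K K0 (Fin (n + 1) × Par n M m) (Fin n ⊕ Fin n) (Fin (M + (n + 1))) (M + (n + 1)) M m M
    d e w (Fin.castAdd (n + 1)) (Sum.elim Θ (Sum.elim x x'))
    (Same.yh K0 (fun s => (j, s)) Sum.inl) (Same.yh K0 (fun s => (j', s)) Sum.inr) P Q P' Q' id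
    (fun i v => if v = Sum.inl (j, .inr (.inl (i, none))) then - x' l / (x l - x' l) else
      if v = Sum.inl (j, .inr (.inl (i, some l))) then 1 / (x l - x' l) else 0)
    (by simp; omega) hw he hd Function.injective_id (Same.yh_deg _ _) (Same.yh_deg _ _) dP
    ?_ ?_ (fun i i' => ?_) (fun i i' => ?_) hG
  · rw [v1, v2]
    exact hv
  · rw [v1]
    exact hJ
  · rw [Same.yh_dd _ _ _ _ (by simp) (by simp), id, ← Same.pt_single]
    congr 1
    funext k
    by_cases hk : k = i
    · subst hk
      simp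
      field_simp
      ring
    · simp [hk]
  · rw [Same.yh_dd _ _ _ _ (by simp) (by simp)]
    refine Eq.trans ?_ (Same.pt_zero i')
    congr 1
    funext k
    by_cases hk : k = i
    · by_cases hj : j' = j
      · subst hk hj
        simp
        field_simp
        ring
      · simp [hj]
    · simp [hk]

end Pool.Agent.MP_8a92de_lc.E43

end Row_same
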