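import Pool.Agent.MP_8a92de_lc.E43.Defs

namespace Pool.Agent.MP_8a92de_lc.E43

open MvPolynomial Filter Topology

/-- A gate: the function of the input it computes and the formal degrees of its numerator and
denominator. -/
structure Node (K : Type) where
  val : (ℕ → K) → K
  num : ℕ
  den : ℕ

open Classical in
/-- Circuits over a field with test `τ` and constants from `S`: lists of gates, each a constant, an
input or an operation applied to earlier gates. -/
inductive Built {K : Type} [Field K] (τ : K → Prop) (S : Set K) : List (Node K) → Prop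
  | nil : Built τ S []
  | const {l : List (Node K)} (c : K) : c ∈ S → Built τ S l →
      Built τ S (⟨fun _ => c, 0, 0⟩ :: l)
  | var {l : List (Node K)} (i : ℕ) : Built τ S l → Built τ S (⟨fun z => z i, 1, 0⟩ :: l)
  | add {l : List (Node K)} {a b : Node K} : Built τ S l → a ∈ l → b ∈ l →
      Built τ S (⟨fun z => a.val z + b.val z, max (a.num + b.den) (b.num + a.den),
        a.den + b.den⟩ :: l)
  | mul {l : List (Node K)} {a b : Node K} : Built τ S l → a ∈ l → b ∈ l →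
      Built τ S (⟨fun z => a.val z * b.val z, a.num + b.num, a.den + b.den⟩ :: l)
  | div {l : List (Node K)} {a b : Node K} : Built τ S l → a ∈ l → b ∈ l →
      Built τ S (⟨fun z => a.val z / b.val z, a.num + b.den, a.den + b.num⟩ :: l)
  | sel {l : List (Node K)} {a b c : Node K} : Built τ S l → a ∈ l → b ∈ l → c ∈ l →
      Built τ S (⟨fun z => if τ (a.val z) then b.val z else c.val z, max b.num c.num,
        max b.den c.den⟩ :: l)

open Classical in
/-- The output list: the values of the second gates of the pairs whose first gate passes the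
test. -/
noncomputable def outList {K : Type} (τ : K → Prop) (out : List (Node K × Node K)) (z : ℕ → K) :
    List K :=
  (out.filter fun o => decide (τ (o.1.val z))).map fun o => o.2.val z

/-- extension by zero -/
def ex {A : Type} [Zero A] {N : ℕ} (y : Fin N → A) : ℕ → A :=
  fun i => if h : i < N then y ⟨i, h⟩ else 0

@[simp] theorem ex_val {A : Type} [Zero A] {N : ℕ} (y : Fin N → A) (i : Fin N) :
    ex y i = y i := by simp [ex]

theorem ex_lt {A : Type} [Zero A] {N : ℕ} (y : Fin N → A) {i : ℕ} (h : i < N) :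
    ex y i = y ⟨i, h⟩ := by simp [ex, h]

theorem ex_ge {A : Type} [Zero A] {N : ℕ} (y : Fin N → A) {i : ℕ} (h : N ≤ i) :
    ex y i = 0 := by simp [ex, Nat.not_lt.2 h]

theorem getD_ofFn {A : Type} [Zero A] {N : ℕ} (y : Fin N → A) :
    (fun i => (List.ofFn y).getD i 0) = ex y := by
  funext i
  by_cases h : i < N
  · simp [ex, h, List.getD_eq_getElem?_getD]
  · simp [ex, h, List.getD_eq_getElem?_getD]

section Kit
variable {K : Type} [Field K] {τ : K → Prop} {A : Set K}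

def Bd (l : List (Node K)) (D : ℕ) : Prop := ∀ a ∈ l, a.num ≤ D ∧ a.den ≤ D

def Ok (τ : K → Prop) (A : Set K) (D : ℕ) (l : List (Node K)) : Prop := Built τ A l ∧ Bd l D

/-- `l'` is a circuit with degrees at most `D` that extends `l` by at most `k` gates -/
def Ext (τ : K → Prop) (A : Set K) (D k : ℕ) (l l' : List (Node K)) : Prop :=
  Ok τ A D l' ∧ (∀ a ∈ l, a ∈ l') ∧ l'.length ≤ l.length + k

/-- `φ` is the value, on inputs of length `n`, of a gate without denominator of degree at most `e` -/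
def Has (n : ℕ) (l : List (Node K)) (φ : (Fin n → K) → K) (e : ℕ) : Prop :=
  ∃ b ∈ l, (∀ y, b.val (ex y) = φ y) ∧ b.num ≤ e ∧ b.den = 0

variable {n D : ℕ} {l l' l'' : List (Node K)}

/-- the constants `0, 1, -1` are allowed -/
def Un (A : Set K) : Prop := (0 : K) ∈ A ∧ (1 : K) ∈ A ∧ (-1 : K) ∈ A

theorem Built.mono {A' : Set K} (h : Built τ A l) (hA : A ⊆ A') : Built τ A' l := by
  induction h with
  | nil => exact .nil
  | const c hc _ ih => exact .const c (hA hc) ih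
  | var i _ ih => exact .var i ih
  | add _ ha hb ih => exact .add ih ha hb
  | mul _ ha hb ih => exact .mul ih ha hb
  | div _ ha hb ih => exact .div ih ha hb
  | sel _ ha hb hc ih => exact .sel ih ha hb hc

theorem Ok.monoA {A' : Set K} (h : Ok τ A D l) (hA : A ⊆ A') : Ok τ A' D l :=
  ⟨h.1.mono hA, h.2⟩

theorem ok_nil : Ok τ A D ([] : List (Node K)) := ⟨Built.nil, fun _ h => by simp at h⟩

theorem Ok.mono {D' : ℕ} (h : Ok τ A D l) (hD : D ≤ D') : Ok τ A D' l :=
  ⟨h.1, fun a ha => ⟨(h.2 a ha).1.trans hD, (h.2 a ha).2.trans hD⟩⟩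

theorem Has.mono {φ : (Fin n → K) → K} {e e' : ℕ} (h : Has n l φ e) (hl : ∀ a ∈ l, a ∈ l')
    (he : e ≤ e') : Has n l' φ e' := by
  obtain ⟨b, hb, h1, h2, h3⟩ := h
  exact ⟨b, hl b hb, h1, h2.trans he, h3⟩

theorem Has.congr {φ ψ : (Fin n → K) → K} {e : ℕ} (h : Has n l φ e) (hφ : ∀ y, φ y = ψ y) :
    Has n l ψ e := by
  obtain ⟨b, hb, h1, h2, h3⟩ := h
  exact ⟨b, hb, fun y => (h1 y).trans (hφ y), h2, h3⟩

theorem Ext.refl (h : Ok τ A D l) : Ext τ A D 0 l l := ⟨h, fun _ h => h, le_rfl⟩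

theorem Ext.mono {k k' : ℕ} (h : Ext τ A D k l l') (hk : k ≤ k') : Ext τ A D k' l l' :=
  ⟨h.1, h.2.1, h.2.2.trans (by omega)⟩

theorem Ext.trans {k k' : ℕ} (h : Ext τ A D k l l') (h' : Ext τ A D k' l' l'') :
    Ext τ A D (k + k') l l'' :=
  ⟨h'.1, fun a ha => h'.2.1 a (h.2.1 a ha), by have := h.2.2; have := h'.2.2; omega⟩

theorem ext_cons {a : Node K} (h : Ok τ A D l) (hb : Built τ A (a :: l)) (h1 : a.num ≤ D)
    (h2 : a.den ≤ D) : Ext τ A D 1 l (a :: l) :=
  ⟨⟨hb, fun b hb => by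
      rcases List.mem_cons.1 hb with rfl | hb
      · exact ⟨h1, h2⟩
      · exact h.2 b hb⟩, fun b hb => List.mem_cons_of_mem _ hb, by simp⟩

theorem ext_const (h : Ok τ A D l) (c : K) (hc : c ∈ A) :
    ∃ l', Ext τ A D 1 l l' ∧ Has n l' (fun _ => c) 0 :=
  ⟨_, ext_cons h (Built.const c hc h.1) (Nat.zero_le _) (Nat.zero_le _),
    _, List.mem_cons_self, fun _ => rfl, le_rfl, rfl⟩

theorem ext_var (h : Ok τ A D l) (hD : 1 ≤ D) (i : Fin n) :
    ∃ l', Ext τ A D 1 l l' ∧ Has n l' (fun y => y i) 1 :=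
  ⟨_, ext_cons h (Built.var i h.1) hD (Nat.zero_le _),
    _, List.mem_cons_self, fun y => ex_val y i, le_rfl, rfl⟩

theorem ext_add (h : Ok τ A D l) {φ ψ : (Fin n → K) → K} {e : ℕ} (h1 : Has n l φ e)
    (h2 : Has n l ψ e) (he : e ≤ D) :
    ∃ l', Ext τ A D 1 l l' ∧ Has n l' (fun y => φ y + ψ y) e := by
  obtain ⟨a, ha, a1, a2, a3⟩ := h1
  obtain ⟨b, hb, b1, b2, b3⟩ := h2
  refine ⟨_, ext_cons h (Built.add h.1 ha hb) ?_ ?_, _, List.mem_cons_self,
    fun y => by simp [a1, b1], ?_, ?_⟩ <;> simp <;> omega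

theorem ext_mul (h : Ok τ A D l) {φ ψ : (Fin n → K) → K} {e e' : ℕ} (h1 : Has n l φ e)
    (h2 : Has n l ψ e') (he : e + e' ≤ D) :
    ∃ l', Ext τ A D 1 l l' ∧ Has n l' (fun y => φ y * ψ y) (e + e') := by
  obtain ⟨a, ha, a1, a2, a3⟩ := h1
  obtain ⟨b, hb, b1, b2, b3⟩ := h2
  refine ⟨_, ext_cons h (Built.mul h.1 ha hb) ?_ ?_, _, List.mem_cons_self,
    fun y => by simp [a1, b1], ?_, ?_⟩ <;> simp <;> omega

theorem ext_smul (h : Ok τ A D l) (c : K) (hc : c ∈ A) {φ : (Fin n → K) → K} {e : ℕ} (h1 : Has n l φ e)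
    (he : e ≤ D) : ∃ l', Ext τ A D 2 l l' ∧ Has n l' (fun y => c * φ y) e := by
  obtain ⟨l1, e1, g1⟩ := ext_const (n := n) h c hc
  obtain ⟨l2, e2, g2⟩ := ext_mul e1.1 g1 (h1.mono e1.2.1 le_rfl) (by omega)
  exact ⟨l2, e1.trans e2, g2.mono (fun _ h => h) (by omega)⟩

open Classical in
/-- selection; the test is any gate of the circuit -/
theorem ext_sel (h : Ok τ A D l) {a : Node K} (ha : a ∈ l) {φ ψ : (Fin n → K) → K} {e : ℕ}
    (h1 : Has n l φ e) (h2 : Has n l ψ e) (he : e ≤ D) :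
    ∃ l', Ext τ A D 1 l l' ∧ Has n l' (fun y => if τ (a.val (ex y)) then φ y else ψ y) e := by
  obtain ⟨b, hb, b1, b2, b3⟩ := h1
  obtain ⟨c, hc, c1, c2, c3⟩ := h2
  refine ⟨_, ext_cons h (Built.sel h.1 ha hb hc) ?_ ?_, _, List.mem_cons_self,
    fun y => by simp [b1, c1], ?_, ?_⟩ <;> simp <;> omega

/-- do one step of cost `k` for every index of a finite set -/
theorem ext_finset {ι : Type} (s : Finset ι) {k : ℕ} (h : Ok τ A D l)
    (Q : ι → List (Node K) → Prop)
    (hQ : ∀ i l1 l2, Q i l1 → (∀ a ∈ l1, a ∈ l2) → Q i l2)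
    (step : ∀ i ∈ s, ∀ l1, Ok τ A D l1 → (∀ a ∈ l, a ∈ l1) → ∃ l2, Ext τ A D k l1 l2 ∧ Q i l2) :
    ∃ l', Ext τ A D (s.card * k) l l' ∧ ∀ i ∈ s, Q i l' := by
  classical
  induction s using Finset.induction_on with
  | empty => exact ⟨l, (Ext.refl h).mono (Nat.zero_le _), by simp⟩
  | insert i s hi ih =>
    obtain ⟨l1, e1, q1⟩ := ih fun j hj => step j (Finset.mem_insert_of_mem hj)
    obtain ⟨l2, e2, q2⟩ := step i (Finset.mem_insert_self _ _) l1 e1.1 e1.2.1
    refine ⟨l2, (e1.trans e2).mono ?_, fun j hj => ?_⟩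
    · rw [Finset.card_insert_of_notMem hi]; nlinarith
    · rcases Finset.mem_insert.1 hj with rfl | hj
      · exact q2
      · exact hQ j l1 l2 (q1 j hj) e2.2.1

/-- family of functions, each obtainable at cost `k` from any extension of `l` -/
theorem ext_family {ι : Type} [Fintype ι] {k : ℕ} (h : Ok τ A D l)
    (φ : ι → (Fin n → K) → K) (e : ι → ℕ)
    (step : ∀ i l1, Ok τ A D l1 → (∀ a ∈ l, a ∈ l1) → ∃ l2, Ext τ A D k l1 l2 ∧ Has n l2 (φ i) (e i)) :
    ∃ l', Ext τ A D (Fintype.card ι * k) l l' ∧ ∀ i, Has n l' (φ i) (e i) := by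
  obtain ⟨l', e1, q⟩ := ext_finset (Finset.univ : Finset ι) h (fun i l1 => Has n l1 (φ i) (e i))
    (fun i l1 l2 h1 h2 => h1.mono h2 le_rfl) (fun i _ => step i)
  exact ⟨l', by simpa using e1, fun i => q i (Finset.mem_univ i)⟩

theorem ext_sum {ι : Type} (s : Finset ι) (h : Ok τ A D l) (h0 : (0 : K) ∈ A) (φ : ι → (Fin n → K) → K) {e : ℕ}
    (hφ : ∀ i ∈ s, Has n l (φ i) e) (he : e ≤ D) :
    ∃ l', Ext τ A D (s.card + 1) l l' ∧ Has n l' (fun y => ∑ i ∈ s, φ i y) e := by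
  classical
  induction s using Finset.induction_on with
  | empty =>
    obtain ⟨l1, e1, g1⟩ := ext_const (n := n) h 0 h0
    exact ⟨l1, by simpa using e1, by simpa using g1.mono (fun _ h => h) (Nat.zero_le e)⟩
  | insert i s hi ih =>
    obtain ⟨l1, e1, g1⟩ := ih fun j hj => hφ j (Finset.mem_insert_of_mem hj)
    obtain ⟨l2, e2, g2⟩ := ext_add e1.1
      ((hφ i (Finset.mem_insert_self _ _)).mono e1.2.1 le_rfl) g1 he
    refine ⟨l2, (e1.trans e2).mono ?_, g2.congr fun y => ?_⟩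
    · rw [Finset.card_insert_of_notMem hi]
    · rw [Finset.sum_insert hi]

/-- sum of products -/
theorem ext_dot {ι : Type} (s : Finset ι) (h : Ok τ A D l) (h0 : (0 : K) ∈ A) (φ ψ : ι → (Fin n → K) → K) {e e' : ℕ}
    (hφ : ∀ i ∈ s, Has n l (φ i) e) (hψ : ∀ i ∈ s, Has n l (ψ i) e') (he : e + e' ≤ D) :
    ∃ l', Ext τ A D (2 * s.card + 1) l l' ∧
      Has n l' (fun y => ∑ i ∈ s, φ i y * ψ i y) (e + e') := by
  obtain ⟨l1, e1, q1⟩ := ext_finset s h (fun i l1 => Has n l1 (fun y => φ i y * ψ i y) (e + e'))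
    (fun i l1 l2 h1 h2 => h1.mono h2 le_rfl)
    (fun i hi l1 o1 s1 => ext_mul o1 ((hφ i hi).mono s1 le_rfl) ((hψ i hi).mono s1 le_rfl) he)
  obtain ⟨l2, e2, g2⟩ := ext_sum s e1.1 h0 (fun i y => φ i y * ψ i y) q1 he
  exact ⟨l2, (e1.trans e2).mono (by omega), g2⟩

/-- linear combination with constant coefficients -/
theorem ext_lin {ι : Type} (s : Finset ι) (h : Ok τ A D l) (h0 : (0 : K) ∈ A) (c : ι → K)
    (hc : ∀ i ∈ s, c i ∈ A) (φ : ι → (Fin n → K) → K)
    {e : ℕ} (hφ : ∀ i ∈ s, Has n l (φ i) e) (he : e ≤ D) :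
    ∃ l', Ext τ A D (3 * s.card + 1) l l' ∧ Has n l' (fun y => ∑ i ∈ s, c i * φ i y) e := by
  obtain ⟨l1, e1, q1⟩ := ext_finset s h (fun i l1 => Has n l1 (fun y => c i * φ i y) e)
    (fun i l1 l2 h1 h2 => h1.mono h2 le_rfl)
    (fun i hi l1 o1 s1 => ext_smul o1 (c i) (hc i hi) ((hφ i hi).mono s1 le_rfl) he)
  obtain ⟨l2, e2, g2⟩ := ext_sum s e1.1 h0 (fun i y => c i * φ i y) q1 he
  exact ⟨l2, (e1.trans e2).mono (by omega), g2⟩

end Kit

section Points
variable {A : Type} [CommRing A]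

/-- the point `(w, x, t)` -/
def pt {M n : ℕ} (w : Fin M → A) (x : Fin n → A) (t : A) : Fin (M + (n + 1)) → A :=
  Fin.append w (Fin.snoc x t)

omit [CommRing A] in
@[simp] theorem pt_w {M n : ℕ} (w : Fin M → A) (x : Fin n → A) (t : A) (i : Fin M) :
    pt w x t (Fin.castAdd (n + 1) i) = w i := by simp [pt]

omit [CommRing A] in
@[simp] theorem pt_x {M n : ℕ} (w : Fin M → A) (x : Fin n → A) (t : A) (l : Fin n) :
    pt w x t (Fin.natAdd M l.castSucc) = x l := by simp [pt]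

omit [CommRing A] in
theorem pt_t {M n : ℕ} (w : Fin M → A) (x : Fin n → A) (t : A) :
    pt w x t (Fin.natAdd M (Fin.last n)) = t := by
  unfold pt
  rw [Fin.append_right, Fin.snoc_last]

omit [CommRing A] in
@[simp] theorem pt_last {M n : ℕ} (w : Fin M → A) (x : Fin n → A) (t : A) :
    pt w x t (Fin.last (M + n)) = t := pt_t w x t

theorem pt_cases {M n : ℕ} {p : Fin (M + (n + 1)) → Prop} (h1 : ∀ i, p (Fin.castAdd (n + 1) i))
    (h2 : ∀ l : Fin n, p (Fin.natAdd M l.castSucc)) (h3 : p (Fin.natAdd M (Fin.last n))) :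
    ∀ i, p i := fun i => Fin.addCases h1 (fun k => Fin.lastCases h3 h2 k) i

omit [CommRing A] in
theorem map_pt {B : Type} (g : A → B) {M n : ℕ} (w : Fin M → A) (x : Fin n → A)
    (t : A) (i : Fin (M + (n + 1))) :
    g (pt w x t i) = pt (fun i => g (w i)) (fun l => g (x l)) (g t) i := by
  revert i
  refine pt_cases ?_ ?_ ?_ <;> simp

/-- parameters of one block: `t`; `b i = (i, none)`, `A i l = (i, some l)`; `R c a` -/
abbrev Par (n M m : ℕ) : Type := Unit ⊕ (Fin M × Option (Fin n)) ⊕ (Fin M × Fin m)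

def wP {n M m : ℕ} (θ : Par n M m → A) (x : Fin n → A) (i : Fin M) : A :=
  θ (.inr (.inl (i, none))) + ∑ l, θ (.inr (.inl (i, some l))) * x l

def gP {n M m : ℕ} (θ : Par n M m → A) (x : Fin n → A) : Fin (M + (n + 1)) → A :=
  pt (wP θ x) x (θ (.inl ()) ^ 2)

theorem map_gP {B : Type} [CommRing B] (g : A →+* B) {n M m : ℕ} (θ : Par n M m → A)
    (x : Fin n → A) (i : Fin (M + (n + 1))) :
    g (gP θ x i) = gP (fun s => g (θ s)) (fun l => g (x l)) i := by
  unfold gP
  rw [map_pt g]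
  simp [wP, map_sum]
  rfl

def Rm {n M m : ℕ} (θ : Par n M m → A) : Matrix (Fin M) (Fin m) A :=
  Matrix.of fun c a => θ (.inr (.inr (c, a)))

noncomputable def jac {m r N : ℕ} (col : Fin r → Fin N) (P Q : Fin m → MvPolynomial (Fin N) A) :
    Matrix (Fin m) (Fin r) (MvPolynomial (Fin N) A) :=
  Matrix.of fun a i => Q a * pderiv (col i) (P a) - P a * pderiv (col i) (Q a)

/-- degree bound of the elimination -/
def eb (e w : ℕ) : ℕ := w * ((2 * e * w) ^ w + 1)

end Points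

/-- the hiding language: the sign of the last entry selects the mode -/
def SL (L : Set (List ℝ)) : Set (List ℝ) :=
  {y | (0 < y.getD (y.length - ((Nat.unpair y.length).1 + 1) + (Nat.unpair y.length).1) 0 ∧
      (List.ofFn fun l : Fin (Nat.unpair y.length).1 =>
        y.getD (y.length - ((Nat.unpair y.length).1 + 1) + l) 0) ∈ L) ∨
    (y.getD (y.length - ((Nat.unpair y.length).1 + 1) + (Nat.unpair y.length).1) 0 < 0 ∧
      ∀ i < y.length - ((Nat.unpair y.length).1 + 1), 0 < y.getD i 0)}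

/-- Zariski-dense open subsets of the slice over `x` -/
def ZF (M : ℕ) {n : ℕ} (x : Fin n → ℝ) : Filter (Fin (M + (n + 1)) → ℝ) where
  sets := {s | ∃ D : MvPolynomial (Option (Fin M)) ℝ, D ≠ 0 ∧
    ∀ z : Option (Fin M) → ℝ, eval z D ≠ 0 → pt (fun i => z (some i)) x (z none) ∈ s}
  univ_sets := ⟨1, one_ne_zero, fun _ _ => trivial⟩
  sets_of_superset := fun ⟨D, hD, h⟩ hs => ⟨D, hD, fun z hz => hs (h z hz)⟩
  inter_sets := fun ⟨D, hD, h⟩ ⟨D', hD', h'⟩ => ⟨D * D', mul_ne_zero hD hD', fun z hz => by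
    rw [map_mul] at hz
    exact ⟨h z (left_ne_zero_of_mul hz), h' z (right_ne_zero_of_mul hz)⟩⟩

theorem eventually_ZF {M n : ℕ} {x : Fin n → ℝ} {p : (Fin (M + (n + 1)) → ℝ) → Prop} :
    (∀ᶠ y in ZF M x, p y) ↔ ∃ D : MvPolynomial (Option (Fin M)) ℝ, D ≠ 0 ∧
      ∀ z : Option (Fin M) → ℝ, eval z D ≠ 0 → p (pt (fun i => z (some i)) x (z none)) :=
  Iff.rfl

section Orth

abbrev Rg (M : ℕ) : Type := MvPolynomial (Fin M) ℝ

abbrev Fr (M : ℕ) : Type := FractionRing (Rg M)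

/-- the fraction `P / Q` -/
noncomputable def fr {M : ℕ} (P Q : Rg M) : Fr M :=
  algebraMap (Rg M) (Fr M) P / algebraMap (Rg M) (Fr M) Q

/-- leading exponent (lexicographic order) -/
noncomputable def dn {M : ℕ} (P : Rg M) : Fin M →₀ ℕ := MonomialOrder.lex.degree P

noncomputable def dg {M : ℕ} (P : Rg M) : Fin M → ℤ := fun j => (dn P j : ℤ)

structure IsLam {M : ℕ} (lam : Fr M → Fin M → ℤ) : Prop where
  frac : ∀ P Q : Rg M, P ≠ 0 → Q ≠ 0 → lam (fr P Q) = dg P - dg Q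
  mul : ∀ ξ η, ξ ≠ 0 → η ≠ 0 → lam (ξ * η) = lam ξ + lam η
  sum : ∀ (ι : Type) (s : Finset ι) (f : ι → Fr M), s.Nonempty → (∀ i ∈ s, f i ≠ 0) →
    Set.InjOn (fun i => lam (f i)) s → ∑ i ∈ s, f i ≠ 0

/-- numerator of the derivative of `P / Q` along `v` -/
noncomputable def dv {M : ℕ} (v : Fin M → Rg M) (P Q : Rg M) : Rg M :=
  ∑ i, (Q * pderiv i P - P * pderiv i Q) * v i

/-- `r` is the value of `ξ` at `w` -/
def Val {M : ℕ} (w : Fin M → ℝ) (ξ : Fr M) (r : ℝ) : Prop :=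
  ∃ P Q : Rg M, eval w Q ≠ 0 ∧ ξ = fr P Q ∧ r = eval w P / eval w Q

end Orth

section Loc
variable {K : Type} [Field K]

def Gen (K0 : Subfield K) (d : ℕ) {σ : Type} (y : σ → K) : Prop :=
  ∀ T : MvPolynomial σ K0, T.totalDegree ≤ d → aeval y T = 0 → T = 0

/-- along the filter, polynomials of degree at most `d` vanish exactly when they vanish at `y` -/
def Adm (K0 : Subfield K) (d : ℕ) {N : ℕ} (y : Fin N → K) (F : Filter (Fin N → K)) : Prop :=
  ∀ T : MvPolynomial (Fin N) K0, T.totalDegree ≤ d →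
    ∀ᶠ y' in F, (aeval y' T = 0 ↔ aeval y T = 0)

structure IsLoc (K0 : Subfield K) (d : ℕ) {m N : ℕ} (G : Fin m → (Fin N → K) → K)
    (P Q : (Fin N → K) → Fin m → MvPolynomial (Fin N) K0) : Prop where
  degP : ∀ y a, (P y a).totalDegree ≤ d
  degQ : ∀ y a, (Q y a).totalDegree ≤ d
  neQ : ∀ y a, aeval y (Q y a) ≠ 0
  val : ∀ y a, G a y = aeval y (P y a) / aeval y (Q y a)
  loc : ∀ y F, Adm K0 d y F → ∀ᶠ y' in F, P y' = P y ∧ Q y' = Q y

/-- local representation of a gate, with division-free gates for the values -/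
def Rep (K0 : Subfield K) (N d : ℕ) (l' : List (Node K)) (a : Node K) : Prop :=
  ∃ P Q : (Fin N → K) → MvPolynomial (Fin N) K0,
    (∀ y, (P y).totalDegree ≤ a.num) ∧ (∀ y, (Q y).totalDegree ≤ a.den) ∧
    (∀ y, aeval y (Q y) ≠ 0) ∧ (∀ y, a.val (ex y) = aeval y (P y) / aeval y (Q y)) ∧
    (∀ y F, Adm K0 d y F → ∀ᶠ y' in F, P y' = P y ∧ Q y' = Q y) ∧
    Has N l' (fun y => aeval y (P y)) a.num ∧ Has N l' (fun y => aeval y (Q y)) a.den ∧
    (∀ i, Has N l' (fun y => aeval y (pderiv i (P y))) a.num) ∧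
    ∀ i, Has N l' (fun y => aeval y (pderiv i (Q y))) a.den

theorem Rep.mono {K0 : Subfield K} {N d : ℕ} {l' l'' : List (Node K)}
    {a : Node K} (h : Rep K0 N d l' a) (hl : ∀ b ∈ l', b ∈ l'') : Rep K0 N d l'' a := by
  obtain ⟨P, Q, h1, h2, h3, h4, h5, h6, h7, h8, h9⟩ := h
  exact ⟨P, Q, h1, h2, h3, h4, h5, h6.mono hl le_rfl, h7.mono hl le_rfl,
    fun i => (h8 i).mono hl le_rfl, fun i => (h9 i).mono hl le_rfl⟩

/-- the value at `y` of the Jacobian in the `w`-columns -/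
noncomputable def jw {K0 : Subfield K} {n M m : ℕ}
    (P Q : Fin m → MvPolynomial (Fin (M + (n + 1))) K0) (y : Fin (M + (n + 1)) → K) :
    Matrix (Fin m) (Fin M) K :=
  (jac (Fin.castAdd (n + 1)) P Q).map (aeval y)

/-- Faddeev-LeVerrier matrices -/
noncomputable def flN {r : ℕ} (M : Matrix (Fin r) (Fin r) K) : ℕ → Matrix (Fin r) (Fin r) K
  | 0 => 1
  | k + 1 => M * flN M k - ((((k + 1 : ℕ) : K))⁻¹ * (M * flN M k).trace) •
      (1 : Matrix (Fin r) (Fin r) K)

theorem Gen.mono {K0 : Subfield K} {d d' : ℕ} {σ : Type} {y : σ → K} (h : Gen K0 d y)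
    (hd : d' ≤ d) : Gen K0 d' y := fun T hT => h T (hT.trans hd)

/-- the parameters `θ` are generic up to degree `e` over the point `x` -/
def BGen (K0 : Subfield K) (e : ℕ) {σ : Type} {n : ℕ} (θ : σ → K) (x : Fin n → K) : Prop :=
  ∀ T : MvPolynomial (σ ⊕ Fin n) K0, T.totalDegree ≤ e → aeval (Sum.elim θ x) T = 0 →
    aeval (Sum.elim (fun s => (X s : MvPolynomial σ K)) fun t => C (x t)) T = 0

/-- derivative of `T` at `p` in direction `a` -/
noncomputable def dd {K0 : Subfield K} {σ : Type} [Fintype σ] (p a : σ → K)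
    (T : MvPolynomial σ K0) : K := ∑ s, aeval p (pderiv s T) * a s

section DD
variable {K0 : Subfield K} {σ : Type} [Fintype σ] (p a : σ → K)

@[simp] theorem dd_zero : dd p a (0 : MvPolynomial σ K0) = 0 := by simp [dd]

@[simp] theorem dd_one : dd p a (1 : MvPolynomial σ K0) = 0 := by simp [dd]

@[simp] theorem dd_C (c : K0) : dd p a (C c : MvPolynomial σ K0) = 0 := by simp [dd]

@[simp] theorem dd_X (s : σ) : dd p a (X s : MvPolynomial σ K0) = a s := by
  classical
  simp [dd, pderiv_X, Pi.single_apply, apply_ite]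

theorem dd_add (T U : MvPolynomial σ K0) : dd p a (T + U) = dd p a T + dd p a U := by
  simp [dd, add_mul, Finset.sum_add_distrib]

theorem dd_sub (T U : MvPolynomial σ K0) : dd p a (T - U) = dd p a T - dd p a U := by
  simp [dd, sub_mul, Finset.sum_sub_distrib]

theorem dd_mul (T U : MvPolynomial σ K0) :
    dd p a (T * U) = dd p a T * aeval p U + aeval p T * dd p a U := by
  simp only [dd, Derivation.leibniz, smul_eq_mul, map_add, map_mul, Finset.sum_mul,
    Finset.mul_sum, ← Finset.sum_add_distrib]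
  exact Finset.sum_congr rfl fun s _ => by ring

theorem dd_sum {ι : Type} (s : Finset ι) (T : ι → MvPolynomial σ K0) :
    dd p a (∑ i ∈ s, T i) = ∑ i ∈ s, dd p a (T i) := by
  simp only [dd, map_sum, Finset.sum_mul]
  exact Finset.sum_comm

theorem dd_pow_zero (T : MvPolynomial σ K0) (h : dd p a T = 0) (k : ℕ) : dd p a (T ^ k) = 0 := by
  induction k with
  | zero => simp
  | succ k ih => rw [pow_succ, dd_mul, ih, h]; simp

/-- chain rule -/
theorem dd_aeval {ι : Type} [Fintype ι] (yh : ι → MvPolynomial σ K0) (T : MvPolynomial ι K0) :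
    dd p a (aeval yh T) =
      ∑ i, aeval (fun i => aeval p (yh i)) (pderiv i T) * dd p a (yh i) := by
  classical
  have hc : ∀ U : MvPolynomial ι K0, aeval p (aeval yh U) = aeval (fun i => aeval p (yh i)) U :=
    fun U => by rw [← AlgHom.comp_apply, comp_aeval]
  induction T using MvPolynomial.induction_on with
  | C c => simp
  | add T U h1 h2 =>
    rw [map_add, dd_add, h1, h2, ← Finset.sum_add_distrib]
    exact Finset.sum_congr rfl fun j _ => by rw [map_add, map_add, add_mul]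
  | mul_X T i h =>
    rw [map_mul, aeval_X, dd_mul, h, hc]
    simp only [Derivation.leibniz, smul_eq_mul, map_add, map_mul, aeval_X, add_mul,
      Finset.sum_add_distrib, pderiv_X, Pi.single_apply, apply_ite, map_zero,
      mul_one, mul_zero, ite_mul, zero_mul, Finset.sum_ite_eq, Finset.mem_univ, if_true,
      Finset.sum_mul]
    rw [add_comm]
    congr 1
    exact Finset.sum_congr rfl fun j _ => by ring

end DD

end Loc

end Pool.Agent.MP_8a92de_lc.E43
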