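import Pool.Agent.MP_8a92de_lc.E43.Stmts

section Row_nz
namespace Pool.Agent.MP_8a92de_lc.E43

open MvPolynomial Filter Topology

namespace nzx

theorem deg_aeval {R σ τ : Type} [CommSemiring R] (f : σ → MvPolynomial τ R) (k : ℕ)
    (hf : ∀ i, (f i).totalDegree ≤ k) (T : MvPolynomial σ R) :
    (aeval f T).totalDegree ≤ k * T.totalDegree := by
  classical
  rw [aeval_def, eval₂_eq]
  refine (totalDegree_finsetSum _ _).trans (Finset.sup_le fun d hd => ?_)
  refine (totalDegree_mul _ _).trans ?_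
  have h0 : (algebraMap R (MvPolynomial τ R) (coeff d T)).totalDegree = 0 := totalDegree_C _
  rw [h0, zero_add]
  refine (totalDegree_finsetProd _ _).trans ?_
  have h1 : ∑ i ∈ d.support, (f i ^ d i).totalDegree ≤ ∑ i ∈ d.support, k * d i :=
    Finset.sum_le_sum fun i _ => (totalDegree_pow _ _).trans
      ((Nat.mul_le_mul_left _ (hf i)).trans (le_of_eq (Nat.mul_comm _ _)))
  refine h1.trans ?_
  rw [← Finset.mul_sum]
  exact Nat.mul_le_mul_left _ (le_totalDegree hd)

variable {K : Type} [Field K] {K0 : Subfield K} {n M m : ℕ}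

/-- the generic point, in the variables of the parameters and of the base point -/
noncomputable def sub (K0 : Subfield K) (n M m : ℕ) :
    Fin (M + (n + 1)) ⊕ Par n M m → MvPolynomial (Par n M m ⊕ Fin n) K0 :=
  Sum.elim (gP (fun s => X (Sum.inl s)) fun l => X (Sum.inr l)) fun s => X (Sum.inl s)

theorem dX (s : Par n M m ⊕ Fin n) :
    (X s : MvPolynomial (Par n M m ⊕ Fin n) K0).totalDegree ≤ 1 := le_of_eq (totalDegree_X s)

theorem deg_sub (i : Fin (M + (n + 1)) ⊕ Par n M m) : (sub K0 n M m i).totalDegree ≤ 2 := by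
  rcases i with i | s
  · show (gP (fun s => (X (Sum.inl s) : MvPolynomial (Par n M m ⊕ Fin n) K0))
      (fun l => X (Sum.inr l)) i).totalDegree ≤ 2
    unfold gP
    revert i
    refine pt_cases (fun i => ?_) (fun l => ?_) ?_
    · rw [pt_w]
      unfold wP
      refine (totalDegree_add _ _).trans (max_le ((dX _).trans (by omega)) ?_)
      refine (totalDegree_finsetSum _ _).trans (Finset.sup_le fun l _ => ?_)
      exact (totalDegree_mul _ _).trans (Nat.add_le_add (dX _) (dX _))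
    · rw [pt_x]
      exact (dX _).trans (by omega)
    · rw [pt_t]
      exact (totalDegree_pow _ _).trans (Nat.mul_le_mul_left 2 (dX _))
  · exact (dX _).trans (by omega)

theorem aeval_sub (θ : Par n M m → K) (x : Fin n → K)
    (T : MvPolynomial (Fin (M + (n + 1)) ⊕ Par n M m) K0) :
    aeval (Sum.elim θ x) (aeval (sub K0 n M m) T) = aeval (Sum.elim (gP θ x) θ) T := by
  have h : (fun i => aeval (Sum.elim θ x) (sub K0 n M m i)) = Sum.elim (gP θ x) θ := by
    funext i
    rcases i with i | s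
    · have h1 := map_gP (aeval (R := K0) (Sum.elim θ x) :
        MvPolynomial (Par n M m ⊕ Fin n) K0 →ₐ[K0] K).toRingHom
        (fun s => X (Sum.inl s)) (fun l => X (Sum.inr l)) i
      simpa [sub] using h1
    · simp [sub]
  rw [← AlgHom.comp_apply, comp_aeval, h]

end nzx

theorem nz : NZ := by
  intro K _ K0 n M m e θ x hB T hT h0 θ'
  have h1 := hB (aeval (nzx.sub K0 n M m) T)
    ((nzx.deg_aeval _ 2 nzx.deg_sub T).trans hT) (by rw [nzx.aeval_sub]; exact h0)
  rw [← nzx.aeval_sub]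
  have h2 : (fun i => ((aeval θ' : MvPolynomial (Par n M m) K →ₐ[K] K).restrictScalars K0)
      (Sum.elim (fun s => (X s : MvPolynomial (Par n M m) K)) (fun t => C (x t)) i)) =
      Sum.elim θ' x := by
    funext i
    rcases i with s | t <;> simp
  rw [← h2, ← comp_aeval, AlgHom.comp_apply, h1, map_zero]

end Pool.Agent.MP_8a92de_lc.E43

end Row_nz

section Row_sq
namespace Pool.Agent.MP_8a92de_lc.E43

open MvPolynomial Filter Topology

theorem sq : SQ := by
  intro K0 n M x T h w t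
  have key : ∀ s : ℝ, Polynomial.eval s (aeval (pt (fun i => Polynomial.C (w i))
      (fun l => Polynomial.C (x l)) (Polynomial.X : Polynomial ℝ)) T) = aeval (pt w x s) T := by
    intro s
    have h2 : (fun i => ((Polynomial.aeval s : Polynomial ℝ →ₐ[ℝ] ℝ).restrictScalars K0)
        (pt (fun i => Polynomial.C (w i)) (fun l => Polynomial.C (x l))
          (Polynomial.X : Polynomial ℝ) i)) = pt w x s := by
      funext i
      rw [map_pt ((Polynomial.aeval s : Polynomial ℝ →ₐ[ℝ] ℝ).restrictScalars K0)]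
      simp
    rw [← h2, ← comp_aeval, AlgHom.comp_apply]
    simp
  have h0 : aeval (pt (fun i => Polynomial.C (w i)) (fun l => Polynomial.C (x l))
      (Polynomial.X : Polynomial ℝ)) T = 0 := by
    refine Polynomial.eq_zero_of_infinite_isRoot _ ((Set.Ici_infinite (0 : ℝ)).mono ?_)
    intro s hs
    have h3 := h w (Real.sqrt s)
    rw [Real.sq_sqrt hs] at h3
    show Polynomial.eval s _ = 0
    rw [key, h3]
  rw [← key, h0, Polynomial.eval_zero]

end Pool.Agent.MP_8a92de_lc.E43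

end Row_sq

section Row_adm
namespace Pool.Agent.MP_8a92de_lc.E43

open MvPolynomial Filter Topology

namespace admx

variable {K0 : Subfield ℝ} {n M m : ℕ}

/-- the restriction of `T` to the slice over `x` -/
noncomputable def sl (x : Fin n → ℝ) (T : MvPolynomial (Fin (M + (n + 1))) K0) :
    MvPolynomial (Option (Fin M)) ℝ :=
  aeval (pt (fun i => X (some i)) (fun l => C (x l)) (X none : MvPolynomial (Option (Fin M)) ℝ)) T

theorem eval_sl (x : Fin n → ℝ) (T : MvPolynomial (Fin (M + (n + 1))) K0)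
    (z : Option (Fin M) → ℝ) :
    eval z (sl x T) = aeval (pt (fun i => z (some i)) x (z none)) T := by
  have h2 : (fun i => ((aeval z : MvPolynomial (Option (Fin M)) ℝ →ₐ[ℝ] ℝ).restrictScalars K0)
      (pt (fun i => X (some i)) (fun l => C (x l))
        (X none : MvPolynomial (Option (Fin M)) ℝ) i)) =
      pt (fun i => z (some i)) x (z none) := by
    funext i
    rw [map_pt ((aeval z : MvPolynomial (Option (Fin M)) ℝ →ₐ[ℝ] ℝ).restrictScalars K0)]
    simp
  rw [← h2, ← comp_aeval, AlgHom.comp_apply]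
  rfl

/-- parameters that give the point `(w, x, t ^ 2)` -/
def par (m : ℕ) (w : Fin M → ℝ) (t : ℝ) : Par n M m → ℝ :=
  Sum.elim (fun _ => t) (Sum.elim (fun p => p.2.elim (w p.1) fun _ => 0) fun _ => 0)

theorem gP_par (w : Fin M → ℝ) (x : Fin n → ℝ) (t : ℝ) :
    gP (par m w t) x = pt w x (t ^ 2) := by
  have h : wP (par m w t) x = w := by
    funext i
    simp [wP, par]
  unfold gP
  rw [h]
  rfl

end admx

theorem adm (h1 : NZ) (h2 : SQ) : ADM := by
  intro K0 n M m d e θ x hB hd T hT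
  have ren : ∀ θ' : Par n M m → ℝ,
      aeval (Sum.elim (gP θ' x) θ') (rename Sum.inl T) = aeval (gP θ' x) T := fun θ' => by
    rw [aeval_rename]; rfl
  by_cases h0 : aeval (gP θ x) T = 0
  · have h3 := h1 ℝ K0 n M m e θ x hB (rename Sum.inl T)
      ((Nat.mul_le_mul_left 2 ((totalDegree_rename_le _ _).trans hT)).trans hd)
      (by rw [ren]; exact h0)
    have h4 := h2 K0 n M x T fun w t => by
      rw [← admx.gP_par (m := m), ← ren]; exact h3 _
    exact eventually_ZF.2 ⟨1, one_ne_zero, fun z _ => ⟨fun _ => h0, fun _ => h4 _ _⟩⟩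
  · refine eventually_ZF.2 ⟨admx.sl x T, fun h => h0 ?_, fun z hz => ?_⟩
    · have h5 := admx.eval_sl x T fun o => o.elim (θ (.inl ()) ^ 2) (wP θ x)
      rw [h, map_zero] at h5
      exact h5.symm
    · rw [admx.eval_sl] at hz
      exact ⟨fun h => absurd h hz, fun h => absurd h h0⟩

end Pool.Agent.MP_8a92de_lc.E43

end Row_adm

section Row_minor
namespace Pool.Agent.MP_8a92de_lc.E43

open MvPolynomial

namespace minorx

theorem deg_pderiv {σ F : Type} [CommRing F] (i : σ) (p : MvPolynomial σ F) :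
    (pderiv i p).totalDegree ≤ p.totalDegree := by
  classical
  conv_lhs => rw [p.as_sum, map_sum]
  refine totalDegree_finsetSum_le fun s hs => ?_
  rw [pderiv_monomial]
  refine (totalDegree_monomial_le _ _).trans (le_trans ?_ (le_totalDegree hs))
  refine Finsupp.sum_le_sum_index tsub_le_self (fun _ _ => monotone_id) (fun _ _ => rfl)

theorem deg_jac {F : Type} [CommRing F] {m r N d : ℕ} (col : Fin r → Fin N)
    (P Q : Fin m → MvPolynomial (Fin N) F)
    (h : ∀ a, (P a).totalDegree ≤ d ∧ (Q a).totalDegree ≤ d) (a : Fin m) (i : Fin r) :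
    (jac col P Q a i).totalDegree ≤ 2 * d := by
  have a1 := (deg_pderiv (col i) (P a)).trans (h a).1
  have a2 := (deg_pderiv (col i) (Q a)).trans (h a).2
  have a3 := totalDegree_mul (Q a) (pderiv (col i) (P a))
  have a4 := totalDegree_mul (P a) (pderiv (col i) (Q a))
  have a5 := (h a).1
  have a6 := (h a).2
  refine (totalDegree_sub _ _).trans (max_le ?_ ?_) <;> omega

theorem deg_det {F σ : Type} [Field F] {r e : ℕ} (M : Matrix (Fin r) (Fin r) (MvPolynomial σ F))
    (h : ∀ a i, (M a i).totalDegree ≤ e) : M.det.totalDegree ≤ r * e := by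
  rw [Matrix.det_apply']
  refine totalDegree_finsetSum_le fun π _ => (totalDegree_mul _ _).trans ?_
  have h1 : (((Equiv.Perm.sign π : ℤˣ) : ℤ) : MvPolynomial σ F).totalDegree = 0 := by
    rw [← map_intCast (C : F →+* MvPolynomial σ F), totalDegree_C]
  have h2 := (totalDegree_finsetProd Finset.univ fun i => M (π i) i).trans
    (Finset.sum_le_sum fun i _ => h (π i) i)
  rw [Finset.sum_const, Finset.card_univ, Fintype.card_fin, smul_eq_mul] at h2
  omega

/-- the matrix with generic left factor -/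
noncomputable def gm {F : Type} [Field F] {N n r m : ℕ}
    (J : Matrix (Fin m) (Fin r) (MvPolynomial (Fin N) F)) :
    Matrix (Fin r) (Fin r) (MvPolynomial (Fin N ⊕ Par n r m) F) :=
  Rm (fun s : Par n r m => (X (Sum.inr s) : MvPolynomial (Fin N ⊕ Par n r m) F)) *
    (J.map (rename Sum.inl) : Matrix (Fin m) (Fin r) (MvPolynomial (Fin N ⊕ Par n r m) F))

theorem ev {F B : Type} [Field F] [CommRing B] [Algebra F B] {N n r m : ℕ}
    (J : Matrix (Fin m) (Fin r) (MvPolynomial (Fin N) F)) (y : Fin N → B) (θ : Par n r m → B) :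
    aeval (Sum.elim y θ) (gm (n := n) J).det = (Rm θ * J.map (aeval y)).det := by
  rw [AlgHom.map_det]
  refine congrArg Matrix.det (Matrix.ext fun c i => ?_)
  simp [gm, Matrix.mul_apply, Rm, aeval_rename]

theorem deg_gm {F : Type} [Field F] {N n r m e : ℕ}
    (J : Matrix (Fin m) (Fin r) (MvPolynomial (Fin N) F)) (h : ∀ a i, (J a i).totalDegree ≤ e)
    (c i : Fin r) : (gm (n := n) J c i).totalDegree ≤ e + 1 := by
  simp only [gm, Matrix.mul_apply, Rm, Matrix.of_apply, Matrix.map_apply]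
  refine totalDegree_finsetSum_le fun a _ => (totalDegree_mul _ _).trans ?_
  have h1 := (totalDegree_rename_le (Sum.inl : Fin N → Fin N ⊕ Par n r m) (J a i)).trans (h a i)
  rw [totalDegree_X]
  omega

/-- parameters with a given point and a given choice of rows -/
def par {n M m : ℕ} (s : Fin M → Fin m) (w : Fin M → ℝ) (t : ℝ) : Par n M m → ℝ
  | .inl _ => t
  | .inr (.inl (i, none)) => w i
  | .inr (.inl (_, some _)) => 0
  | .inr (.inr (c, a)) => if s c = a then 1 else 0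

theorem gP_par {n M m : ℕ} (s : Fin M → Fin m) (w : Fin M → ℝ) (t : ℝ) (x : Fin n → ℝ) :
    gP (par s w t : Par n M m → ℝ) x = pt w x (t ^ 2) := by
  have : wP (par s w t : Par n M m → ℝ) x = w := by
    funext i
    simp [wP, par]
  rw [gP, this]
  rfl

theorem Rm_par {n M m : ℕ} (s : Fin M → Fin m) (w : Fin M → ℝ) (t : ℝ)
    (J : Matrix (Fin m) (Fin M) ℝ) :
    Rm (par s w t : Par n M m → ℝ) * J = J.submatrix s id := by
  ext c i
  simp [Matrix.mul_apply, Rm, par]

end minorx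

theorem minor (h1 : NZ) (h2 : SQ) : MINOR := by
  intro K0 n M m d e θ x P Q hθ he hd h0 s
  have hJ := minorx.deg_jac (Fin.castAdd (n + 1)) P Q hd
  have hdeg := minorx.deg_det _ (minorx.deg_gm (n := n) _ hJ)
  have h3 := h1 ℝ K0 n M m e θ x hθ (minorx.gm (n := n) (jac (Fin.castAdd (n + 1)) P Q)).det
    (by omega) (by rw [minorx.ev]; exact h0)
  have key : ∀ y : Fin (M + (n + 1)) → ℝ,
      aeval y ((jac (Fin.castAdd (n + 1)) P Q).submatrix s id).det =
        ((jw P Q y).submatrix s id).det := fun y => by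
    rw [AlgHom.map_det]
    rfl
  intro w t
  rw [← key]
  refine h2 K0 n M x _ (fun w' t' => ?_) w t
  have h4 := h3 (minorx.par s w' t')
  rw [minorx.ev, minorx.gP_par, minorx.Rm_par] at h4
  rw [key]
  exact h4

end Pool.Agent.MP_8a92de_lc.E43

end Row_minor

section Row_lamx
namespace Pool.Agent.MP_8a92de_lc.E43

open MvPolynomial Filter Topology

namespace lamx

variable {M : ℕ}

theorem inj : Function.Injective (algebraMap (Rg M) (Fr M)) := IsFractionRing.injective _ _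

theorem ne {P : Rg M} (h : P ≠ 0) : algebraMap (Rg M) (Fr M) P ≠ 0 :=
  fun h0 => h (inj (h0.trans (map_zero _).symm))

theorem dg_mul {P Q : Rg M} (hP : P ≠ 0) (hQ : Q ≠ 0) : dg (P * Q) = dg P + dg Q := by
  funext j
  simp only [dg, dn, MonomialOrder.degree_mul hP hQ, Finsupp.add_apply, Nat.cast_add, Pi.add_apply]

theorem rep (ξ : Fr M) : ∃ x : Rg M × Rg M, x.2 ≠ 0 ∧ fr x.1 x.2 = ξ := by
  obtain ⟨P, Q, hQ, h⟩ := IsFractionRing.div_surjective (A := Rg M) ξ
  exact ⟨(P, Q), nonZeroDivisors.ne_zero hQ, h⟩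

theorem num_ne {P Q : Rg M} (h : fr P Q ≠ 0) : P ≠ 0 := by
  rintro rfl
  exact h (by simp [fr])

theorem wd {P Q P' Q' : Rg M} (hP : P ≠ 0) (hQ : Q ≠ 0) (hQ' : Q' ≠ 0) (h : fr P Q = fr P' Q') :
    dg P - dg Q = dg P' - dg Q' := by
  have h0 : fr P Q ≠ 0 := div_ne_zero (ne hP) (ne hQ)
  have hP' : P' ≠ 0 := num_ne (h ▸ h0)
  unfold fr at h
  rw [div_eq_div_iff (ne hQ) (ne hQ'), ← map_mul, ← map_mul] at h
  have h1 := congrArg dg (inj h)
  rw [dg_mul hP hQ', dg_mul hP' hQ] at h1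
  rw [sub_eq_sub_iff_add_eq_add, h1]

noncomputable def la (ξ : Fr M) : Fin M → ℤ := dg (rep ξ).choose.1 - dg (rep ξ).choose.2

theorem la_fr {P Q : Rg M} (hP : P ≠ 0) (hQ : Q ≠ 0) : la (fr P Q) = dg P - dg Q :=
  (wd hP hQ (rep (fr P Q)).choose_spec.1 (rep (fr P Q)).choose_spec.2.symm).symm

theorem sum_ne {ι : Type} (s : Finset ι) (P : ι → Rg M) (hs : s.Nonempty) (hP : ∀ i ∈ s, P i ≠ 0)
    (hi : Set.InjOn (fun i => dn (P i)) s) : ∑ i ∈ s, P i ≠ 0 := by
  classical
  obtain ⟨i₀, h0, hmax⟩ := s.exists_max_image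
    (fun i => (MonomialOrder.lex (σ := Fin M)).toSyn (dn (P i))) hs
  intro h
  have h1 := congrArg (coeff (dn (P i₀))) h
  rw [coeff_sum, coeff_zero, Finset.sum_eq_single i₀] at h1
  · exact (MonomialOrder.coeff_degree_ne_zero_iff.2 (hP i₀ h0)) h1
  · intro i hi' hne
    refine MonomialOrder.coeff_eq_zero_of_lt (m := MonomialOrder.lex) ?_
    refine lt_of_le_of_ne (hmax i hi') fun he => hne (hi hi' h0 ?_)
    exact (MonomialOrder.lex (σ := Fin M)).toSyn.injective he
  · intro h2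
    exact absurd h0 h2

end lamx

theorem lamx : LAM := by
  intro M
  refine ⟨lamx.la, fun P Q hP hQ => lamx.la_fr hP hQ, fun ξ η hξ hη => ?_,
    fun ι s f hs hf hi => ?_⟩
  · obtain ⟨⟨P, Q⟩, hQ, rfl⟩ := lamx.rep ξ
    obtain ⟨⟨P', Q'⟩, hQ', rfl⟩ := lamx.rep η
    have hP := lamx.num_ne hξ
    have hP' := lamx.num_ne hη
    have h : fr P Q * fr P' Q' = fr (P * P') (Q * Q') := by
      simp only [fr, map_mul, div_mul_div_comm]
    rw [h, lamx.la_fr (mul_ne_zero hP hP') (mul_ne_zero hQ hQ'), lamx.la_fr hP hQ,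
      lamx.la_fr hP' hQ', lamx.dg_mul hP hP', lamx.dg_mul hQ hQ']
    ring
  · classical
    obtain ⟨⟨D, hD⟩, hint⟩ := IsLocalization.exist_integer_multiples (nonZeroDivisors (Rg M)) s f
    have hD0 : D ≠ 0 := nonZeroDivisors.ne_zero hD
    have h1 : ∀ i, ∃ P : Rg M, i ∈ s → f i = fr P D := by
      intro i
      by_cases hi : i ∈ s
      · obtain ⟨P, hP⟩ := hint i hi
        refine ⟨P, fun _ => ?_⟩
        rw [fr, hP, Algebra.smul_def, mul_div_cancel_left₀ _ (lamx.ne hD0)]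
      · exact ⟨0, fun h => absurd h hi⟩
    choose P hP using h1
    have hP0 : ∀ i ∈ s, P i ≠ 0 := fun i hi => lamx.num_ne (hP i hi ▸ hf i hi)
    have h2 := lamx.sum_ne s P hs hP0 fun i h1 j h2 he => hi h1 h2 (by
      have he' : dn (P i) = dn (P j) := he
      change lamx.la (f i) = lamx.la (f j)
      rw [hP i h1, hP j h2, lamx.la_fr (hP0 i h1) hD0, lamx.la_fr (hP0 j h2) hD0]
      unfold dg
      rw [he'])
    rw [Finset.sum_congr rfl hP]
    simp only [fr]
    rw [← Finset.sum_div, ← map_sum]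
    exact div_ne_zero (lamx.ne h2) (lamx.ne hD0)

end Pool.Agent.MP_8a92de_lc.E43

end Row_lamx

section Row_cst
namespace Pool.Agent.MP_8a92de_lc.E43

open MvPolynomial

namespace Cst

variable {M : ℕ}

noncomputable def D (v : Fin M → Rg M) (P : Rg M) : Rg M := ∑ i, pderiv i P * v i

theorem D_add (v : Fin M → Rg M) (P Q : Rg M) : D v (P + Q) = D v P + D v Q := by
  simp [D, add_mul, Finset.sum_add_distrib]

theorem D_mul (v : Fin M → Rg M) (P Q : Rg M) : D v (P * Q) = P * D v Q + Q * D v P := by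
  simp only [D, Derivation.leibniz, smul_eq_mul, Finset.mul_sum, ← Finset.sum_add_distrib]
  exact Finset.sum_congr rfl fun i _ => by ring

theorem D_C (v : Fin M → Rg M) (c : ℝ) : D v (C c) = 0 := by simp [D]

theorem D_one (v : Fin M → Rg M) : D v 1 = 0 := by simp [D]

theorem D_zero (v : Fin M → Rg M) : D v 0 = 0 := by simp [D]

theorem dv_eq (v : Fin M → Rg M) (P Q : Rg M) : dv v P Q = Q * D v P - P * D v Q := by
  simp only [dv, D, Finset.mul_sum, ← Finset.sum_sub_distrib]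
  exact Finset.sum_congr rfl fun i _ => by ring

theorem am_ne {Q : Rg M} (hQ : Q ≠ 0) : algebraMap (Rg M) (Fr M) Q ≠ 0 :=
  fun h => hQ (IsFractionRing.injective (Rg M) (Fr M) (h.trans (map_zero _).symm))

theorem cross {P Q P' Q' : Rg M} (hQ : Q ≠ 0) (hQ' : Q' ≠ 0) (h : fr P Q = fr P' Q') :
    P * Q' = P' * Q := by
  apply IsFractionRing.injective (Rg M) (Fr M)
  rw [map_mul, map_mul]
  exact (div_eq_div_iff (am_ne hQ) (am_ne hQ')).1 h

theorem indep (v : Fin M → Rg M) {P Q P' Q' : Rg M} (hQ : Q ≠ 0) (hQ' : Q' ≠ 0)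
    (h : fr P Q = fr P' Q') (h0 : dv v P Q = 0) : dv v P' Q' = 0 := by
  have h1 := cross hQ hQ' h
  have h2 := congrArg (D v) h1
  rw [D_mul, D_mul] at h2
  rw [dv_eq] at h0 ⊢
  have h3 : Q ^ 2 * (Q' * D v P' - P' * D v Q') = 0 := by
    linear_combination Q' ^ 2 * h0 - Q * Q' * h2 + (Q' * D v Q + Q * D v Q') * h1
  exact (mul_eq_zero.1 h3).resolve_left (pow_ne_zero 2 hQ)

theorem fr_mul (P Q P' Q' : Rg M) : fr P Q * fr P' Q' = fr (P * P') (Q * Q') := by
  simp only [fr, map_mul]; exact div_mul_div_comm _ _ _ _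

theorem fr_add {P Q P' Q' : Rg M} (hQ : Q ≠ 0) (hQ' : Q' ≠ 0) :
    fr P Q + fr P' Q' = fr (P * Q' + Q * P') (Q * Q') := by
  simp only [fr, map_mul, map_add]; exact div_add_div _ _ (am_ne hQ) (am_ne hQ')

theorem fr_C (c : ℝ) : algebraMap ℝ (Fr M) c = fr (C c) 1 := by
  rw [fr, map_one, div_one, IsScalarTower.algebraMap_apply ℝ (Rg M) (Fr M)]; rfl

noncomputable def E (v : Fin M → Rg M) : IntermediateField ℝ (Fr M) where
  carrier := {ξ | ∃ P Q : Rg M, Q ≠ 0 ∧ ξ = fr P Q ∧ dv v P Q = 0}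
  mul_mem' := by
    rintro _ _ ⟨P, Q, hQ, rfl, h⟩ ⟨P', Q', hQ', rfl, h'⟩
    refine ⟨P * P', Q * Q', mul_ne_zero hQ hQ', fr_mul _ _ _ _, ?_⟩
    rw [dv_eq] at h h' ⊢
    rw [D_mul, D_mul]
    linear_combination P * Q * h' + P' * Q' * h
  add_mem' := by
    rintro _ _ ⟨P, Q, hQ, rfl, h⟩ ⟨P', Q', hQ', rfl, h'⟩
    refine ⟨P * Q' + Q * P', Q * Q', mul_ne_zero hQ hQ', fr_add hQ hQ', ?_⟩
    rw [dv_eq] at h h' ⊢
    rw [D_add, D_mul, D_mul, D_mul]
    linear_combination Q ^ 2 * h' + Q' ^ 2 * h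
  algebraMap_mem' := fun c => ⟨C c, 1, one_ne_zero, fr_C c, by rw [dv_eq, D_C, D_one]; ring⟩
  inv_mem' := by
    rintro _ ⟨P, Q, hQ, rfl, h⟩
    by_cases hP : P = 0
    · exact ⟨0, 1, one_ne_zero, by simp [fr, hP], by rw [dv_eq, D_zero, D_one]; ring⟩
    · refine ⟨Q, P, hP, by simp only [fr, inv_div], ?_⟩
      rw [dv_eq] at h ⊢
      linear_combination -h

end Cst

theorem cst : CST := by
  intro M v
  refine ⟨Cst.E v, fun P Q hQ => ⟨?_, fun h => ⟨P, Q, hQ, rfl, h⟩⟩⟩
  rintro ⟨P', Q', hQ', e, h⟩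
  exact Cst.indep v hQ' hQ e.symm h

end Pool.Agent.MP_8a92de_lc.E43

end Row_cst

section Row_perp
namespace Pool.Agent.MP_8a92de_lc.E43

open MvPolynomial Filter Topology

namespace Perp

theorem coeff_eul {M : ℕ} (i : Fin M) (P : Rg M) (a : Fin M →₀ ℕ) :
    coeff a (X i * pderiv i P) = coeff a P * (a i : ℝ) := by
  classical
  rw [coeff_X_mul']
  split_ifs with h
  · have hi := Finsupp.mem_support_iff.1 h
    have e : a - Finsupp.single i 1 + Finsupp.single i 1 = a :=
      tsub_add_cancel_of_le (Finsupp.single_le_iff.2 (Nat.one_le_iff_ne_zero.2 hi))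
    have e2 := congrArg (fun b : Fin M →₀ ℕ => (b i : ℝ)) e
    simp only [Finsupp.add_apply, Finsupp.single_eq_same, Nat.cast_add, Nat.cast_one] at e2
    rw [coeff_pderiv, e, e2]
  · rw [Finsupp.notMem_support_iff.1 h]
    simp

theorem deg_eul {M : ℕ} (m : MonomialOrder (Fin M)) (i : Fin M) (P : Rg M) :
    m.toSyn (m.degree (X i * pderiv i P)) ≤ m.toSyn (m.degree P) :=
  m.degree_le_degree_of_support_subset fun a ha => by
    rw [mem_support_iff, coeff_eul] at ha
    exact mem_support_iff.2 (left_ne_zero_of_mul ha)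

end Perp

open Perp in
theorem perp : PERP := by
  classical
  intro M v hv
  obtain ⟨m, hm⟩ : ∃ m : MonomialOrder (Fin M), m = MonomialOrder.lex := ⟨_, rfl⟩
  obtain ⟨u, hu⟩ : ∃ u : Fin M → Rg M, ∀ i, u i = v i * ∏ j ∈ Finset.univ.erase i, X j :=
    ⟨_, fun _ => rfl⟩
  obtain ⟨i0, hi0⟩ := Function.ne_iff.1 hv
  have hu0 : u i0 ≠ 0 := by
    rw [hu]
    exact mul_ne_zero hi0 (Finset.prod_ne_zero_iff.2 fun j _ => X_ne_zero j)
  obtain ⟨k, hk, hmax⟩ := Finset.exists_max_image (Finset.univ.filter fun i => u i ≠ 0)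
    (fun i => m.toSyn (m.degree (u i))) ⟨i0, by simpa using hu0⟩
  have hle : ∀ i, m.toSyn (m.degree (u i)) ≤ m.toSyn (m.degree (u k)) := fun i => by
    by_cases h : u i = 0
    · rw [h, m.degree_zero, map_zero]
      exact bot_le
    · exact hmax i (by simpa using h)
  refine ⟨fun i => coeff (m.degree (u k)) (u i), Function.ne_iff.2 ⟨k,
    m.coeff_degree_ne_zero_iff.2 (by simpa using hk)⟩, fun P Q hP hQ h => ?_⟩
  have h1 : ∑ i, (Q * (X i * pderiv i P) * u i - P * (X i * pderiv i Q) * u i) = 0 := by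
    have : ∀ i : Fin M, Q * (X i * pderiv i P) * u i - P * (X i * pderiv i Q) * u i =
        (Q * pderiv i P - P * pderiv i Q) * v i * ∏ j, X j := fun i => by
      rw [hu, ← Finset.mul_prod_erase Finset.univ _ (Finset.mem_univ i)]
      ring
    simp only [this]
    rw [← Finset.sum_mul]
    exact mul_eq_zero_of_left h _
  have h2 : ∀ (P Q : Rg M) (i : Fin M),
      coeff (m.degree Q + m.degree P + m.degree (u k)) (Q * (X i * pderiv i P) * u i) =
        coeff (m.degree Q) Q * (coeff (m.degree P) P * (m.degree P i : ℝ)) *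
          coeff (m.degree (u k)) (u i) := fun P Q i => by
    rw [m.coeff_mul_of_add_of_degree_le _ (hle i),
      m.coeff_mul_of_add_of_degree_le le_rfl (deg_eul m i P), coeff_eul]
    refine m.degree_mul_le.trans ?_
    rw [map_add, map_add]
    exact add_le_add le_rfl (deg_eul m i P)
  have h3 := congrArg (coeff (m.degree Q + m.degree P + m.degree (u k))) h1
  rw [coeff_sum, coeff_zero] at h3
  have h4 : coeff (m.degree Q) Q * coeff (m.degree P) P *
      ∑ j, ((dg P - dg Q) j : ℝ) * coeff (m.degree (u k)) (u j) = 0 := by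
    rw [← h3, Finset.mul_sum]
    refine Finset.sum_congr rfl fun j _ => ?_
    rw [coeff_sub, h2, add_comm (m.degree Q), h2]
    simp only [dg, dn, ← hm, Pi.sub_apply, Int.cast_sub, Int.cast_natCast]
    ring
  exact (mul_eq_zero.1 h4).resolve_left
    (mul_ne_zero (m.coeff_degree_ne_zero_iff.2 hQ) (m.coeff_degree_ne_zero_iff.2 hP))

end Pool.Agent.MP_8a92de_lc.E43

end Row_perp

section Row_intx
namespace Pool.Agent.MP_8a92de_lc.E43

namespace intx

theorem fn (M : ℕ) (μ : Fin M → ℝ) (hμ : μ ≠ 0) : ∃ ψ : (Fin M → ℤ) →ₗ[ℤ] ℤ, (∃ a, ψ a = 1) ∧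
    ∀ a : Fin M → ℤ, ∑ j, (a j : ℝ) * μ j = 0 → ψ a = 0 := by
  classical
  obtain ⟨f, hf⟩ : ∃ f : (Fin M → ℤ) →ₗ[ℤ] ℝ, ∀ a, f a = ∑ j, (a j : ℝ) * μ j :=
    ⟨Fintype.linearCombination ℤ μ, fun a => by
      simp [Fintype.linearCombination_apply]⟩
  obtain ⟨j, hj⟩ := Function.ne_iff.1 hμ
  have h1 : f (Pi.single j 1) = μ j := by
    rw [hf, Finset.sum_eq_single j]
    · simp
    · intro b _ hb
      simp [Pi.single_eq_of_ne hb]
    · intro h
      exact absurd (Finset.mem_univ j) h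
  have : Nontrivial (LinearMap.range f) :=
    ⟨⟨⟨μ j, ⟨_, h1⟩⟩, 0, fun h => hj (congrArg Subtype.val h)⟩⟩
  have : Module.Finite ℤ (LinearMap.range f) := Module.Finite.range f
  have : Module.Free ℤ (LinearMap.range f) := Module.free_of_finite_type_torsion_free'
  let b := Module.Free.chooseBasis ℤ (LinearMap.range f)
  obtain ⟨i⟩ := b.index_nonempty
  refine ⟨(b.coord i).comp f.rangeRestrict, ?_, fun a ha => ?_⟩
  · obtain ⟨a, ha⟩ := f.surjective_rangeRestrict (b i)
    exact ⟨a, by simp [ha]⟩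
  · have : f.rangeRestrict a = 0 := Subtype.ext (by simpa [hf] using ha)
    simp [this]

theorem zs {ι : Type} (s : Finset ι) (u : ι → ℤ) :
    ∏ j ∈ s, (-1 : ℝ) ^ u j = (-1 : ℝ) ^ ∑ j ∈ s, u j := by
  classical
  induction s using Finset.induction_on with
  | empty => simp
  | insert j s hj ih =>
    rw [Finset.prod_insert hj, Finset.sum_insert hj, ih, zpow_add₀ (by norm_num)]

end intx

theorem intx : INT := by
  classical
  intro M μ hμ
  obtain ⟨ψ, ⟨a0, h0⟩, h1⟩ := intx.fn M μ hμ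
  obtain ⟨u, hu⟩ : ∃ u : Fin M → ℤ, ∀ a, ψ a = ∑ j, u j * a j :=
    ⟨fun j => ψ fun i => if j = i then 1 else 0, fun a => by
      rw [LinearMap.pi_apply_eq_sum_univ]
      exact Finset.sum_congr rfl fun j _ => by rw [smul_eq_mul, mul_comm]⟩
  have key : ∀ a : Fin M → ℤ, ∏ j, ((-1 : ℝ) ^ u j) ^ a j = (-1 : ℝ) ^ ψ a := by
    intro a
    rw [hu, ← intx.zs]
    exact Finset.prod_congr rfl fun j _ => (zpow_mul _ _ _).symm
  have hs : ∀ j, (-1 : ℝ) ^ u j = 1 ∨ (-1 : ℝ) ^ u j = -1 := fun j => by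
    rcases Int.even_or_odd (u j) with h | h
    · exact Or.inl h.neg_one_zpow
    · exact Or.inr h.neg_one_zpow
  refine ⟨fun j => (-1 : ℝ) ^ u j, hs, ?_, fun a ha => ?_⟩
  · by_contra hn
    have h2 : ∀ j, (-1 : ℝ) ^ u j = 1 := fun j => (hs j).resolve_right fun h => hn ⟨j, h⟩
    have h3 := key a0
    rw [h0, Finset.prod_eq_one fun j _ => by rw [h2 j, one_zpow]] at h3
    norm_num at h3
  · rw [key, h1 a ha, zpow_zero]

end Pool.Agent.MP_8a92de_lc.E43

end Row_intx

section Row_basis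
namespace Pool.Agent.MP_8a92de_lc.E43

open MvPolynomial Filter Topology

namespace basis

variable {M : ℕ} {lam : Fr M → Fin M → ℤ}

def cs (lam : Fr M → Fin M → ℤ) (ξ : Fr M) : Fin M → ℝ := fun j => (lam ξ j : ℝ)

theorem cs_mul (h : IsLam lam) {ξ η : Fr M} (h1 : ξ ≠ 0) (h2 : η ≠ 0) :
    cs lam (ξ * η) = cs lam ξ + cs lam η := by
  funext j
  simp [cs, h.mul ξ η h1 h2]

theorem cs_one (h : IsLam lam) : cs lam 1 = 0 := by
  have := cs_mul h one_ne_zero one_ne_zero
  rw [mul_one] at this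
  simpa using this

theorem cs_pow (h : IsLam lam) {ξ : Fr M} (h1 : ξ ≠ 0) (k : ℕ) :
    cs lam (ξ ^ k) = (k : ℝ) • cs lam ξ := by
  induction k with
  | zero => simp [cs_one h]
  | succ k ih => rw [pow_succ, cs_mul h (pow_ne_zero _ h1) h1, ih, Nat.cast_succ, add_smul, one_smul]

theorem cs_prod (h : IsLam lam) {J : Type} (s : Finset J) (y : J → Fr M) (hy : ∀ a, y a ≠ 0) :
    cs lam (∏ a ∈ s, y a) = ∑ a ∈ s, cs lam (y a) := by
  classical
  induction s using Finset.induction_on with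
  | empty => simp [cs_one h]
  | insert a s ha ih =>
    rw [Finset.prod_insert ha, Finset.sum_insert ha,
      cs_mul h (hy a) (Finset.prod_ne_zero_iff.2 fun b _ => hy b), ih]

theorem cs_const (h : IsLam lam) (c : ℝ) (hc : c ≠ 0) : cs lam (algebraMap ℝ (Fr M) c) = 0 := by
  have h1 := h.frac (C c) 1 (by simpa using hc) one_ne_zero
  have h2 : fr (C c : Rg M) 1 = algebraMap ℝ (Fr M) c := by
    rw [fr, map_one, div_one, IsScalarTower.algebraMap_apply ℝ (Rg M) (Fr M)]
    rfl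
  rw [h2] at h1
  funext j
  simp [cs, h1, dg, dn, MonomialOrder.degree_C]

theorem cs_X (h : IsLam lam) (j : Fin M) :
    cs lam (algebraMap (Rg M) (Fr M) (X j)) = Pi.single j 1 := by
  have h1 := h.frac (X j) 1 (X_ne_zero j) one_ne_zero
  rw [fr, map_one, div_one] at h1
  funext i
  simp only [cs, h1, dg, dn, MonomialOrder.degree_X, MonomialOrder.degree_one, Pi.sub_apply,
    Finsupp.single_apply, Pi.single_apply]
  by_cases e : i = j
  · simp [e]
  · simp [e, Ne.symm e]

theorem ind (h : IsLam lam) (F : Type) [Field F] [Algebra F (Fr M)] {V : Type} [AddCommGroup V]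
    [Module ℝ V] (π : (Fin M → ℝ) →ₗ[ℝ] V)
    (hF : ∀ c : F, c ≠ 0 → π (cs lam (algebraMap F (Fr M) c)) = 0) {J : Type} [Fintype J]
    (y : J → Fr M) (hy : ∀ a, y a ≠ 0) (hind : LinearIndependent ℝ fun a => π (cs lam (y a))) :
    AlgebraicIndependent F y := by
  classical
  rw [algebraicIndependent_iff]
  intro p hp
  by_contra h0
  have hc : ∀ d ∈ p.support, algebraMap F (Fr M) (coeff d p) ≠ 0 := fun d hd =>
    (map_ne_zero _).2 (mem_support_iff.1 hd)
  have hm : ∀ d : J →₀ ℕ, ∏ a, y a ^ d a ≠ 0 := fun d =>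
    Finset.prod_ne_zero_iff.2 fun a _ => pow_ne_zero _ (hy a)
  have hv : ∀ d ∈ p.support, π (cs lam (algebraMap F (Fr M) (coeff d p) * ∏ a, y a ^ d a)) =
      ∑ a, (d a : ℝ) • π (cs lam (y a)) := by
    intro d hd
    rw [cs_mul h (hc d hd) (hm d), map_add, hF _ (mem_support_iff.1 hd), zero_add,
      cs_prod h _ _ fun a => pow_ne_zero _ (hy a), map_sum]
    exact Finset.sum_congr rfl fun a _ => by rw [cs_pow h (hy a), map_smul]
  refine h.sum _ p.support (fun d => algebraMap F (Fr M) (coeff d p) * ∏ a, y a ^ d a)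
    (support_nonempty.2 h0) (fun d hd => mul_ne_zero (hc d hd) (hm d)) ?_ ?_
  · intro d hd d' hd' he
    have he' : cs lam (algebraMap F (Fr M) (coeff d p) * ∏ a, y a ^ d a) =
        cs lam (algebraMap F (Fr M) (coeff d' p) * ∏ a, y a ^ d' a) := by
      funext j
      exact congrArg (fun v : Fin M → ℤ => (v j : ℝ)) he
    have h1 := congrArg π he'
    rw [hv d hd, hv d' hd'] at h1
    have h2 := (Fintype.linearIndependent_iffₛ.1 hind) _ _ h1
    ext a
    exact_mod_cast h2 a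
  · rw [← hp, aeval_def, eval₂_eq']

theorem card_le {J : Type} [Fintype J] (y : J → Fr M) (hy : AlgebraicIndependent ℝ y) :
    Fintype.card J ≤ M := by
  have h1 := hy.cardinalMk_le_trdeg
  have : Algebra.IsAlgebraic (MvPolynomial (Fin M) ℝ) (Fr M) :=
    IsLocalization.isAlgebraic _ (nonZeroDivisors (MvPolynomial (Fin M) ℝ))
  have h2 := ((IsTranscendenceBasis.mvPolynomial (Fin M) ℝ).algebraMap_comp
    (A := Fr M)).cardinalMk_eq_trdeg
  rw [← h2, Cardinal.mk_fintype, Cardinal.mk_fin] at h1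
  exact_mod_cast h1

end basis

theorem basis : BASIS := by
  intro M lam h E
  obtain ⟨κ, a, -, hsp, hli⟩ := exists_linearIndependent' ℝ
    (fun ξ : {ξ : Fr M // ξ ∈ E ∧ ξ ≠ 0} => basis.cs lam ξ.1)
  obtain ⟨W, hW⟩ : ∃ W, W = Submodule.span ℝ
      (Set.range fun ξ : {ξ : Fr M // ξ ∈ E ∧ ξ ≠ 0} => basis.cs lam ξ.1) := ⟨_, rfl⟩
  rw [← hW] at hsp
  obtain ⟨κ', a', -, hsp', hli'⟩ := exists_linearIndependent' ℝ
    (fun j : Fin M => W.mkQ (Pi.single j 1))
  have f1 : Finite κ := hli.finite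
  have f2 : Finite κ' := hli'.finite
  let _ := Fintype.ofFinite κ
  let _ := Fintype.ofFinite κ'
  have c1 : Module.finrank ℝ W = Fintype.card κ := by
    rw [← hsp]
    exact finrank_span_eq_card hli
  have htop : Submodule.span ℝ (Set.range fun j : Fin M => W.mkQ (Pi.single j 1)) = ⊤ := by
    have e1 : (Set.range fun j : Fin M => W.mkQ (Pi.single j 1)) =
        W.mkQ '' Set.range (Pi.basisFun ℝ (Fin M)) := by
      rw [← Set.range_comp]
      congr 1
      funext j
      simp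
    rw [e1, Submodule.span_image, (Pi.basisFun ℝ (Fin M)).span_eq, Submodule.map_top,
      Submodule.range_mkQ]
  have c2 : Module.finrank ℝ ((Fin M → ℝ) ⧸ W) = Fintype.card κ' := by
    rw [← finrank_span_eq_card hli', hsp', htop, finrank_top]
  have c3 := W.finrank_quotient_add_finrank
  rw [c1, c2, Module.finrank_fin_fun] at c3
  let e := (Fintype.equivFin κ).symm
  have hli2 : LinearIndependent ℝ fun i => basis.cs lam (a (e i)).1 := hli.comp e e.injective
  have hG : AlgebraicIndependent ℝ fun i => (a (e i)).1 :=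
    basis.ind h ℝ LinearMap.id (fun c hc => basis.cs_const h c hc) _ (fun i => (a (e i)).2.2) hli2
  have hw : AlgebraicIndependent E fun j : κ' => algebraMap (Rg M) (Fr M) (X (a' j)) := by
    refine basis.ind h E W.mkQ (fun c hc => ?_) _ (fun j h0 => X_ne_zero (a' j)
      (IsFractionRing.injective (Rg M) (Fr M) (h0.trans (map_zero _).symm))) ?_
    · rw [Submodule.mkQ_apply, Submodule.Quotient.mk_eq_zero, hW]
      exact Submodule.subset_span ⟨⟨c.1, c.2, fun h0 => hc (Subtype.ext h0)⟩, rfl⟩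
    · simp only [basis.cs_X h]
      exact hli'
  refine ⟨Fintype.card κ, fun i => (a (e i)).1, fun i => (a (e i)).2, hli2, hG, fun ξ hξ => ?_⟩
  have halg : IsAlgebraic (Algebra.adjoin ℝ (Set.range fun i => (a (e i)).1)) ξ := by
    by_contra ht
    have h1 := (hG.option_iff_transcendental ξ).2 ht
    have h2 := h1.sumElim_of_tower (S := E) (by
      rintro _ ⟨o, rfl⟩
      cases o with
      | none => exact ⟨⟨ξ, hξ⟩, rfl⟩
      | some i => exact ⟨⟨_, (a (e i)).2.1⟩, rfl⟩) hw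
    have h3 := basis.card_le _ h2
    rw [Fintype.card_sum, Fintype.card_option, Fintype.card_fin] at h3
    omega
  obtain ⟨p, hp0, hp⟩ := halg
  refine ⟨p.map hG.aevalEquiv.symm.toRingEquiv.toRingHom, ?_, ?_⟩
  · exact (Polynomial.map_ne_zero_iff hG.aevalEquiv.symm.injective).2 hp0
  · rw [Polynomial.eval₂_map]
    refine Eq.trans ?_ hp
    rw [Polynomial.aeval_def]
    congr 1
    refine RingHom.ext fun z => ?_
    have := hG.algebraMap_aevalEquiv (hG.aevalEquiv.symm z)
    rw [AlgEquiv.apply_symm_apply] at this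
    exact this.symm

end Pool.Agent.MP_8a92de_lc.E43

end Row_basis

section Row_asym
namespace Pool.Agent.MP_8a92de_lc.E43

open MvPolynomial

namespace Asym

theorem weight {M K : ℕ} (a b : Fin M → ℕ) (ha : ∀ j, a j ≤ K) (i : Fin M)
    (h1 : ∀ j < i, a j = b j) (h2 : a i < b i) :
    ∑ j : Fin M, (M * K + 1) ^ (M - j) * a j < ∑ j : Fin M, (M * K + 1) ^ (M - j) * b j := by
  have hi := i.2
  have hW : 0 < (M * K + 1) ^ (M - i - 1) := by positivity
  have e : (M * K + 1) ^ (M - i) = (M * K + 1) ^ (M - i - 1) * (M * K + 1) := by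
    rw [← pow_succ]; congr 1; omega
  have h : ∑ j : Fin M, ((M * K + 1) ^ (M - j) * a j + if j = i then (M * K + 1) ^ (M - i) else 0) ≤
      ∑ j : Fin M, ((M * K + 1) ^ (M - j) * b j + (M * K + 1) ^ (M - i - 1) * K) := by
    refine Finset.sum_le_sum fun j _ => ?_
    rcases lt_trichotomy j i with hj | rfl | hj
    · rw [if_neg hj.ne, h1 j hj]; omega
    · rw [if_pos rfl, ← Nat.mul_succ]
      exact (Nat.mul_le_mul_left _ h2).trans (Nat.le_add_right _ _)
    · rw [if_neg hj.ne', add_zero]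
      have hj' : (i : ℕ) < j := hj
      exact (Nat.mul_le_mul (Nat.pow_le_pow_right (by omega) (by omega)) (ha j)).trans
        (Nat.le_add_left _ _)
  rw [Finset.sum_add_distrib, Finset.sum_add_distrib, Finset.sum_ite_eq' Finset.univ i,
    if_pos (Finset.mem_univ _), Finset.sum_const, Finset.card_univ, Fintype.card_fin, smul_eq_mul,
    e] at h
  have e2 : (M * K + 1) ^ (M - i - 1) * (M * K + 1) =
      M * ((M * K + 1) ^ (M - i - 1) * K) + (M * K + 1) ^ (M - i - 1) := by ring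
  omega

theorem lt_of_ne {M K : ℕ} {P : Rg M} (hK : P.totalDegree ≤ K) {μ : Fin M →₀ ℕ}
    (hμ : μ ∈ P.support) (hne : μ ≠ dn P) :
    ∑ j : Fin M, (M * K + 1) ^ (M - j) * μ j < ∑ j : Fin M, (M * K + 1) ^ (M - j) * dn P j := by
  have h1 := MonomialOrder.lex.le_degree hμ
  have h2 : MonomialOrder.lex.toSyn μ < MonomialOrder.lex.toSyn (dn P) :=
    lt_of_le_of_ne h1 fun e => hne (MonomialOrder.lex.toSyn.injective e)
  obtain ⟨i, g1, g2⟩ := Finsupp.Lex.lt_iff.1 (MonomialOrder.lex_lt_iff.1 h2)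
  exact weight μ (dn P) (fun j => ((monomial_le_degreeOf j hμ).trans
    (degreeOf_le_totalDegree P j)).trans hK) i g1 g2

noncomputable def TT {M : ℕ} (ω : Fin M → ℕ) (P : Rg M) : MvPolynomial (Option (Fin M)) ℝ :=
  ∑ μ ∈ P.support, C (coeff μ P) * X none ^ (∑ j, ω j * dn P j - ∑ j, ω j * μ j) *
    ∏ j, X (some j) ^ μ j

theorem eval_TT {M : ℕ} (ω : Fin M → ℕ) (P : Rg M) (ε : ℝ) (b : Fin M → ℝ) :
    eval (fun o => Option.elim o ε b) (TT ω P) =
      ∑ μ ∈ P.support, coeff μ P * ε ^ (∑ j, ω j * dn P j - ∑ j, ω j * μ j) * ∏ j, b j ^ μ j := by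
  simp [TT]

end Asym

theorem asym : ASYM := by
  intro M ι _ P hP
  classical
  obtain ⟨K, hK⟩ : ∃ K, ∀ i, (P i).totalDegree ≤ K :=
    ⟨Finset.univ.sup fun i => (P i).totalDegree,
      fun i => Finset.le_sup (f := fun i => (P i).totalDegree) (Finset.mem_univ i)⟩
  refine ⟨fun j => (M * K + 1) ^ (M - j), fun i => Asym.TT (fun j => (M * K + 1) ^ (M - j)) (P i),
    fun i => coeff (dn (P i)) (P i), fun i => ⟨MonomialOrder.lex.coeff_degree_ne_zero_iff.2 (hP i),
      fun ε b hε => ?_, fun b => ?_⟩⟩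
  · rw [Asym.eval_TT, eval_eq', Finset.sum_mul]
    refine Finset.sum_congr rfl fun μ hμ => ?_
    have hle : ∑ j : Fin M, (M * K + 1) ^ (M - j) * μ j ≤
        ∑ j : Fin M, (M * K + 1) ^ (M - j) * dn (P i) j := by
      by_cases hne : μ = dn (P i)
      · rw [hne]
      · exact (Asym.lt_of_ne (hK i) hμ hne).le
    rw [pow_sub₀ ε hε hle]
    simp only [div_pow, ← pow_mul, Finset.prod_div_distrib, Finset.prod_pow_eq_pow_sum]
    rw [div_eq_mul_inv]
    ring
  · rw [Asym.eval_TT, Finset.sum_eq_single_of_mem (dn (P i))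
      (MonomialOrder.lex.degree_mem_support (hP i)) fun μ hμ hne => ?_]
    · simp
    · rw [zero_pow (Nat.sub_ne_zero_of_lt (Asym.lt_of_ne (hK i) hμ hne))]
      simp

end Pool.Agent.MP_8a92de_lc.E43

end Row_asym

section Row_matchx
namespace Pool.Agent.MP_8a92de_lc.E43

open MvPolynomial Filter Topology

namespace matchx

theorem cd_eval {σ E : Type} [NormedAddCommGroup E] [NormedSpace ℝ E] (g : E → σ → ℝ)
    (hg : ∀ o, ContDiff ℝ 1 fun x => g x o) (P : MvPolynomial σ ℝ) :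
    ContDiff ℝ 1 fun x => eval (g x) P := by
  induction P using MvPolynomial.induction_on with
  | C a => simpa only [eval_C] using contDiff_const
  | add p q hp hq => simpa only [map_add] using hp.add hq
  | mul_X p i hp => simpa only [map_mul, eval_X] using hp.mul (hg i)

theorem cd1 {M : ℕ} (P : MvPolynomial (Option (Fin M)) ℝ) :
    ContDiff ℝ 1 fun p : ℝ × (Fin M → ℝ) => eval (fun o => Option.elim o p.1 p.2) P :=
  cd_eval _ (fun o => by
    cases o with
    | none => exact contDiff_fst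
    | some j => exact (contDiff_apply ℝ ℝ j).comp contDiff_snd) P

theorem cd2 {M : ℕ} (s : Fin M → ℝ) (P : MvPolynomial (Option (Fin M)) ℝ) :
    ContDiff ℝ 1 fun p : ℝ × (Fin M → ℝ) => eval (fun o => Option.elim o p.1 s) P :=
  cd_eval _ (fun o => by
    cases o with
    | none => exact contDiff_fst
    | some j => exact contDiff_const) P

theorem prod_exp {M : ℕ} (h : Fin M → ℝ) (β : Fin M → ℕ) :
    HasDerivAt (fun t : ℝ => ∏ j, Real.exp (t * h j) ^ β j) (∑ j, (β j : ℝ) * h j) 0 := by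
  have e : (fun t : ℝ => ∏ j, Real.exp (t * h j) ^ β j) =
      fun t => Real.exp (t * ∑ j, (β j : ℝ) * h j) := by
    funext t
    rw [Finset.mul_sum, Real.exp_sum]
    exact Finset.prod_congr rfl fun j _ => by rw [← Real.exp_nat_mul]; ring_nf
  rw [e]
  simpa using ((hasDerivAt_id (0 : ℝ)).mul_const (∑ j, (β j : ℝ) * h j)).exp

theorem solve {M k : ℕ} (α : Fin k → Fin M → ℝ) (h : LinearIndependent ℝ α) (y : Fin k → ℝ) :
    ∃ x : Fin M → ℝ, ∀ i, ∑ j, α i j * x j = y i := by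
  have h1 : (Matrix.of α).rank = Fintype.card (Fin k) := LinearIndependent.rank_matrix h
  have h2 : LinearMap.range (Matrix.of α).mulVecLin = ⊤ :=
    Submodule.eq_top_of_finrank_eq (h1.trans (Module.finrank_fintype_fun_eq_card ℝ).symm)
  obtain ⟨x, hx⟩ := LinearMap.range_eq_top.1 h2 y
  exact ⟨x, fun i => congrFun hx i⟩

end matchx

theorem matchx : MATCH := by
  intro M k T U c c' β γ s hc hT hl hs hp O hO
  obtain ⟨Φ, hΦ⟩ : ∃ Φ : ℝ × (Fin M → ℝ) → ℝ × (Fin k → ℝ), Φ = fun p => (p.1, fun i =>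
      eval (fun o => Option.elim o p.1 p.2) (T i) * eval (fun o => Option.elim o p.1 s) (U i) -
        eval (fun o => Option.elim o p.1 s) (T i) *
          eval (fun o => Option.elim o p.1 p.2) (U i)) := ⟨_, rfl⟩
  have d0 : ContDiff ℝ 1 Φ := by
    rw [hΦ]
    exact contDiff_fst.prodMk (contDiff_pi.2 fun i =>
      ((matchx.cd1 _).mul (matchx.cd2 s _)).sub ((matchx.cd2 s _).mul (matchx.cd1 _)))
  obtain ⟨a, ha⟩ : ∃ a : ℝ × (Fin M → ℝ), a = (0, fun _ => 1) := ⟨_, rfl⟩
  have d1 : HasStrictFDerivAt Φ (fderiv ℝ Φ a) a := d0.contDiffAt.hasStrictFDerivAt one_ne_zero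
  have e0 : ∀ b : Fin M → ℝ, Φ (0, b) = (0, fun i =>
      c i * c' i * (∏ j, s j ^ γ i j) * (∏ j, b j ^ β i j - ∏ j, b j ^ γ i j)) := fun b => by
    rw [hΦ]
    refine Prod.ext rfl (funext fun i => ?_)
    simp only [(hT i b).1, (hT i b).2, (hT i s).1, (hT i s).2, hp i]
    ring
  have e1 : Φ a = (0, 0) := by
    rw [ha, e0]
    exact Prod.ext rfl (funext fun i => by simp)
  have e2 : ∀ h : Fin M → ℝ, fderiv ℝ Φ a (0, h) = (0, fun i =>
      c i * c' i * (∏ j, s j ^ γ i j) * ∑ j, ((β i j : ℝ) - (γ i j : ℝ)) * h j) := fun h => by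
    have k1 : HasDerivAt (fun t : ℝ => ((0 : ℝ), fun j => Real.exp (t * h j))) ((0 : ℝ), h) 0 :=
      (hasDerivAt_const _ _).prodMk (hasDerivAt_pi.2 fun j => by
        simpa using ((hasDerivAt_id (0 : ℝ)).mul_const (h j)).exp)
    have k2 := HasFDerivAt.comp_hasDerivAt_of_eq (0 : ℝ) d1.hasFDerivAt k1 (by rw [ha]; simp)
    refine k2.unique ?_
    have k3 : (Φ ∘ fun t : ℝ => ((0 : ℝ), fun j => Real.exp (t * h j))) = fun t => ((0 : ℝ),
        fun i => c i * c' i * (∏ j, s j ^ γ i j) *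
          (∏ j, Real.exp (t * h j) ^ β i j - ∏ j, Real.exp (t * h j) ^ γ i j)) :=
      funext fun t => e0 _
    rw [k3]
    refine (hasDerivAt_const _ _).prodMk (hasDerivAt_pi.2 fun i => ?_)
    simp only [sub_mul, Finset.sum_sub_distrib]
    exact ((matchx.prod_exp h (β i)).sub (matchx.prod_exp h (γ i))).const_mul _
  have e3 : ∀ v, (fderiv ℝ Φ a v).1 = v.1 := fun v => by
    have k1 : HasFDerivAt (fun p => (Φ p).1) _ a := d1.hasFDerivAt.fst
    have k2 : HasFDerivAt (fun p => (Φ p).1) (ContinuousLinearMap.fst ℝ ℝ (Fin M → ℝ)) a := by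
      rw [hΦ]; exact hasFDerivAt_fst
    exact DFunLike.congr_fun (k1.unique k2) v
  have n0 : ∀ i, c i * c' i * (∏ j, s j ^ γ i j) ≠ 0 := fun i =>
    mul_ne_zero (mul_ne_zero (hc i).1 (hc i).2)
      (Finset.prod_ne_zero_iff.2 fun j _ => pow_ne_zero _ (hs j))
  have e4 : (fderiv ℝ Φ a).range = ⊤ := by
    refine LinearMap.range_eq_top.2 fun y => ?_
    obtain ⟨h, hh⟩ := matchx.solve _ hl fun i =>
      (y.2 i - (fderiv ℝ Φ a (y.1, 0)).2 i) / (c i * c' i * ∏ j, s j ^ γ i j)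
    refine ⟨(y.1, 0) + (0, h), ?_⟩
    change fderiv ℝ Φ a _ = y
    rw [map_add, e2]
    refine Prod.ext (by rw [Prod.fst_add, e3, add_zero]) (funext fun i => ?_)
    rw [Prod.snd_add, Pi.add_apply]
    simp only [hh]
    rw [mul_div_cancel₀ _ (n0 i), add_sub_cancel]
  have e5 := d1.map_nhds_eq_of_surj e4
  have o1 : ∀ᶠ p : ℝ × (Fin M → ℝ) in 𝓝 a, p ∈ O ∧ ∀ i,
      eval (fun o => Option.elim o p.1 p.2) (U i) ≠ 0 ∧
        eval (fun o => Option.elim o p.1 s) (U i) ≠ 0 := by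
    refine Eventually.and (ha ▸ hO) (eventually_all.2 fun i => Eventually.and ?_ ?_)
    · refine (matchx.cd1 (U i)).continuous.continuousAt.eventually_ne ?_
      rw [ha, (hT i _).2]
      simpa using (hc i).2
    · refine (matchx.cd2 s (U i)).continuous.continuousAt.eventually_ne ?_
      rw [ha, (hT i _).2]
      exact mul_ne_zero (hc i).2 (Finset.prod_ne_zero_iff.2 fun j _ => pow_ne_zero _ (hs j))
  have o2 := image_mem_map (m := Φ) o1
  rw [e5, e1] at o2
  have o3 : Tendsto (fun t : ℝ => (t, (0 : Fin k → ℝ))) (𝓝[>] 0) (𝓝 (0, 0)) :=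
    ((continuous_id.prodMk continuous_const).tendsto 0).mono_left nhdsWithin_le_nhds
  obtain ⟨t, ⟨p, ⟨p1, p2⟩, p3⟩, t0⟩ := ((o3.eventually o2).and self_mem_nhdsWithin).exists
  rw [hΦ] at p3
  refine ⟨p, p1, (congrArg Prod.fst p3).symm ▸ t0, fun i => ?_⟩
  rw [div_eq_div_iff (p2 i).1 (p2 i).2]
  exact sub_eq_zero.1 (congrFun (congrArg Prod.snd p3) i)

end Pool.Agent.MP_8a92de_lc.E43

end Row_matchx

section Row_deep
namespace Pool.Agent.MP_8a92de_lc.E43

open MvPolynomial Filter Topology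

namespace deep

theorem sgn {M : ℕ} (s : Fin M → ℝ) (hs : ∀ j, s j ≠ 0) (P Q : Rg M)
    (h : ∏ j, s j ^ (dg P - dg Q) j = 1) : ∏ j, s j ^ dn P j = ∏ j, s j ^ dn Q j := by
  have h1 : ∀ j, s j ^ (dg P - dg Q) j = s j ^ dn P j / s j ^ dn Q j := fun j => by
    rw [Pi.sub_apply, zpow_sub₀ (hs j)]
    simp [dg]
  simp only [h1] at h
  rw [Finset.prod_div_distrib] at h
  exact (div_eq_one_iff_eq (Finset.prod_ne_zero_iff.2 fun j _ => pow_ne_zero _ (hs j))).1 h

theorem cont1 {M : ℕ} (T : MvPolynomial (Option (Fin M)) ℝ) :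
    Continuous fun p : ℝ × (Fin M → ℝ) => eval (fun o => Option.elim o p.1 p.2) T := by
  refine (MvPolynomial.continuous_eval T).comp (continuous_pi fun o => ?_)
  cases o with
  | none => exact continuous_fst
  | some j => exact (continuous_apply j).comp continuous_snd

theorem cont2 {M : ℕ} (s : Fin M → ℝ) (T : MvPolynomial (Option (Fin M)) ℝ) :
    Continuous fun p : ℝ × (Fin M → ℝ) => eval (fun o => Option.elim o p.1 s) T := by
  refine (MvPolynomial.continuous_eval T).comp (continuous_pi fun o => ?_)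
  cases o with
  | none => exact continuous_fst
  | some j => exact continuous_const

theorem posi (a b a' b' u v : ℝ) (hu : 0 < u) (hv : 0 < v) (h : 0 < a * b * (a' * b')) :
    0 < (a / u / (b / v)) * (a' / u / (b' / v)) := by
  have hb : b ≠ 0 := by rintro rfl; simp at h
  have hb' : b' ≠ 0 := by rintro rfl; simp at h
  have : (a / u / (b / v)) * (a' / u / (b' / v)) =
      (a * b * (a' * b')) * ((v / u) ^ 2 / (b ^ 2 * b' ^ 2)) := by
    field_simp
  rw [this]
  positivity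

end deep

theorem deep (h1 : ASYM) (h2 : MATCH) : DEEP := by
  intro M k ι _ Pg Qg Px Qx D s hD hg hx hli hs hsg hsx
  have hs0 : ∀ j, s j ≠ 0 := fun j => by rcases hs j with h | h <;> rw [h] <;> norm_num
  let P : Unit ⊕ (Fin k ⊕ Fin k) ⊕ (ι ⊕ ι) → Rg M :=
    Sum.elim (fun _ => D) (Sum.elim (Sum.elim Pg Qg) (Sum.elim Px Qx))
  have hP : ∀ a, P a ≠ 0 := by
    rintro (a | (a | a) | (a | a))
    · exact hD
    · exact (hg a).1
    · exact (hg a).2
    · exact (hx a).1
    · exact (hx a).2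
  obtain ⟨ω, T, c, hT⟩ := h1 M _ P hP
  let p0 : ℝ × (Fin M → ℝ) := ((0 : ℝ), fun _ : Fin M => (1 : ℝ))
  have e1 : ∀ a, eval (fun o => Option.elim o p0.1 p0.2) (T a) = c a := fun a => by
    have := (hT a).2.2 fun _ => 1
    simpa using this
  have e2 : ∀ a, eval (fun o => Option.elim o p0.1 s) (T a) = c a * ∏ j, s j ^ dn (P a) j :=
    fun a => (hT a).2.2 s
  have hpr : ∀ a, (∏ j, s j ^ dn (P a) j) ≠ 0 := fun a =>
    Finset.prod_ne_zero_iff.2 fun j _ => pow_ne_zero _ (hs0 j)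
  have o1 : ∀ᶠ p in 𝓝 p0, ∀ j, 0 < p.2 j := eventually_all.2 fun j =>
    ((continuous_apply j).comp continuous_snd).continuousAt.eventually
      (lt_mem_nhds (show (0 : ℝ) < 1 from one_pos))
  have o2 : ∀ᶠ p in 𝓝 p0, ∀ a, eval (fun o => Option.elim o p.1 p.2) (T a) ≠ 0 :=
    eventually_all.2 fun a => (deep.cont1 (T a)).continuousAt.eventually_ne
      (by rw [e1]; exact (hT a).1)
  have o3 : ∀ᶠ p in 𝓝 p0, ∀ a, eval (fun o => Option.elim o p.1 s) (T a) ≠ 0 :=
    eventually_all.2 fun a => (deep.cont2 s (T a)).continuousAt.eventually_ne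
      (by rw [e2]; exact mul_ne_zero (hT a).1 (hpr a))
  have o4 : ∀ᶠ p in 𝓝 p0, ∀ i : ι,
      0 < eval (fun o => Option.elim o p.1 p.2) (T (.inr (.inr (.inl i)))) *
        eval (fun o => Option.elim o p.1 p.2) (T (.inr (.inr (.inr i)))) *
        (eval (fun o => Option.elim o p.1 s) (T (.inr (.inr (.inl i)))) *
          eval (fun o => Option.elim o p.1 s) (T (.inr (.inr (.inr i))))) := by
    refine eventually_all.2 fun i => ?_
    have hc := ((deep.cont1 (T (.inr (.inr (.inl i))))).mul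
      (deep.cont1 (T (.inr (.inr (.inr i)))))).mul
      ((deep.cont2 s (T (.inr (.inr (.inl i))))).mul (deep.cont2 s (T (.inr (.inr (.inr i))))))
    refine hc.continuousAt.eventually (lt_mem_nhds ?_)
    show 0 < eval (fun o => Option.elim o p0.1 p0.2) (T (.inr (.inr (.inl i)))) *
        eval (fun o => Option.elim o p0.1 p0.2) (T (.inr (.inr (.inr i)))) *
        (eval (fun o => Option.elim o p0.1 s) (T (.inr (.inr (.inl i)))) *
          eval (fun o => Option.elim o p0.1 s) (T (.inr (.inr (.inr i)))))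
    rw [e1, e1, e2, e2]
    have hq : ∏ j, s j ^ dn (P (.inr (.inr (.inl i)))) j =
        ∏ j, s j ^ dn (P (.inr (.inr (.inr i)))) j := deep.sgn s hs0 (Px i) (Qx i) (hsx i)
    rw [hq]
    have a1 := (hT (.inr (.inr (.inl i)))).1
    have a2 := (hT (.inr (.inr (.inr i)))).1
    have a3 := hpr (.inr (.inr (.inr i)))
    generalize c (.inr (.inr (.inl i))) = x at a1
    generalize c (.inr (.inr (.inr i))) = y at a2
    generalize (∏ j, s j ^ dn (P (.inr (.inr (.inr i)))) j) = z at a3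
    have : x * y * (x * z * (y * z)) = (x * y * z) ^ 2 := by ring
    rw [this]
    positivity
  have hli' : LinearIndependent ℝ
      (fun i j => ((dn (Pg i) j : ℝ) - (dn (Qg i) j : ℝ))) := by
    have : (fun i j => ((dn (Pg i) j : ℝ) - (dn (Qg i) j : ℝ))) =
        fun i j => (((dg (Pg i) - dg (Qg i)) j : ℤ) : ℝ) := by
      funext i j
      simp [dg]
    rw [this]
    exact hli
  obtain ⟨p, hp, hε, hm⟩ := h2 M k (fun i => T (.inr (.inl (.inl i))))
    (fun i => T (.inr (.inl (.inr i)))) (fun i => c (.inr (.inl (.inl i))))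
    (fun i => c (.inr (.inl (.inr i)))) (fun i j => dn (Pg i) j) (fun i j => dn (Qg i) j) s
    (fun i => ⟨(hT _).1, (hT _).1⟩)
    (fun i b => ⟨(hT (.inr (.inl (.inl i)))).2.2 b, (hT (.inr (.inl (.inr i)))).2.2 b⟩) hli' hs0
    (fun i => deep.sgn s hs0 (Pg i) (Qg i) (hsg i)) _ (o1.and (o2.and (o3.and o4)))
  obtain ⟨q1, q2, q3, q4⟩ := hp
  have hu : ∀ a, 0 < p.1 ^ (∑ j, ω j * dn (P a) j) := fun a => pow_pos hε _
  have f1 : ∀ a (b : Fin M → ℝ), eval (fun j => b j / p.1 ^ ω j) (P a) =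
      eval (fun o => Option.elim o p.1 b) (T a) / p.1 ^ (∑ j, ω j * dn (P a) j) := fun a b => by
    rw [eq_div_iff (hu a).ne']
    exact (hT a).2.1 p.1 b hε.ne'
  have n1 : ∀ a, eval (fun j => p.2 j / p.1 ^ ω j) (P a) ≠ 0 := fun a => by
    rw [f1]; exact div_ne_zero (q2 a) (hu a).ne'
  have n2 : ∀ a, eval (fun j => s j / p.1 ^ ω j) (P a) ≠ 0 := fun a => by
    rw [f1]; exact div_ne_zero (q3 a) (hu a).ne'
  refine ⟨fun j => p.2 j / p.1 ^ ω j, fun j => s j / p.1 ^ ω j,
    fun j => div_pos (q1 j) (pow_pos hε _), fun j => ?_, n1 (.inl ()), n2 (.inl ()),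
    fun i => ⟨n1 (.inr (.inl (.inr i))), n2 (.inr (.inl (.inr i))), ?_⟩,
    fun i => ⟨n1 (.inr (.inr (.inr i))), n2 (.inr (.inr (.inr i))), ?_⟩⟩
  · rw [← mul_div_assoc]
    exact div_pos (mul_self_pos.2 (hs0 j)) (pow_pos hε _)
  · have g1 := f1 (.inr (.inl (.inl i)))
    have g2 := f1 (.inr (.inl (.inr i)))
    change ∀ b : Fin M → ℝ, eval _ (Pg i) = _ at g1
    change ∀ b : Fin M → ℝ, eval _ (Qg i) = _ at g2
    rw [g1, g2, g1, g2, div_div_div_comm, hm i, ← div_div_div_comm]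
  · have g1 := f1 (.inr (.inr (.inl i)))
    have g2 := f1 (.inr (.inr (.inr i)))
    change ∀ b : Fin M → ℝ, eval _ (Px i) = _ at g1
    change ∀ b : Fin M → ℝ, eval _ (Qx i) = _ at g2
    rw [g1, g2, g1, g2]
    exact deep.posi _ _ _ _ _ _ (hu _) (hu _) (q4 i)

end Pool.Agent.MP_8a92de_lc.E43

end Row_deep

section Row_thom
namespace Pool.Agent.MP_8a92de_lc.E43

namespace Thom

open Polynomial

/-- `p` has the sign `s` on the whole interval -/
theorem step (p : ℝ[X]) (x y : ℝ) (s : SignType)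
    (hd : ∀ z ∈ Set.Icc x y, SignType.sign (p.derivative.eval z) = s)
    (he : SignType.sign (p.eval x) = SignType.sign (p.eval y)) :
    ∀ z ∈ Set.Icc x y, SignType.sign (p.eval z) = SignType.sign (p.eval x) := by
  intro z hz
  have hxy : x ≤ y := hz.1.trans hz.2
  have hx : x ∈ Set.Icc x y := ⟨le_rfl, hxy⟩
  have hy : y ∈ Set.Icc x y := ⟨hxy, le_rfl⟩
  have hc : ContinuousOn (fun t => p.eval t) (Set.Icc x y) := p.continuous.continuousOn
  have hdf : DifferentiableOn ℝ (fun t => p.eval t) (interior (Set.Icc x y)) :=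
    p.differentiable.differentiableOn
  by_cases hs : s = -1
  · have hm : AntitoneOn (fun t => p.eval t) (Set.Icc x y) :=
      antitoneOn_of_deriv_nonpos (convex_Icc x y) hc hdf fun t ht => by
        rw [p.deriv]
        have := hd t (interior_subset ht)
        rw [hs, sign_eq_neg_one_iff] at this
        exact this.le
    have h1 : p.eval z ≤ p.eval x := hm hx hz hz.1
    have h2 : p.eval y ≤ p.eval z := hm hz hy hz.2
    exact le_antisymm (SignType.sign.monotone h1) (he.le.trans (SignType.sign.monotone h2))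
  · have hm : MonotoneOn (fun t => p.eval t) (Set.Icc x y) :=
      monotoneOn_of_deriv_nonneg (convex_Icc x y) hc hdf fun t ht => by
        rw [p.deriv]
        have := hd t (interior_subset ht)
        by_contra hn
        exact hs (this.symm.trans (sign_eq_neg_one_iff.2 (not_le.1 hn)))
    have h1 : p.eval x ≤ p.eval z := hm hx hz hz.1
    have h2 : p.eval z ≤ p.eval y := hm hz hy hz.2
    exact le_antisymm ((SignType.sign.monotone h2).trans he.ge) (SignType.sign.monotone h1)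

theorem const (x y : ℝ) (n : ℕ) : ∀ p : ℝ[X], derivative^[n] p = 0 →
    (∀ r : ℕ, SignType.sign ((derivative^[r] p).eval x) =
      SignType.sign ((derivative^[r] p).eval y)) →
    ∀ z ∈ Set.Icc x y, SignType.sign (p.eval z) = SignType.sign (p.eval x) := by
  induction n with
  | zero =>
    intro p hp _ z _
    have : p = 0 := hp
    simp [this]
  | succ n ih =>
    intro p hp h
    exact step p x y _ (ih (derivative p) hp fun r => h (r + 1)) (h 0)

theorem lt (p : ℝ[X]) (x y : ℝ) (hxy : x < y) (hp : p ≠ 0) (h0 : p.eval x = 0)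
    (h : ∀ r : ℕ, SignType.sign ((derivative^[r] p).eval x) =
      SignType.sign ((derivative^[r] p).eval y)) : False := by
  have h1 := const x y (p.natDegree + 1) p (iterate_derivative_eq_zero (Nat.lt_succ_self _)) h
  refine hp (p.eq_zero_of_infinite_isRoot ((Set.Icc_infinite hxy).mono fun z hz => ?_))
  have := h1 z hz
  rw [h0, sign_zero, sign_eq_zero_iff] at this
  exact this

end Thom

theorem thom : THOM := by
  intro p x y hp h0 h
  rcases lt_trichotomy x y with hxy | hxy | hxy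
  · exact (Thom.lt p x y hxy hp h0 h).elim
  · exact hxy
  · have hy : p.eval y = 0 := by
      have := h 0
      simp only [Function.iterate_zero, id_eq] at this
      rw [h0, sign_zero, eq_comm, sign_eq_zero_iff] at this
      exact this
    exact (Thom.lt p y x hxy hp hy fun r => (h r).symm).elim

end Pool.Agent.MP_8a92de_lc.E43

end Row_thom

section Row_valx
namespace Pool.Agent.MP_8a92de_lc.E43

open MvPolynomial

namespace Valx

variable {M : ℕ} {w : Fin M → ℝ}

theorem ne0 {Q : Rg M} (h : eval w Q ≠ 0) : Q ≠ 0 := fun e => h (by rw [e, map_zero])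

theorem am_ne {Q : Rg M} (hQ : Q ≠ 0) : algebraMap (Rg M) (Fr M) Q ≠ 0 :=
  fun h => hQ (IsFractionRing.injective (Rg M) (Fr M) (h.trans (map_zero _).symm))

theorem uniq {ξ : Fr M} {r r' : ℝ} (h : Val w ξ r) (h' : Val w ξ r') : r = r' := by
  obtain ⟨P, Q, hQ, e, rfl⟩ := h
  obtain ⟨P', Q', hQ', e', rfl⟩ := h'
  have h1 : P * Q' = P' * Q := by
    apply IsFractionRing.injective (Rg M) (Fr M)
    rw [map_mul, map_mul]
    exact (div_eq_div_iff (am_ne (ne0 hQ)) (am_ne (ne0 hQ'))).1 (e.symm.trans e')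
  rw [div_eq_div_iff hQ hQ', ← map_mul, ← map_mul, h1]

theorem mul {ξ η : Fr M} {r r' : ℝ} (h : Val w ξ r) (h' : Val w η r') : Val w (ξ * η) (r * r') := by
  obtain ⟨P, Q, hQ, rfl, rfl⟩ := h
  obtain ⟨P', Q', hQ', rfl, rfl⟩ := h'
  refine ⟨P * P', Q * Q', by rw [map_mul]; exact mul_ne_zero hQ hQ', ?_, ?_⟩
  · simp only [fr, map_mul]; exact div_mul_div_comm _ _ _ _
  · simp only [map_mul]; exact div_mul_div_comm _ _ _ _

theorem add {ξ η : Fr M} {r r' : ℝ} (h : Val w ξ r) (h' : Val w η r') : Val w (ξ + η) (r + r') := by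
  obtain ⟨P, Q, hQ, rfl, rfl⟩ := h
  obtain ⟨P', Q', hQ', rfl, rfl⟩ := h'
  refine ⟨P * Q' + Q * P', Q * Q', by rw [map_mul]; exact mul_ne_zero hQ hQ', ?_, ?_⟩
  · simp only [fr, map_mul, map_add]; exact div_add_div _ _ (am_ne (ne0 hQ)) (am_ne (ne0 hQ'))
  · simp only [map_mul, map_add]; exact div_add_div _ _ hQ hQ'

theorem const (c : ℝ) : Val w (algebraMap ℝ (Fr M) c) c := by
  refine ⟨C c, 1, by simp, ?_, by simp⟩
  rw [fr, map_one, div_one, IsScalarTower.algebraMap_apply ℝ (Rg M) (Fr M)]; rfl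

theorem pow {ξ : Fr M} {r : ℝ} (h : Val w ξ r) (n : ℕ) : Val w (ξ ^ n) (r ^ n) := by
  induction n with
  | zero => simpa using const (w := w) 1
  | succ n ih => rw [pow_succ, pow_succ]; exact mul ih h

theorem mv {k : ℕ} {G : Fin k → Fr M} {g : Fin k → ℝ} (h : ∀ i, Val w (G i) (g i))
    (T : MvPolynomial (Fin k) ℝ) : Val w (aeval G T) (eval g T) := by
  induction T using MvPolynomial.induction_on with
  | C c => rw [aeval_C, eval_C]; exact const c
  | add T U h1 h2 => rw [map_add, map_add]; exact add h1 h2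
  | mul_X T i h1 => rw [map_mul, map_mul, aeval_X, eval_X]; exact mul h1 (h i)

end Valx

theorem valx : VAL := by
  intro M w
  refine ⟨fun _ _ _ => Valx.uniq, by simpa using Valx.const (w := w) 0,
    fun k G g h => ⟨Valx.mv h, fun ξ r q hr => ?_⟩⟩
  induction q using Polynomial.induction_on' with
  | add p q h1 h2 =>
    rw [Polynomial.eval₂_add, Polynomial.map_add, Polynomial.eval_add]; exact Valx.add h1 h2
  | monomial n a =>
    rw [Polynomial.eval₂_monomial, Polynomial.map_monomial, Polynomial.eval_monomial]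
    exact Valx.mul (Valx.mv h a) (Valx.pow hr n)

end Pool.Agent.MP_8a92de_lc.E43

end Row_valx

section Row_orth
namespace Pool.Agent.MP_8a92de_lc.E43

open MvPolynomial

namespace Orth

variable {M : ℕ}

theorem rep {ξ : Fr M} (h : ξ ≠ 0) : ∃ P Q : Rg M, P ≠ 0 ∧ Q ≠ 0 ∧ ξ = fr P Q := by
  obtain ⟨P, Q, hQ, e⟩ := IsFractionRing.div_surjective (A := Rg M) ξ
  refine ⟨P, Q, ?_, nonZeroDivisors.ne_zero hQ, e.symm⟩
  rintro rfl
  exact h (by rw [← e, map_zero, zero_div])

theorem aeval_mem {k : ℕ} {E : IntermediateField ℝ (Fr M)} {G : Fin k → Fr M} (h : ∀ i, G i ∈ E)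
    (T : MvPolynomial (Fin k) ℝ) : aeval G T ∈ E := by
  induction T using MvPolynomial.induction_on with
  | C c => rw [aeval_C]; exact E.algebraMap_mem c
  | add T U h1 h2 => rw [map_add]; exact add_mem h1 h2
  | mul_X T i h1 => rw [map_mul, aeval_X]; exact mul_mem h1 (h i)

theorem eval₂_mem {k : ℕ} {E : IntermediateField ℝ (Fr M)} {G : Fin k → Fr M} (h : ∀ i, G i ∈ E)
    {ξ : Fr M} (hξ : ξ ∈ E) (q : Polynomial (MvPolynomial (Fin k) ℝ)) :
    Polynomial.eval₂ (aeval G : MvPolynomial (Fin k) ℝ →ₐ[ℝ] Fr M).toRingHom ξ q ∈ E := by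
  induction q using Polynomial.induction_on' with
  | add p q h1 h2 => rw [Polynomial.eval₂_add]; exact add_mem h1 h2
  | monomial n a =>
    rw [Polynomial.eval₂_monomial]; exact mul_mem (aeval_mem h a) (pow_mem hξ n)

theorem sign_eq {a b : ℝ} (h : 0 < a * b) : SignType.sign a = SignType.sign b := by
  rcases mul_pos_iff.1 h with ⟨h1, h2⟩ | ⟨h1, h2⟩
  · rw [sign_pos h1, sign_pos h2]
  · rw [sign_neg h1, sign_neg h2]

end Orth

theorem orth (h1 : LAM) (h2 : CST) (h3 : PERP) (h4 : INT) (h5 : BASIS) (h6 : DEEP) (h7 : THOM)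
    (h8 : VAL) : ORTH := by
  classical
  intro M m P Q D v hD hQ hv hdv
  obtain ⟨lam, hlam⟩ := h1 M
  obtain ⟨E, hE⟩ := h2 M v
  obtain ⟨μ, hμ, hperp⟩ := h3 M v hv
  obtain ⟨s, hs1, ⟨j0, hj0⟩, hs⟩ := h4 M μ hμ
  obtain ⟨k, G, hG, hli, hai, halg⟩ := h5 M lam hlam E
  have hQ0 : ∀ a, Q a ≠ 0 := by
    intro a e
    refine hD (MvPolynomial.funext fun w => ?_)
    by_contra hw
    exact hQ w (by simpa using hw) a (by rw [e, map_zero])
  have hsg : ∀ A B : Rg M, A ≠ 0 → B ≠ 0 → fr A B ∈ E → ∏ j, s j ^ (dg A - dg B) j = 1 :=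
    fun A B hA hB h => hs _ (hperp A B hA hB ((hE A B hB).1 h))
  choose Pg Qg hPg hQg hGe using fun i => Orth.rep (hG i).2
  have hF : ∀ a, fr (P a) (Q a) ∈ E := fun a => (hE _ _ (hQ0 a)).2 (hdv a)
  choose q hq0 hq using fun a => halg _ (hF a)
  obtain ⟨ev, hev⟩ : ∃ ev : Fin m → ℕ → Fr M, ∀ a r, ev a r =
      Polynomial.eval₂ (aeval G : MvPolynomial (Fin k) ℝ →ₐ[ℝ] Fr M).toRingHom (fr (P a) (Q a))
        (Polynomial.derivative^[r] (q a)) := ⟨_, fun _ _ => rfl⟩
  obtain ⟨ξ, hξ1, hξ2⟩ : ∃ ξ : (Σ a : Fin m, Option (Fin ((q a).natDegree + 1))) → Fr M,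
      (∀ a, ξ ⟨a, none⟩ = aeval G (q a).leadingCoeff) ∧
      ∀ a r, ξ ⟨a, some r⟩ = if ev a r = 0 then 1 else ev a r :=
    ⟨fun i => Option.elim i.2 (aeval G (q i.1).leadingCoeff)
      fun r => if ev i.1 r = 0 then 1 else ev i.1 r, fun _ => rfl, fun _ _ => rfl⟩
  have hξ : ∀ i, ξ i ∈ E ∧ ξ i ≠ 0 := by
    rintro ⟨a, _ | r⟩
    · rw [hξ1]
      refine ⟨Orth.aeval_mem (fun i => (hG i).1) _, fun e => ?_⟩
      exact Polynomial.leadingCoeff_ne_zero.2 (hq0 a) (hai.eq_zero_of_aeval_eq_zero _ e)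
    · rw [hξ2]
      split_ifs with e
      · exact ⟨one_mem E, one_ne_zero⟩
      · exact ⟨by rw [hev]; exact Orth.eval₂_mem (fun i => (hG i).1) (hF a) _, e⟩
  choose Px Qx hPx hQx hξe using fun i => Orth.rep (hξ i).2
  have hli' : LinearIndependent ℝ (fun i j => ((dg (Pg i) - dg (Qg i)) j : ℝ)) := by
    have : (fun i j => ((dg (Pg i) - dg (Qg i)) j : ℝ)) = fun i j => (lam (G i) j : ℝ) := by
      funext i j
      rw [hGe i, hlam.frac _ _ (hPg i) (hQg i)]
    rw [this]; exact hli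
  obtain ⟨w, w', hw, hw', hDw, hDw', hg, hx⟩ := h6 M k _ Pg Qg Px Qx D s hD
    (fun i => ⟨hPg i, hQg i⟩) (fun i => ⟨hPx i, hQx i⟩) hli' hs1
    (fun i => hsg _ _ (hPg i) (hQg i) (hGe i ▸ (hG i).1))
    (fun i => hsg _ _ (hPx i) (hQx i) (hξe i ▸ (hξ i).1))
  refine ⟨w, w', hDw, hDw', hw, fun h => ?_, fun a => ?_⟩
  · have h1 := hw' j0
    have h2 := h j0
    rw [hj0] at h1
    linarith
  obtain ⟨u1, z1, V1⟩ := h8 M w
  obtain ⟨u2, z2, V2⟩ := h8 M w'
  obtain ⟨g, hgd⟩ : ∃ g : Fin k → ℝ, ∀ i, g i = eval w (Pg i) / eval w (Qg i) := ⟨_, fun _ => rfl⟩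
  obtain ⟨T1, V1⟩ := V1 k G g fun i => ⟨Pg i, Qg i, (hg i).1, hGe i, hgd i⟩
  obtain ⟨-, V2⟩ := V2 k G g fun i => ⟨Pg i, Qg i, (hg i).2.1, hGe i, (hgd i).trans (hg i).2.2⟩
  have F1 : Val w (fr (P a) (Q a)) (eval w (P a) / eval w (Q a)) := ⟨_, _, hQ w hDw a, rfl, rfl⟩
  have F2 : Val w' (fr (P a) (Q a)) (eval w' (P a) / eval w' (Q a)) :=
    ⟨_, _, hQ w' hDw' a, rfl, rfl⟩
  have X1 : ∀ i, Val w (ξ i) (eval w (Px i) / eval w (Qx i)) :=
    fun i => ⟨_, _, (hx i).1, hξe i, rfl⟩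
  have X2 : ∀ i, Val w' (ξ i) (eval w' (Px i) / eval w' (Qx i)) :=
    fun i => ⟨_, _, (hx i).2.1, hξe i, rfl⟩
  refine h7 ((q a).map (eval g)) _ _ (fun e => ?_) ?_ fun r => ?_
  · have e1 : eval g (q a).leadingCoeff = 0 := by
      have := congrArg (fun p => Polynomial.coeff p (q a).natDegree) e
      simpa only [Polynomial.coeff_map, Polynomial.coeff_zero, Polynomial.coeff_natDegree]
        using this
    have e2 := u1 _ _ _ (X1 ⟨a, none⟩) (by rw [hξ1]; exact T1 _)
    have e3 := (hx ⟨a, none⟩).2.2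
    rw [e2, e1, zero_mul] at e3
    exact lt_irrefl _ e3
  · have := V1 _ _ (q a) F1
    rw [hq a] at this
    exact u1 _ _ _ this z1
  · rw [Polynomial.iterate_derivative_map]
    by_cases hr : r < (q a).natDegree + 1
    · have v1 := V1 _ _ (Polynomial.derivative^[r] (q a)) F1
      have v2 := V2 _ _ (Polynomial.derivative^[r] (q a)) F2
      rw [← hev] at v1 v2
      by_cases e : ev a r = 0
      · rw [e] at v1 v2
        rw [u1 _ _ _ v1 z1, u2 _ _ _ v2 z2]
      · have e' : ξ ⟨a, some ⟨r, hr⟩⟩ = ev a r := by rw [hξ2]; exact if_neg e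
        rw [← e'] at v1 v2
        rw [u1 _ _ _ v1 (X1 _), u2 _ _ _ v2 (X2 _)]
        exact Orth.sign_eq (hx _).2.2
    · rw [Polynomial.iterate_derivative_eq_zero (by omega), Polynomial.map_zero,
        Polynomial.eval_zero, Polynomial.eval_zero]

end Pool.Agent.MP_8a92de_lc.E43

end Row_orth

section Row_good
namespace Pool.Agent.MP_8a92de_lc.E43

open MvPolynomial Filter Topology

namespace goodx

/-- restriction to the fibre over `(x, t)` -/
noncomputable def res (K0 : Subfield ℝ) (M : ℕ) {n : ℕ} (x : Fin n → ℝ) (t : ℝ) :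
    MvPolynomial (Fin (M + (n + 1))) K0 →ₐ[K0] Rg M :=
  aeval (pt (fun i => (X i : Rg M)) (fun l => C (x l)) (C t))

theorem ev_res (K0 : Subfield ℝ) (M : ℕ) {n : ℕ} (x : Fin n → ℝ) (t : ℝ) (w : Fin M → ℝ)
    (T : MvPolynomial (Fin (M + (n + 1))) K0) :
    eval w (res K0 M x t T) = aeval (pt w x t) T := by
  induction T using MvPolynomial.induction_on with
  | C c =>
    rw [res, aeval_C, aeval_C, MvPolynomial.algebraMap_apply, eval_C]
  | add T U h1 h2 => simp only [map_add, h1, h2]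
  | mul_X T i h =>
    rw [map_mul, map_mul, map_mul, h, res, aeval_X, aeval_X, map_pt (eval w)]
    simp

theorem der_pt (M : ℕ) {n : ℕ} (x : Fin n → ℝ) (t : ℝ) (i : Fin M) (k : Fin (M + (n + 1))) :
    pderiv i (pt (fun i => (X i : Rg M)) (fun l => C (x l)) (C t) k) =
      if k = Fin.castAdd (n + 1) i then 1 else 0 := by
  have hne : ∀ l : Fin (n + 1), Fin.natAdd M l ≠ Fin.castAdd (n + 1) i := fun l h => by
    have h1 := congrArg Fin.val h
    have h2 := i.2
    simp only [Fin.val_natAdd, Fin.val_castAdd] at h1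
    omega
  revert k
  refine pt_cases (fun j => ?_) (fun l => ?_) ?_
  · rw [pt_w, pderiv_X, Pi.single_apply]
    simp only [Fin.castAdd_inj]
  · rw [pt_x, pderiv_C, if_neg (hne _)]
  · rw [pt_t, pderiv_C, if_neg (hne _)]

theorem der_res (K0 : Subfield ℝ) (M : ℕ) {n : ℕ} (x : Fin n → ℝ) (t : ℝ) (i : Fin M)
    (T : MvPolynomial (Fin (M + (n + 1))) K0) :
    pderiv i (res K0 M x t T) = res K0 M x t (pderiv (Fin.castAdd (n + 1) i) T) := by
  induction T using MvPolynomial.induction_on with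
  | C c =>
    rw [pderiv_C, map_zero, res, aeval_C, MvPolynomial.algebraMap_apply, pderiv_C]
  | add T U h1 h2 => simp only [map_add, h1, h2]
  | mul_X T k h =>
    have hX : res K0 M x t (X k) = pt (fun i => (X i : Rg M)) (fun l => C (x l)) (C t) k := by
      rw [res, aeval_X]
    rw [map_mul, pderiv_mul, pderiv_mul, h, map_add, map_mul, map_mul, hX, der_pt, pderiv_X,
      Pi.single_apply]
    split_ifs <;> simp

theorem ev_fix {M : ℕ} (t : ℝ) (w : Fin M → ℝ) (D : MvPolynomial (Option (Fin M)) ℝ) :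
    eval w (aeval (fun o : Option (Fin M) => Option.elim o (C t) (X : Fin M → Rg M)) D) =
      eval (fun o : Option (Fin M) => Option.elim o t w) D := by
  induction D using MvPolynomial.induction_on with
  | C c => simp
  | add T U h1 h2 => simp only [map_add, h1, h2]
  | mul_X T k h =>
    rw [map_mul, map_mul, map_mul, h, aeval_X, eval_X]
    cases k <;> simp

theorem exists_neg {M : ℕ} (D : MvPolynomial (Option (Fin M)) ℝ) (hD : D ≠ 0) :
    ∃ t : ℝ, t < 0 ∧ ∃ D1 : Rg M, D1 ≠ 0 ∧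
      ∀ w, eval w D1 = eval (fun o : Option (Fin M) => Option.elim o t w) D := by
  by_contra h
  refine hD (MvPolynomial.funext_set (fun _ => Set.Iio (0 : ℝ)) (fun _ => Set.Iio_infinite 0)
    fun z hz => ?_)
  by_contra hne
  refine h ⟨z none, hz none (Set.mem_univ _), _, fun h0 => hne ?_, fun w => ev_fix (z none) w D⟩
  have h1 := ev_fix (z none) (fun i => z (some i)) D
  rw [h0] at h1
  have h2 : (fun o : Option (Fin M) => Option.elim o (z none) fun i => z (some i)) = z := by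
    funext o
    cases o <;> rfl
  rw [h2] at h1
  rw [← h1]
  simp

/-- the Jacobian on the fibre -/
noncomputable def jr {M m : ℕ} (P1 Q1 : Fin m → Rg M) : Matrix (Fin m) (Fin M) (Rg M) :=
  Matrix.of fun a i => Q1 a * pderiv i (P1 a) - P1 a * pderiv i (Q1 a)

theorem ev_jr (K0 : Subfield ℝ) {M n m : ℕ} (x : Fin n → ℝ) (t : ℝ) (w : Fin M → ℝ)
    (P Q : Fin m → MvPolynomial (Fin (M + (n + 1))) K0) (a : Fin m) (i : Fin M) :
    eval w (jr (fun a => res K0 M x t (P a)) (fun a => res K0 M x t (Q a)) a i) =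
      jw P Q (pt w x t) a i := by
  rw [jr, Matrix.of_apply, der_res, der_res, map_sub, map_mul, map_mul, ev_res, ev_res, ev_res,
    ev_res, jw, Matrix.map_apply, jac, Matrix.of_apply, map_sub, map_mul, map_mul]

theorem field (h4 : KER) {M m : ℕ} (P1 Q1 : Fin m → Rg M)
    (h : ∀ s : Fin M → Fin m, ((jr P1 Q1).submatrix s id).det = 0) :
    ∃ v : Fin M → Rg M, v ≠ 0 ∧ ∀ a, dv v (P1 a) (Q1 a) = 0 := by
  have hb : ∀ J : Matrix (Fin m) (Fin M) (Rg M), ∃ e, ∀ a i, (J a i).totalDegree ≤ e := fun J => by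
    obtain ⟨e, he⟩ :=
      (Set.finite_range fun p : Fin m × Fin M => (J p.1 p.2).totalDegree).bddAbove
    exact ⟨e, fun a i => he ⟨(a, i), rfl⟩⟩
  obtain ⟨e, he⟩ := hb (jr P1 Q1)
  obtain ⟨v, hv0, -, hv⟩ := h4 ℝ (Fin M) m e M (jr P1 Q1) he h
  refine ⟨v, hv0, fun a => ?_⟩
  have h1 := congrFun hv a
  rw [Matrix.mulVec, dotProduct] at h1
  exact h1

theorem core (h4 : KER) (h5 : ORTH) (K0 : Subfield ℝ) {M n m : ℕ} (x : Fin n → ℝ) (t : ℝ)
    (P Q : Fin m → MvPolynomial (Fin (M + (n + 1))) K0) (D1 : Rg M) (hD1 : D1 ≠ 0)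
    (hQ : ∀ w, eval w D1 ≠ 0 → ∀ a, aeval (pt w x t) (Q a) ≠ 0)
    (hmin : ∀ (s : Fin M → Fin m) w, ((jw P Q (pt w x t)).submatrix s id).det = 0) :
    ∃ w w' : Fin M → ℝ, eval w D1 ≠ 0 ∧ eval w' D1 ≠ 0 ∧ (∀ i, 0 < w i) ∧ ¬ (∀ i, 0 < w' i) ∧
      ∀ a, aeval (pt w x t) (P a) / aeval (pt w x t) (Q a) =
        aeval (pt w' x t) (P a) / aeval (pt w' x t) (Q a) := by
  obtain ⟨v, hv0, hv⟩ := field h4 (fun a => res K0 M x t (P a)) (fun a => res K0 M x t (Q a))
    fun s => by
      refine MvPolynomial.funext fun w => ?_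
      rw [RingHom.map_det, map_zero, ← hmin s w]
      exact congrArg Matrix.det (Matrix.ext fun c i => ev_jr K0 x t w P Q (s c) i)
  obtain ⟨w, w', hw, hw', hpos, hneg, hval⟩ := h5 M m (fun a => res K0 M x t (P a))
    (fun a => res K0 M x t (Q a)) D1 v hD1
    (fun w hw a => by
      rw [ev_res]
      exact hQ w hw a) hv0 hv
  refine ⟨w, w', hw, hw', hpos, hneg, fun a => ?_⟩
  have := hval a
  rwa [ev_res, ev_res, ev_res, ev_res] at this

end goodx

theorem good (h1 : PT) (h2 : ADM) (h3 : MINOR) (h4 : KER) (h5 : ORTH) : GOOD := by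
  intro K0 n M m d e θ x L B f G P Q hθ he hM hn hloc hf hG hdl
  have hd : 2 * d ≤ e := by
    have : 1 * (2 * d + 1) ≤ M * (2 * d + 1) := Nat.mul_le_mul_right _ hM
    omega
  have hadm := h2 K0 n M m d e θ x hθ hd
  have hmin := h3 K0 n M m d e θ x (P (gP θ x)) (Q (gP θ x)) hθ he
    (fun a => ⟨hloc.degP _ a, hloc.degQ _ a⟩) hdl
  generalize gP θ x = y at hadm hmin
  obtain ⟨D, hD, hDz⟩ := eventually_ZF.1 (hloc.loc y (ZF M x) hadm)
  obtain ⟨t, ht, D1, hD1, hev⟩ := goodx.exists_neg D hD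
  have hPQ : ∀ w, eval w D1 ≠ 0 → P (pt w x t) = P y ∧ Q (pt w x t) = Q y := fun w hw => by
    rw [hev w] at hw
    exact hDz (fun o => Option.elim o t w) hw
  obtain ⟨w, w', hw, hw', hpos, hneg, hval⟩ := goodx.core h4 h5 K0 x t (P y) (Q y) D1 hD1
    (fun w hw a => by
      rw [← (hPQ w hw).2]
      exact hloc.neQ _ a) (fun s w => hmin s w t)
  have hGG : ∀ a, G a (pt w x t) = G a (pt w' x t) := fun a => by
    rw [hloc.val, hloc.val, (hPQ w hw).1, (hPQ w hw).2, (hPQ w' hw').1, (hPQ w' hw').2, hval a]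
  have hS : List.ofFn (pt w x t) ∈ SL L := (h1 L n M w x t hn).2 (Or.inr ⟨ht, hpos⟩)
  have hB := (hf _).1 hS
  rw [hG _ _ hGG] at hB
  rcases (h1 L n M w' x t hn).1 ((hf _).2 hB) with h | h
  · exact lt_asymm ht h.1
  · exact hneg h.2

end Pool.Agent.MP_8a92de_lc.E43

end Row_good
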