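import Mathlib

namespace Pool.Agent.MP_8a92de_lc.E43

open Classical in
/-- Circuits over the reals with test `t` and constants from `S`: lists of gates (functions of the
input), each a constant, an input or an operation applied to earlier gates. -/
inductive Gates (t : ℝ → Prop) (S : Set ℝ) : List ((ℕ → ℝ) → ℝ) → Prop
  | nil : Gates t S []
  | const {l : List ((ℕ → ℝ) → ℝ)} (c : ℝ) : c ∈ S → Gates t S l → Gates t S ((fun _ => c) :: l)
  | var {l : List ((ℕ → ℝ) → ℝ)} (i : ℕ) : Gates t S l → Gates t S ((fun z => z i) :: l)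
  | add {l : List ((ℕ → ℝ) → ℝ)} {a b : (ℕ → ℝ) → ℝ} : Gates t S l → a ∈ l → b ∈ l →
      Gates t S ((fun z => a z + b z) :: l)
  | mul {l : List ((ℕ → ℝ) → ℝ)} {a b : (ℕ → ℝ) → ℝ} : Gates t S l → a ∈ l → b ∈ l →
      Gates t S ((fun z => a z * b z) :: l)
  | div {l : List ((ℕ → ℝ) → ℝ)} {a b : (ℕ → ℝ) → ℝ} : Gates t S l → a ∈ l → b ∈ l →
      Gates t S ((fun z => a z / b z) :: l)
  | sel {l : List ((ℕ → ℝ) → ℝ)} {a b c : (ℕ → ℝ) → ℝ} : Gates t S l → a ∈ l → b ∈ l → c ∈ l →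
      Gates t S ((fun z => if t (a z) then b z else c z) :: l)

open Classical in
/-- The output list: the values of the second gates of the pairs whose first gate passes the
test. -/
noncomputable def outputs (t : ℝ → Prop) (out : List (((ℕ → ℝ) → ℝ) × ((ℕ → ℝ) → ℝ)))
    (z : ℕ → ℝ) : List ℝ :=
  (out.filter fun o => decide (t (o.1 z))).map fun o => o.2 z

/-- `f` has circuits of polynomial size with test `t` and constants from one finite set. -/
def Poly (t : ℝ → Prop) (f : List ℝ → List ℝ) : Prop :=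
  ∃ (S : Finset ℝ) (c : ℕ), ∀ n : ℕ, ∃ (l : List ((ℕ → ℝ) → ℝ))
    (out : List (((ℕ → ℝ) → ℝ) × ((ℕ → ℝ) → ℝ))),
    Gates t (S : Set ℝ) l ∧ l.length ≤ (n + 2) ^ c ∧ out.length ≤ (n + 2) ^ c ∧
    (∀ o ∈ out, o.1 ∈ l ∧ o.2 ∈ l) ∧
    ∀ x : List ℝ, x.length = n → f x = outputs t out fun i => x.getD i 0

end Pool.Agent.MP_8a92de_lc.E43
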