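import Pool.Agent.MP_8a92de_lc.E43.Defs

namespace Pool.Agent.MP_8a92de_lc.E43

/-- NP over the ordered reals with Boolean advice: the inputs from position `n` on are the
witness. -/
def NP : Set (Set (List ℝ)) :=
  {L | ∃ (S : Finset ℝ) (c : ℕ), ∀ n : ℕ, ∃ (l : List ((ℕ → ℝ) → ℝ)) (a : (ℕ → ℝ) → ℝ),
    Gates (fun r => 0 < r) (S : Set ℝ) l ∧ l.length ≤ (n + 2) ^ c ∧ a ∈ l ∧
    ∀ x : List ℝ, x.length = n →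
      (x ∈ L ↔ ∃ z : ℕ → ℝ, (∀ i < n, z i = x.getD i 0) ∧ 0 < a z)}

/-- feasibility of `m` real quadratic equations in `m - 1` unknowns, dense encoding -/
def QPS : Set (List ℝ) :=
  {y | ∃ (m : ℕ) (ζ : ℕ → ℝ), y.length = m ^ 3 ∧ ζ 0 = 1 ∧ ∀ e < m,
    ∑ i ∈ Finset.range m, ∑ j ∈ Finset.range m,
      y.getD (e * m ^ 2 + i * m + j) 0 * ζ i * ζ j = 0}

/-- a coefficient: a constant from `S` or one of the first `n` inputs -/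
def Co (S : Set ℝ) (n : ℕ) (φ : (ℕ → ℝ) → ℝ) : Prop :=
  (∃ c ∈ S, φ = fun _ => c) ∨ ∃ i < n, φ = fun x => x i

/-- sparse quadratic equations -/
def Sat (E : List (List (((ℕ → ℝ) → ℝ) × ℕ × ℕ))) (x ζ : ℕ → ℝ) : Prop :=
  ∀ e ∈ E, (e.map fun t => t.1 x * ζ t.2.1 * ζ t.2.2).sum = 0

def Shape (S : Set ℝ) (n m : ℕ) (E : List (List (((ℕ → ℝ) → ℝ) × ℕ × ℕ))) : Prop :=
  E.length ≤ m ∧ ∀ e ∈ E, e.length ≤ 4 ∧ ∀ t ∈ e, Co S n t.1 ∧ t.2.1 < m ∧ t.2.2 < m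

/-- substitution of gates or inputs for the inputs of a circuit -/
def SUBST : Prop := ∀ (t : ℝ → Prop) (S : Set ℝ) (l0 l : List ((ℕ → ℝ) → ℝ))
  (Y : ℕ → (ℕ → ℝ) → ℝ), Gates t S l0 → Gates t S l →
  (∀ i, Y i ∈ l0 ∨ ∃ j, Y i = fun z => z j) →
  ∃ l1, Gates t S l1 ∧ (∀ a ∈ l0, a ∈ l1) ∧ l1.length ≤ l0.length + l.length ∧
    ∀ a ∈ l, (fun z => a fun i => Y i z) ∈ l1

/-- gates for the length and the entries of the output list -/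
def SELECT : Prop := ∀ (t : ℝ → Prop) (S : Set ℝ) (l : List ((ℕ → ℝ) → ℝ))
  (out : List (((ℕ → ℝ) → ℝ) × ((ℕ → ℝ) → ℝ))), (0 : ℝ) ∈ S → (1 : ℝ) ∈ S → Gates t S l →
  (∀ o ∈ out, o.1 ∈ l ∧ o.2 ∈ l) →
  ∃ l1, Gates t S l1 ∧ (∀ a ∈ l, a ∈ l1) ∧ l1.length ≤ l.length + (out.length + 2) ^ 2 ∧
    (fun z => ((outputs t out z).length : ℝ)) ∈ l1 ∧
    ∀ i, (fun z => (outputs t out z).getD i 0) ∈ l1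

/-- uses SUBST, SELECT -/
def CLOSE : Prop := ∀ L ∈ NP, ∀ L' : Set (List ℝ),
  (∃ f, Poly (fun a => 0 < a) f ∧ ∀ x, x ∈ L' ↔ f x ∈ L) → L' ∈ NP

def QUAD : Prop := ∀ (S : Set ℝ) (n : ℕ) (l : List ((ℕ → ℝ) → ℝ)) (a : (ℕ → ℝ) → ℝ),
  (0 : ℝ) ∈ S → (1 : ℝ) ∈ S → (-1 : ℝ) ∈ S → Gates (fun r => 0 < r) S l → a ∈ l →
  ∃ (m : ℕ) (E : List (List (((ℕ → ℝ) → ℝ) × ℕ × ℕ))), m ≤ 10 * (l.length + 1) ∧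
    Shape S n m E ∧ ∀ x : ℕ → ℝ,
      (∃ z : ℕ → ℝ, (∀ i < n, z i = x i) ∧ 0 < a z) ↔ ∃ ζ : ℕ → ℝ, ζ 0 = 1 ∧ Sat E x ζ

def PROJ : Prop := ∀ (L : Set (List ℝ)) (S : Finset ℝ) (c : ℕ), (0 : ℝ) ∈ S → (1 : ℝ) ∈ S →
  (∀ n : ℕ, ∃ (m : ℕ) (E : List (List (((ℕ → ℝ) → ℝ) × ℕ × ℕ))), m ≤ (n + 2) ^ c ∧
    Shape (S : Set ℝ) n m E ∧ ∀ x : List ℝ, x.length = n →
      (x ∈ L ↔ ∃ ζ : ℕ → ℝ, ζ 0 = 1 ∧ Sat E (fun i => x.getD i 0) ζ)) →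
  ∃ f, Poly (fun a => a ≠ 0) f ∧ ∀ x, x ∈ L ↔ f x ∈ QPS

def MEM : Prop := QPS ∈ NP

def HARD : Prop := ∀ L ∈ NP, ∃ f, Poly (fun a => a ≠ 0) f ∧ ∀ x, x ∈ L ↔ f x ∈ QPS

end Pool.Agent.MP_8a92de_lc.E43
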