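import Pool.Agent.MP_8a92de_lc.E43.IDefs

section Row_substx
namespace Pool.Agent.MP_8a92de_lc.E43

namespace Substx

theorem step {l0 l l1 : List ((ℕ → ℝ) → ℝ)} {Y : ℕ → (ℕ → ℝ) → ℝ} {a g : (ℕ → ℝ) → ℝ}
    (hg : (fun z => a fun i => Y i z) = g) (h2 : ∀ b ∈ l0, b ∈ l1) (h3 : l1.length ≤ l0.length + l.length)
    (h4 : ∀ b ∈ l, (fun z => b fun i => Y i z) ∈ l1) :
    (∀ b ∈ l0, b ∈ g :: l1) ∧ (g :: l1).length ≤ l0.length + (a :: l).length ∧
      ∀ b ∈ a :: l, (fun z => b fun i => Y i z) ∈ g :: l1 := by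
  subst hg
  refine ⟨fun b hb => List.mem_cons_of_mem _ (h2 b hb), ?_, fun b hb => ?_⟩
  · simp only [List.length_cons]
    omega
  · rcases List.mem_cons.1 hb with rfl | hb
    · exact List.mem_cons_self
    · exact List.mem_cons_of_mem _ (h4 b hb)

end Substx

theorem subst' : SUBST := by
  intro t S l0 l Y h0 hl hY
  induction hl with
  | nil => exact ⟨l0, h0, fun _ h => h, le_rfl, by simp⟩
  | const c hc _ ih =>
    obtain ⟨l1, h1, h2, h3, h4⟩ := ih
    exact ⟨_, .const c hc h1, Substx.step (by rfl) h2 h3 h4⟩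
  | var i _ ih =>
    obtain ⟨l1, h1, h2, h3, h4⟩ := ih
    rcases hY i with h | ⟨j, h⟩
    · refine ⟨l1, h1, h2, ?_, fun b hb => ?_⟩
      · simp only [List.length_cons]
        omega
      · rcases List.mem_cons.1 hb with rfl | hb
        · exact h2 _ h
        · exact h4 b hb
    · exact ⟨_, .var j h1, Substx.step (by exact h) h2 h3 h4⟩
  | add _ ha hb ih =>
    obtain ⟨l1, h1, h2, h3, h4⟩ := ih
    exact ⟨_, .add h1 (h4 _ ha) (h4 _ hb), Substx.step (by rfl) h2 h3 h4⟩
  | mul _ ha hb ih =>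
    obtain ⟨l1, h1, h2, h3, h4⟩ := ih
    exact ⟨_, .mul h1 (h4 _ ha) (h4 _ hb), Substx.step (by rfl) h2 h3 h4⟩
  | div _ ha hb ih =>
    obtain ⟨l1, h1, h2, h3, h4⟩ := ih
    exact ⟨_, .div h1 (h4 _ ha) (h4 _ hb), Substx.step (by rfl) h2 h3 h4⟩
  | sel _ ha hb hc ih =>
    obtain ⟨l1, h1, h2, h3, h4⟩ := ih
    exact ⟨_, .sel h1 (h4 _ ha) (h4 _ hb) (h4 _ hc), Substx.step (by rfl) h2 h3 h4⟩

end Pool.Agent.MP_8a92de_lc.E43

end Row_substx

section Row_selectx
namespace Pool.Agent.MP_8a92de_lc.E43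

namespace selectx

variable {t : ℝ → Prop} {S : Set ℝ}

open Classical in
theorem fam {l : List ((ℕ → ℝ) → ℝ)} {a : (ℕ → ℝ) → ℝ} (b c : ℕ → (ℕ → ℝ) → ℝ) (h : Gates t S l)
    (ha : a ∈ l) (hb : ∀ i, b i ∈ l) (hc : ∀ i, c i ∈ l) (j : ℕ) :
    ∃ l', Gates t S l' ∧ (∀ g ∈ l, g ∈ l') ∧ l'.length = l.length + j ∧
      ∀ i < j, (fun z => if t (a z) then b i z else c i z) ∈ l' := by
  induction j with
  | zero => exact ⟨l, h, fun _ h => h, rfl, fun i hi => absurd hi (Nat.not_lt_zero i)⟩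
  | succ j ih =>
    obtain ⟨l1, g1, s1, n1, e1⟩ := ih
    refine ⟨_, Gates.sel g1 (s1 _ ha) (s1 _ (hb j)) (s1 _ (hc j)),
      fun g hg => List.mem_cons_of_mem _ (s1 g hg), by rw [List.length_cons, n1, Nat.add_assoc],
      fun i hi => ?_⟩
    rcases Nat.lt_succ_iff_lt_or_eq.1 hi with h1 | rfl
    · exact List.mem_cons_of_mem _ (e1 i h1)
    · exact List.mem_cons_self

open Classical in
theorem out_cons (o : ((ℕ → ℝ) → ℝ) × ((ℕ → ℝ) → ℝ))
    (out : List (((ℕ → ℝ) → ℝ) × ((ℕ → ℝ) → ℝ))) (z : ℕ → ℝ) :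
    outputs t (o :: out) z =
      if t (o.1 z) then o.2 z :: outputs t out z else outputs t out z := by
  unfold outputs
  by_cases h : t (o.1 z)
  · rw [List.filter_cons_of_pos (by simpa using h), List.map_cons, if_pos h]
  · rw [List.filter_cons_of_neg (by simpa using h), if_neg h]

theorem out_len (out : List (((ℕ → ℝ) → ℝ) × ((ℕ → ℝ) → ℝ))) (z : ℕ → ℝ) :
    (outputs t out z).length ≤ out.length := by
  unfold outputs
  rw [List.length_map]
  exact List.length_filter_le _ _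

open Classical in
theorem aux {l : List ((ℕ → ℝ) → ℝ)} (h0 : (0 : ℝ) ∈ S) (h1 : (1 : ℝ) ∈ S) (h : Gates t S l)
    (out : List (((ℕ → ℝ) → ℝ) × ((ℕ → ℝ) → ℝ))) (ho : ∀ o ∈ out, o.1 ∈ l ∧ o.2 ∈ l) :
    ∃ l1, Gates t S l1 ∧ (∀ a ∈ l, a ∈ l1) ∧ l1.length ≤ l.length + (out.length + 2) ^ 2 ∧
      (fun z => ((outputs t out z).length : ℝ)) ∈ l1 ∧
      (∀ i, (fun z => (outputs t out z).getD i 0) ∈ l1) ∧ (fun _ => (1 : ℝ)) ∈ l1 := by
  induction out with
  | nil =>
    refine ⟨_, Gates.const 0 h0 (Gates.const 1 h1 h),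
      fun a ha => List.mem_cons_of_mem _ (List.mem_cons_of_mem _ ha), by simp, ?_, fun i => ?_,
      List.mem_cons_of_mem _ List.mem_cons_self⟩
    · exact List.mem_cons.2 (Or.inl (funext fun z => by simp [outputs]))
    · exact List.mem_cons.2 (Or.inl (funext fun z => by simp [outputs]))
  | cons o out ih =>
    obtain ⟨l1, g1, s1, n1, a1, e1, u1⟩ := ih fun o' ho' => ho o' (List.mem_cons_of_mem _ ho')
    have ho1 := ho o List.mem_cons_self
    have g2 := Gates.add g1 a1 u1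
    have g3 := Gates.sel g2 (List.mem_cons_of_mem _ (s1 _ ho1.1)) List.mem_cons_self
      (List.mem_cons_of_mem _ a1)
    obtain ⟨l4, g4, s4, n4, e4⟩ := fam (fun i z => (o.2 z :: outputs t out z).getD i 0)
      (fun i z => (outputs t out z).getD i 0) g3
      (List.mem_cons_of_mem _ (List.mem_cons_of_mem _ (s1 _ ho1.1)))
      (fun i => List.mem_cons_of_mem _ (List.mem_cons_of_mem _ (by
        cases i with
        | zero => exact s1 _ ho1.2
        | succ i => exact e1 i)))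
      (fun i => List.mem_cons_of_mem _ (List.mem_cons_of_mem _ (e1 i))) (out.length + 1)
    have s5 : ∀ g ∈ l1, g ∈ l4 := fun g hg =>
      s4 g (List.mem_cons_of_mem _ (List.mem_cons_of_mem _ hg))
    refine ⟨l4, g4, fun a ha => s5 a (s1 a ha), ?_, ?_, fun i => ?_, s5 _ u1⟩
    · rw [n4, List.length_cons, List.length_cons, List.length_cons]
      have e : (out.length + 1 + 2) ^ 2 = (out.length + 2) ^ 2 + (2 * out.length + 5) := by ring
      omega
    · refine s4 _ (List.mem_cons.2 (Or.inl (funext fun z => ?_)))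
      rw [out_cons]
      split_ifs
      · rw [List.length_cons, Nat.cast_succ]
      · rfl
    · by_cases hi : i < out.length + 1
      · have e : (fun z => (outputs t (o :: out) z).getD i 0) = _ := funext fun z =>
          (congrArg (fun w : List ℝ => w.getD i 0) (out_cons o out z)).trans
            (apply_ite (fun w : List ℝ => w.getD i 0) _ _ _)
        rw [e]
        exact e4 i hi
      · have e : (fun z => (outputs t (o :: out) z).getD i 0) =
            fun z => (outputs t out z).getD i 0 := funext fun z => by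
          have b1 := out_len (t := t) (o :: out) z
          have b2 := out_len (t := t) out z
          rw [List.length_cons] at b1
          rw [List.getD_eq_default _ _ (by omega), List.getD_eq_default _ _ (by omega)]
        rw [e]
        exact s5 _ (e1 i)

end selectx

theorem selectx : SELECT := by
  intro t S l out h0 h1 h ho
  obtain ⟨l1, a, b, c, d, e, -⟩ := selectx.aux h0 h1 h out ho
  exact ⟨l1, a, b, c, d, e⟩

end Pool.Agent.MP_8a92de_lc.E43

end Row_selectx

section Row_close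
namespace Pool.Agent.MP_8a92de_lc.E43

namespace Close

theorem mono {t : ℝ → Prop} {S S' : Set ℝ} {l : List ((ℕ → ℝ) → ℝ)} (h : Gates t S l)
    (hS : S ⊆ S') : Gates t S' l := by
  induction h with
  | nil => exact .nil
  | const c hc _ ih => exact .const c (hS hc) ih
  | var i _ ih => exact .var i ih
  | add _ ha hb ih => exact .add ih ha hb
  | mul _ ha hb ih => exact .mul ih ha hb
  | div _ ha hb ih => exact .div ih ha hb
  | sel _ ha hb hc ih => exact .sel ih ha hb hc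

/-- one copy of the circuit of `L` for every length below `k`, and the selection -/
theorem chain (h1 : SUBST) {S : Set ℝ} (hm : (-1 : ℝ) ∈ S) (n W : ℕ)
    (l2 : List ((ℕ → ℝ) → ℝ)) (g2 : Gates (fun r => 0 < r) S l2) (len : (ℕ → ℝ) → ℕ)
    (ent : ℕ → (ℕ → ℝ) → ℝ) (hlen : (fun z => (len z : ℝ)) ∈ l2) (hent : ∀ i, ent i ∈ l2)
    (lk : ℕ → List ((ℕ → ℝ) → ℝ)) (ak : ℕ → (ℕ → ℝ) → ℝ)
    (gk : ∀ j, Gates (fun r => 0 < r) S (lk j)) (mk : ∀ j, ak j ∈ lk j) (k : ℕ) :
    (∀ j < k, (lk j).length ≤ W) →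
    ∃ l', Gates (fun r => 0 < r) S l' ∧ (∀ a ∈ l2, a ∈ l') ∧
      l'.length ≤ l2.length + k * (W + 4) ∧ (∃ d ∈ l', ∀ z, d z = (len z : ℝ) - k) ∧
      ∃ r ∈ l', ∀ z, len z < k →
        r z = ak (len z) fun i => if i < len z then ent i z else z (n + i) := by
  induction k with
  | zero =>
    intro _
    exact ⟨l2, g2, fun _ h => h, by simp, ⟨_, hlen, fun z => by simp⟩, _, hlen,
      fun z h => absurd h (Nat.not_lt_zero _)⟩
  | succ k ih =>
    intro hW
    obtain ⟨l', g', s', n', ⟨d, hd, vd⟩, r, hr, vr⟩ := ih fun j hj => hW j (Nat.lt_succ_of_lt hj)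
    obtain ⟨l3, g3, s3, n3, q3⟩ := h1 _ S l' (lk k)
      (fun i => if i < k then ent i else fun z => z (n + i)) g' (gk k) fun i => by
        by_cases hi : i < k
        · exact Or.inl (by rw [if_pos hi]; exact s' _ (hent i))
        · exact Or.inr ⟨n + i, by rw [if_neg hi]⟩
    have g4 := Gates.const (-1) hm g3
    have g5 := Gates.add g4 (List.mem_cons_of_mem _ (s3 d hd)) List.mem_cons_self
    have d5 := List.mem_cons_of_mem (fun z => d z + (fun _ => (-1 : ℝ)) z)
      (List.mem_cons_of_mem (fun _ => (-1 : ℝ)) (s3 d hd))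
    have g6 := Gates.mul g5 d5 d5
    have g7 := Gates.sel g6 List.mem_cons_self
      (List.mem_cons_of_mem _ (List.mem_cons_of_mem _ (List.mem_cons_of_mem _ (s3 r hr))))
      (List.mem_cons_of_mem _ (List.mem_cons_of_mem _ (List.mem_cons_of_mem _ (q3 _ (mk k)))))
    refine ⟨_, g7, fun a ha => List.mem_cons_of_mem _ (List.mem_cons_of_mem _
      (List.mem_cons_of_mem _ (List.mem_cons_of_mem _ (s3 a (s' a ha))))), ?_,
      ⟨_, List.mem_cons_of_mem _ (List.mem_cons_of_mem _ List.mem_cons_self), fun z => ?_⟩,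
      _, List.mem_cons_self, fun z hz => ?_⟩
    · have := hW k (Nat.lt_succ_self k)
      simp only [List.length_cons]
      rw [Nat.succ_mul]
      omega
    · simp only [vd]
      push_cast
      ring
    · rcases Nat.lt_succ_iff_lt_or_eq.1 hz with h | h
      · have h0 : d z ≠ 0 := by
          rw [vd, sub_ne_zero]
          exact_mod_cast h.ne
        have h2 : 0 < d z * d z := mul_self_pos.2 h0
        simp only [h2, if_true]
        exact vr z h
      · have h0 : d z = 0 := by rw [vd, h, sub_self]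
        have h2 : ¬ 0 < d z * d z := by rw [h0]; simp
        simp only [h2, if_false]
        rw [h]
        refine congrArg (ak k) (funext fun i => ?_)
        by_cases hi : i < k <;> simp [hi]

theorem size (n c1 c2 a K : ℕ) (ha : a ≤ (n + 2) ^ c2) (hK : K ≤ (n + 2) ^ c2) :
    1 + (a + (K + 2) ^ 2) + (K + 1) * ((K + 2) ^ c1 + 4) ≤ (n + 2) ^ ((c2 + 2) * (c1 + 3)) := by
  rw [pow_mul]
  have hP : 1 ≤ (n + 2) ^ c2 := Nat.one_le_pow _ _ (by omega)
  have h4 : 4 * (n + 2) ^ c2 ≤ (n + 2) ^ (c2 + 2) := by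
    rw [pow_add, mul_comm]
    exact Nat.mul_le_mul_left _ (Nat.pow_le_pow_left (Nat.le_add_left 2 n) 2)
  generalize (n + 2) ^ (c2 + 2) = Q at h4
  have hKQ : K + 2 ≤ Q := by omega
  have haQ : a + 1 ≤ Q := by omega
  have hQ : 4 ≤ Q := by omega
  have e1 : (K + 2) ^ 2 ≤ Q ^ 2 := Nat.pow_le_pow_left hKQ 2
  have e2 : (K + 2) ^ c1 ≤ Q ^ c1 := Nat.pow_le_pow_left hKQ c1
  have e3 : 1 ≤ Q ^ c1 := Nat.one_le_pow _ _ (by omega)
  have e4 : (K + 1) * ((K + 2) ^ c1 + 4) ≤ Q * (Q ^ c1 + Q) :=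
    Nat.mul_le_mul (by omega) (by omega)
  have e5 : Q ^ (c1 + 3) = Q ^ c1 * (Q * Q) * Q := by ring
  rw [e5]
  generalize Q ^ c1 = R at e3 e4
  have e6 : Q ≤ Q * Q := Nat.le_mul_self Q
  have e7 : Q * Q ≤ R * (Q * Q) := Nat.le_mul_of_pos_left _ e3
  have e8 : Q * R ≤ R * (Q * Q) := by rw [mul_comm]; exact Nat.mul_le_mul_left _ e6
  have e9 : R * (Q * Q) * 4 ≤ R * (Q * Q) * Q := Nat.mul_le_mul_left _ hQ
  rw [pow_two Q] at e1
  rw [mul_add Q] at e4
  omega

end Close

theorem close (h1 : SUBST) (h2 : SELECT) : CLOSE := by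
  classical
  rintro L ⟨S1, c1, hL⟩ L' ⟨f, ⟨S2, c2, hf⟩, hr⟩
  choose lk ak gk nk mk vk using hL
  refine ⟨insert 0 (insert 1 (insert (-1) (S1 ∪ S2))), (c2 + 2) * (c1 + 3), fun n => ?_⟩
  generalize hS : ((insert 0 (insert 1 (insert (-1) (S1 ∪ S2))) : Finset ℝ) : Set ℝ) = S
  have z0 : (0 : ℝ) ∈ S := by rw [← hS]; simp
  have z1 : (1 : ℝ) ∈ S := by rw [← hS]; simp
  have z2 : (-1 : ℝ) ∈ S := by rw [← hS]; simp
  have s1 : (S1 : Set ℝ) ⊆ S := fun a ha => by
    rw [← hS]
    simp [Finset.mem_coe.1 ha]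
  have s2 : (S2 : Set ℝ) ⊆ S := fun a ha => by
    rw [← hS]
    simp [Finset.mem_coe.1 ha]
  obtain ⟨l, out, g, nl, no, mo, vf⟩ := hf n
  obtain ⟨l1, g1, -, n1, hlen, hent⟩ := h2 _ S l out z0 z1 (Close.mono g s2) mo
  obtain ⟨l2, g2, -, n2, q2⟩ := h1 _ S [fun _ => 0] l1
    (fun i => if i < n then fun z => z i else fun _ => 0) (Gates.const 0 z0 Gates.nil) g1
    fun i => by
      by_cases hi : i < n
      · exact Or.inr ⟨i, by rw [if_pos hi]⟩
      · exact Or.inl (by rw [if_neg hi]; exact List.mem_cons_self)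
  obtain ⟨l', g', -, n', -, r, hr', vr⟩ := Close.chain h1 z2 n ((out.length + 2) ^ c1) l2 g2
    (fun z => (outputs (fun a => 0 < a) out
      fun i => (if i < n then fun z : ℕ → ℝ => z i else fun _ => 0) z).length)
    (fun j z => (outputs (fun a => 0 < a) out
      fun i => (if i < n then fun z : ℕ → ℝ => z i else fun _ => 0) z).getD j 0)
    (q2 _ hlen) (fun j => q2 _ (hent j)) lk ak (fun j => Close.mono (gk j) s1) mk
    (out.length + 1) fun j hj => (nk j).trans (Nat.pow_le_pow_left (by omega) _)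
  refine ⟨l', r, g', ?_, hr', fun x hx => ?_⟩
  · have := Close.size n c1 c2 l.length out.length nl no
    simp only [List.length_cons, List.length_nil] at n2
    omega
  · have key : ∀ z : ℕ → ℝ, (∀ i < n, z i = x.getD i 0) →
        r z = ak (f x).length fun i => if i < (f x).length then (f x).getD i 0 else z (n + i) := by
      intro z hz
      have e : (fun i => (if i < n then fun z : ℕ → ℝ => z i else fun _ => 0) z) =
          fun i => x.getD i 0 := funext fun i => by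
        by_cases hi : i < n
        · rw [if_pos hi]; exact hz i hi
        · rw [if_neg hi, List.getD_eq_default _ _ (by omega)]
      have h3 := vr z
      simp only [e, ← vf x hx] at h3
      refine h3 (Nat.lt_succ_of_le ?_)
      rw [vf x hx, outputs, List.length_map]
      exact List.length_filter_le _ _
    rw [hr x, vk _ (f x) rfl]
    constructor
    · rintro ⟨w, hw, hp⟩
      refine ⟨fun i => if i < n then x.getD i 0 else w (i - n), fun i hi => if_pos hi, ?_⟩
      rw [key _ fun i hi => if_pos hi]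
      have e : (fun i => if i < (f x).length then (f x).getD i 0 else
          if n + i < n then x.getD (n + i) 0 else w (n + i - n)) = w := funext fun i => by
        by_cases hi : i < (f x).length
        · rw [if_pos hi, hw i hi]
        · rw [if_neg hi, if_neg (by omega), Nat.add_sub_cancel_left]
      exact lt_of_lt_of_eq hp (congrArg (ak (f x).length) e).symm
    · rintro ⟨z, hz, hp⟩
      rw [key z hz] at hp
      exact ⟨_, fun i hi => if_pos hi, hp⟩

end Pool.Agent.MP_8a92de_lc.E43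

end Row_close

section Row_quad
namespace Pool.Agent.MP_8a92de_lc.E43

namespace quad

abbrev Gt : Type := (ℕ → ℝ) → ℝ

abbrev Eqs : Type := List (List (Gt × ℕ × ℕ))

/-- the invariant of the induction over the gates -/
def Inv (S : Set ℝ) (n : ℕ) (l : List Gt) : Prop :=
  ∃ (m : ℕ) (E : Eqs) (pos : Gt → ℕ), 1 ≤ m ∧ m ≤ 10 * l.length + 1 ∧ Shape S n m E ∧
    (∀ a ∈ l, pos a < m) ∧
    (∀ x z : ℕ → ℝ, (∀ i < n, z i = x i) →
      ∃ ζ : ℕ → ℝ, ζ 0 = 1 ∧ Sat E x ζ ∧ ∀ a ∈ l, ζ (pos a) = a z) ∧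
    ∀ x z ζ : ℕ → ℝ, (∀ i < n, z i = x i) → ζ 0 = 1 → Sat E x ζ →
      (∀ i, n ≤ i → (fun z : ℕ → ℝ => z i) ∈ l → z i = ζ (pos fun z => z i)) →
      ∀ a ∈ l, ζ (pos a) = a z

/-- equations for one new gate -/
def New (S : Set ℝ) (n : ℕ) (l : List Gt) (g : Gt) : Prop :=
  ∀ (m : ℕ) (pos : Gt → ℕ), (∀ a ∈ l, pos a < m) → ∃ E : Eqs, E.length ≤ 10 ∧
    (∀ e ∈ E, e.length ≤ 4 ∧ ∀ t ∈ e, Co S n t.1 ∧ t.2.1 < m + 10 ∧ t.2.2 < m + 10) ∧
    (∀ x z : ℕ → ℝ, (∀ i < n, z i = x i) → ∃ v : ℕ → ℝ, v 0 = g z ∧ ∀ ζ : ℕ → ℝ, ζ 0 = 1 →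
      (∀ a ∈ l, ζ (pos a) = a z) → (∀ k, ζ (m + k) = v k) → Sat E x ζ) ∧
    ∀ x z ζ : ℕ → ℝ, (∀ i < n, z i = x i) → ζ 0 = 1 → (∀ a ∈ l, ζ (pos a) = a z) →
      (∀ i, n ≤ i → g = (fun z => z i) → z i = ζ m) → Sat E x ζ → ζ m = g z

variable {S : Set ℝ} {n : ℕ} {l : List Gt}

theorem sat_app {E E' : Eqs} {x ζ : ℕ → ℝ} : Sat (E ++ E') x ζ ↔ Sat E x ζ ∧ Sat E' x ζ := by
  simp only [Sat, List.mem_append]
  exact ⟨fun h => ⟨fun e he => h e (.inl he), fun e he => h e (.inr he)⟩,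
    fun h e he => he.elim (h.1 e) (h.2 e)⟩

theorem sat_ext {m : ℕ} {E : Eqs} {x ζ ζ' : ℕ → ℝ} (hE : Shape S n m E) (h : Sat E x ζ)
    (hζ : ∀ i < m, ζ' i = ζ i) : Sat E x ζ' := fun e he => by
  rw [← h e he]
  refine congrArg List.sum (List.map_congr_left fun t ht => ?_)
  rw [hζ _ ((hE.2 e he).2 t ht).2.1, hζ _ ((hE.2 e he).2 t ht).2.2]

theorem glue (m : ℕ) (ζ v : ℕ → ℝ) :
    ∃ ζ' : ℕ → ℝ, (∀ i < m, ζ' i = ζ i) ∧ ∀ k, ζ' (m + k) = v k :=
  ⟨fun i => if i < m then ζ i else v (i - m), fun i hi => if_pos hi, fun k => by simp⟩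

theorem shape_app {m k : ℕ} {E E' : Eqs} (hE : Shape S n m E) (h1 : E'.length ≤ k)
    (h2 : ∀ e ∈ E', e.length ≤ 4 ∧ ∀ t ∈ e, Co S n t.1 ∧ t.2.1 < m + k ∧ t.2.2 < m + k) :
    Shape S n (m + k) (E ++ E') := by
  refine ⟨by have := hE.1; rw [List.length_append]; omega, fun e he => ?_⟩
  rcases List.mem_append.1 he with he | he
  · refine ⟨(hE.2 e he).1, fun t ht => ?_⟩
    obtain ⟨a1, a2, a3⟩ := (hE.2 e he).2 t ht
    exact ⟨a1, by omega, by omega⟩
  · exact h2 e he

theorem step {g : Gt} (h : Inv S n l) (hg : New S n l g) : Inv S n (g :: l) := by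
  classical
  obtain ⟨m, E, pos, h1, h2, h3, h4, h5, h6⟩ := h
  by_cases hl : g ∈ l
  · have mem : ∀ a, a ∈ g :: l → a ∈ l := fun a ha => by
      rcases List.mem_cons.1 ha with rfl | ha
      exacts [hl, ha]
    refine ⟨m, E, pos, h1, by rw [List.length_cons]; omega, h3, fun a ha => h4 a (mem a ha),
      fun x z hz => ?_, fun x z ζ hz h0 hs hv a ha =>
        h6 x z ζ hz h0 hs (fun i hi hm => hv i hi (List.mem_cons_of_mem _ hm)) a (mem a ha)⟩
    obtain ⟨ζ, a1, a2, a3⟩ := h5 x z hz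
    exact ⟨ζ, a1, a2, fun a ha => a3 a (mem a ha)⟩
  obtain ⟨E', g1, g2, g3, g4⟩ := hg m pos h4
  have old : ∀ a ∈ l, Function.update pos g m a = pos a := fun a ha =>
    Function.update_of_ne (fun (e : a = g) => hl (e ▸ ha)) _ _
  refine ⟨m + 10, E ++ E', Function.update pos g m, by omega, by rw [List.length_cons]; omega,
    shape_app h3 g1 g2, fun a ha => ?_, fun x z hz => ?_, fun x z ζ hz h0 hs hv => ?_⟩
  · rcases List.mem_cons.1 ha with rfl | ha
    · rw [Function.update_self]; omega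
    · rw [old a ha]; have := h4 a ha; omega
  · obtain ⟨ζ, a1, a2, a3⟩ := h5 x z hz
    obtain ⟨v, b1, b2⟩ := g3 x z hz
    obtain ⟨ζ', c1, c2⟩ := glue m ζ v
    have d0 : ζ' 0 = 1 := (c1 0 h1).trans a1
    have d1 : ∀ a ∈ l, ζ' (pos a) = a z := fun a ha => (c1 _ (h4 a ha)).trans (a3 a ha)
    refine ⟨ζ', d0, sat_app.2 ⟨sat_ext h3 a2 c1, b2 ζ' d0 d1 c2⟩, fun a ha => ?_⟩
    rcases List.mem_cons.1 ha with rfl | ha
    · rw [Function.update_self]; exact (c2 0).trans b1
    · rw [old a ha]; exact d1 a ha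
  · obtain ⟨s1, s2⟩ := sat_app.1 hs
    have d1 : ∀ a ∈ l, ζ (pos a) = a z := h6 x z ζ hz h0 s1 fun i hi hm => by
      rw [← old _ hm]; exact hv i hi (List.mem_cons_of_mem _ hm)
    intro a ha
    rcases List.mem_cons.1 ha with rfl | ha
    · rw [Function.update_self]
      refine g4 x z ζ hz h0 d1 (fun i hi e => ?_) s2
      have := hv i hi (e ▸ List.mem_cons_self)
      rwa [← e, Function.update_self] at this
    · rw [old a ha]; exact d1 a ha

theorem co_c {c : ℝ} (hc : c ∈ S) : Co S n (fun _ => c) := .inl ⟨c, hc, rfl⟩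

theorem new_const (hn : (-1 : ℝ) ∈ S) {c : ℝ} (hc : c ∈ S) : New S n l (fun _ => c) := by
  intro m pos _
  refine ⟨[[(fun _ => -1, m, 0), (fun _ => c, 0, 0)]], by simp, ?_,
    fun x z _ => ⟨fun _ => c, rfl, fun ζ h0 _ hv => ?_⟩, fun x z ζ _ h0 _ _ hs => ?_⟩
  · simp only [List.forall_mem_cons, List.length_cons, List.length_nil, List.not_mem_nil,
      false_imp_iff, implies_true, and_true, true_and, co_c hn, co_c hc]
    omega
  · have := hv 0
    simp only [add_zero] at this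
    simp [Sat, h0, this]
  · simp [Sat, h0] at hs
    linarith

theorem new_var (hn : (-1 : ℝ) ∈ S) (i : ℕ) : New S n l (fun z => z i) := by
  intro m pos _
  by_cases hi : i < n
  · have ci : Co S n (fun x => x i) := .inr ⟨i, hi, rfl⟩
    refine ⟨[[(fun _ => -1, m, 0), (fun x => x i, 0, 0)]], by simp, ?_,
      fun x z hz => ⟨fun _ => z i, rfl, fun ζ h0 _ hv => ?_⟩, fun x z ζ hz h0 _ _ hs => ?_⟩
    · simp only [List.forall_mem_cons, List.length_cons, List.length_nil, List.not_mem_nil,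
        false_imp_iff, implies_true, and_true, true_and, co_c hn, ci]
      omega
    · have := hv 0
      simp only [add_zero] at this
      simp [Sat, h0, this, hz i hi]
    · simp [Sat, h0] at hs
      have := hz i hi
      linarith
  · exact ⟨[], by simp, by simp, fun x z _ => ⟨fun _ => z i, rfl, fun ζ _ _ _ => by simp [Sat]⟩,
      fun x z ζ _ _ _ hv _ => (hv i (by omega) rfl).symm⟩

theorem new_add (h1 : (1 : ℝ) ∈ S) (hn : (-1 : ℝ) ∈ S) {a b : Gt} (ha : a ∈ l) (hb : b ∈ l) :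
    New S n l (fun z => a z + b z) := by
  intro m pos hp
  have pa := hp a ha
  have pb := hp b hb
  refine ⟨[[(fun _ => -1, m, 0), (fun _ => 1, pos a, 0), (fun _ => 1, pos b, 0)]], by simp, ?_,
    fun x z _ => ⟨fun _ => a z + b z, rfl, fun ζ h0 hl hv => ?_⟩, fun x z ζ _ h0 hl _ hs => ?_⟩
  · simp only [List.forall_mem_cons, List.length_cons, List.length_nil, List.not_mem_nil,
      false_imp_iff, implies_true, and_true, true_and, co_c hn, co_c h1]
    omega
  · have := hv 0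
    simp only [add_zero] at this
    simp [Sat, h0, this, hl a ha, hl b hb]
  · simp [Sat, h0, hl a ha, hl b hb] at hs
    linarith

theorem new_mul (h1 : (1 : ℝ) ∈ S) (hn : (-1 : ℝ) ∈ S) {a b : Gt} (ha : a ∈ l) (hb : b ∈ l) :
    New S n l (fun z => a z * b z) := by
  intro m pos hp
  have pa := hp a ha
  have pb := hp b hb
  refine ⟨[[(fun _ => -1, m, 0), (fun _ => 1, pos a, pos b)]], by simp, ?_,
    fun x z _ => ⟨fun _ => a z * b z, rfl, fun ζ h0 hl hv => ?_⟩, fun x z ζ _ h0 hl _ hs => ?_⟩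
  · simp only [List.forall_mem_cons, List.length_cons, List.length_nil, List.not_mem_nil,
      false_imp_iff, implies_true, and_true, true_and, co_c hn, co_c h1]
    omega
  · have := hv 0
    simp only [add_zero] at this
    simp [Sat, h0, this, hl a ha, hl b hb]
  · simp [Sat, h0, hl a ha, hl b hb] at hs
    linarith

theorem new_div (h1 : (1 : ℝ) ∈ S) (hn : (-1 : ℝ) ∈ S) {a b : Gt} (ha : a ∈ l) (hb : b ∈ l) :
    New S n l (fun z => a z / b z) := by
  intro m pos hp
  have pa := hp a ha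
  have pb := hp b hb
  refine ⟨[[(fun _ => -1, m + 2, 0), (fun _ => 1, pos b, m + 1)],
      [(fun _ => 1, m + 2, pos b), (fun _ => -1, pos b, 0)],
      [(fun _ => 1, m + 2, m + 1), (fun _ => -1, m + 1, 0)],
      [(fun _ => -1, m, 0), (fun _ => 1, pos a, m + 1)]], by simp, ?_,
    fun x z _ => ⟨fun k => [a z / b z, (b z)⁻¹, b z * (b z)⁻¹].getD k 0, rfl,
      fun ζ h0 hl hv => ?_⟩, fun x z ζ _ h0 hl _ hs => ?_⟩
  · simp only [List.forall_mem_cons, List.length_cons, List.length_nil, List.not_mem_nil,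
      false_imp_iff, implies_true, and_true, true_and, co_c hn, co_c h1]
    omega
  · have e0 : ζ m = a z / b z := hv 0
    have e1 : ζ (m + 1) = (b z)⁻¹ := hv 1
    have e2 : ζ (m + 2) = b z * (b z)⁻¹ := hv 2
    simp only [Sat, List.forall_mem_cons, List.map_cons, List.map_nil, List.sum_cons,
      List.sum_nil, h0, e0, e1, e2, hl a ha, hl b hb, List.not_mem_nil, false_imp_iff,
      implies_true, and_true]
    by_cases hb0 : b z = 0
    · simp [hb0]
    · refine ⟨by ring, ?_, ?_, by ring⟩ <;> field_simp <;> ring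
  · simp only [Sat, List.forall_mem_cons, List.map_cons, List.map_nil, List.sum_cons,
      List.sum_nil, h0, hl a ha, hl b hb, List.not_mem_nil, false_imp_iff,
      implies_true, and_true] at hs
    obtain ⟨s1, s2, s3, s4⟩ := hs
    show ζ m = a z / b z
    by_cases hb0 : b z = 0
    · rw [hb0] at s1 ⊢
      have e2 : ζ (m + 2) = 0 := by linarith
      rw [e2] at s3
      have e1 : ζ (m + 1) = 0 := by linarith
      rw [e1] at s4
      rw [div_zero]
      linarith
    · have e2 : ζ (m + 2) = 1 := mul_right_cancel₀ hb0 (by linarith)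
      rw [eq_div_iff hb0]
      rw [e2] at s1
      have e0 : ζ m = a z * ζ (m + 1) := by linarith
      have e1 : b z * ζ (m + 1) = 1 := by linarith
      rw [e0]
      linear_combination a z * e1

open Classical in
theorem new_sel (h1 : (1 : ℝ) ∈ S) (hn : (-1 : ℝ) ∈ S) {a b c : Gt} (ha : a ∈ l) (hb : b ∈ l)
    (hc : c ∈ l) (g : Gt) (g1 : ∀ z, 0 < a z → g z = b z) (g2 : ∀ z, ¬ 0 < a z → g z = c z) :
    New S n l g := by
  intro m pos hp
  have pa := hp a ha
  have pb := hp b hb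
  have pc := hp c hc
  refine ⟨[[(fun _ => 1, m + 1, m + 1), (fun _ => -1, m + 1, 0)],
      [(fun _ => -1, m + 3, 0), (fun _ => 1, m + 2, m + 2)],
      [(fun _ => -1, m + 1, 0), (fun _ => 1, pos a, m + 3)],
      [(fun _ => -1, m + 5, 0), (fun _ => 1, m + 4, m + 4)],
      [(fun _ => 1, pos a, 0), (fun _ => 1, m + 5, 0), (fun _ => -1, m + 1, pos a),
        (fun _ => -1, m + 1, m + 5)],
      [(fun _ => 1, m, 0), (fun _ => -1, pos c, 0), (fun _ => -1, m + 1, pos b),
        (fun _ => 1, m + 1, pos c)]], by simp, ?_, fun x z _ => ?_, fun x z ζ _ h0 hl _ hs => ?_⟩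
  · simp only [List.forall_mem_cons, List.length_cons, List.length_nil, List.not_mem_nil,
      false_imp_iff, implies_true, and_true, true_and, co_c hn, co_c h1]
    omega
  · by_cases hz : 0 < a z
    · refine ⟨fun k => [g z, 1, √(a z)⁻¹, (a z)⁻¹, 0, 0].getD k 0, rfl, fun ζ h0 hl hv => ?_⟩
      have e0 : ζ m = g z := hv 0
      have e1 : ζ (m + 1) = 1 := hv 1
      have e2 : ζ (m + 2) = √(a z)⁻¹ := hv 2
      have e3 : ζ (m + 3) = (a z)⁻¹ := hv 3
      have e4 : ζ (m + 4) = 0 := hv 4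
      have e5 : ζ (m + 5) = 0 := hv 5
      have r1 := Real.mul_self_sqrt (inv_pos.2 hz).le
      have r2 := mul_inv_cancel₀ hz.ne'
      simp only [Sat, List.forall_mem_cons, List.map_cons, List.map_nil, List.sum_cons,
        List.sum_nil, h0, e0, e1, e2, e3, e4, e5, hl a ha, hl b hb, hl c hc, g1 z hz,
        List.not_mem_nil, false_imp_iff, implies_true, and_true]
      refine ⟨?_, ?_, ?_, ?_, ?_, ?_⟩ <;> linarith
    · refine ⟨fun k => [g z, 0, 0, 0, √(-a z), -a z].getD k 0, rfl, fun ζ h0 hl hv => ?_⟩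
      have e0 : ζ m = g z := hv 0
      have e1 : ζ (m + 1) = 0 := hv 1
      have e2 : ζ (m + 2) = 0 := hv 2
      have e3 : ζ (m + 3) = 0 := hv 3
      have e4 : ζ (m + 4) = √(-a z) := hv 4
      have e5 : ζ (m + 5) = -a z := hv 5
      have r1 := Real.mul_self_sqrt (neg_nonneg.2 (not_lt.1 hz))
      simp only [Sat, List.forall_mem_cons, List.map_cons, List.map_nil, List.sum_cons,
        List.sum_nil, h0, e0, e1, e2, e3, e4, e5, hl a ha, hl b hb, hl c hc, g2 z hz,
        List.not_mem_nil, false_imp_iff, implies_true, and_true]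
      refine ⟨?_, ?_, ?_, ?_, ?_, ?_⟩ <;> linarith
  · simp only [Sat, List.forall_mem_cons, List.map_cons, List.map_nil, List.sum_cons,
      List.sum_nil, h0, hl a ha, hl b hb, hl c hc, List.not_mem_nil, false_imp_iff,
      implies_true, and_true] at hs
    obtain ⟨s1, s2, s3, s4, s5, s6⟩ := hs
    have hB : ζ (m + 1) * (ζ (m + 1) - 1) = 0 := by linarith
    rcases mul_eq_zero.1 hB with e | e
    · rw [e] at s5 s6
      have := mul_self_nonneg (ζ (m + 4))
      rw [g2 z (not_lt.2 (by linarith))]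
      linarith
    · have e1 : ζ (m + 1) = 1 := by linarith
      rw [e1] at s3 s6
      have q0 : 0 ≤ ζ (m + 3) := by have := mul_self_nonneg (ζ (m + 2)); linarith
      have : 0 < a z := by
        by_contra hz
        have := mul_nonneg (neg_nonneg.2 (not_lt.1 hz)) q0
        linarith
      rw [g1 z this]
      linarith

theorem inv (h1 : (1 : ℝ) ∈ S) (hn : (-1 : ℝ) ∈ S) (h : Gates (fun r => 0 < r) S l) :
    Inv S n l := by
  induction h with
  | nil =>
    exact ⟨1, [], fun _ => 0, le_rfl, by simp, by simp [Shape], by simp,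
      fun x z _ => ⟨fun _ => 1, rfl, by simp [Sat], by simp⟩, by simp⟩
  | const c hc _ ih => exact step ih (new_const hn hc)
  | var i _ ih => exact step ih (new_var hn i)
  | add _ ha hb ih => exact step ih (new_add h1 hn ha hb)
  | mul _ ha hb ih => exact step ih (new_mul h1 hn ha hb)
  | div _ ha hb ih => exact step ih (new_div h1 hn ha hb)
  | sel _ ha hb hc ih =>
    exact step ih (new_sel h1 hn ha hb hc _ (fun z hz => if_pos hz) fun z hz => if_neg hz)

end quad

theorem quad : QUAD := by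
  intro S n l a _ h1 hn hl ha
  obtain ⟨m, E, pos, i1, i2, i3, i4, i5, i6⟩ := quad.inv (n := n) h1 hn hl
  have pa := i4 a ha
  refine ⟨m + 2, E ++ [[(fun _ => -1, m + 1, 0), (fun _ => 1, m, m)],
    [(fun _ => 1, pos a, m + 1), (fun _ => -1, 0, 0)]], by omega,
    quad.shape_app i3 (by simp) ?_, fun x => ⟨?_, ?_⟩⟩
  · simp only [List.forall_mem_cons, List.length_cons, List.length_nil, List.not_mem_nil,
      false_imp_iff, implies_true, and_true, true_and, quad.co_c hn, quad.co_c h1]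
    omega
  · rintro ⟨z, hz, hp⟩
    obtain ⟨ζ, a1, a2, a3⟩ := i5 x z hz
    obtain ⟨ζ', c1, c2⟩ := quad.glue m ζ fun k => [√(a z)⁻¹, (a z)⁻¹].getD k 0
    have d0 : ζ' 0 = 1 := (c1 0 i1).trans a1
    have d1 : ζ' (pos a) = a z := (c1 _ pa).trans (a3 a ha)
    have e0 : ζ' m = √(a z)⁻¹ := c2 0
    have e1 : ζ' (m + 1) = (a z)⁻¹ := c2 1
    have r1 := Real.mul_self_sqrt (inv_pos.2 hp).le
    have r2 := mul_inv_cancel₀ hp.ne'
    refine ⟨ζ', d0, quad.sat_app.2 ⟨quad.sat_ext i3 a2 c1, ?_⟩⟩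
    simp only [Sat, List.forall_mem_cons, List.map_cons, List.map_nil, List.sum_cons,
      List.sum_nil, d0, d1, e0, e1, List.not_mem_nil, false_imp_iff, implies_true, and_true]
    refine ⟨?_, ?_⟩ <;> linarith
  · rintro ⟨ζ, h0, hs⟩
    obtain ⟨s1, s2⟩ := quad.sat_app.1 hs
    refine ⟨fun i => if i < n then x i else ζ (pos fun z => z i), fun i hi => if_pos hi, ?_⟩
    rw [← i6 x _ ζ (fun i hi => if_pos hi) h0 s1 (fun i hi _ => if_neg (by omega)) a ha]
    simp only [Sat, List.forall_mem_cons, List.map_cons, List.map_nil, List.sum_cons,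
      List.sum_nil, h0, List.not_mem_nil, false_imp_iff, implies_true, and_true] at s2
    obtain ⟨t1, t2⟩ := s2
    have q0 : 0 ≤ ζ (m + 1) := by have := mul_self_nonneg (ζ m); linarith
    by_contra hz
    have := mul_nonneg (neg_nonneg.2 (not_lt.1 hz)) q0
    linarith

end Pool.Agent.MP_8a92de_lc.E43

end Row_quad

section Row_proj
namespace Pool.Agent.MP_8a92de_lc.E43

namespace proj

/-- the coefficient of `ζ i * ζ j` in a sparse equation -/
noncomputable def cf (e : List (((ℕ → ℝ) → ℝ) × ℕ × ℕ)) (i j : ℕ) (z : ℕ → ℝ) : ℝ :=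
  (e.map fun t => if t.2.1 = i ∧ t.2.2 = j then t.1 z else 0).sum

theorem cf_gate {t : ℝ → Prop} {S : Set ℝ} {n : ℕ} (h0 : (0 : ℝ) ∈ S) (i j : ℕ)
    {l : List ((ℕ → ℝ) → ℝ)} (hl : Gates t S l) (e : List (((ℕ → ℝ) → ℝ) × ℕ × ℕ))
    (he : ∀ u ∈ e, Co S n u.1) :
    ∃ l1, Gates t S l1 ∧ (∀ a ∈ l, a ∈ l1) ∧ l1.length ≤ l.length + (2 * e.length + 1) ∧
      cf e i j ∈ l1 := by
  induction e with
  | nil =>
    exact ⟨_, Gates.const 0 h0 hl, fun a ha => List.mem_cons_of_mem _ ha, by simp,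
      List.mem_cons_self⟩
  | cons u e ih =>
    obtain ⟨l1, g1, s1, n1, m1⟩ := ih fun v hv => he v (List.mem_cons_of_mem _ hv)
    by_cases c : u.2.1 = i ∧ u.2.2 = j
    · have g2 : Gates t S (u.1 :: l1) := by
        rcases he u List.mem_cons_self with ⟨c, hc, h⟩ | ⟨k, -, h⟩
        · rw [h]
          exact Gates.const c hc g1
        · rw [h]
          exact Gates.var k g1
      have e1 : cf (u :: e) i j = fun z => u.1 z + cf e i j z := by
        funext z
        simp [cf, c]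
      refine ⟨_, Gates.add g2 List.mem_cons_self (List.mem_cons_of_mem _ m1),
        fun a ha => List.mem_cons_of_mem _ (List.mem_cons_of_mem _ (s1 a ha)), ?_, ?_⟩
      · simp only [List.length_cons]
        omega
      · rw [e1]
        exact List.mem_cons_self
    · have e1 : cf (u :: e) i j = cf e i j := by
        funext z
        simp only [cf, List.map_cons, List.sum_cons, if_neg c, zero_add]
      refine ⟨l1, g1, s1, ?_, e1 ▸ m1⟩
      simp only [List.length_cons]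
      omega

theorem cf_sum (m : ℕ) (z ζ : ℕ → ℝ) (e : List (((ℕ → ℝ) → ℝ) × ℕ × ℕ))
    (he : ∀ u ∈ e, u.2.1 < m ∧ u.2.2 < m) :
    ∑ i ∈ Finset.range m, ∑ j ∈ Finset.range m, cf e i j z * ζ i * ζ j =
      (e.map fun t => t.1 z * ζ t.2.1 * ζ t.2.2).sum := by
  induction e with
  | nil => simp [cf]
  | cons u e ih =>
    obtain ⟨h1, h2⟩ := he u List.mem_cons_self
    rw [List.map_cons, List.sum_cons, ← ih fun v hv => he v (List.mem_cons_of_mem _ hv)]
    have e1 : ∀ i j, cf (u :: e) i j z * ζ i * ζ j =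
        (if u.2.2 = j then if u.2.1 = i then u.1 z * ζ i * ζ j else 0 else 0) +
          cf e i j z * ζ i * ζ j := by
      intro i j
      simp only [cf, List.map_cons, List.sum_cons, add_mul]
      congr 1
      by_cases c1 : u.2.1 = i <;> by_cases c2 : u.2.2 = j <;> simp [c1, c2]
    simp only [e1, Finset.sum_add_distrib, Finset.sum_ite_eq, Finset.mem_range, h1, h2, if_true]

/-- the dense encoding -/
noncomputable def co (m : ℕ) (E : List (List (((ℕ → ℝ) → ℝ) × ℕ × ℕ))) (k : ℕ) :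
    (ℕ → ℝ) → ℝ := cf (E.getD (k / m / m) []) (k / m % m) (k % m)

theorem getD_mem {A : Type} (E : List (List A)) (k : ℕ) : E.getD k [] = [] ∨ E.getD k [] ∈ E := by
  by_cases h : k < E.length
  · right
    rw [List.getD_eq_getElem _ _ h]
    exact List.getElem_mem h
  · left
    exact List.getD_eq_default _ _ (not_lt.1 h)

theorem co_gate {t : ℝ → Prop} {S : Set ℝ} {n m : ℕ} (h0 : (0 : ℝ) ∈ S) (h1 : (1 : ℝ) ∈ S)
    {E : List (List (((ℕ → ℝ) → ℝ) × ℕ × ℕ))} (hE : Shape S n m E) (N : ℕ) :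
    ∃ l, Gates t S l ∧ (fun _ => (1 : ℝ)) ∈ l ∧ l.length ≤ 9 * N + 1 ∧ ∀ k < N, co m E k ∈ l := by
  induction N with
  | zero => exact ⟨_, Gates.const 1 h1 Gates.nil, List.mem_cons_self, by simp, by simp⟩
  | succ N ih =>
    obtain ⟨l, g, o, n1, m1⟩ := ih
    have hs : (E.getD (N / m / m) []).length ≤ 4 ∧ ∀ u ∈ E.getD (N / m / m) [], Co S n u.1 := by
      rcases getD_mem E (N / m / m) with h | h
      · rw [h]
        simp
      · exact ⟨(hE.2 _ h).1, fun u hu => ((hE.2 _ h).2 u hu).1⟩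
    obtain ⟨l1, g1, s1, n2, m2⟩ := cf_gate h0 (N / m % m) (N % m) g _ hs.2
    refine ⟨l1, g1, s1 _ o, by have := hs.1; omega, fun k hk => ?_⟩
    rcases Nat.lt_succ_iff_lt_or_eq.1 hk with h | rfl
    · exact s1 _ (m1 k h)
    · exact m2

theorem co_idx {m e i j : ℕ} (E : List (List (((ℕ → ℝ) → ℝ) × ℕ × ℕ))) (he : e < m) (hi : i < m)
    (hj : j < m) (z : ℕ → ℝ) :
    ((List.range (m ^ 3)).map fun k => co m E k z).getD (e * m ^ 2 + i * m + j) 0 =
      cf (E.getD e []) i j z := by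
  have hm : 0 < m := by omega
  have e1 : e * m ^ 2 + i * m + j = j + m * (i + m * e) := by ring
  have e2 : (j + m * (i + m * e)) / m = i + m * e := by
    rw [Nat.add_mul_div_left _ _ hm, Nat.div_eq_of_lt hj, zero_add]
  have e3 : (i + m * e) / m = e := by
    rw [Nat.add_mul_div_left _ _ hm, Nat.div_eq_of_lt hi, zero_add]
  have e4 : j + m * (i + m * e) < m ^ 3 := by
    have a1 : i + m * e + 1 ≤ m * m := by nlinarith
    have a2 := Nat.mul_le_mul_left m a1
    nlinarith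
  rw [e1, List.getD_eq_getElem _ _ (by simpa using e4), List.getElem_map, List.getElem_range, co,
    e2, e3, Nat.add_mul_mod_self_left, Nat.add_mul_mod_self_left, Nat.mod_eq_of_lt hi,
    Nat.mod_eq_of_lt hj]

theorem qps {S : Set ℝ} {n m : ℕ} {E : List (List (((ℕ → ℝ) → ℝ) × ℕ × ℕ))} (hE : Shape S n m E)
    (z : ℕ → ℝ) : ((List.range (m ^ 3)).map fun k => co m E k z) ∈ QPS ↔
      ∃ ζ : ℕ → ℝ, ζ 0 = 1 ∧ Sat E z ζ := by
  have key : ∀ ζ : ℕ → ℝ, ∀ e < m, ∑ i ∈ Finset.range m, ∑ j ∈ Finset.range m,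
      ((List.range (m ^ 3)).map fun k => co m E k z).getD (e * m ^ 2 + i * m + j) 0 * ζ i * ζ j =
      ((E.getD e []).map fun t => t.1 z * ζ t.2.1 * ζ t.2.2).sum := by
    intro ζ e he
    rw [← cf_sum m z ζ]
    · exact Finset.sum_congr rfl fun i hi => Finset.sum_congr rfl fun j hj => by
        rw [co_idx E he (Finset.mem_range.1 hi) (Finset.mem_range.1 hj)]
    · rcases getD_mem E e with h | h
      · rw [h]
        simp
      · exact fun u hu => ((hE.2 _ h).2 u hu).2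
  constructor
  · rintro ⟨m', ζ, h1, h2, h3⟩
    rw [List.length_map, List.length_range] at h1
    obtain rfl : m = m' := Nat.pow_left_injective (by norm_num) h1
    refine ⟨ζ, h2, fun e he => ?_⟩
    obtain ⟨k, hk, rfl⟩ := List.getElem_of_mem he
    have h4 := hk.trans_le hE.1
    rw [← List.getD_eq_getElem E [] hk, ← key ζ k h4]
    exact h3 k h4
  · rintro ⟨ζ, h2, h3⟩
    refine ⟨m, ζ, by simp, h2, fun e he => ?_⟩
    rw [key ζ e he]
    rcases getD_mem E e with h | h
    · rw [h]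
      simp
    · exact h3 _ h

end proj

theorem proj : PROJ := by
  intro L S c h0 h1 h
  choose m E hm hE hL using h
  refine ⟨fun x => (List.range (m x.length ^ 3)).map fun k =>
    proj.co (m x.length) (E x.length) k fun i => x.getD i 0, ⟨S, 3 * c + 4, fun n => ?_⟩,
    fun x => ?_⟩
  · obtain ⟨l, g, o, n1, m1⟩ := proj.co_gate (t := fun a => a ≠ 0) (Finset.mem_coe.2 h0)
      (Finset.mem_coe.2 h1) (hE n) (m n ^ 3)
    have b1 : m n ^ 3 ≤ ((n + 2) ^ c) ^ 3 := Nat.pow_le_pow_left (hm n) 3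
    have b2 : 2 ^ 4 ≤ (n + 2) ^ 4 := Nat.pow_le_pow_left (by omega) 4
    have b3 : 0 < ((n + 2) ^ c) ^ 3 := by positivity
    have b4 : 9 * m n ^ 3 + 1 ≤ (n + 2) ^ (3 * c + 4) := by
      rw [pow_add, mul_comm 3 c, pow_mul]
      have := Nat.mul_le_mul_left (((n + 2) ^ c) ^ 3) b2
      omega
    refine ⟨l, (List.range (m n ^ 3)).map fun k => (fun _ => 1, proj.co (m n) (E n) k), g,
      n1.trans b4, ?_, ?_, ?_⟩
    · rw [List.length_map, List.length_range]
      omega
    · intro p hp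
      obtain ⟨k, hk, rfl⟩ := List.mem_map.1 hp
      exact ⟨o, m1 k (List.mem_range.1 hk)⟩
    · rintro x rfl
      rw [outputs, List.filter_eq_self.2, List.map_map]
      · rfl
      · intro p hp
        obtain ⟨k, -, rfl⟩ := List.mem_map.1 hp
        simp
  · rw [proj.qps (hE x.length), hL x.length x rfl]

end Pool.Agent.MP_8a92de_lc.E43

end Row_proj

section Row_memx
namespace Pool.Agent.MP_8a92de_lc.E43

namespace Memx

variable {t : ℝ → Prop} {S : Set ℝ}

/-- `φ` can be added to any circuit with at most `k` new gates. -/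
def Cost (t : ℝ → Prop) (S : Set ℝ) (k : ℕ) (φ : (ℕ → ℝ) → ℝ) : Prop :=
  ∀ l, Gates t S l → ∃ l', Gates t S l' ∧ (∀ a ∈ l, a ∈ l') ∧ l'.length ≤ l.length + k ∧ φ ∈ l'

theorem cons {l : List ((ℕ → ℝ) → ℝ)} (φ : (ℕ → ℝ) → ℝ) : ∀ a ∈ l, a ∈ φ :: l :=
  fun _ h => List.mem_cons_of_mem _ h

theorem Cost.const {c : ℝ} (hc : c ∈ S) : Cost t S 1 fun _ => c :=
  fun _ hl => ⟨_, Gates.const c hc hl, cons _, by simp, List.mem_cons_self⟩

theorem Cost.var (i : ℕ) : Cost t S 1 fun z => z i :=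
  fun _ hl => ⟨_, Gates.var i hl, cons _, by simp, List.mem_cons_self⟩

theorem Cost.mono {k k' : ℕ} {φ : (ℕ → ℝ) → ℝ} (h : Cost t S k φ) (hk : k ≤ k') :
    Cost t S k' φ := fun l hl => by
  obtain ⟨l', h1, h2, h3, h4⟩ := h l hl
  exact ⟨l', h1, h2, by omega, h4⟩

theorem Cost.add {k k' : ℕ} {φ ψ : (ℕ → ℝ) → ℝ} (h : Cost t S k φ) (h' : Cost t S k' ψ) :
    Cost t S (k + k' + 1) fun z => φ z + ψ z := fun l hl => by
  obtain ⟨l1, a1, a2, a3, a4⟩ := h l hl
  obtain ⟨l2, b1, b2, b3, b4⟩ := h' l1 a1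
  exact ⟨_, Gates.add b1 (b2 _ a4) b4, fun a ha => cons _ a (b2 a (a2 a ha)),
    by rw [List.length_cons]; omega, List.mem_cons_self⟩

theorem Cost.mul {k k' : ℕ} {φ ψ : (ℕ → ℝ) → ℝ} (h : Cost t S k φ) (h' : Cost t S k' ψ) :
    Cost t S (k + k' + 1) fun z => φ z * ψ z := fun l hl => by
  obtain ⟨l1, a1, a2, a3, a4⟩ := h l hl
  obtain ⟨l2, b1, b2, b3, b4⟩ := h' l1 a1
  exact ⟨_, Gates.mul b1 (b2 _ a4) b4, fun a ha => cons _ a (b2 a (a2 a ha)),
    by rw [List.length_cons]; omega, List.mem_cons_self⟩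

open Classical in
theorem Cost.sel {k k' k'' : ℕ} {φ ψ ρ : (ℕ → ℝ) → ℝ} (h : Cost t S k φ) (h' : Cost t S k' ψ)
    (h'' : Cost t S k'' ρ) :
    Cost t S (k + k' + k'' + 1) fun z => if t (φ z) then ψ z else ρ z := fun l hl => by
  obtain ⟨l1, a1, a2, a3, a4⟩ := h l hl
  obtain ⟨l2, b1, b2, b3, b4⟩ := h' l1 a1
  obtain ⟨l3, c1, c2, c3, c4⟩ := h'' l2 b1
  exact ⟨_, Gates.sel c1 (c2 _ (b2 _ a4)) (c2 _ b4) c4,
    fun a ha => cons _ a (c2 a (b2 a (a2 a ha))), by rw [List.length_cons]; omega,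
    List.mem_cons_self⟩

theorem Cost.sum (h0 : (0 : ℝ) ∈ S) {k : ℕ} {φ : ℕ → (ℕ → ℝ) → ℝ} (h : ∀ i, Cost t S k (φ i))
    (N : ℕ) : Cost t S (N * (k + 1) + 1) fun z => ∑ i ∈ Finset.range N, φ i z := by
  induction N with
  | zero => simpa using Cost.const (t := t) h0
  | succ N ih =>
    simp only [Finset.sum_range_succ]
    exact (ih.add (h N)).mono (le_of_eq (by ring))

/-- the witness, with `1` in position `0` -/
def zt (n i : ℕ) (z : ℕ → ℝ) : ℝ := if i = 0 then 1 else z (n + i)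

theorem cost_zt (h1 : (1 : ℝ) ∈ S) (n i : ℕ) : Cost t S 1 (zt n i) := by
  unfold zt
  split_ifs
  · exact Cost.const h1
  · exact Cost.var _

def eqn (n m e : ℕ) (z : ℕ → ℝ) : ℝ := ∑ i ∈ Finset.range m, ∑ j ∈ Finset.range m,
  z (e * m ^ 2 + i * m + j) * zt n i z * zt n j z

theorem cost_eqn (h0 : (0 : ℝ) ∈ S) (h1 : (1 : ℝ) ∈ S) (n m e : ℕ) :
    Cost t S (m * (m * (1 + 1 + 1 + 1 + 1 + 1) + 1 + 1) + 1) (eqn n m e) :=
  Cost.sum h0 (fun i => Cost.sum h0
    (fun j => ((Cost.var _).mul (cost_zt h1 n i)).mul (cost_zt h1 n j)) m) m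

theorem idx {m e i j : ℕ} (he : e < m) (hi : i < m) (hj : j < m) :
    e * m ^ 2 + i * m + j < m ^ 3 := by
  have h1 : (i + 1) * m ≤ m * m := Nat.mul_le_mul_right m hi
  have h2 : (e + 1) * m ^ 2 ≤ m * m ^ 2 := Nat.mul_le_mul_right _ he
  nlinarith

theorem eqn_eq {m e : ℕ} {x : List ℝ} {z : ℕ → ℝ} (hz : ∀ i < m ^ 3, z i = x.getD i 0)
    (he : e < m) : eqn (m ^ 3) m e z = ∑ i ∈ Finset.range m, ∑ j ∈ Finset.range m,
      x.getD (e * m ^ 2 + i * m + j) 0 * zt (m ^ 3) i z * zt (m ^ 3) j z :=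
  Finset.sum_congr rfl fun i hi => Finset.sum_congr rfl fun j hj => by
    rw [hz _ (idx he (Finset.mem_range.1 hi) (Finset.mem_range.1 hj))]

end Memx

open Memx in
theorem memx : MEM := by
  classical
  refine ⟨{0, 1}, 4, fun n => ?_⟩
  have h0 : (0 : ℝ) ∈ ((({0, 1} : Finset ℝ)) : Set ℝ) := by simp
  have h1 : (1 : ℝ) ∈ ((({0, 1} : Finset ℝ)) : Set ℝ) := by simp
  by_cases hn : ∃ m, n = m ^ 3
  · obtain ⟨m, rfl⟩ := hn
    obtain ⟨l, a1, -, a3, a4⟩ := Cost.sel (t := fun r => 0 < r)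
      (Cost.sum h0 (fun e => (cost_eqn h0 h1 (m ^ 3) m e).mul (cost_eqn h0 h1 (m ^ 3) m e)) m)
      (Cost.const h0) (Cost.const h1) [] Gates.nil
    refine ⟨l, _, a1, a3.trans ?_, a4, fun x hx => ⟨?_, ?_⟩⟩
    · have b1 : m ≤ m ^ 3 := Nat.le_self_pow (by norm_num) m
      have b2 : m ^ 2 ≤ m ^ 3 := by
        rcases Nat.eq_zero_or_pos m with h | h
        · simp [h]
        · exact Nat.pow_le_pow_right h (by norm_num)
      have b3 : 32 * m ^ 3 + 16 ≤ (m ^ 3 + 2) ^ 4 := by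
        generalize m ^ 3 = N
        nlinarith [Nat.zero_le (N ^ 2), Nat.zero_le (N ^ 3), Nat.zero_le (N ^ 4)]
      rw [List.length_nil]
      nlinarith
    · rintro ⟨m', ζ, e1, e2, e3⟩
      obtain rfl : m' = m := Nat.pow_left_injective (by norm_num) (e1.symm.trans hx)
      have hz : ∀ i < m' ^ 3, (fun i => if i < m' ^ 3 then x.getD i 0 else ζ (i - m' ^ 3)) i =
          x.getD i 0 := fun i hi => if_pos hi
      refine ⟨_, hz, ?_⟩
      have hζ : ∀ i, zt (m' ^ 3) i (fun i => if i < m' ^ 3 then x.getD i 0 else ζ (i - m' ^ 3)) =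
          ζ i := by
        intro i
        unfold zt
        by_cases h : i = 0
        · rw [if_pos h, h, e2]
        · rw [if_neg h]
          beta_reduce
          rw [if_neg (by omega), Nat.add_sub_cancel_left]
      rw [if_neg]
      · exact one_pos
      · rw [Finset.sum_eq_zero]
        · exact lt_irrefl _
        · intro e he
          rw [eqn_eq hz (Finset.mem_range.1 he)]
          simp only [hζ]
          rw [e3 e (Finset.mem_range.1 he), mul_zero]
    · rintro ⟨z, hz, h⟩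
      refine ⟨m, fun i => zt (m ^ 3) i z, hx, if_pos rfl, fun e he => ?_⟩
      rw [← eqn_eq hz he]
      split_ifs at h with h'
      · exact absurd h (lt_irrefl _)
      · have := Finset.single_le_sum (f := fun e => eqn (m ^ 3) m e z * eqn (m ^ 3) m e z)
          (fun e _ => mul_self_nonneg _) (Finset.mem_range.2 he)
        exact mul_self_eq_zero.1 (le_antisymm (this.trans (not_lt.1 h')) (mul_self_nonneg _))
  · refine ⟨[fun _ => 0], fun _ => 0, Gates.const 0 h0 Gates.nil, Nat.one_le_pow _ _ (by omega),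
      List.mem_cons_self, fun x hx => ⟨?_, ?_⟩⟩
    · rintro ⟨m, ζ, e1, -⟩
      exact absurd ⟨m, hx.symm.trans e1⟩ hn
    · rintro ⟨z, -, h⟩
      exact absurd h (lt_irrefl _)

end Pool.Agent.MP_8a92de_lc.E43

end Row_memx

section Row_hard
namespace Pool.Agent.MP_8a92de_lc.E43

theorem hard (h1 : QUAD) (h2 : PROJ) : HARD := by
  classical
  rintro L ⟨S, c, hc⟩
  refine h2 L (insert 0 (insert 1 (insert (-1) S))) (c + 5) (by simp) (by simp) fun n => ?_
  obtain ⟨l, a, hl, hlen, ha, hx⟩ := hc n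
  have hl' : Gates (fun r => 0 < r) ((insert 0 (insert 1 (insert (-1) S)) : Finset ℝ) : Set ℝ) l := by
    clear hlen ha hx
    induction hl with
    | nil => exact .nil
    | const c hc _ ih => exact .const c (by simp [Finset.mem_coe.1 hc]) ih
    | var i _ ih => exact .var i ih
    | add _ ha hb ih => exact .add ih ha hb
    | mul _ ha hb ih => exact .mul ih ha hb
    | div _ ha hb ih => exact .div ih ha hb
    | sel _ ha hb hc ih => exact .sel ih ha hb hc
  obtain ⟨m, E, hm, hE, hq⟩ := h1 _ n l a (by simp) (by simp) (by simp) hl' ha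
  refine ⟨m, E, ?_, hE, fun x h => (hx x h).trans (hq _)⟩
  have h32 : 2 ^ 5 ≤ (n + 2) ^ 5 := Nat.pow_le_pow_left (by omega) _
  have h1 : 1 ≤ (n + 2) ^ c := Nat.one_le_pow _ _ (by omega)
  rw [pow_add]
  nlinarith

end Pool.Agent.MP_8a92de_lc.E43

end Row_hard
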