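import Pool.Agent.MP_8a92de_lc.E43.PDefs

section Row_altpad
namespace Pool.Agent.MP_8a92de_lc.E43

namespace Altpad

theorem const (k : ℕ) (P : Prop) : (Alt k fun _ => P) ↔ P := by
  induction k with
  | zero => rfl
  | succ k ih => exact ⟨fun ⟨_, h⟩ => ih.1 (h 0), fun h => ⟨0, fun _ => ih.2 h⟩⟩

end Altpad

theorem altpad : ALTPAD := by
  intro k
  induction k with
  | zero =>
    intro k' φ _
    simp only [Nat.mul_zero, Nat.not_lt_zero, if_false]
    exact (Altpad.const k' _).symm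
  | succ k ih =>
    intro k' φ h
    obtain ⟨k', rfl⟩ : ∃ j, k' = j + 1 := ⟨k' - 1, by omega⟩
    refine exists_congr fun r => forall_congr' fun s => (ih k' _ (by omega)).trans ?_
    refine iff_of_eq (congrArg (Alt k') (funext fun u => congrArg φ (funext fun i => ?_)))
    beta_reduce
    split_ifs <;> first | rfl | omega

end Pool.Agent.MP_8a92de_lc.E43

end Row_altpad

section Row_altex
namespace Pool.Agent.MP_8a92de_lc.E43

namespace Altex

theorem ex (m : ℕ) : ∀ ψ : (ℕ → ℝ) → Prop, (∀ ζ ζ', (∀ i < m, ζ i = ζ' i) → ψ ζ → ψ ζ') →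
    ((∃ ζ, ψ ζ) ↔ Alt m fun u => ψ fun i => u (2 * i)) := by
  induction m with
  | zero => exact fun ψ h => ⟨fun ⟨ζ, hζ⟩ => h ζ _ (by simp) hζ, fun hζ => ⟨_, hζ⟩⟩
  | succ m ih =>
    intro ψ h
    have key : ∀ r s : ℝ, (∃ ζ : ℕ → ℝ, ψ fun i => if i = 0 then r else ζ (i - 1)) ↔
        Alt m fun u => ψ fun i =>
          if 2 * i = 0 then r else if 2 * i = 1 then s else u (2 * i - 2) := by
      intro r s
      refine (ih (fun ζ => ψ fun i => if i = 0 then r else ζ (i - 1)) fun ζ ζ' e => h _ _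
        fun i hi => ?_).trans ?_
      · split_ifs with h0
        · rfl
        · exact e _ (by omega)
      · refine iff_of_eq (congrArg (Alt m) (funext fun u => congrArg ψ (funext fun i => ?_)))
        split_ifs <;> first | rfl | omega | exact congrArg u (by omega)
    refine ⟨fun ⟨ζ, hζ⟩ => ⟨ζ 0, fun s => (key _ s).1 ⟨fun i => ζ (i + 1), h ζ _ (fun i _ => ?_) hζ⟩⟩,
      fun ⟨r, hr⟩ => ?_⟩
    · split_ifs with h0
      · rw [h0]
      · exact congrArg ζ (by omega)
    · obtain ⟨ζ, hζ⟩ := (key r 0).2 (hr 0)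
      exact ⟨_, hζ⟩

end Altex

theorem altex : ALTEX := by
  intro k m
  induction k with
  | zero =>
    intro φ h
    rw [Nat.zero_add]
    refine (Altex.ex m (φ fun _ => 0) fun ζ ζ' e => h _ _ ζ ζ' (by simp) e).trans ?_
    refine iff_of_eq (congrArg (Alt m) (funext fun u => propext ⟨?_, ?_⟩)) <;>
      exact h _ _ _ _ (by simp) (by simp)
  | succ k ih =>
    intro φ h
    rw [Nat.add_right_comm]
    refine exists_congr fun r => forall_congr' fun s =>
      (ih (fun u ζ => φ (fun i => if i = 0 then r else if i = 1 then s else u (i - 2)) ζ)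
        fun u u' ζ ζ' e e' => h _ _ ζ ζ' (fun i hi => ?_) e').trans ?_
    · split_ifs
      · rfl
      · rfl
      · exact e _ (by omega)
    · refine iff_of_eq (congrArg (Alt (k + m)) (funext fun u => congrArg (φ _) (funext fun i => ?_)))
      beta_reduce
      rw [if_neg (by omega), if_neg (by omega)]
      exact congrArg u (by omega)

end Pool.Agent.MP_8a92de_lc.E43

end Row_altex

section Row_pclose
namespace Pool.Agent.MP_8a92de_lc.E43

namespace PClose

theorem mono {t : ℝ → Prop} {S S' : Set ℝ} {l : List ((ℕ → ℝ) → ℝ)} (h : Gates t S l)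
    (hS : S ⊆ S') : Gates t S' l := by
  induction h with
  | nil => exact .nil
  | const c hc _ ih => exact .const c (hS hc) ih
  | var i _ ih => exact .var i ih
  | add _ ha hb ih => exact .add ih ha hb
  | mul _ ha hb ih => exact .mul ih ha hb
  | div _ ha hb ih => exact .div ih ha hb
  | sel _ ha hb hc ih => exact .sel ih ha hb hc

/-- one copy of the circuit of `L` for every length below `k`, and the selection -/
theorem chain (h1 : SUBST) {S : Set ℝ} (hm : (-1 : ℝ) ∈ S) (W : ℕ)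
    (l2 : List ((ℕ → ℝ) → ℝ)) (g2 : Gates (fun r => 0 < r) S l2) (len : (ℕ → ℝ) → ℕ)
    (Y : ℕ → ℕ → (ℕ → ℝ) → ℝ) (hlen : (fun z => (len z : ℝ)) ∈ l2)
    (hY : ∀ j i, Y j i ∈ l2 ∨ ∃ m, Y j i = fun z => z m)
    (lk : ℕ → List ((ℕ → ℝ) → ℝ)) (ak : ℕ → (ℕ → ℝ) → ℝ)
    (gk : ∀ j, Gates (fun r => 0 < r) S (lk j)) (mk : ∀ j, ak j ∈ lk j) (k : ℕ) :
    (∀ j < k, (lk j).length ≤ W) →
    ∃ l', Gates (fun r => 0 < r) S l' ∧ (∀ a ∈ l2, a ∈ l') ∧
      l'.length ≤ l2.length + k * (W + 4) ∧ (∃ d ∈ l', ∀ z, d z = (len z : ℝ) - k) ∧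
      ∃ r ∈ l', ∀ z, len z < k → r z = ak (len z) fun i => Y (len z) i z := by
  induction k with
  | zero =>
    intro _
    exact ⟨l2, g2, fun _ h => h, by simp, ⟨_, hlen, fun z => by simp⟩, _, hlen,
      fun z h => absurd h (Nat.not_lt_zero _)⟩
  | succ k ih =>
    intro hW
    obtain ⟨l', g', s', n', ⟨d, hd, vd⟩, r, hr, vr⟩ := ih fun j hj => hW j (Nat.lt_succ_of_lt hj)
    obtain ⟨l3, g3, s3, n3, q3⟩ := h1 _ S l' (lk k) (Y k) g' (gk k) fun i =>
      (hY k i).imp_left (s' _)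
    have g4 := Gates.const (-1) hm g3
    have g5 := Gates.add g4 (List.mem_cons_of_mem _ (s3 d hd)) List.mem_cons_self
    have d5 := List.mem_cons_of_mem (fun z => d z + (fun _ => (-1 : ℝ)) z)
      (List.mem_cons_of_mem (fun _ => (-1 : ℝ)) (s3 d hd))
    have g6 := Gates.mul g5 d5 d5
    have g7 := Gates.sel g6 List.mem_cons_self
      (List.mem_cons_of_mem _ (List.mem_cons_of_mem _ (List.mem_cons_of_mem _ (s3 r hr))))
      (List.mem_cons_of_mem _ (List.mem_cons_of_mem _ (List.mem_cons_of_mem _ (q3 _ (mk k)))))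
    refine ⟨_, g7, fun a ha => List.mem_cons_of_mem _ (List.mem_cons_of_mem _
      (List.mem_cons_of_mem _ (List.mem_cons_of_mem _ (s3 a (s' a ha))))), ?_,
      ⟨_, List.mem_cons_of_mem _ (List.mem_cons_of_mem _ List.mem_cons_self), fun z => ?_⟩,
      _, List.mem_cons_self, fun z hz => ?_⟩
    · have := hW k (Nat.lt_succ_self k)
      simp only [List.length_cons]
      rw [Nat.succ_mul]
      omega
    · simp only [vd]
      push_cast
      ring
    · rcases Nat.lt_succ_iff_lt_or_eq.1 hz with h | h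
      · have h0 : d z ≠ 0 := by
          rw [vd, sub_ne_zero]
          exact_mod_cast h.ne
        have h2 : 0 < d z * d z := mul_self_pos.2 h0
        simp only [h2, if_true]
        exact vr z h
      · have h0 : d z = 0 := by rw [vd, h, sub_self]
        have h2 : ¬ 0 < d z * d z := by rw [h0]; simp
        simp only [h2, if_false]
        rw [h]

theorem size (n c1 c2 a K : ℕ) (ha : a ≤ (n + 2) ^ c2) (hK : K ≤ (n + 2) ^ c2) :
    1 + (a + (K + 2) ^ 2) + (K + 1) * ((K + 2) ^ c1 + 4) ≤ (n + 2) ^ ((c2 + 2) * (c1 + 3)) := by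
  rw [pow_mul]
  have hP : 1 ≤ (n + 2) ^ c2 := Nat.one_le_pow _ _ (by omega)
  have h4 : 4 * (n + 2) ^ c2 ≤ (n + 2) ^ (c2 + 2) := by
    rw [pow_add, mul_comm]
    exact Nat.mul_le_mul_left _ (Nat.pow_le_pow_left (Nat.le_add_left 2 n) 2)
  generalize (n + 2) ^ (c2 + 2) = Q at h4
  have hKQ : K + 2 ≤ Q := by omega
  have haQ : a + 1 ≤ Q := by omega
  have hQ : 4 ≤ Q := by omega
  have e1 : (K + 2) ^ 2 ≤ Q ^ 2 := Nat.pow_le_pow_left hKQ 2
  have e2 : (K + 2) ^ c1 ≤ Q ^ c1 := Nat.pow_le_pow_left hKQ c1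
  have e3 : 1 ≤ Q ^ c1 := Nat.one_le_pow _ _ (by omega)
  have e4 : (K + 1) * ((K + 2) ^ c1 + 4) ≤ Q * (Q ^ c1 + Q) :=
    Nat.mul_le_mul (by omega) (by omega)
  have e5 : Q ^ (c1 + 3) = Q ^ c1 * (Q * Q) * Q := by ring
  rw [e5]
  generalize Q ^ c1 = R at e3 e4
  have e6 : Q ≤ Q * Q := Nat.le_mul_self Q
  have e7 : Q * Q ≤ R * (Q * Q) := Nat.le_mul_of_pos_left _ e3
  have e8 : Q * R ≤ R * (Q * Q) := by rw [mul_comm]; exact Nat.mul_le_mul_left _ e6
  have e9 : R * (Q * Q) * 4 ≤ R * (Q * Q) * Q := Nat.mul_le_mul_left _ hQ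
  rw [pow_two Q] at e1
  rw [mul_add Q] at e4
  omega

end PClose

theorem pclose (h1 : SUBST) (h2 : SELECT) (h3 : ALTPAD) : PCLOSE := by
  classical
  rintro L ⟨S1, c1, hL⟩ L' ⟨f, ⟨S2, c2, hf⟩, hr⟩
  choose lk ak kk gk nk bk mk vk using hL
  refine ⟨insert 0 (insert 1 (insert (-1) (S1 ∪ S2))), (c2 + 2) * (c1 + 3), fun n => ?_⟩
  generalize hS : ((insert 0 (insert 1 (insert (-1) (S1 ∪ S2))) : Finset ℝ) : Set ℝ) = S
  have z0 : (0 : ℝ) ∈ S := by rw [← hS]; simp
  have z1 : (1 : ℝ) ∈ S := by rw [← hS]; simp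
  have z2 : (-1 : ℝ) ∈ S := by rw [← hS]; simp
  have s1 : (S1 : Set ℝ) ⊆ S := fun a ha => by
    rw [← hS]
    simp [Finset.mem_coe.1 ha]
  have s2 : (S2 : Set ℝ) ⊆ S := fun a ha => by
    rw [← hS]
    simp [Finset.mem_coe.1 ha]
  obtain ⟨l, out, g, nl, no, mo, vf⟩ := hf n
  obtain ⟨l1, g1, -, n1, hlen, hent⟩ := h2 _ S l out z0 z1 (PClose.mono g s2) mo
  obtain ⟨l2, g2, m2, n2, q2⟩ := h1 _ S [fun _ => 0] l1
    (fun i => if i < n then fun z => z i else fun _ => 0) (Gates.const 0 z0 Gates.nil) g1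
    fun i => by
      by_cases hi : i < n
      · exact Or.inr ⟨i, by rw [if_pos hi]⟩
      · exact Or.inl (by rw [if_neg hi]; exact List.mem_cons_self)
  obtain ⟨l', g', -, n', -, r, hr', vr⟩ := PClose.chain h1 z2 ((out.length + 2) ^ c1) l2 g2
    (fun z => (outputs (fun a => 0 < a) out
      fun i => (if i < n then fun z : ℕ → ℝ => z i else fun _ => 0) z).length)
    (fun k j => if j < k then fun z => (outputs (fun a => 0 < a) out
      fun i => (if i < n then fun z : ℕ → ℝ => z i else fun _ => 0) z).getD j 0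
      else if j - k < 2 * kk k then fun z => z (n + (j - k)) else fun _ => 0)
    (q2 _ hlen) (fun k j => by
      by_cases hj : j < k
      · exact Or.inl (by rw [if_pos hj]; exact q2 _ (hent j))
      · by_cases hk : j - k < 2 * kk k
        · exact Or.inr ⟨n + (j - k), by rw [if_neg hj, if_pos hk]⟩
        · exact Or.inl (by rw [if_neg hj, if_neg hk]; exact m2 _ List.mem_cons_self))
    lk ak (fun j => PClose.mono (gk j) s1) mk
    (out.length + 1) fun j hj => (nk j).trans (Nat.pow_le_pow_left (by omega) _)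
  have hsz := PClose.size n c1 c2 l.length out.length nl no
  refine ⟨l', r, (out.length + 2) ^ c1, g', ?_, ?_, hr', fun x hx => ?_⟩
  · simp only [List.length_cons, List.length_nil] at n2
    omega
  · have := Nat.le_mul_of_pos_left ((out.length + 2) ^ c1 + 4) (Nat.succ_pos out.length)
    simp only [Nat.succ_eq_add_one] at this
    omega
  · have hle : (f x).length ≤ out.length := by
      rw [vf x hx, outputs, List.length_map]
      exact List.length_filter_le _ _
    have key : ∀ u : ℕ → ℝ, (r fun i => if i < n then x.getD i 0 else u (i - n)) =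
        ak (f x).length fun i => if i < (f x).length then (f x).getD i 0 else
          if i - (f x).length < 2 * kk (f x).length then u (i - (f x).length) else 0 := by
      intro u
      have e : (fun i => (if i < n then fun z : ℕ → ℝ => z i else fun _ => 0)
          fun i => if i < n then x.getD i 0 else u (i - n)) =
          fun i => x.getD i 0 := funext fun i => by
        by_cases hi : i < n
        · rw [if_pos hi]; exact if_pos hi
        · rw [if_neg hi, List.getD_eq_default _ _ (by omega)]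
      have h4 := vr fun i => if i < n then x.getD i 0 else u (i - n)
      simp only [e, ← vf x hx] at h4
      rw [h4 (Nat.lt_succ_of_le hle)]
      refine congrArg (ak (f x).length) (funext fun i => ?_)
      by_cases hi : i < (f x).length
      · rw [if_pos hi, if_pos hi]
        simp only [e, ← vf x hx]
      · rw [if_neg hi, if_neg hi]
        by_cases hk : i - (f x).length < 2 * kk (f x).length
        · rw [if_pos hk, if_pos hk]
          show (if n + (i - (f x).length) < n then x.getD (n + (i - (f x).length)) 0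
            else u (n + (i - (f x).length) - n)) = u (i - (f x).length)
          rw [if_neg (by omega), Nat.add_sub_cancel_left]
        · rw [if_neg hk, if_neg hk]
    rw [hr x, vk _ (f x) rfl, h3 (kk (f x).length) ((out.length + 2) ^ c1) _
      ((bk _).trans (Nat.pow_le_pow_left (by omega) _))]
    simp only [key]

end Pool.Agent.MP_8a92de_lc.E43

end Row_pclose

section Row_pnf
namespace Pool.Agent.MP_8a92de_lc.E43

namespace pnf

theorem mono {t : ℝ → Prop} {S S' : Set ℝ} {l : List ((ℕ → ℝ) → ℝ)} (h : Gates t S l)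
    (hS : S ⊆ S') : Gates t S' l := by
  induction h with
  | nil => exact .nil
  | const c hc _ ih => exact .const c (hS hc) ih
  | var i _ ih => exact .var i ih
  | add _ ha hb ih => exact .add ih ha hb
  | mul _ ha hb ih => exact .mul ih ha hb
  | div _ ha hb ih => exact .div ih ha hb
  | sel _ ha hb hc ih => exact .sel ih ha hb hc

theorem shape {S : Set ℝ} {n n' m m' : ℕ} {E : List (List (((ℕ → ℝ) → ℝ) × ℕ × ℕ))}
    (h : Shape S n m E) (hn : n ≤ n') (hm : m ≤ m') : Shape S n' m' E := by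
  refine ⟨h.1.trans hm, fun e he => ⟨(h.2 e he).1, fun t ht => ?_⟩⟩
  obtain ⟨a1, a2, a3⟩ := (h.2 e he).2 t ht
  refine ⟨a1.imp_right ?_, a2.trans_le hm, a3.trans_le hm⟩
  rintro ⟨i, hi, e⟩
  exact ⟨i, hi.trans_le hn, e⟩

end pnf

theorem pnf (h1 : SUBST) (h2 : QUAD) (h3 : ALTPAD) : PNF := by
  classical
  rintro L ⟨S, c, hL⟩
  refine ⟨insert 0 (insert 1 (insert (-1) S)), c + 5, by simp, by simp, fun n => ?_⟩
  obtain ⟨l, a, k, g1, g2, g3, g4, g5⟩ := hL n
  have s0 : (0 : ℝ) ∈ ((insert 0 (insert 1 (insert (-1) S)) : Finset ℝ) : Set ℝ) := by simp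
  have s1 : (1 : ℝ) ∈ ((insert 0 (insert 1 (insert (-1) S)) : Finset ℝ) : Set ℝ) := by simp
  have sn : (-1 : ℝ) ∈ ((insert 0 (insert 1 (insert (-1) S)) : Finset ℝ) : Set ℝ) := by simp
  have hS : (S : Set ℝ) ⊆ ((insert 0 (insert 1 (insert (-1) S)) : Finset ℝ) : Set ℝ) :=
    fun r hr => by simp [Finset.mem_coe.1 hr]
  obtain ⟨l1, b1, -, b3, b4⟩ := h1 _ _ [fun _ => 0] l
    (fun i => if i < n + 2 * k then (fun z => z i) else fun _ => 0)
    (.const 0 s0 .nil) (pnf.mono g1 hS) (fun i => by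
      by_cases hi : i < n + 2 * k
      · exact .inr ⟨i, if_pos hi⟩
      · exact .inl (by rw [if_neg hi]; exact List.mem_cons_self))
  obtain ⟨m, E, c1, c2, c3⟩ := h2 _ (n + 2 * k) l1 _ s0 s1 sn b1 (b4 a g4)
  refine ⟨m + k, E, ?_, pnf.shape c2 (by omega) (by omega), fun x hx => ?_⟩
  · have p1 : 1 ≤ (n + 2) ^ c := Nat.one_le_pow _ _ (by omega)
    have p2 : 2 ^ 5 ≤ (n + 2) ^ 5 := Nat.pow_le_pow_left (by omega) 5
    have p3 : (n + 2) ^ c * 2 ^ 5 ≤ (n + 2) ^ c * (n + 2) ^ 5 := Nat.mul_le_mul_left _ p2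
    rw [pow_add]
    simp only [List.length_cons, List.length_nil] at b3
    omega
  · rw [g5 x hx, h3 k (m + k) _ (by omega)]
    refine iff_of_eq (congrArg (Alt (m + k)) (funext fun u => propext ?_))
    rw [← c3]
    have key : ∀ z : ℕ → ℝ,
        (∀ i < n + 2 * k, z i = if i < n then x.getD i 0 else u (i - n)) →
        (fun i => (if i < n + 2 * k then (fun z : ℕ → ℝ => z i) else fun _ => 0) z) =
          fun i => if i < n then x.getD i 0 else if i - n < 2 * k then u (i - n) else 0 := by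
      intro z hz
      funext i
      by_cases hi : i < n + 2 * k
      · rw [if_pos hi, hz i hi]
        by_cases hn : i < n
        · rw [if_pos hn, if_pos hn]
        · rw [if_neg hn, if_neg hn, if_pos (by omega)]
      · rw [if_neg hi, if_neg (by omega), if_neg (by omega)]
    constructor
    · intro h
      refine ⟨_, fun _ _ => rfl, ?_⟩
      rw [key _ fun _ _ => rfl]
      exact h
    · rintro ⟨z, hz, h⟩
      rw [key z hz] at h
      exact h

end Pool.Agent.MP_8a92de_lc.E43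

end Row_pnf

section Row_pproj
namespace Pool.Agent.MP_8a92de_lc.E43

namespace pproj31

/-- the coefficient of `ζ i * ζ j` in a sparse equation -/
noncomputable def cf (e : List (((ℕ → ℝ) → ℝ) × ℕ × ℕ)) (i j : ℕ) (z : ℕ → ℝ) : ℝ :=
  (e.map fun t => if t.2.1 = i ∧ t.2.2 = j then t.1 z else 0).sum

theorem cf_gate {t : ℝ → Prop} {S : Set ℝ} {n : ℕ} (h0 : (0 : ℝ) ∈ S) (i j : ℕ)
    {l : List ((ℕ → ℝ) → ℝ)} (hl : Gates t S l) (e : List (((ℕ → ℝ) → ℝ) × ℕ × ℕ))
    (he : ∀ u ∈ e, Co S n u.1) :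
    ∃ l1, Gates t S l1 ∧ (∀ a ∈ l, a ∈ l1) ∧ l1.length ≤ l.length + (2 * e.length + 1) ∧
      cf e i j ∈ l1 := by
  induction e with
  | nil =>
    exact ⟨_, Gates.const 0 h0 hl, fun a ha => List.mem_cons_of_mem _ ha, by simp,
      List.mem_cons_self⟩
  | cons u e ih =>
    obtain ⟨l1, g1, s1, n1, m1⟩ := ih fun v hv => he v (List.mem_cons_of_mem _ hv)
    by_cases c : u.2.1 = i ∧ u.2.2 = j
    · have g2 : Gates t S (u.1 :: l1) := by
        rcases he u List.mem_cons_self with ⟨c, hc, h⟩ | ⟨k, -, h⟩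
        · rw [h]
          exact Gates.const c hc g1
        · rw [h]
          exact Gates.var k g1
      have e1 : cf (u :: e) i j = fun z => u.1 z + cf e i j z := by
        funext z
        simp [cf, c]
      refine ⟨_, Gates.add g2 List.mem_cons_self (List.mem_cons_of_mem _ m1),
        fun a ha => List.mem_cons_of_mem _ (List.mem_cons_of_mem _ (s1 a ha)), ?_, ?_⟩
      · simp only [List.length_cons]
        omega
      · rw [e1]
        exact List.mem_cons_self
    · have e1 : cf (u :: e) i j = cf e i j := by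
        funext z
        simp only [cf, List.map_cons, List.sum_cons, if_neg c, zero_add]
      refine ⟨l1, g1, s1, ?_, e1 ▸ m1⟩
      simp only [List.length_cons]
      omega

theorem cf_sum (m : ℕ) (z ζ : ℕ → ℝ) (e : List (((ℕ → ℝ) → ℝ) × ℕ × ℕ))
    (he : ∀ u ∈ e, u.2.1 < m ∧ u.2.2 < m) :
    ∑ i ∈ Finset.range m, ∑ j ∈ Finset.range m, cf e i j z * ζ i * ζ j =
      (e.map fun t => t.1 z * ζ t.2.1 * ζ t.2.2).sum := by
  induction e with
  | nil => simp [cf]
  | cons u e ih =>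
    obtain ⟨h1, h2⟩ := he u List.mem_cons_self
    rw [List.map_cons, List.sum_cons, ← ih fun v hv => he v (List.mem_cons_of_mem _ hv)]
    have e1 : ∀ i j, cf (u :: e) i j z * ζ i * ζ j =
        (if u.2.2 = j then if u.2.1 = i then u.1 z * ζ i * ζ j else 0 else 0) +
          cf e i j z * ζ i * ζ j := by
      intro i j
      simp only [cf, List.map_cons, List.sum_cons, add_mul]
      congr 1
      by_cases c1 : u.2.1 = i <;> by_cases c2 : u.2.2 = j <;> simp [c1, c2]
    simp only [e1, Finset.sum_add_distrib, Finset.sum_ite_eq, Finset.mem_range, h1, h2, if_true]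

/-- the dense encoding -/
noncomputable def co (m : ℕ) (E : List (List (((ℕ → ℝ) → ℝ) × ℕ × ℕ))) (k : ℕ) :
    (ℕ → ℝ) → ℝ := cf (E.getD (k / m / m) []) (k / m % m) (k % m)

theorem getD_mem {A : Type} (E : List (List A)) (k : ℕ) : E.getD k [] = [] ∨ E.getD k [] ∈ E := by
  by_cases h : k < E.length
  · right
    rw [List.getD_eq_getElem _ _ h]
    exact List.getElem_mem h
  · left
    exact List.getD_eq_default _ _ (not_lt.1 h)

theorem co_idx {m e i j : ℕ} (E : List (List (((ℕ → ℝ) → ℝ) × ℕ × ℕ))) (he : e < m) (hi : i < m)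
    (hj : j < m) (z : ℕ → ℝ) :
    ((List.range (m ^ 3)).map fun k => co m E k z).getD (e * m ^ 2 + i * m + j) 0 =
      cf (E.getD e []) i j z := by
  have hm : 0 < m := by omega
  have e1 : e * m ^ 2 + i * m + j = j + m * (i + m * e) := by ring
  have e2 : (j + m * (i + m * e)) / m = i + m * e := by
    rw [Nat.add_mul_div_left _ _ hm, Nat.div_eq_of_lt hj, zero_add]
  have e3 : (i + m * e) / m = e := by
    rw [Nat.add_mul_div_left _ _ hm, Nat.div_eq_of_lt hi, zero_add]
  have e4 : j + m * (i + m * e) < m ^ 3 := by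
    have a1 : i + m * e + 1 ≤ m * m := by nlinarith
    have a2 := Nat.mul_le_mul_left m a1
    nlinarith
  rw [e1, List.getD_eq_getElem _ _ (by simpa using e4), List.getElem_map, List.getElem_range, co,
    e2, e3, Nat.add_mul_mod_self_left, Nat.add_mul_mod_self_left, Nat.mod_eq_of_lt hi,
    Nat.mod_eq_of_lt hj]

theorem qps {S : Set ℝ} {n m : ℕ} {E : List (List (((ℕ → ℝ) → ℝ) × ℕ × ℕ))} (hE : Shape S n m E)
    (z : ℕ → ℝ) : ((List.range (m ^ 3)).map fun k => co m E k z) ∈ QPS ↔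
      ∃ ζ : ℕ → ℝ, ζ 0 = 1 ∧ Sat E z ζ := by
  have key : ∀ ζ : ℕ → ℝ, ∀ e < m, ∑ i ∈ Finset.range m, ∑ j ∈ Finset.range m,
      ((List.range (m ^ 3)).map fun k => co m E k z).getD (e * m ^ 2 + i * m + j) 0 * ζ i * ζ j =
      ((E.getD e []).map fun t => t.1 z * ζ t.2.1 * ζ t.2.2).sum := by
    intro ζ e he
    rw [← cf_sum m z ζ]
    · exact Finset.sum_congr rfl fun i hi => Finset.sum_congr rfl fun j hj => by
        rw [co_idx E he (Finset.mem_range.1 hi) (Finset.mem_range.1 hj)]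
    · rcases getD_mem E e with h | h
      · rw [h]
        simp
      · exact fun u hu => ((hE.2 _ h).2 u hu).2
  constructor
  · rintro ⟨m', ζ, h1, h2, h3⟩
    rw [List.length_map, List.length_range] at h1
    obtain rfl : m = m' := Nat.pow_left_injective (by norm_num) h1
    refine ⟨ζ, h2, fun e he => ?_⟩
    obtain ⟨k, hk, rfl⟩ := List.getElem_of_mem he
    have h4 := hk.trans_le hE.1
    rw [← List.getD_eq_getElem E [] hk, ← key ζ k h4]
    exact h3 k h4
  · rintro ⟨ζ, h2, h3⟩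
    refine ⟨m, ζ, by simp, h2, fun e he => ?_⟩
    rw [key ζ e he]
    rcases getD_mem E e with h | h
    · rw [h]
      simp
    · exact h3 _ h

/-- the constant part (`r = 0`) and the coefficient of the quantified real number `r - 1` -/
noncomputable def tr (n r : ℕ) (φ : (ℕ → ℝ) → ℝ) : (ℕ → ℝ) → ℝ :=
  if r = 0 then fun z => φ fun i => if i < n then z i else 0
  else fun _ => φ (fun i => if i = n + (r - 1) then 1 else 0) - φ fun _ => 0

theorem tr_co {S : Set ℝ} {n N : ℕ} (h0 : (0 : ℝ) ∈ S) (h1 : (1 : ℝ) ∈ S) (r : ℕ)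
    {φ : (ℕ → ℝ) → ℝ} (h : Co S N φ) : Co S n (tr n r φ) := by
  unfold tr
  rcases h with ⟨c, hc, rfl⟩ | ⟨i, -, rfl⟩
  · split_ifs
    · exact .inl ⟨c, hc, rfl⟩
    · exact .inl ⟨0, h0, by simp⟩
  · by_cases hr : r = 0
    · rw [if_pos hr]
      by_cases hi : i < n
      · exact .inr ⟨i, hi, by simp [hi]⟩
      · exact .inl ⟨0, h0, by simp [hi]⟩
    · rw [if_neg hr]
      by_cases hi : i = n + (r - 1)
      · exact .inl ⟨1, h1, by simp [hi]⟩
      · exact .inl ⟨0, h0, by simp [hi]⟩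

theorem tr_aff {S : Set ℝ} {n M : ℕ} {φ : (ℕ → ℝ) → ℝ} (h : Co S (n + M) φ) (x u : ℕ → ℝ) :
    φ (fun i => if i < n then x i else u (i - n)) =
      tr n 0 φ x + ∑ k ∈ Finset.range M, tr n (k + 1) φ x * u k := by
  rcases h with ⟨c, -, rfl⟩ | ⟨i, hi, rfl⟩
  · simp [tr]
  · by_cases hn : i < n
    · have : ∀ k, ¬ i = n + k := fun k => by omega
      simp [tr, hn, this]
    · obtain ⟨k, rfl⟩ := Nat.exists_eq_add_of_le (not_lt.1 hn)
      have : k < M := by omega
      simp [tr, this]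

noncomputable def mp (n r : ℕ) (e : List (((ℕ → ℝ) → ℝ) × ℕ × ℕ)) :
    List (((ℕ → ℝ) → ℝ) × ℕ × ℕ) := e.map fun t => (tr n r t.1, t.2)

theorem cf_aff {S : Set ℝ} {n M : ℕ} (i j : ℕ) (x u : ℕ → ℝ) (e : List (((ℕ → ℝ) → ℝ) × ℕ × ℕ))
    (he : ∀ t ∈ e, Co S (n + M) t.1) :
    cf e i j (fun i => if i < n then x i else u (i - n)) =
      cf (mp n 0 e) i j x + ∑ k ∈ Finset.range M, cf (mp n (k + 1) e) i j x * u k := by
  induction e with
  | nil => simp [cf, mp]
  | cons t e ih =>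
    have h1 := ih fun v hv => he v (List.mem_cons_of_mem _ hv)
    have h2 := tr_aff (he t List.mem_cons_self) x u
    simp only [cf, mp, List.map_cons, List.sum_cons] at h1 ⊢
    rw [h1]
    by_cases c : t.2.1 = i ∧ t.2.2 = j
    · simp only [if_pos c, add_mul, Finset.sum_add_distrib]
      rw [h2]
      ring
    · simp only [if_neg c, zero_add]

/-- the entries of the encoding -/
noncomputable def ent (n m : ℕ) (E : List (List (((ℕ → ℝ) → ℝ) × ℕ × ℕ))) (q : ℕ) :
    (ℕ → ℝ) → ℝ :=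
  cf (mp n (q % (2 * m + 1)) (E.getD (q / (2 * m + 1) / m / m) [])) (q / (2 * m + 1) / m % m)
    (q / (2 * m + 1) % m)

theorem row {S : Set ℝ} {n m : ℕ} {E : List (List (((ℕ → ℝ) → ℝ) × ℕ × ℕ))} (hE : Shape S n m E)
    (k : ℕ) : (E.getD k []).length ≤ 4 ∧ ∀ u ∈ E.getD k [], Co S n u.1 := by
  rcases getD_mem E k with h | h
  · rw [h]
    simp
  · exact ⟨(hE.2 _ h).1, fun u hu => ((hE.2 _ h).2 u hu).1⟩

theorem ent_gate {t : ℝ → Prop} {S : Set ℝ} {n n' m : ℕ} (h0 : (0 : ℝ) ∈ S) (h1 : (1 : ℝ) ∈ S)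
    {E : List (List (((ℕ → ℝ) → ℝ) × ℕ × ℕ))} (hE : Shape S n' m E) (N : ℕ) :
    ∃ l, Gates t S l ∧ (fun _ => (1 : ℝ)) ∈ l ∧ l.length ≤ 9 * N + 1 ∧
      ∀ k < N, ent n m E k ∈ l := by
  induction N with
  | zero => exact ⟨_, Gates.const 1 h1 Gates.nil, List.mem_cons_self, by simp, by simp⟩
  | succ N ih =>
    obtain ⟨l, g, o, n1, m1⟩ := ih
    have hs := row hE (N / (2 * m + 1) / m / m)
    obtain ⟨l1, g1, s1, n2, m2⟩ := cf_gate (n := n) h0 (N / (2 * m + 1) / m % m)
      (N / (2 * m + 1) % m) g (mp n (N % (2 * m + 1)) (E.getD (N / (2 * m + 1) / m / m) []))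
      (fun u hu => by
        obtain ⟨v, hv, rfl⟩ := List.mem_map.1 hu
        exact tr_co h0 h1 _ (hs.2 v hv))
    rw [mp, List.length_map] at n2
    refine ⟨l1, g1, s1 _ o, by have := hs.1; omega, fun k hk => ?_⟩
    rcases Nat.lt_succ_iff_lt_or_eq.1 hk with h | rfl
    · exact s1 _ (m1 k h)
    · exact m2

theorem ent_idx {n m p r : ℕ} (E : List (List (((ℕ → ℝ) → ℝ) × ℕ × ℕ))) (hp : p < m ^ 3)
    (hr : r < 2 * m + 1) (z : ℕ → ℝ) :
    ((List.range (m ^ 3 * (2 * m + 1))).map fun k => ent n m E k z).getD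
      (p * (2 * m + 1) + r) 0 = cf (mp n r (E.getD (p / m / m) [])) (p / m % m) (p % m) z := by
  have e1 : p * (2 * m + 1) + r = r + (2 * m + 1) * p := by ring
  have e2 : (r + (2 * m + 1) * p) / (2 * m + 1) = p := by
    rw [Nat.add_mul_div_left _ _ (by omega), Nat.div_eq_of_lt hr, zero_add]
  have e4 : r + (2 * m + 1) * p < m ^ 3 * (2 * m + 1) := by
    have a2 := Nat.mul_le_mul_left (2 * m + 1) (Nat.succ_le_of_lt hp)
    rw [Nat.mul_succ] at a2
    rw [mul_comm (m ^ 3)]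
    omega
  rw [e1, List.getD_eq_getElem _ _ (by simpa using e4), List.getElem_map, List.getElem_range, ent,
    e2, Nat.add_mul_mod_self_left, Nat.mod_eq_of_lt hr]

theorem inj {m m' : ℕ} (h : m ^ 3 * (2 * m + 1) = m' ^ 3 * (2 * m' + 1)) : m = m' := by
  have mono : StrictMono fun m : ℕ => m ^ 3 * (2 * m + 1) := fun a b hab =>
    Nat.mul_lt_mul_of_lt_of_le (Nat.pow_lt_pow_left hab (by norm_num)) (by omega) (by omega)
  exact mono.injective h

theorem qq {S : Set ℝ} {n m : ℕ} {E : List (List (((ℕ → ℝ) → ℝ) × ℕ × ℕ))}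
    (hE : Shape S (n + 2 * m) m E) (x : ℕ → ℝ) :
    ((List.range (m ^ 3 * (2 * m + 1))).map fun k => ent n m E k x) ∈ QQ ↔
      Alt m fun u => ∃ ζ : ℕ → ℝ, ζ 0 = 1 ∧
        Sat E (fun i => if i < n then x i else u (i - n)) ζ := by
  have key : (fun u : ℕ → ℝ => (List.ofFn fun p : Fin (m ^ 3) =>
      ((List.range (m ^ 3 * (2 * m + 1))).map fun k => ent n m E k x).getD (p * (2 * m + 1)) 0 +
      ∑ k ∈ Finset.range (2 * m), ((List.range (m ^ 3 * (2 * m + 1))).map
        fun k => ent n m E k x).getD (p * (2 * m + 1) + (k + 1)) 0 * u k) ∈ QPS) =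
      fun u => ∃ ζ : ℕ → ℝ, ζ 0 = 1 ∧ Sat E (fun i => if i < n then x i else u (i - n)) ζ := by
    funext u
    rw [← qps hE]
    refine congrArg (fun y => y ∈ QPS) (List.ext_getElem (by simp) fun p h1 _ => ?_)
    have hp : p < m ^ 3 := by simpa using h1
    rw [List.getElem_ofFn, List.getElem_map, List.getElem_range, co,
      cf_aff _ _ x u _ (row hE (p / m / m)).2]
    have a0 := ent_idx (n := n) (r := 0) E hp (by omega) x
    rw [add_zero] at a0
    exact congrArg₂ (fun a b => a + b) a0 (Finset.sum_congr rfl fun k hk => by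
      rw [ent_idx E hp (by have := Finset.mem_range.1 hk; omega) x])
  constructor
  · rintro ⟨m', h1, h2⟩
    rw [List.length_map, List.length_range] at h1
    obtain rfl : m = m' := inj h1
    rwa [key] at h2
  · intro h
    exact ⟨m, by simp, by rwa [key]⟩

end pproj31

theorem pproj : PPROJ := by
  intro L S c h0 h1 h
  choose m E hm hE hL using h
  refine ⟨fun x => (List.range (m x.length ^ 3 * (2 * m x.length + 1))).map fun k =>
    pproj31.ent x.length (m x.length) (E x.length) k fun i => x.getD i 0,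
    ⟨S, 4 * c + 5, fun n => ?_⟩, fun x => ?_⟩
  · obtain ⟨l, g, o, n1, m1⟩ := pproj31.ent_gate (t := fun a => a ≠ 0) (n := n)
      (Finset.mem_coe.2 h0) (Finset.mem_coe.2 h1) (hE n) (m n ^ 3 * (2 * m n + 1))
    have b0 : 0 < (n + 2) ^ c := by positivity
    have b1 : m n ^ 3 * (2 * m n + 1) ≤ ((n + 2) ^ c) ^ 3 * (3 * (n + 2) ^ c) :=
      Nat.mul_le_mul (Nat.pow_le_pow_left (hm n) 3) (by have := hm n; omega)
    have b2 : 2 ^ 5 ≤ (n + 2) ^ 5 := Nat.pow_le_pow_left (by omega) 5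
    have b3 : 0 < ((n + 2) ^ c) ^ 4 := by positivity
    have b5 : ((n + 2) ^ c) ^ 3 * (3 * (n + 2) ^ c) = 3 * ((n + 2) ^ c) ^ 4 := by ring
    have b4 : 9 * (m n ^ 3 * (2 * m n + 1)) + 1 ≤ (n + 2) ^ (4 * c + 5) := by
      rw [pow_add, mul_comm 4 c, pow_mul]
      have := Nat.mul_le_mul_left (((n + 2) ^ c) ^ 4) b2
      omega
    refine ⟨l, (List.range (m n ^ 3 * (2 * m n + 1))).map
      fun k => (fun _ => 1, pproj31.ent n (m n) (E n) k), g, n1.trans b4, ?_, ?_, ?_⟩
    · rw [List.length_map, List.length_range]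
      omega
    · intro p hp
      obtain ⟨k, hk, rfl⟩ := List.mem_map.1 hp
      exact ⟨o, m1 k (List.mem_range.1 hk)⟩
    · rintro x rfl
      rw [outputs, List.filter_eq_self.2, List.map_map]
      · rfl
      · intro p hp
        obtain ⟨k, -, rfl⟩ := List.mem_map.1 hp
        simp
  · rw [pproj31.qq (hE x.length), hL x.length x rfl]

end Pool.Agent.MP_8a92de_lc.E43

end Row_pproj

section Row_pmem
namespace Pool.Agent.MP_8a92de_lc.E43

namespace Pmem

variable {t : ℝ → Prop} {S : Set ℝ}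

/-- `φ` can be added to any circuit with at most `k` new gates. -/
def Cost (t : ℝ → Prop) (S : Set ℝ) (k : ℕ) (φ : (ℕ → ℝ) → ℝ) : Prop :=
  ∀ l, Gates t S l → ∃ l', Gates t S l' ∧ (∀ a ∈ l, a ∈ l') ∧ l'.length ≤ l.length + k ∧ φ ∈ l'

theorem cons {l : List ((ℕ → ℝ) → ℝ)} (φ : (ℕ → ℝ) → ℝ) : ∀ a ∈ l, a ∈ φ :: l :=
  fun _ h => List.mem_cons_of_mem _ h

theorem Cost.const {c : ℝ} (hc : c ∈ S) : Cost t S 1 fun _ => c :=
  fun _ hl => ⟨_, Gates.const c hc hl, cons _, by simp, List.mem_cons_self⟩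

theorem Cost.var (i : ℕ) : Cost t S 1 fun z => z i :=
  fun _ hl => ⟨_, Gates.var i hl, cons _, by simp, List.mem_cons_self⟩

theorem Cost.mono {k k' : ℕ} {φ : (ℕ → ℝ) → ℝ} (h : Cost t S k φ) (hk : k ≤ k') :
    Cost t S k' φ := fun l hl => by
  obtain ⟨l', h1, h2, h3, h4⟩ := h l hl
  exact ⟨l', h1, h2, by omega, h4⟩

theorem Cost.add {k k' : ℕ} {φ ψ : (ℕ → ℝ) → ℝ} (h : Cost t S k φ) (h' : Cost t S k' ψ) :
    Cost t S (k + k' + 1) fun z => φ z + ψ z := fun l hl => by
  obtain ⟨l1, a1, a2, a3, a4⟩ := h l hl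
  obtain ⟨l2, b1, b2, b3, b4⟩ := h' l1 a1
  exact ⟨_, Gates.add b1 (b2 _ a4) b4, fun a ha => cons _ a (b2 a (a2 a ha)),
    by rw [List.length_cons]; omega, List.mem_cons_self⟩

theorem Cost.mul {k k' : ℕ} {φ ψ : (ℕ → ℝ) → ℝ} (h : Cost t S k φ) (h' : Cost t S k' ψ) :
    Cost t S (k + k' + 1) fun z => φ z * ψ z := fun l hl => by
  obtain ⟨l1, a1, a2, a3, a4⟩ := h l hl
  obtain ⟨l2, b1, b2, b3, b4⟩ := h' l1 a1
  exact ⟨_, Gates.mul b1 (b2 _ a4) b4, fun a ha => cons _ a (b2 a (a2 a ha)),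
    by rw [List.length_cons]; omega, List.mem_cons_self⟩

open Classical in
theorem Cost.sel {k k' k'' : ℕ} {φ ψ ρ : (ℕ → ℝ) → ℝ} (h : Cost t S k φ) (h' : Cost t S k' ψ)
    (h'' : Cost t S k'' ρ) :
    Cost t S (k + k' + k'' + 1) fun z => if t (φ z) then ψ z else ρ z := fun l hl => by
  obtain ⟨l1, a1, a2, a3, a4⟩ := h l hl
  obtain ⟨l2, b1, b2, b3, b4⟩ := h' l1 a1
  obtain ⟨l3, c1, c2, c3, c4⟩ := h'' l2 b1
  exact ⟨_, Gates.sel c1 (c2 _ (b2 _ a4)) (c2 _ b4) c4,
    fun a ha => cons _ a (c2 a (b2 a (a2 a ha))), by rw [List.length_cons]; omega,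
    List.mem_cons_self⟩

theorem Cost.sum (h0 : (0 : ℝ) ∈ S) {k : ℕ} {φ : ℕ → (ℕ → ℝ) → ℝ} (h : ∀ i, Cost t S k (φ i))
    (N : ℕ) : Cost t S (N * (k + 1) + 1) fun z => ∑ i ∈ Finset.range N, φ i z := by
  induction N with
  | zero => simpa using Cost.const (t := t) h0
  | succ N ih =>
    simp only [Finset.sum_range_succ]
    exact (ih.add (h N)).mono (le_of_eq (by ring))

theorem idx {m e i j : ℕ} (he : e < m) (hi : i < m) (hj : j < m) :
    e * m ^ 2 + i * m + j < m ^ 3 := by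
  have h1 : (i + 1) * m ≤ m * m := Nat.mul_le_mul_right m hi
  have h2 : (e + 1) * m ^ 2 ≤ m * m ^ 2 := Nat.mul_le_mul_right _ he
  nlinarith

/-- the witness, with `1` in position `0` -/
def one (ζ : ℕ → ℝ) (i : ℕ) : ℝ := if i = 0 then 1 else ζ i

/-- the coefficient number `p` -/
def co (m : ℕ) (y u : ℕ → ℝ) (p : ℕ) : ℝ :=
  y (p * (2 * m + 1)) + ∑ k ∈ Finset.range (2 * m), y (p * (2 * m + 1) + (k + 1)) * u k

def eqn (m : ℕ) (y u ζ : ℕ → ℝ) (e : ℕ) : ℝ := ∑ i ∈ Finset.range m, ∑ j ∈ Finset.range m,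
  co m y u (e * m ^ 2 + i * m + j) * one ζ i * one ζ j

theorem eqn_congr {m e : ℕ} {y y' u u' ζ ζ' : ℕ → ℝ} (he : e < m)
    (hy : ∀ i < m ^ 3 * (2 * m + 1), y i = y' i) (hu : ∀ i < 2 * m, u i = u' i)
    (hζ : ∀ i < m, ζ i = ζ' i) : eqn m y u ζ e = eqn m y' u' ζ' e := by
  refine Finset.sum_congr rfl fun i hi => Finset.sum_congr rfl fun j hj => ?_
  rw [Finset.mem_range] at hi hj
  have h1 : (e * m ^ 2 + i * m + j + 1) * (2 * m + 1) ≤ m ^ 3 * (2 * m + 1) :=
    Nat.mul_le_mul_right _ (idx he hi hj)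
  rw [add_mul _ 1, one_mul] at h1
  unfold co one
  rw [hζ i hi, hζ j hj, hy _ (by omega), Finset.sum_congr rfl fun k hk => by
    rw [hy _ (by have := Finset.mem_range.1 hk; omega), hu k (Finset.mem_range.1 hk)]]

theorem cost_eqn (h0 : (0 : ℝ) ∈ S) (h1 : (1 : ℝ) ∈ S) (n m e : ℕ) :
    Cost t S (m * (m * (1 + (2 * m * (1 + 1 + 1 + 1) + 1) + 1 + 1 + 1 + 1 + 1 + 1) + 1 + 1) + 1)
      fun z => eqn m z (fun k => z (n + k)) (fun i => z (n + (2 * m + 2 * i))) e := by
  have hz : ∀ i, Cost t S 1 fun z => one (fun i => z (n + (2 * m + 2 * i))) i := by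
    intro i
    unfold one
    split_ifs
    · exact Cost.const h1
    · exact Cost.var _
  exact Cost.sum h0 (fun i => Cost.sum h0 (fun j => (((Cost.var _).add
    (Cost.sum h0 (fun k => (Cost.var _).mul (Cost.var _)) (2 * m))).mul (hz i)).mul (hz j)) m) m

theorem qps (m : ℕ) (y u : ℕ → ℝ) :
    (List.ofFn fun p : Fin (m ^ 3) => co m y u p) ∈ QPS ↔ ∃ ζ, ∀ e < m, eqn m y u ζ e = 0 := by
  have hg : ∀ p < m ^ 3, (List.ofFn fun p : Fin (m ^ 3) => co m y u p).getD p 0 = co m y u p := by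
    intro p hp
    rw [List.getD_eq_getElem _ _ (by simpa using hp), List.getElem_ofFn]
  constructor
  · rintro ⟨m', ζ, e1, e2, e3⟩
    rw [List.length_ofFn] at e1
    obtain rfl : m = m' := Nat.pow_left_injective (by norm_num) e1
    have : ∀ i, one ζ i = ζ i := fun i => by
      unfold one
      split_ifs with h
      · rw [h, e2]
      · rfl
    refine ⟨ζ, fun e he => Eq.trans ?_ (e3 e he)⟩
    refine Finset.sum_congr rfl fun i hi => Finset.sum_congr rfl fun j hj => ?_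
    rw [hg _ (idx he (Finset.mem_range.1 hi) (Finset.mem_range.1 hj)), this, this]
  · rintro ⟨ζ, h⟩
    refine ⟨m, one ζ, List.length_ofFn, if_pos rfl, fun e he => Eq.trans ?_ (h e he)⟩
    refine Finset.sum_congr rfl fun i hi => Finset.sum_congr rfl fun j hj => ?_
    rw [hg _ (idx he (Finset.mem_range.1 hi) (Finset.mem_range.1 hj))]

theorem inj {m m' : ℕ} (h : m ^ 3 * (2 * m + 1) = m' ^ 3 * (2 * m' + 1)) : m = m' := by
  have hs : StrictMono fun m : ℕ => m ^ 3 * (2 * m + 1) := fun a b hab =>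
    Nat.mul_lt_mul_of_lt_of_le (Nat.pow_lt_pow_left hab (by norm_num)) (by omega) (by omega)
  exact hs.injective h

open Classical in
theorem sel_pos (m : ℕ) (f : ℕ → ℝ) :
    (0 : ℝ) < (if 0 < ∑ e ∈ Finset.range m, f e * f e then 0 else 1) ↔ ∀ e < m, f e = 0 := by
  constructor
  · intro h e he
    split_ifs at h with h'
    · exact absurd h (lt_irrefl _)
    · have := Finset.single_le_sum (f := fun e => f e * f e)
        (fun e _ => mul_self_nonneg _) (Finset.mem_range.2 he)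
      exact mul_self_eq_zero.1 (le_antisymm (this.trans (not_lt.1 h')) (mul_self_nonneg _))
  · intro h
    rw [Finset.sum_eq_zero fun e he => by rw [h e (Finset.mem_range.1 he), mul_zero],
      if_neg (lt_irrefl _)]
    exact one_pos

end Pmem

open Pmem in
theorem pmem (h : ALTEX) : PMEM := by
  classical
  refine ⟨{0, 1}, 4, fun n => ?_⟩
  have h0 : (0 : ℝ) ∈ ((({0, 1} : Finset ℝ)) : Set ℝ) := by simp
  have h1 : (1 : ℝ) ∈ ((({0, 1} : Finset ℝ)) : Set ℝ) := by simp
  by_cases hn : ∃ m, n = m ^ 3 * (2 * m + 1)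
  · obtain ⟨m, hm⟩ := hn
    obtain ⟨l, a1, -, a3, a4⟩ := Cost.sel (t := fun r => 0 < r)
      (Cost.sum h0 (fun e => (cost_eqn h0 h1 n m e).mul (cost_eqn h0 h1 n m e)) m)
      (Cost.const h0) (Cost.const h1) [] Gates.nil
    have b1 : m ≤ m ^ 3 := Nat.le_self_pow (by norm_num) m
    have b2 : m ^ 2 ≤ m ^ 3 := by
      rcases Nat.eq_zero_or_pos m with h | h
      · simp [h]
      · exact Nat.pow_le_pow_right h (by norm_num)
    have b3 : 32 * n + 16 ≤ (n + 2) ^ 4 := by
      nlinarith [Nat.zero_le (n ^ 2), Nat.zero_le (n ^ 3), Nat.zero_le (n ^ 4)]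
    have b4 : n = 2 * m ^ 4 + m ^ 3 := by rw [hm]; ring
    refine ⟨l, _, m + m, a1, a3.trans ?_, by omega, a4, fun x hx => ?_⟩
    · rw [List.length_nil]
      refine le_trans (le_of_eq (?_ : _ = 16 * m ^ 4 + 16 * m ^ 3 + 4 * m ^ 2 + 4 * m + 4)) ?_
      · ring
      · omega
    have e1 : x ∈ QQ ↔ Alt m fun u => ∃ ζ, ∀ e < m, eqn m (fun i => x.getD i 0) u ζ e = 0 := by
      simp only [← qps]
      constructor
      · rintro ⟨m', e, h'⟩
        obtain rfl : m = m' := inj (hm.symm.trans (hx.symm.trans e))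
        exact h'
      · exact fun h' => ⟨m, hx.trans hm, h'⟩
    rw [e1, h m m (fun u ζ => ∀ e < m, eqn m (fun i => x.getD i 0) u ζ e = 0)
      fun u u' ζ ζ' hu hζ h' e he => (eqn_congr he (fun _ _ => rfl) hu hζ).symm.trans (h' e he)]
    refine iff_of_eq (congrArg (Alt (m + m)) (funext fun u => propext ?_))
    refine Iff.trans ?_ (sel_pos m _).symm
    refine forall₂_congr fun e he => iff_of_eq (congrArg (· = 0) (eqn_congr he ?_ ?_ ?_))
    · exact fun i hi => (if_pos (hm ▸ hi)).symm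
    · intro i _
      beta_reduce
      rw [if_neg (by omega), Nat.add_sub_cancel_left]
    · intro i _
      beta_reduce
      rw [if_neg (by omega), Nat.add_sub_cancel_left]
  · refine ⟨[fun _ => 0], fun _ => 0, 0, Gates.const 0 h0 Gates.nil,
      Nat.one_le_pow _ _ (by omega), Nat.zero_le _, List.mem_cons_self, fun x hx => ⟨?_, ?_⟩⟩
    · rintro ⟨m, e1, -⟩
      exact absurd ⟨m, hx.symm.trans e1⟩ hn
    · exact fun h' => absurd h' (lt_irrefl (0 : ℝ))

end Pool.Agent.MP_8a92de_lc.E43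

end Row_pmem
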