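import Pool.Agent.MP_8a92de_lc.E43.Final
import Pool.Agent.MP_8a92de_lc.E43.IRows
import Pool.Agent.MP_8a92de_lc.E43.PRows

namespace Pool.Agent.MP_8a92de_lc.E43

/-- complete for `C` under many-one reductions by equality circuits -/
def Complete (C : Set (Set (List ℝ))) (B : Set (List ℝ)) : Prop :=
  B ∈ C ∧ ∀ L ∈ C, ∃ f, Poly (fun a => a ≠ 0) f ∧ ∀ x, x ∈ L ↔ f x ∈ B

theorem np_closed : CLOSE := close subst' selectx

theorem np_complete : Complete NP QPS := ⟨memx, hard quad proj⟩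

theorem pat_closed : PCLOSE := pclose subst' selectx altpad

theorem pat_complete : Complete PAT QQ :=
  ⟨pmem altex, fun L hL =>
    let ⟨S, c, h0, h1, h⟩ := pnf subst' quad altpad L hL
    pproj L S c h0 h1 h⟩

theorem nil_mem_QPS : [] ∈ QPS := ⟨0, fun _ => 1, by simp, rfl, by simp⟩

theorem one_notMem_QPS : [1] ∉ QPS := by
  rintro ⟨m, ζ, hm, h0, h⟩
  have : m = 1 := (Nat.pow_eq_one.1 hm.symm).resolve_right (by norm_num)
  subst this
  simpa [h0] using h 0 one_pos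

theorem np_sub_nontrivial : ∃ L ∈ PAT, (∃ x, x ∈ L) ∧ ∃ x, x ∉ L := by
  refine ⟨{x | 0 < x.getD 0 0}, ⟨∅, 0, fun n => ?_⟩, ⟨[1], by simp⟩, ⟨[], by simp⟩⟩
  refine ⟨[fun z => z 0], fun z => z 0, 0, .var 0 .nil, by simp, by simp, by simp, fun x hx => ?_⟩
  rcases x with _ | ⟨a, x⟩ <;> simp [Alt, ← hx]

theorem one_degree {C : Set (Set (List ℝ))}
    (hC : ∀ L ∈ C, ∀ L' : Set (List ℝ),
      (∃ f, Poly (fun a => 0 < a) f ∧ ∀ x, x ∈ L' ↔ f x ∈ L) → L' ∈ C)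
    (hL : ∃ L ∈ C, (∃ x, x ∈ L) ∧ ∃ x, x ∉ L) {B B' : Set (List ℝ)} (hB : Complete C B)
    (hB' : Complete C B') :
    ∃ f, Poly (fun a => a ≠ 0) f ∧ Function.Injective f ∧ (∀ x, x.length < (f x).length) ∧
      ∀ x, x ∈ B ↔ f x ∈ B' := by
  obtain ⟨L, hL, ⟨x, hx⟩, ⟨y, hy⟩⟩ := hL
  obtain ⟨f, -, hf⟩ := hB.2 L hL
  exact Pool.Agent.MP_8a92de_lc.E43.Final.result C hC B' hB'.2 B hB.1
    ⟨_, (hf x).1 hx⟩ ⟨_, fun h => hy ((hf y).2 h)⟩

/-- `NP` and `PAT` have complete sets, and these form a single 1-degree -/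
theorem inst (C : Set (Set (List ℝ))) (h : C = NP ∨ C = PAT) :
    (∃ B, Complete C B) ∧ ∀ B B', Complete C B → Complete C B' →
      ∃ f, Poly (fun a => a ≠ 0) f ∧ Function.Injective f ∧ (∀ x, x.length < (f x).length) ∧
        ∀ x, x ∈ B ↔ f x ∈ B' := by
  rcases h with rfl | rfl
  · exact ⟨⟨_, np_complete⟩, fun _ _ => one_degree np_closed
      ⟨_, memx, ⟨_, nil_mem_QPS⟩, ⟨_, one_notMem_QPS⟩⟩⟩
  · exact ⟨⟨_, pat_complete⟩, fun _ _ => one_degree pat_closed np_sub_nontrivial⟩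

end Pool.Agent.MP_8a92de_lc.E43
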