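import Pool.Agent.MP_8a92de_lc.E43.IDefs

namespace Pool.Agent.MP_8a92de_lc.E43

/-- `k` rounds of alternating real quantifiers `∃ u 0, ∀ u 1, ∃ u 2, ...`; the rest of `u` is 0 -/
def Alt : ℕ → ((ℕ → ℝ) → Prop) → Prop
  | 0, φ => φ fun _ => 0
  | k + 1, φ => ∃ r : ℝ, ∀ s : ℝ,
      Alt k fun u => φ fun i => if i = 0 then r else if i = 1 then s else u (i - 2)

/-- alternating polynomial time over the ordered reals, with Boolean advice -/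
def PAT : Set (Set (List ℝ)) :=
  {L | ∃ (S : Finset ℝ) (c : ℕ), ∀ n : ℕ, ∃ (l : List ((ℕ → ℝ) → ℝ)) (a : (ℕ → ℝ) → ℝ) (k : ℕ),
    Gates (fun r => 0 < r) (S : Set ℝ) l ∧ l.length ≤ (n + 2) ^ c ∧ k ≤ (n + 2) ^ c ∧ a ∈ l ∧
    ∀ x : List ℝ, x.length = n →
      (x ∈ L ↔ Alt k fun u => 0 < a fun i => if i < n then x.getD i 0 else u (i - n))}

/-- quantified quadratic feasibility: the coefficients are affine in the quantified reals -/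
def QQ : Set (List ℝ) :=
  {y | ∃ m : ℕ, y.length = m ^ 3 * (2 * m + 1) ∧ Alt m fun u =>
    (List.ofFn fun p : Fin (m ^ 3) => y.getD (p * (2 * m + 1)) 0 +
      ∑ k ∈ Finset.range (2 * m), y.getD (p * (2 * m + 1) + (k + 1)) 0 * u k) ∈ QPS}

/-- only the first `2 * k` entries matter, and dummy rounds -/
def ALTPAD : Prop := ∀ (k k' : ℕ) (φ : (ℕ → ℝ) → Prop), k ≤ k' →
  (Alt k φ ↔ Alt k' fun u => φ fun i => if i < 2 * k then u i else 0)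

/-- a block of existential quantifiers after `k` rounds -/
def ALTEX : Prop := ∀ (k m : ℕ) (φ : (ℕ → ℝ) → (ℕ → ℝ) → Prop),
  (∀ u u' ζ ζ', (∀ i < 2 * k, u i = u' i) → (∀ i < m, ζ i = ζ' i) → φ u ζ → φ u' ζ') →
  ((Alt k fun u => ∃ ζ, φ u ζ) ↔ Alt (k + m) fun u => φ u fun i => u (2 * k + 2 * i))

/-- uses SUBST, SELECT, ALTPAD -/
def PCLOSE : Prop := ∀ L ∈ PAT, ∀ L' : Set (List ℝ),
  (∃ f, Poly (fun a => 0 < a) f ∧ ∀ x, x ∈ L' ↔ f x ∈ L) → L' ∈ PAT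

/-- normal form; uses SUBST, QUAD, ALTPAD -/
def PNF : Prop := ∀ L ∈ PAT, ∃ (S : Finset ℝ) (c : ℕ), (0 : ℝ) ∈ S ∧ (1 : ℝ) ∈ S ∧
  ∀ n : ℕ, ∃ (m : ℕ) (E : List (List (((ℕ → ℝ) → ℝ) × ℕ × ℕ))), m ≤ (n + 2) ^ c ∧
    Shape (S : Set ℝ) (n + 2 * m) m E ∧ ∀ x : List ℝ, x.length = n →
      (x ∈ L ↔ Alt m fun u => ∃ ζ : ℕ → ℝ, ζ 0 = 1 ∧
        Sat E (fun i => if i < n then x.getD i 0 else u (i - n)) ζ)

def PPROJ : Prop := ∀ (L : Set (List ℝ)) (S : Finset ℝ) (c : ℕ), (0 : ℝ) ∈ S → (1 : ℝ) ∈ S →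
  (∀ n : ℕ, ∃ (m : ℕ) (E : List (List (((ℕ → ℝ) → ℝ) × ℕ × ℕ))), m ≤ (n + 2) ^ c ∧
    Shape (S : Set ℝ) (n + 2 * m) m E ∧ ∀ x : List ℝ, x.length = n →
      (x ∈ L ↔ Alt m fun u => ∃ ζ : ℕ → ℝ, ζ 0 = 1 ∧
        Sat E (fun i => if i < n then x.getD i 0 else u (i - n)) ζ)) →
  ∃ f, Poly (fun a => a ≠ 0) f ∧ ∀ x, x ∈ L ↔ f x ∈ QQ

/-- uses ALTEX -/
def PMEM : Prop := QQ ∈ PAT

end Pool.Agent.MP_8a92de_lc.E43
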