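import Pool.Agent.MP_8a92de_lc.E43.Base

namespace Pool.Agent.MP_8a92de_lc.E43

open MvPolynomial Filter Topology

/-! ### circuits -/

/-- from degree-free circuits to gates with formal degrees -/
def TODEG : Prop := ∀ (t : ℝ → Prop) (f : List ℝ → List ℝ), Poly t f →
  ∃ (S : Finset ℝ) (c : ℕ), ∀ n : ℕ, ∃ (l : List (Node ℝ)) (out : List (Node ℝ × Node ℝ)),
    Ok t (S : Set ℝ) (2 ^ (n + 2) ^ c) l ∧ l.length ≤ (n + 2) ^ c ∧ out.length ≤ (n + 2) ^ c ∧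
    (∀ o ∈ out, o.1 ∈ l ∧ o.2 ∈ l) ∧ ∀ y : Fin n → ℝ, f (List.ofFn y) = outList t out (ex y)

def FROMDEG : Prop := ∀ (t : ℝ → Prop) (f : List ℝ → List ℝ) (S : Finset ℝ) (c : ℕ),
  (∀ n : ℕ, ∃ (l : List (Node ℝ)) (out : List (Node ℝ × Node ℝ)),
    Built t (S : Set ℝ) l ∧ l.length ≤ (n + 2) ^ c ∧ out.length ≤ (n + 2) ^ c ∧
    (∀ o ∈ out, o.1 ∈ l ∧ o.2 ∈ l) ∧ ∀ y : Fin n → ℝ, f (List.ofFn y) = outList t out (ex y)) →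
  Poly t f

def COMP : Prop := ∀ (K : Type) [Field K] (τ : K → Prop) (A : Set K) (n N D : ℕ)
  (l0 l' : List (Node K)) (Y : Fin N → (Fin n → K) → K), Un A → Ok τ A D l0 → Ok τ A D l' →
  (∀ i, Has n l0 (Y i) 1) →
  ∃ l1, Ext τ A D (l'.length + 1) l0 l1 ∧ ∀ a ∈ l', ∃ b ∈ l1,
    (∀ x : Fin n → K, b.val (ex x) = a.val (ex fun i => Y i x)) ∧ b.num ≤ a.num ∧ b.den ≤ a.den

def REP0 : Prop := ∀ (K : Type) [Field K] (τ : K → Prop) (A : Set K) (K0 : Subfield K) (N d : ℕ)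
  (l' : List (Node K)), Un A → Ok τ A (2 * d) l' →
  (∀ c ∈ K0, c ∈ A → ∃ l'', Ext τ A (2 * d) (20 * (N + 1)) l' l'' ∧
    Rep K0 N d l'' ⟨fun _ => c, 0, 0⟩) ∧
  (1 ≤ d → ∀ i : ℕ, ∃ l'', Ext τ A (2 * d) (20 * (N + 1)) l' l'' ∧
    Rep K0 N d l'' ⟨fun z => z i, 1, 0⟩)

def REPadd : Prop := ∀ (K : Type) [Field K] (τ : K → Prop) (A : Set K) (K0 : Subfield K)
  (N d : ℕ) (l' : List (Node K)) (a b : Node K), Un A → Ok τ A (2 * d) l' → Rep K0 N d l' a →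
  Rep K0 N d l' b → max (a.num + b.den) (b.num + a.den) ≤ d → a.den + b.den ≤ d →
  ∃ l'', Ext τ A (2 * d) (20 * (N + 1)) l' l'' ∧ Rep K0 N d l''
    ⟨fun z => a.val z + b.val z, max (a.num + b.den) (b.num + a.den), a.den + b.den⟩

def REPmul : Prop := ∀ (K : Type) [Field K] (τ : K → Prop) (A : Set K) (K0 : Subfield K)
  (N d : ℕ) (l' : List (Node K)) (a b : Node K), Un A → Ok τ A (2 * d) l' → Rep K0 N d l' a →
  Rep K0 N d l' b → a.num + b.num ≤ d → a.den + b.den ≤ d →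
  ∃ l'', Ext τ A (2 * d) (20 * (N + 1)) l' l'' ∧ Rep K0 N d l''
    ⟨fun z => a.val z * b.val z, a.num + b.num, a.den + b.den⟩

def REPdiv : Prop := ∀ (K : Type) [Field K] (τ : K → Prop) (A : Set K) (K0 : Subfield K)
  (N d : ℕ) (l' : List (Node K)) (a b : Node K), (∀ a, τ a ↔ a ≠ 0) → Un A →
  Ok τ A (2 * d) l' → Rep K0 N d l' a → Rep K0 N d l' b → a.num + b.den ≤ d →
  a.den + b.num ≤ d →
  ∃ l'', Ext τ A (2 * d) (20 * (N + 1)) l' l'' ∧ Rep K0 N d l''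
    ⟨fun z => a.val z / b.val z, a.num + b.den, a.den + b.num⟩

open Classical in
def REPsel : Prop := ∀ (K : Type) [Field K] (τ : K → Prop) (A : Set K) (K0 : Subfield K)
  (N d : ℕ) (l' : List (Node K)) (a b c : Node K), (∀ a, τ a ↔ a ≠ 0) → Un A →
  Ok τ A (2 * d) l' → a ∈ l' → a.num ≤ d → Rep K0 N d l' a → Rep K0 N d l' b →
  Rep K0 N d l' c → max b.num c.num ≤ d → max b.den c.den ≤ d →
  ∃ l'', Ext τ A (2 * d) (20 * (N + 1)) l' l'' ∧ Rep K0 N d l''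
    ⟨fun z => if τ (a.val z) then b.val z else c.val z, max b.num c.num, max b.den c.den⟩

def LOC : Prop := ∀ (K : Type) [Field K] (τ : K → Prop) (A : Set K) (K0 : Subfield K)
  (N r m d : ℕ) (col : Fin r → Fin N) (l : List (Node K)) (g : Fin m → Node K),
  (∀ a, τ a ↔ a ≠ 0) → Un A → A ⊆ (K0 : Set K) → r ≤ N → Ok τ A d l → (∀ a, g a ∈ l) →
  ∃ P Q : (Fin N → K) → Fin m → MvPolynomial (Fin N) K0,
    IsLoc K0 d (fun a y => (g a).val (ex y)) P Q ∧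
    ∃ l', Ok τ A (2 * d) l' ∧ l'.length ≤ 21 * (N + 1) * (l.length + m) ∧
      ∀ a i, Has N l' (fun y => aeval y (jac col (P y) (Q y) a i)) (2 * d)

def FL : Prop := ∀ (K : Type) [Field K] [CharZero K] (s : ℕ)
  (M : Matrix (Fin (s + 1)) (Fin (s + 1)) K),
  M.det = (-1) ^ s * ((((s + 1 : ℕ) : K))⁻¹ * (M * flN M s).trace)

def DET : Prop := ∀ (K : Type) [Field K] [CharZero K] (τ : K → Prop) (A : Set K) (n r D e : ℕ)
  (l : List (Node K)) (M : (Fin n → K) → Matrix (Fin r) (Fin r) K), Un A →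
  (∀ k : ℕ, k ≤ r → ((k : K))⁻¹ ∈ A) → Ok τ A D l →
  (∀ a b, Has n l (fun x => M x a b) e) → r * e ≤ D →
  ∃ l', Ext τ A D (20 * (r + 1) ^ 4) l l' ∧ Has n l' (fun x => (M x).det) (r * e)

def SEL : Prop := ∀ (K : Type) [Field K] (τ : K → Prop) (A : Set K) (n N k D e : ℕ)
  (l : List (Node K)) (δ : Fin k → (Fin n → K) → K) (Y : Fin k → (Fin n → K) → Fin N → K),
  (∀ a, τ (a * a) ↔ a ≠ 0) → Un A → Ok τ A D l → (∀ j, Has n l (δ j) e) →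
  (∀ j i, Has n l (fun x => Y j x i) 1) → 2 * e ≤ D → 1 ≤ D →
  ∃ (l' : List (Node K)) (W : (Fin n → K) → Fin N → K), Ext τ A D ((k + 1) * (N + 1)) l l' ∧
    (∀ i, Has n l' (fun x => W x i) 1) ∧
    ∀ x, (∃ j, δ j x ≠ 0) → ∃ j, δ j x ≠ 0 ∧ W x = Y j x

/-- uses COMP, DET, SEL; `D` bounds degrees, `X` bounds sizes -/
def FIN : Prop := ∀ (K : Type) [Field K] [CharZero K] (τ : K → Prop) (A : Set K)
  (n N r m k X D e : ℕ) (l0 l l' : List (Node K)) (out : List (Node K × Node K))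
  (J : (Fin N → K) → Matrix (Fin m) (Fin r) K) (R : Fin k → Matrix (Fin r) (Fin m) K)
  (Y : Fin k → (Fin n → K) → Fin N → K),
  (∀ a, τ (a * a) ↔ a ≠ 0) → Un A → (∀ j : ℕ, j ≤ r → ((j : K))⁻¹ ∈ A) →
  (∀ j c a, R j c a ∈ A) → Ok τ A D l0 → Ok τ A D l → Ok τ A D l' →
  (∀ o ∈ out, o.1 ∈ l ∧ o.2 ∈ l) → (∀ a i, Has N l' (fun y => J y a i) e) →
  (∀ j i, Has n l0 (fun x => Y j x i) 1) → 2 * (r * e) ≤ D → e ≤ D → 1 ≤ D →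
  30 ≤ X → N ≤ X → r + 1 ≤ X → m ≤ X → k ≤ X → l0.length ≤ X → l.length ≤ X → l'.length ≤ X →
  ∃ (lh : List (Node K)) (outh : List (Node K × Node K)) (W : (Fin n → K) → Fin N → K),
    Ok τ A D lh ∧ lh.length ≤ X ^ 7 ∧ outh.length = out.length ∧
    (∀ o ∈ outh, o.1 ∈ lh ∧ o.2 ∈ lh) ∧
    (∀ x, outList τ outh (ex x) = outList τ out (ex (W x))) ∧
    ∀ x, (∃ j, (R j * J (Y j x)).det ≠ 0) → ∃ j, (R j * J (Y j x)).det ≠ 0 ∧ W x = Y j x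

def ROWS : Prop := ∀ (K : Type) [Field K] (τ : K → Prop) (A : Set K) (d : ℕ) (l : List (Node K))
  (out : List (Node K × Node K)), Un A → Ok τ A d l → (∀ o ∈ out, o.1 ∈ l ∧ o.2 ∈ l) →
  ∃ (l1 : List (Node K)) (m : ℕ) (g : Fin m → Node K), Ext τ A d (2 * out.length + 2) l l1 ∧
    m ≤ 2 * out.length ∧ (∀ a, g a ∈ l1) ∧
    (∀ z z', (∀ a, (g a).val z = (g a).val z') → outList τ out z = outList τ out z') ∧
    (∀ z a, (g a).val z ∈ outList τ out z ∨ (g a).val z = 0 ∨ (g a).val z = 1) ∧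
    ∀ z, ∀ v ∈ outList τ out z, ∃ a, (g a).val z = v

/-- gates for the coordinates of the points -/
def AFF : Prop := ∀ (K : Type) [Field K] (τ : K → Prop) (A : Set K) (n M m k D : ℕ)
  (θ : Fin k → Par n M m → K), Un A → (∀ j s, θ j s ∈ A) → 1 ≤ D →
  ∃ l0, Ok τ A D l0 ∧ l0.length ≤ 10 * (k + 1) * (M + (n + 1)) ^ 2 ∧
    ∀ j i, Has n l0 (fun x => gP (θ j) x i) 1

/-- replace every constant by a circuit over `S` -/
def ELIMC : Prop := ∀ (K : Type) [Field K] (τ : K → Prop) (A S : Set K) (s : ℕ)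
  (l : List (Node K)), Built τ A l →
  (∀ c ∈ A, ∃ lc, Built τ S lc ∧ lc.length ≤ s ∧ (⟨fun _ => c, 0, 0⟩ : Node K) ∈ lc) →
  ∃ l', Built τ S l' ∧ (∀ a ∈ l, a ∈ l') ∧ l'.length ≤ l.length * (s + 1)

def POWC : Prop := ∀ (K : Type) [Field K] (τ : K → Prop) (S : Set K) (c : K) (t : ℕ),
  Un S → c ∈ S → ∀ a : K, (a ∈ S ∨ (∃ k : ℕ, k ≤ t ∧ a = ((k : K))⁻¹) ∨ ∃ k < 2 ^ t, a = c ^ k) →
  ∃ lc, Built τ S lc ∧ lc.length ≤ 2 * t + 4 ∧ (⟨fun _ => a, 0, 0⟩ : Node K) ∈ lc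

/-- uses FROMDEG -/
def SRED : Prop := ∀ (L : Set (List ℝ)) (xy xn : List ℝ), xy ∈ L → xn ∉ L →
  ∃ F, Poly (fun a => 0 < a) F ∧ ∀ y, y ∈ SL L ↔ F y ∈ L

def PT : Prop := ∀ (L : Set (List ℝ)) (n M : ℕ) (w : Fin M → ℝ) (x : Fin n → ℝ) (t : ℝ),
  (Nat.unpair (M + (n + 1))).1 = n →
  (List.ofFn (pt w x t) ∈ SL L ↔ (0 < t ∧ List.ofFn x ∈ L) ∨ (t < 0 ∧ ∀ i, 0 < w i))

/-! ### effective elimination -/

def TRANS : Prop := ∀ S : Finset ℝ, ∃ (K0 : Subfield ℝ) (c : ℝ), (S : Set ℝ) ⊆ (K0 : Set ℝ) ∧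
  Transcendental K0 c

def GEN1 : Prop := ∀ (F A σ : Type) [Field F] [CommRing A] [Nontrivial A] [Algebra F A]
  (φ : σ → Polynomial A) (p : σ → ℕ) (D d : ℕ), d < D → Function.Injective p →
  (∀ s, (φ s).Monic ∧ (φ s).natDegree = D ^ p s) →
  ∀ T : MvPolynomial σ F, T.totalDegree ≤ d → aeval φ T = 0 → T = 0

/-- uses GEN1 -/
def KRON : Prop := ∀ (K : Type) [Field K] (K0 : Subfield K) (c : K), Transcendental K0 c →
  ∀ (V : Type) [Fintype V] (B : ℕ), ∃ p : V → ℕ, (∀ v, p v < Fintype.card V) ∧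
    Gen K0 B fun v => c ^ (B + 1) ^ p v

/-- counting: a relation among the `G k` with coefficients in the `V`-variables -/
def PERRON : Prop := ∀ (F V U κ : Type) [Field F] [Fintype V] [Fintype U] [Fintype κ] (e w : ℕ)
  (G : κ → MvPolynomial (V ⊕ U) F), Fintype.card U < Fintype.card κ →
  Fintype.card V + Fintype.card κ ≤ w → 1 ≤ e → (∀ k, (G k).totalDegree ≤ e) →
  ∃ Ψ : MvPolynomial κ (MvPolynomial V F), Ψ ≠ 0 ∧ (∀ b, (coeff b Ψ).totalDegree ≤ eb e w) ∧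
    eval₂ (rename (Sum.inl : V → V ⊕ U)).toRingHom G Ψ = 0

/-- lowest order term -/
def LOW : Prop := ∀ (K : Type) [Field K] (K0 : Subfield K) (V U κ : Type) [Fintype V] [Fintype U]
  [Fintype κ] [DecidableEq κ] (G : κ → MvPolynomial (V ⊕ U) K0) (p : V ⊕ U → K)
  (a : κ → V ⊕ U → K) (Ψ : MvPolynomial κ (MvPolynomial V K0)), Ψ ≠ 0 →
  eval₂ (rename (Sum.inl : V → V ⊕ U)).toRingHom G Ψ = 0 → (∀ i, aeval p (G i) = 0) →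
  (∀ i k, dd p (a k) (G i) = if i = k then 1 else 0) →
  ∃ b, coeff b Ψ ≠ 0 ∧ aeval (fun v => p (Sum.inl v)) (coeff b Ψ) = 0

def KER : Prop := ∀ (F σ : Type) [Field F] (m e r : ℕ)
  (J : Matrix (Fin m) (Fin r) (MvPolynomial σ F)), (∀ a i, (J a i).totalDegree ≤ e) →
  (∀ s : Fin r → Fin m, (J.submatrix s id).det = 0) →
  ∃ v : Fin r → MvPolynomial σ F, v ≠ 0 ∧ (∀ i, (v i).totalDegree ≤ r * e) ∧ J.mulVec v = 0

/-- uses PERRON, LOW, KER (row selection) -/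
def ELIM : Prop := ∀ (K : Type) [Field K] (K0 : Subfield K) (V U : Type) [Fintype V] [Fintype U]
  (m k e w : ℕ) (H : Fin m → MvPolynomial (V ⊕ U) K0) (p : V ⊕ U → K) (a : Fin k → V ⊕ U → K),
  Fintype.card U < k → Fintype.card V + k ≤ w → 1 ≤ e → (∀ i, (H i).totalDegree ≤ e) →
  (∀ i, aeval p (H i) = 0) → (∀ z : Fin k → K, (∀ i, ∑ j, dd p (a j) (H i) * z j = 0) → z = 0) →
  ¬ Gen K0 (eb e w) fun v => p (Sum.inl v)

def DER : Prop := ∀ (K : Type) [Field K] [CharZero K] (K0 : Subfield K) (σ : Type) (n : ℕ)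
  (θ : σ → K) (x : Fin n → K) (T : MvPolynomial (σ ⊕ Fin n) K0), aeval (Sum.elim θ x) T = 0 →
  aeval (Sum.elim (fun s => (X s : MvPolynomial σ K)) fun t => C (x t)) T ≠ 0 →
  ∃ T' : MvPolynomial (σ ⊕ Fin n) K0, T'.totalDegree ≤ T.totalDegree ∧
    aeval (Sum.elim θ x) T' = 0 ∧ ∃ s, aeval (Sum.elim θ x) (pderiv (Sum.inl s) T') ≠ 0

/-- uses DER, ELIM -/
def COMPL : Prop := ∀ (K : Type) [Field K] [CharZero K] (K0 : Subfield K) (σ : Type) [Fintype σ]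
  (n e w : ℕ) (Θ : Fin (n + 1) × σ → K), Gen K0 (eb e w) Θ → 1 ≤ e →
  Fintype.card (Fin (n + 1) × σ) + (n + 1) ≤ w →
  ∀ x : Fin n → K, ∃ j, BGen K0 e (fun s => Θ (j, s)) x

/-- uses ELIM -/
def COLL : Prop := ∀ (K : Type) [Field K] (K0 : Subfield K) (V U ι : Type) [Fintype V] [Fintype U]
  [Fintype ι] (N r m k d e w : ℕ) (col : Fin r → Fin N) (p : V ⊕ U → K)
  (yh : Fin N → MvPolynomial (V ⊕ U) K0) (yh' : ι → MvPolynomial (V ⊕ U) K0)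
  (P Q : Fin m → MvPolynomial (Fin N) K0) (P' Q' : Fin m → MvPolynomial ι K0)
  (ik : Fin k → Fin r) (a : Fin k → V ⊕ U → K),
  Fintype.card U < k → Fintype.card V + k ≤ w → 1 ≤ e → 4 * d ≤ e → Function.Injective ik →
  (∀ i, (yh i).totalDegree ≤ 2) → (∀ i, (yh' i).totalDegree ≤ 2) →
  (∀ b, (P b).totalDegree ≤ d ∧ (Q b).totalDegree ≤ d ∧ (P' b).totalDegree ≤ d ∧
    (Q' b).totalDegree ≤ d) →
  (∀ b, aeval (fun i => aeval p (yh i)) (Q b) ≠ 0 ∧ aeval (fun i => aeval p (yh' i)) (Q' b) ≠ 0 ∧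
    aeval (fun i => aeval p (yh i)) (P b) / aeval (fun i => aeval p (yh i)) (Q b) =
      aeval (fun i => aeval p (yh' i)) (P' b) / aeval (fun i => aeval p (yh' i)) (Q' b)) →
  (∀ z : Fin r → K, ((jac col P Q).map (aeval fun i => aeval p (yh i))).mulVec z = 0 → z = 0) →
  (∀ j i, dd p (a j) (yh i) = if i = col (ik j) then 1 else 0) →
  (∀ j i, dd p (a j) (yh' i) = 0) → ¬ Gen K0 (eb e w) fun v => p (Sum.inl v)

/-- common hypotheses of the three uses of COLL; `y'` is the second point -/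
def Hyp {K : Type} [Field K] (K0 : Subfield K) {n M m N' : ℕ} (d e w : ℕ)
    (Θ : Fin (n + 1) × Par n M m → K) (j : Fin (n + 1)) (x : Fin n → K) (y' : Fin N' → K)
    (P Q : Fin m → MvPolynomial (Fin (M + (n + 1))) K0)
    (P' Q' : Fin m → MvPolynomial (Fin N') K0) : Prop :=
  Gen K0 (eb e w) Θ ∧ Fintype.card (Fin (n + 1) × Par n M m) + M ≤ w ∧ 1 ≤ e ∧ 4 * d ≤ e ∧
  (∀ b, (P b).totalDegree ≤ d ∧ (Q b).totalDegree ≤ d ∧ (P' b).totalDegree ≤ d ∧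
    (Q' b).totalDegree ≤ d) ∧
  (∀ b, aeval (gP (fun s => Θ (j, s)) x) (Q b) ≠ 0 ∧ aeval y' (Q' b) ≠ 0 ∧
    aeval (gP (fun s => Θ (j, s)) x) (P b) / aeval (gP (fun s => Θ (j, s)) x) (Q b) =
      aeval y' (P' b) / aeval y' (Q' b)) ∧
  ∀ z : Fin M → K, (jw P Q (gP (fun s => Θ (j, s)) x)).mulVec z = 0 → z = 0

/-- uses COLL: the second point is an unknown -/
def OUTER : Prop := ∀ (K : Type) [Field K] (K0 : Subfield K) (n M m N' d e w : ℕ)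
  (Θ : Fin (n + 1) × Par n M m → K) (j : Fin (n + 1)) (x : Fin n → K) (y' : Fin N' → K)
  (P Q : Fin m → MvPolynomial (Fin (M + (n + 1))) K0) (P' Q' : Fin m → MvPolynomial (Fin N') K0),
  Hyp K0 d e w Θ j x y' P Q P' Q' → M ≤ n + N'

/-- uses COLL: two blocks, or one block and two inputs -/
def SAME : Prop := ∀ (K : Type) [Field K] (K0 : Subfield K) (n M m d e w : ℕ)
  (Θ : Fin (n + 1) × Par n M m → K) (j j' : Fin (n + 1)) (x x' : Fin n → K)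
  (P Q P' Q' : Fin m → MvPolynomial (Fin (M + (n + 1))) K0), 2 * n < M →
  Hyp K0 d e w Θ j x (gP (fun s => Θ (j', s)) x') P Q P' Q' → x = x'

/-! ### genericity and the orthant lemma -/

def NZ : Prop := ∀ (K : Type) [Field K] (K0 : Subfield K) (n M m e : ℕ) (θ : Par n M m → K)
  (x : Fin n → K), BGen K0 e θ x →
  ∀ T : MvPolynomial (Fin (M + (n + 1)) ⊕ Par n M m) K0, 2 * T.totalDegree ≤ e →
    aeval (Sum.elim (gP θ x) θ) T = 0 → ∀ θ' : Par n M m → K, aeval (Sum.elim (gP θ' x) θ') T = 0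

/-- a polynomial vanishing at all `(w, x, t ^ 2)` vanishes on the slice -/
def SQ : Prop := ∀ (K0 : Subfield ℝ) (n M : ℕ) (x : Fin n → ℝ)
  (T : MvPolynomial (Fin (M + (n + 1))) K0), (∀ w t, aeval (pt w x (t ^ 2)) T = 0) →
  ∀ w t, aeval (pt w x t) T = 0

/-- uses NZ, SQ -/
def ADM : Prop := ∀ (K0 : Subfield ℝ) (n M m d e : ℕ) (θ : Par n M m → ℝ) (x : Fin n → ℝ),
  BGen K0 e θ x → 2 * d ≤ e → Adm K0 d (gP θ x) (ZF M x)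

/-- uses NZ, SQ -/
def MINOR : Prop := ∀ (K0 : Subfield ℝ) (n M m d e : ℕ) (θ : Par n M m → ℝ) (x : Fin n → ℝ)
  (P Q : Fin m → MvPolynomial (Fin (M + (n + 1))) K0), BGen K0 e θ x →
  2 * (M * (2 * d + 1)) ≤ e → (∀ a, (P a).totalDegree ≤ d ∧ (Q a).totalDegree ≤ d) →
  (Rm θ * jw P Q (gP θ x)).det = 0 →
  ∀ (s : Fin M → Fin m) w t, ((jw P Q (pt w x t)).submatrix s id).det = 0

def LAM : Prop := ∀ M : ℕ, ∃ lam : Fr M → Fin M → ℤ, IsLam lam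

def CST : Prop := ∀ (M : ℕ) (v : Fin M → Rg M), ∃ E : IntermediateField ℝ (Fr M),
  ∀ P Q : Rg M, Q ≠ 0 → (fr P Q ∈ E ↔ dv v P Q = 0)

def PERP : Prop := ∀ (M : ℕ) (v : Fin M → Rg M), v ≠ 0 → ∃ μ : Fin M → ℝ, μ ≠ 0 ∧
  ∀ P Q : Rg M, P ≠ 0 → Q ≠ 0 → dv v P Q = 0 → ∑ j, ((dg P - dg Q) j : ℝ) * μ j = 0

def INT : Prop := ∀ (M : ℕ) (μ : Fin M → ℝ), μ ≠ 0 → ∃ s : Fin M → ℝ,
  (∀ j, s j = 1 ∨ s j = -1) ∧ (∃ j, s j = -1) ∧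
  ∀ a : Fin M → ℤ, ∑ j, (a j : ℝ) * μ j = 0 → ∏ j, s j ^ a j = 1

def BASIS : Prop := ∀ (M : ℕ) (lam : Fr M → Fin M → ℤ), IsLam lam →
  ∀ E : IntermediateField ℝ (Fr M), ∃ (k : ℕ) (G : Fin k → Fr M), (∀ i, G i ∈ E ∧ G i ≠ 0) ∧
    LinearIndependent ℝ (fun i j => (lam (G i) j : ℝ)) ∧ AlgebraicIndependent ℝ G ∧
    ∀ ξ ∈ E, ∃ q : Polynomial (MvPolynomial (Fin k) ℝ), q ≠ 0 ∧
      Polynomial.eval₂ (aeval G : MvPolynomial (Fin k) ℝ →ₐ[ℝ] Fr M).toRingHom ξ q = 0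

def ASYM : Prop := ∀ (M : ℕ) (ι : Type) [Fintype ι] (P : ι → Rg M), (∀ i, P i ≠ 0) →
  ∃ (ω : Fin M → ℕ) (T : ι → MvPolynomial (Option (Fin M)) ℝ) (c : ι → ℝ), ∀ i, c i ≠ 0 ∧
    (∀ (ε : ℝ) (b : Fin M → ℝ), ε ≠ 0 →
      eval (fun j => b j / ε ^ ω j) (P i) * ε ^ (∑ j, ω j * dn (P i) j) =
        eval (fun o => Option.elim o ε b) (T i)) ∧
    ∀ b : Fin M → ℝ, eval (fun o => Option.elim o 0 b) (T i) = c i * ∏ j, b j ^ dn (P i) j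

def MATCH : Prop := ∀ (M k : ℕ) (T U : Fin k → MvPolynomial (Option (Fin M)) ℝ)
  (c c' : Fin k → ℝ) (β γ : Fin k → Fin M → ℕ) (s : Fin M → ℝ),
  (∀ i, c i ≠ 0 ∧ c' i ≠ 0) →
  (∀ i (b : Fin M → ℝ), eval (fun o => Option.elim o 0 b) (T i) = c i * ∏ j, b j ^ β i j ∧
    eval (fun o => Option.elim o 0 b) (U i) = c' i * ∏ j, b j ^ γ i j) →
  LinearIndependent ℝ (fun i j => ((β i j : ℝ) - (γ i j : ℝ))) → (∀ j, s j ≠ 0) →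
  (∀ i, ∏ j, s j ^ β i j = ∏ j, s j ^ γ i j) →
  ∀ O ∈ 𝓝 ((0 : ℝ), fun _ : Fin M => (1 : ℝ)), ∃ p ∈ O, 0 < p.1 ∧ ∀ i,
    eval (fun o => Option.elim o p.1 p.2) (T i) / eval (fun o => Option.elim o p.1 p.2) (U i) =
      eval (fun o => Option.elim o p.1 s) (T i) / eval (fun o => Option.elim o p.1 s) (U i)

/-- uses ASYM, MATCH -/
def DEEP : Prop := ∀ (M k : ℕ) (ι : Type) [Fintype ι] (Pg Qg : Fin k → Rg M) (Px Qx : ι → Rg M)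
  (D : Rg M) (s : Fin M → ℝ), D ≠ 0 → (∀ i, Pg i ≠ 0 ∧ Qg i ≠ 0) → (∀ i, Px i ≠ 0 ∧ Qx i ≠ 0) →
  LinearIndependent ℝ (fun i j => ((dg (Pg i) - dg (Qg i)) j : ℝ)) → (∀ j, s j = 1 ∨ s j = -1) →
  (∀ i, ∏ j, s j ^ (dg (Pg i) - dg (Qg i)) j = 1) →
  (∀ i, ∏ j, s j ^ (dg (Px i) - dg (Qx i)) j = 1) →
  ∃ w w' : Fin M → ℝ, (∀ j, 0 < w j) ∧ (∀ j, 0 < s j * w' j) ∧ eval w D ≠ 0 ∧ eval w' D ≠ 0 ∧
    (∀ i, eval w (Qg i) ≠ 0 ∧ eval w' (Qg i) ≠ 0 ∧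
      eval w (Pg i) / eval w (Qg i) = eval w' (Pg i) / eval w' (Qg i)) ∧
    ∀ i, eval w (Qx i) ≠ 0 ∧ eval w' (Qx i) ≠ 0 ∧
      0 < (eval w (Px i) / eval w (Qx i)) * (eval w' (Px i) / eval w' (Qx i))

def THOM : Prop := ∀ (p : Polynomial ℝ) (x y : ℝ), p ≠ 0 → p.eval x = 0 →
  (∀ r : ℕ, SignType.sign ((Polynomial.derivative^[r] p).eval x) =
    SignType.sign ((Polynomial.derivative^[r] p).eval y)) → x = y

def VAL : Prop := ∀ (M : ℕ) (w : Fin M → ℝ),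
  (∀ ξ r r', Val w ξ r → Val w ξ r' → r = r') ∧ Val w 0 0 ∧
  ∀ (k : ℕ) (G : Fin k → Fr M) (g : Fin k → ℝ), (∀ i, Val w (G i) (g i)) →
    (∀ T : MvPolynomial (Fin k) ℝ, Val w (aeval G T) (eval g T)) ∧
    ∀ (ξ : Fr M) (r : ℝ) (q : Polynomial (MvPolynomial (Fin k) ℝ)), Val w ξ r →
      Val w (Polynomial.eval₂ (aeval G : MvPolynomial (Fin k) ℝ →ₐ[ℝ] Fr M).toRingHom ξ q)
        ((q.map (eval g)).eval r)

/-- uses LAM, CST, PERP, INT, BASIS, DEEP, THOM, VAL -/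
def ORTH : Prop := ∀ (M m : ℕ) (P Q : Fin m → Rg M) (D : Rg M) (v : Fin M → Rg M), D ≠ 0 →
  (∀ w, eval w D ≠ 0 → ∀ a, eval w (Q a) ≠ 0) → v ≠ 0 → (∀ a, dv v (P a) (Q a) = 0) →
  ∃ w w' : Fin M → ℝ, eval w D ≠ 0 ∧ eval w' D ≠ 0 ∧ (∀ i, 0 < w i) ∧ ¬ (∀ i, 0 < w' i) ∧
    ∀ a, eval w (P a) / eval w (Q a) = eval w' (P a) / eval w' (Q a)

/-- uses PT, ADM, MINOR, KER, ORTH -/
def GOOD : Prop := ∀ (K0 : Subfield ℝ) (n M m d e : ℕ) (θ : Par n M m → ℝ) (x : Fin n → ℝ)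
  (L B : Set (List ℝ)) (f : List ℝ → List ℝ) (G : Fin m → (Fin (M + (n + 1)) → ℝ) → ℝ)
  (P Q : (Fin (M + (n + 1)) → ℝ) → Fin m → MvPolynomial (Fin (M + (n + 1))) K0),
  BGen K0 e θ x → 2 * (M * (2 * d + 1)) ≤ e → 1 ≤ M → (Nat.unpair (M + (n + 1))).1 = n →
  IsLoc K0 d G P Q → (∀ y, y ∈ SL L ↔ f y ∈ B) →
  (∀ y y', (∀ a, G a y = G a y') → f (List.ofFn y) = f (List.ofFn y')) →
  (Rm θ * jw (P (gP θ x)) (Q (gP θ x)) (gP θ x)).det ≠ 0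

/-! ### arithmetic -/

def NUM1 : Prop := ∀ c : ℕ, ∃ (M : ℕ → ℕ) (c1 : ℕ), ∀ n : ℕ,
  (Nat.unpair (M n + (n + 1))).1 = n ∧ 2 * n < M n ∧
  (∀ n' < n, n + (M n' + (n' + 1)) < M n) ∧ 30 ≤ (n + 2) ^ c1 ∧
  10 * (n + 1 + 1) * (M n + (n + 1)) ^ 2 ≤ (n + 2) ^ c1 ∧
  21 * (M n + (n + 1) + 1) * (5 * (M n + (n + 1) + 2) ^ c + 2) ≤ (n + 2) ^ c1

def NUM2 : Prop := ∀ X n M m q : ℕ, 30 ≤ X → M + (n + 1) ≤ X → m ≤ X → q ≤ X →
  (eb (2 * (M * (2 * 2 ^ q + 1))) (Fintype.card (Fin (n + 1) × Par n M m) + M) + 1) ^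
    Fintype.card (Fin (n + 1) × Par n M m) < 2 ^ X ^ 9

def MAIN : Prop := ∀ (L B : Set (List ℝ)) (f : List ℝ → List ℝ), Poly (fun a => a ≠ 0) f →
  (∀ y, y ∈ SL L ↔ f y ∈ B) →
  ∃ h, Poly (fun a => a ≠ 0) h ∧ Function.Injective h ∧ (∀ x, x.length < (h x).length) ∧
    ∀ x, x ∈ L ↔ h x ∈ B

end Pool.Agent.MP_8a92de_lc.E43
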