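import Pool.Agent.MP_8a92de_lc.E43.A
import Pool.Agent.MP_8a92de_lc.E43.B
import Pool.Agent.MP_8a92de_lc.E43.C

section Row_main
namespace Pool.Agent.MP_8a92de_lc.E43

open MvPolynomial Filter Topology

theorem main (h1 : TODEG) (h2 : FROMDEG) (h3 : ROWS) (h4 : LOC) (h5 : FIN) (h6 : AFF) (h7 : ELIMC)
    (h8 : POWC) (h9 : PT) (h10 : TRANS) (h11 : KRON) (h12 : COMPL) (h13 : OUTER) (h14 : SAME)
    (h15 : GOOD) (h16 : NUM1) (h17 : NUM2) : MAIN := by
  classical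
  intro L B f hf hr
  obtain ⟨S, c, hc⟩ := h1 _ f hf
  choose l out hok hl ho hm hv using hc
  obtain ⟨S', hS', hU⟩ : ∃ S' : Finset ℝ, (S : Set ℝ) ⊆ S' ∧ Un (S' : Set ℝ) :=
    ⟨insert 0 (insert 1 (insert (-1) S)), fun a ha => by simp [Finset.mem_coe.1 ha],
      by simp, by simp, by simp⟩
  obtain ⟨d, hd⟩ : ∃ d : ℕ → ℕ, ∀ N, d N = 2 ^ (N + 2) ^ c := ⟨_, fun _ => rfl⟩
  have d1 : ∀ N, 1 ≤ d N := fun N => by rw [hd]; exact Nat.one_le_two_pow
  have dm : ∀ N N', N' ≤ N → d N' ≤ d N := fun N N' h => by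
    rw [hd, hd]
    exact Nat.pow_le_pow_right (by norm_num) (Nat.pow_le_pow_left (by omega) _)
  have ok : ∀ N, Ok (fun a : ℝ => a ≠ 0) S' (d N) (l N) := fun N => by
    rw [hd]; exact (hok N).monoA hS'
  choose l1 m g hE hm2 hg hα hβ hγ using fun N =>
    h3 ℝ _ S' (d N) (l N) (out N) hU (ok N) (hm N)
  obtain ⟨K0, t, hK0, ht⟩ := h10 S'
  have t0 : t ≠ 0 := fun h => ht (h ▸ isAlgebraic_zero)
  obtain ⟨M, c1, hnum⟩ := h16 c
  choose P Q hloc l' hok' hl' hJ using fun n => h4 ℝ (fun a : ℝ => a ≠ 0) S' K0 (M n + (n + 1))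
    (M n) (m (M n + (n + 1))) (d (M n + (n + 1))) (Fin.castAdd (n + 1)) (l1 _) (g _)
    (fun _ => Iff.rfl) hU hK0 (Nat.le_add_right _ _) (hE _).1 (hg _)
  obtain ⟨e, he⟩ : ∃ e : ℕ → ℕ, ∀ n, e n = 2 * (M n * (2 * d (M n + (n + 1)) + 1)) :=
    ⟨_, fun _ => rfl⟩
  obtain ⟨w, hw⟩ : ∃ w : ℕ → ℕ, ∀ n,
      w n = Fintype.card (Fin (n + 1) × Par n (M n) (m (M n + (n + 1)))) + M n :=
    ⟨_, fun _ => rfl⟩
  choose p hp hΘ using fun n =>
    h11 ℝ K0 t ht (Fin (n + 1) × Par n (M n) (m (M n + (n + 1)))) (eb (e n) (w n))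
  obtain ⟨Θ, hΘe⟩ : ∃ Θ : ∀ n, Fin (n + 1) × Par n (M n) (m (M n + (n + 1))) → ℝ,
      ∀ n, Θ n = fun v => t ^ (eb (e n) (w n) + 1) ^ p n v := ⟨_, fun _ => rfl⟩
  have hG : ∀ n, Gen K0 (eb (e n) (w n)) (Θ n) := fun n => by rw [hΘe]; exact hΘ n
  have hM : ∀ n, n + 1 ≤ M n := fun n => by have := (hnum n).2.1; omega
  have e4 : ∀ n, 4 * d (M n + (n + 1)) ≤ e n ∧ 1 ≤ e n := fun n => by
    have := hM n
    have := d1 (M n + (n + 1))
    rw [he]
    constructor <;> nlinarith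
  have hq : ∀ n, 2 * (M n + (n + 1) + 2) ^ c ≤ (n + 2) ^ c1 ∧
      M n + (n + 1) ≤ (n + 2) ^ c1 := fun n => by
    have := (hnum n).2.2.2.2.2
    constructor <;> nlinarith [Nat.zero_le (M n + (n + 1)), Nat.zero_le ((M n + (n + 1) + 2) ^ c)]
  obtain ⟨A, hA⟩ : ∃ A : ℕ → Set ℝ, ∀ n a, a ∈ A n ↔ (a ∈ ((insert t S' : Finset ℝ) : Set ℝ) ∨
      (∃ k : ℕ, k ≤ ((n + 2) ^ c1) ^ 9 ∧ a = ((k : ℝ))⁻¹) ∨
        ∃ k < 2 ^ ((n + 2) ^ c1) ^ 9, a = t ^ k) := ⟨fun n => {a | _}, fun _ _ => Iff.rfl⟩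
  have hSA : ∀ n, (S' : Set ℝ) ⊆ A n := fun n a ha =>
    (hA n a).2 (Or.inl (by simp [Finset.mem_coe.1 ha]))
  have hUA : ∀ n, Un (A n) := fun n => ⟨hSA n hU.1, hSA n hU.2.1, hSA n hU.2.2⟩
  have hmX : ∀ n, m (M n + (n + 1)) ≤ (n + 2) ^ c1 := fun n => by
    have := hm2 (M n + (n + 1))
    have := ho (M n + (n + 1))
    have := (hq n).1
    omega
  have hΘA : ∀ n v, Θ n v ∈ A n := fun n v => by
    refine (hA n _).2 (Or.inr (Or.inr ⟨(eb (e n) (w n) + 1) ^ p n v, ?_, by rw [hΘe]⟩))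
    refine lt_of_le_of_lt (Nat.pow_le_pow_right (Nat.succ_pos _) (hp n v).le) ?_
    rw [he, hw, hd]
    exact h17 _ n (M n) _ _ (hnum n).2.2.2.1 (hq n).2 (hmX n) (by have := (hq n).1; omega)
  obtain ⟨D, hD⟩ : ∃ D : ℕ → ℕ, ∀ n, D n =
      2 * (M n * (2 * d (M n + (n + 1)))) + 2 * d (M n + (n + 1)) + 1 := ⟨_, fun _ => rfl⟩
  choose l0 hok0 hl0 hY using fun n => h6 ℝ (fun a : ℝ => a ≠ 0) (A n) n (M n)
    (m (M n + (n + 1))) (n + 1) (D n) (fun j s => Θ n (j, s)) (hUA n) (fun j s => hΘA n _)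
    (by rw [hD]; omega)
  have hfin := fun n => h5 ℝ (fun a : ℝ => a ≠ 0) (A n) n (M n + (n + 1)) (M n)
    (m (M n + (n + 1))) (n + 1) ((n + 2) ^ c1) (D n) (2 * d (M n + (n + 1))) (l0 n)
    (l (M n + (n + 1))) (l' n) (out (M n + (n + 1)))
    (fun y => jw (P n y) (Q n y) y) (fun j => Rm fun s => Θ n (j, s))
    (fun j x => gP (fun s => Θ n (j, s)) x) (fun a => by simp) (hUA n)
    (fun j hj => (hA n _).2 (Or.inr (Or.inl ⟨j, by
      have := (hq n).2
      have : (n + 2) ^ c1 ≤ ((n + 2) ^ c1) ^ 9 := Nat.le_self_pow (by norm_num) _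
      omega, rfl⟩)))
    (fun j _ _ => hΘA n _) (hok0 n)
    (((ok _).monoA (hSA n)).mono (by rw [hD]; omega))
    (((hok' n).monoA (hSA n)).mono (by rw [hD]; omega)) (hm _) (hJ n) (hY n)
    (by rw [hD]; omega) (by rw [hD]; omega) (by rw [hD]; omega) (hnum n).2.2.2.1 (hq n).2
    (by have := (hq n).2; omega) (hmX n) (by have := (hq n).2; omega)
    ((hl0 n).trans (hnum n).2.2.2.2.1)
    (by have := hl (M n + (n + 1)); have := (hq n).1; omega)
    (by
      refine (hl' n).trans (le_trans (Nat.mul_le_mul_left _ ?_) (hnum n).2.2.2.2.2)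
      have := (hE (M n + (n + 1))).2.2
      have := hl (M n + (n + 1))
      have := hm2 (M n + (n + 1))
      have := ho (M n + (n + 1))
      omega)
  choose lh outh W hokh hlh hoh hmh hvh hW using hfin
  have key : ∀ n (x : Fin n → ℝ), ∃ j : Fin (n + 1), W n x = gP (fun s => Θ n (j, s)) x ∧
      ∀ z, (jw (P n (W n x)) (Q n (W n x)) (W n x)).mulVec z = 0 → z = 0 := by
    intro n x
    obtain ⟨j0, hj0⟩ := h12 ℝ K0 _ n (e n) (w n) (Θ n) (hG n) (e4 n).2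
      (by rw [hw]; have := hM n; omega) x
    have hgood := h15 K0 n (M n) _ _ (e n) _ x L B f _ _ _ hj0 (he n).ge
      (by have := hM n; omega) (hnum n).1 (hloc n) hr (fun y y' hy => by
        rw [hv, hv]
        exact hα _ _ _ hy)
    obtain ⟨j, hj, hWj⟩ := hW n x ⟨j0, hgood⟩
    refine ⟨j, hWj, fun z hz => ?_⟩
    rw [hWj] at hz
    refine Matrix.eq_zero_of_mulVec_eq_zero hj ?_
    rw [← Matrix.mulVec_mulVec, hz, Matrix.mulVec_zero]
  choose j hj hinj using key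
  have build : ∀ n (x : Fin n → ℝ) (N' : ℕ) (y' : Fin N' → ℝ),
      (∀ v ∈ f (List.ofFn (W n x)), ∃ P' Q' : MvPolynomial (Fin N') K0,
        P'.totalDegree ≤ d (M n + (n + 1)) ∧ Q'.totalDegree ≤ d (M n + (n + 1)) ∧
        aeval y' Q' ≠ 0 ∧ v = aeval y' P' / aeval y' Q') →
      ∃ P' Q', Hyp K0 (d (M n + (n + 1))) (e n) (w n) (Θ n) (j n x) x y'
        (P n (W n x)) (Q n (W n x)) P' Q' := by
    intro n x N' y' hu
    have : ∀ a, ∃ P' Q' : MvPolynomial (Fin N') K0,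
        P'.totalDegree ≤ d (M n + (n + 1)) ∧ Q'.totalDegree ≤ d (M n + (n + 1)) ∧
        aeval y' Q' ≠ 0 ∧ (g _ a).val (ex (W n x)) = aeval y' P' / aeval y' Q' := fun a => by
      rcases hβ (M n + (n + 1)) (ex (W n x)) a with h | h | h
      · exact hu _ (by rw [hv]; exact h)
      · exact ⟨0, 1, by simp, by simp, by simp, by simp [h]⟩
      · exact ⟨1, 1, by simp, by simp, by simp, by simp [h]⟩
    choose P' Q' q1 q2 q3 q4 using this
    refine ⟨P', Q', hG n, (hw n).ge, (e4 n).2, (e4 n).1,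
      fun b => ⟨(hloc n).degP _ b, (hloc n).degQ _ b, q1 b, q2 b⟩, fun b => ?_, fun z hz => ?_⟩
    · rw [← hj]
      exact ⟨(hloc n).neQ _ b, q3 b, ((hloc n).val _ b).symm.trans (q4 b)⟩
    · rw [← hj] at hz
      exact hinj n x z hz
  have other : ∀ n (x : Fin n → ℝ) n' (x' : Fin n' → ℝ), M n' + (n' + 1) ≤ M n + (n + 1) →
      f (List.ofFn (W n x)) = f (List.ofFn (W n' x')) →
      ∃ P' Q', Hyp K0 (d (M n + (n + 1))) (e n) (w n) (Θ n) (j n x) x (W n' x')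
        (P n (W n x)) (Q n (W n x)) P' Q' := by
    intro n x n' x' hN hx
    refine build n x _ _ fun v hu => ?_
    rw [hx, hv] at hu
    obtain ⟨a, ha⟩ := hγ _ _ v hu
    exact ⟨_, _, ((hloc n').degP _ a).trans (dm _ _ hN), ((hloc n').degQ _ a).trans (dm _ _ hN),
      (hloc n').neQ _ a, ha.symm.trans ((hloc n').val _ a)⟩
  have lt : ∀ n (x : Fin n → ℝ) n' (x' : Fin n' → ℝ), n' < n →
      f (List.ofFn (W n x)) ≠ f (List.ofFn (W n' x')) := by
    intro n x n' x' hn hx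
    have := (hnum n).2.2.1 n' hn
    obtain ⟨P', Q', H⟩ := other n x n' x' (by omega) hx
    have := h13 ℝ K0 _ _ _ _ _ _ _ _ _ _ _ _ _ _ _ H
    omega
  have inj : ∀ n (x : Fin n → ℝ) n' (x' : Fin n' → ℝ),
      f (List.ofFn (W n x)) = f (List.ofFn (W n' x')) → List.ofFn x = List.ofFn x' := by
    intro n x n' x' hx
    rcases lt_trichotomy n n' with h | rfl | h
    · exact absurd hx.symm (lt _ _ _ _ h)
    · obtain ⟨P', Q', H⟩ := other n x n x' le_rfl hx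
      rw [hj n x'] at H
      rw [h14 ℝ K0 _ _ _ _ _ _ _ _ _ _ _ _ _ _ _ (hnum n).2.1 H]
    · exact absurd hx (lt _ _ _ _ h)
  refine ⟨fun x => f (List.ofFn (W x.length x.get)),
    h2 _ _ (insert t S') (17 * c1) fun n => ?_, fun x x' hx => ?_, fun x => ?_, fun x => ?_⟩
  · have h30 := (hnum n).2.2.2.1
    have e7 : (n + 2) ^ (17 * c1) = ((n + 2) ^ c1) ^ 17 := by rw [mul_comm, pow_mul]
    obtain ⟨l2, b2, s2, n2⟩ := h7 ℝ _ (A n) ((insert t S' : Finset ℝ) : Set ℝ)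
      (2 * ((n + 2) ^ c1) ^ 9 + 4) (lh n) (hokh n).1 fun a ha =>
        h8 ℝ _ _ t _ ⟨by simp [Finset.mem_coe.1 hU.1], by simp [Finset.mem_coe.1 hU.2.1],
          by simp [Finset.mem_coe.1 hU.2.2]⟩ (by simp) a ((hA n a).1 ha)
    refine ⟨l2, outh n, b2, ?_, ?_, fun o h => ⟨s2 _ (hmh n o h).1, s2 _ (hmh n o h).2⟩,
      fun y => ?_⟩
    · rw [e7]
      refine n2.trans ((Nat.mul_le_mul_right _ (hlh n)).trans ?_)
      generalize (n + 2) ^ c1 = X at h30
      have : 1 ≤ X ^ 9 := Nat.one_le_pow _ _ (by omega)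
      calc X ^ 7 * (2 * X ^ 9 + 4 + 1) ≤ X ^ 7 * (X * X ^ 9) :=
            Nat.mul_le_mul_left _ (by nlinarith)
        _ = X ^ 17 := by ring
    · rw [e7, hoh n]
      have := ho (M n + (n + 1))
      have := (hq n).1
      have : (n + 2) ^ c1 ≤ ((n + 2) ^ c1) ^ 17 := Nat.le_self_pow (by norm_num) _
      omega
    · rw [hvh, ← hv]
      have : ∀ (x : List ℝ) (h : x.length = n), x = List.ofFn y →
          List.ofFn (W x.length x.get) = List.ofFn (W n y) := by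
        intro x h hx
        subst h
        rw [List.ofFn_injective ((List.ofFn_get x).trans hx)]
      exact congrArg f (this _ List.length_ofFn rfl)
  · have := inj _ _ _ _ hx
    rwa [List.ofFn_get, List.ofFn_get] at this
  · obtain ⟨P', Q', H⟩ := build x.length x.get _ (f (List.ofFn (W x.length x.get))).get
      fun v hu => by
        obtain ⟨i, hi⟩ := List.get_of_mem hu
        exact ⟨X i, 1, by simpa using d1 _, by simp, by simp, by simp [← hi]⟩
    have := h13 ℝ K0 _ _ _ _ _ _ _ _ _ _ _ _ _ _ _ H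
    have := (hnum x.length).2.1
    show x.length < (f (List.ofFn (W x.length x.get))).length
    omega
  · show _ ↔ f (List.ofFn (W x.length x.get)) ∈ B
    rw [← hr, hj, gP, h9 L _ _ _ _ _ (hnum _).1, List.ofFn_get]
    have : 0 < Θ x.length (j x.length x.get, .inl ()) ^ 2 := by
      rw [hΘe]
      positivity
    constructor
    · exact fun h => Or.inl ⟨this, h⟩
    · rintro (h | h)
      · exact h.2
      · exact absurd h.1 (not_lt.2 this.le)

end Pool.Agent.MP_8a92de_lc.E43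

end Row_main

namespace Pool.Agent.MP_8a92de_lc.E43

theorem elim_all : ELIM := elim perron low ker

theorem main_all : MAIN :=
  main todeg fromdeg rows (loc rep0 repadd repmul repdiv repsel) (finc comp (detc fl) selc) aff
    elimc powc ptl trans (kron gen1) (compl der elim_all) (outer (coll elim_all))
    (same (coll elim_all))
    (good ptl (adm nz sq) (minor nz sq) ker
      (orth lamx cst perp intx basis (deep asym matchx) thom valx)) num1 num2

end Pool.Agent.MP_8a92de_lc.E43
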